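import Pool.Agent.MP_6961e8.Objects

/-!
Module NUM: numerics and lattice facts.  Seat: helper61.
-/

open Filter Topology

namespace Pool.Agent.MP_6961e8

theorem ph_sq : ph ^ 2 = ph + 1 := Real.goldenRatio_sq
theorem ps_sq : ps ^ 2 = ps + 1 := Real.goldenConj_sq
theorem ph_add_ps : ph + ps = 1 := Real.goldenRatio_add_goldenConj
theorem ph_mul_ps : ph * ps = -1 := Real.goldenRatio_mul_goldenConj

theorem ph_bounds : 1.6180339 < ph ∧ ph < 1.618034 := by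
  have h1 : (0 : ℝ) < ph := Real.goldenRatio_pos
  have h2 := ph_sq
  constructor
  · by_contra hcon
    rw [not_lt] at hcon
    nlinarith
  · by_contra hcon
    rw [not_lt] at hcon
    nlinarith

theorem ps_bounds : -0.618034 < ps ∧ ps < -0.6180339 := by
  have h1 := ph_bounds
  have h2 := ph_add_ps
  constructor <;> linarith [h1.1, h1.2]

theorem lam_eq : lam = ph + 1 := ph_sq

theorem lam_inv : 1 / lam = ps ^ 2 := by
  have h := ph_mul_ps
  have h1 : lam * ps ^ 2 = 1 := by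
    unfold lam
    have : ph ^ 2 * ps ^ 2 = (ph * ps) ^ 2 := by ring
    rw [this, h]
    norm_num
  have h2 : lam ≠ 0 := by
    intro h0
    rw [h0, zero_mul] at h1
    norm_num at h1
  field_simp
  linarith

theorem ph_six : ph ^ 6 = 8 * ph + 5 := by
  have h := ph_sq
  have h3 : ph ^ 3 = 2 * ph + 1 := by
    calc ph ^ 3 = ph * ph ^ 2 := by ring
      _ = ph * (ph + 1) := by rw [h]
      _ = ph ^ 2 + ph := by ring
      _ = 2 * ph + 1 := by rw [h]; ring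
  calc ph ^ 6 = (ph ^ 3) ^ 2 := by ring
    _ = (2 * ph + 1) ^ 2 := by rw [h3]
    _ = 4 * ph ^ 2 + 4 * ph + 1 := by ring
    _ = 8 * ph + 5 := by rw [h]; ring

theorem ps_six : ps ^ 6 = 8 * ps + 5 := by
  have h := ps_sq
  have h3 : ps ^ 3 = 2 * ps + 1 := by
    calc ps ^ 3 = ps * ps ^ 2 := by ring
      _ = ps * (ps + 1) := by rw [h]
      _ = ps ^ 2 + ps := by ring
      _ = 2 * ps + 1 := by rw [h]; ring
  calc ps ^ 6 = (ps ^ 3) ^ 2 := by ring
    _ = (2 * ps + 1) ^ 2 := by rw [h3]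
    _ = 4 * ps ^ 2 + 4 * ps + 1 := by ring
    _ = 8 * ps + 5 := by rw [h]; ring

theorem Lam_form : Lam = 8 * ph + 5 := ph_six

theorem Lam_inv : 1 / Lam = 8 * ps + 5 := by
  have h := ph_mul_ps
  have h1 : Lam * ps ^ 6 = 1 := by
    unfold Lam
    have : ph ^ 6 * ps ^ 6 = (ph * ps) ^ 6 := by ring
    rw [this, h]
    norm_num
  have h2 : Lam ≠ 0 := by
    intro h0
    rw [h0, zero_mul] at h1
    norm_num at h1
  rw [← ps_six]
  field_simp
  linarith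

theorem lam_bounds : 2.618 < lam ∧ lam < 2.6181 := by
  rw [lam_eq]
  have := ph_bounds
  constructor <;> linarith [this.1, this.2]

theorem Lam_bounds : 17.944 < Lam ∧ Lam < 17.945 := by
  rw [Lam_form]
  have := ph_bounds
  constructor <;> linarith [this.1, this.2]

theorem kap_eq : kap = -1 / 2 - ps := by
  unfold kap
  rw [ps_sq]
  ring

theorem kap_bounds : 0.118033 < kap ∧ kap < 0.118035 := by
  rw [kap_eq]
  have := ps_bounds
  constructor <;> linarith [this.1, this.2]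

theorem Lam_eq : Lam = lam ^ 3 := by
  unfold Lam lam
  ring

/-! ### the lattice -/

theorem norm_form (m n : ℤ) : ((m : ℝ) + n * ph) * (m + n * ps) = ((m ^ 2 + m * n - n ^ 2 : ℤ) : ℝ) := by
  have h1 := ph_add_ps
  have h2 := ph_mul_ps
  push_cast
  calc ((m : ℝ) + n * ph) * (m + n * ps) = m ^ 2 + m * n * (ph + ps) + n ^ 2 * (ph * ps) := by ring
    _ = m ^ 2 + m * n - n ^ 2 := by rw [h1, h2]; ring

/-- the norm form has no zero -/
theorem norm_ne_zero {m n : ℤ} (h : ¬ (m = 0 ∧ n = 0)) : m ^ 2 + m * n - n ^ 2 ≠ 0 := by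
  intro h0
  by_cases hn : n = 0
  · subst hn
    apply h
    simp at h0
    exact ⟨h0, rfl⟩
  · -- (2 m + n)^2 = 5 n^2
    have h1 : (2 * m + n) ^ 2 = 5 * n ^ 2 := by linarith
    have hirr : Irrational (Real.sqrt 5) := by
      have := Nat.Prime.irrational_sqrt (p := 5) (by norm_num)
      simpa using this
    apply hirr
    refine ⟨|((2 * m + n : ℤ) : ℚ) / n|, ?_⟩
    have h2 : (((2 * m + n : ℤ) : ℝ) / n) ^ 2 = 5 := by
      have hn' : (n : ℝ) ≠ 0 := by exact_mod_cast hn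
      rw [div_pow, div_eq_iff (pow_ne_zero 2 hn')]
      exact_mod_cast h1
    rw [← h2, Real.sqrt_sq_eq_abs]
    push_cast
    rfl

theorem one_le_max {m n : ℤ} (h : ¬ (m = 0 ∧ n = 0)) :
    1 ≤ max |(m : ℝ) + n * ph| |(m : ℝ) + n * ps| := by
  have h1 := norm_form m n
  have h2 := norm_ne_zero h
  have h3 : (1 : ℝ) ≤ |((m ^ 2 + m * n - n ^ 2 : ℤ) : ℝ)| := by
    have : (1 : ℤ) ≤ |m ^ 2 + m * n - n ^ 2| := Int.one_le_abs h2
    exact_mod_cast this
  rw [← h1, abs_mul] at h3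
  by_contra hcon
  rw [not_le, max_lt_iff] at hcon
  nlinarith [abs_nonneg ((m : ℝ) + n * ph), abs_nonneg ((m : ℝ) + n * ps), hcon.1, hcon.2]

theorem mem_LL {p : E4} : p ∈ LL ↔
    ∃ m n k l : ℤ, p = ![m + n * ph, m + n * ps, k + l * ps, k + l * ph] := Iff.rfl

theorem LL_norm_w (ℓ : E4) (h : ℓ ∈ LL) (h0 : ¬ (ℓ 2 = 0 ∧ ℓ 3 = 0)) :
    1 ≤ max |ℓ 2| |ℓ 3| := by
  obtain ⟨m, n, k, l, rfl⟩ := h
  have hkl : ¬ (k = 0 ∧ l = 0) := by
    rintro ⟨rfl, rfl⟩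
    apply h0
    simp
  have := one_le_max hkl
  rw [max_comm] at this
  simpa using this

theorem LL_norm_v (ℓ : E4) (h : ℓ ∈ LL) (h0 : ¬ (ℓ 0 = 0 ∧ ℓ 1 = 0)) :
    1 ≤ max |ℓ 0| |ℓ 1| := by
  obtain ⟨m, n, k, l, rfl⟩ := h
  have hkl : ¬ (m = 0 ∧ n = 0) := by
    rintro ⟨rfl, rfl⟩
    apply h0
    simp
  have := one_le_max hkl
  simpa using this

/-- nonzero lattice vectors have sup norm at least `1` -/
theorem LL_norm (ℓ : E4) (h : ℓ ∈ LL) (h0 : ℓ ≠ 0) : 1 ≤ ‖ℓ‖ := by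
  by_cases h1 : ℓ 2 = 0 ∧ ℓ 3 = 0
  · have h2 : ¬ (ℓ 0 = 0 ∧ ℓ 1 = 0) := by
      rintro ⟨a, b⟩
      apply h0
      ext i
      fin_cases i
      · exact a
      · exact b
      · exact h1.1
      · exact h1.2
    refine le_trans (LL_norm_v ℓ h h2) (max_le ?_ ?_)
    · exact norm_le_pi_norm ℓ 0
    · exact norm_le_pi_norm ℓ 1
  · refine le_trans (LL_norm_w ℓ h h1) (max_le ?_ ?_)
    · exact norm_le_pi_norm ℓ 2
    · exact norm_le_pi_norm ℓ 3

theorem LM_mem (ℓ : E4) (h : ℓ ∈ LL) : LM ℓ ∈ LL := by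
  obtain ⟨m, n, k, l, rfl⟩ := h
  have h1 := ph_sq
  have h2 := ps_sq
  refine ⟨m + n, m + 2 * n, 5 * k + 8 * l, 8 * k + 13 * l, ?_⟩
  ext i
  rw [LM_apply]
  fin_cases i
  · show lam * ((m : ℝ) + n * ph) = _
    simp only [Matrix.cons_val_zero, Fin.zero_eta]
    rw [lam_eq]
    push_cast
    linear_combination (n : ℝ) * h1
  · show (1 / lam) * ((m : ℝ) + n * ps) = _
    rw [lam_inv, h2]
    show (ps + 1) * ((m : ℝ) + n * ps) = ((m + n : ℤ) : ℝ) + ((m + 2 * n : ℤ) : ℝ) * ps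
    push_cast
    linear_combination (n : ℝ) * h2
  · show (1 / Lam) * ((k : ℝ) + l * ps) = ((5 * k + 8 * l : ℤ) : ℝ) + ((8 * k + 13 * l : ℤ) : ℝ) * ps
    rw [Lam_inv]
    push_cast
    linear_combination (8 * l : ℝ) * h2
  · show Lam * ((k : ℝ) + l * ph) = ((5 * k + 8 * l : ℤ) : ℝ) + ((8 * k + 13 * l : ℤ) : ℝ) * ph
    rw [Lam_form]
    push_cast
    linear_combination (8 * l : ℝ) * h1

theorem LM_mem_inv (ℓ : E4) (h : ℓ ∈ LL) : ∃ ℓ' ∈ LL, LM ℓ' = ℓ := by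
  obtain ⟨m, n, k, l, rfl⟩ := h
  have h1 := ph_sq
  have h2 := ps_sq
  refine ⟨![((2 * m - n : ℤ) : ℝ) + ((-m + n : ℤ) : ℝ) * ph,
    ((2 * m - n : ℤ) : ℝ) + ((-m + n : ℤ) : ℝ) * ps,
    ((13 * k - 8 * l : ℤ) : ℝ) + ((-8 * k + 5 * l : ℤ) : ℝ) * ps,
    ((13 * k - 8 * l : ℤ) : ℝ) + ((-8 * k + 5 * l : ℤ) : ℝ) * ph],
    ⟨2 * m - n, -m + n, 13 * k - 8 * l, -8 * k + 5 * l, rfl⟩, ?_⟩
  ext i
  rw [LM_apply]
  fin_cases i
  · show lam * (((2 * m - n : ℤ) : ℝ) + ((-m + n : ℤ) : ℝ) * ph) = (m : ℝ) + n * ph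
    rw [lam_eq]
    push_cast
    linear_combination (-m + n : ℝ) * h1
  · show (1 / lam) * (((2 * m - n : ℤ) : ℝ) + ((-m + n : ℤ) : ℝ) * ps) = (m : ℝ) + n * ps
    rw [lam_inv, h2]
    push_cast
    linear_combination (-m + n : ℝ) * h2
  · show (1 / Lam) * (((13 * k - 8 * l : ℤ) : ℝ) + ((-8 * k + 5 * l : ℤ) : ℝ) * ps) = (k : ℝ) + l * ps
    rw [Lam_inv]
    push_cast
    linear_combination (8 * (-8 * k + 5 * l) : ℝ) * h2
  · show Lam * (((13 * k - 8 * l : ℤ) : ℝ) + ((-8 * k + 5 * l : ℤ) : ℝ) * ph) = (k : ℝ) + l * ph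
    rw [Lam_form]
    push_cast
    linear_combination (8 * (-8 * k + 5 * l) : ℝ) * h1

theorem lP_mem : lP ∈ LL := ⟨0, 0, 2, 4, by unfold lP; ext i; fin_cases i <;> simp⟩
theorem lQ_mem : lQ ∈ LL := ⟨0, 0, 3, 5, by unfold lQ; ext i; fin_cases i <;> simp⟩
theorem lR_mem : lR ∈ LL := ⟨0, 0, 0, 1, by unfold lR; ext i; fin_cases i <;> simp⟩

theorem LM_PP : LM PP = PP + lP := by
  ext i
  rw [LM_apply]
  fin_cases i
  · simp [PP, lP, dg]
  · simp [PP, lP, dg]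
  · show (1 / Lam) * (1 / 2) = 1 / 2 + (2 + 4 * ps)
    rw [Lam_inv]
    ring
  · show Lam * (1 / 2) = 1 / 2 + (2 + 4 * ph)
    rw [Lam_form]
    ring

theorem LM_Q : LM (PP + kap • e3) = lQ + kap • e2 := by
  have h1 := ph_sq
  have h2 := ps_sq
  have h3 := ph_add_ps
  have h4 := ph_mul_ps
  ext i
  rw [LM_apply]
  fin_cases i
  · simp [PP, lQ, dg, e2, e3]
  · simp [PP, lQ, dg, e2, e3]
  · show (1 / Lam) * (1 / 2 + kap * 0) = (3 + 5 * ps) + kap * 1
    rw [Lam_inv, kap_eq]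
    ring
  · show Lam * (1 / 2 + kap * 1) = (3 + 5 * ph) + kap * 0
    rw [Lam_form, kap_eq]
    linear_combination (-8 : ℝ) * h4 - 5 * h3

theorem LM_R : LM (kap • e3) = PP + lR + kap • e2 := by
  have h1 := ph_sq
  have h2 := ps_sq
  have h3 := ph_add_ps
  have h4 := ph_mul_ps
  ext i
  rw [LM_apply]
  fin_cases i
  · simp [PP, lR, dg, e2, e3]
  · simp [PP, lR, dg, e2, e3]
  · show (1 / Lam) * (kap * 0) = 1 / 2 + ps + kap * 1
    rw [kap_eq]
    ring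
  · show Lam * (kap * 1) = 1 / 2 + ph + kap * 0
    rw [Lam_form, kap_eq]
    linear_combination (-8 : ℝ) * h4 - 5 * h3

/-- covering radius in the `(x,y)`-plane -/
theorem cover_two (c η : ℝ) : ∃ m n : ℤ, |(m : ℝ) + n * ph - c| ≤ 2 ∧ |(m : ℝ) + n * ps - η| ≤ 2 := by
  -- solve m0 + n0 ph = c, m0 + n0 ps = η and round
  have hb := ph_bounds
  have hs := ps_bounds
  have hd : ph - ps ≠ 0 := by
    intro h
    linarith [hb.1, hs.2]
  set n0 := (c - η) / (ph - ps) with hn0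
  set m0 := c - n0 * ph with hm0
  have e2 : m0 + n0 * ps = η := by
    have : n0 * (ph - ps) = c - η := by
      rw [hn0]
      field_simp
    rw [hm0]
    linarith
  have r1 := abs_sub_round m0
  have r2 := abs_sub_round n0
  refine ⟨round m0, round n0, ?_, ?_⟩
  · have : (round m0 : ℝ) + round n0 * ph - c = -(m0 - round m0) - (n0 - round n0) * ph := by
      rw [hm0]
      ring
    rw [this]
    rw [abs_le] at r1 r2 ⊢
    constructor <;> nlinarith [r1.1, r1.2, r2.1, r2.2, hb.1, hb.2]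
  · have : (round m0 : ℝ) + round n0 * ps - η = -(m0 - round m0) - (n0 - round n0) * ps := by
      rw [← e2]
      ring
    rw [this]
    rw [abs_le] at r1 r2 ⊢
    constructor <;> nlinarith [r1.1, r1.2, r2.1, r2.2, hs.1, hs.2]

theorem LL_cover (c η : ℝ) : ∃ ℓ ∈ LL, ℓ 2 = 0 ∧ ℓ 3 = 0 ∧ |ℓ 0 - c| ≤ 2 ∧ |ℓ 1 - η| ≤ 2 := by
  obtain ⟨m, n, h1, h2⟩ := cover_two c η
  refine ⟨![(m : ℝ) + n * ph, m + n * ps, 0, 0], ⟨m, n, 0, 0, by simp⟩, rfl, rfl, h1, h2⟩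

/-- covering radius -/
theorem LL_cover4 (p : E4) : ∃ ℓ ∈ LL, ‖p - ℓ‖ ≤ 2 := by
  obtain ⟨m, n, h1, h2⟩ := cover_two (p 0) (p 1)
  obtain ⟨k, l, h3, h4⟩ := cover_two (p 3) (p 2)
  refine ⟨![(m : ℝ) + n * ph, m + n * ps, k + l * ps, k + l * ph], ⟨m, n, k, l, rfl⟩, ?_⟩
  rw [pi_norm_le_iff_of_nonneg (by norm_num)]
  intro i
  rw [Pi.sub_apply, Real.norm_eq_abs, abs_sub_comm]
  fin_cases i
  · exact h1
  · exact h2
  · exact h4
  · exact h3

theorem LL_isLattice : IsLattice LL := by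
  constructor
  · -- discrete
    rw [discreteTopology_iff_isOpen_singleton_zero]
    rw [Metric.isOpen_iff]
    intro x hx
    rw [Set.mem_singleton_iff] at hx
    subst hx
    refine ⟨1, one_pos, ?_⟩
    intro y hy
    rw [Metric.mem_ball, dist_zero_right] at hy
    rw [Set.mem_singleton_iff]
    by_contra h0
    have h1 : (y : E4) ≠ 0 := by
      intro h
      exact h0 (Subtype.ext h)
    have := LL_norm _ y.2 h1
    have h2 : ‖(y : E4)‖ = ‖y‖ := rfl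
    linarith
  · -- spanning
    rw [eq_top_iff]
    intro p _
    have hb := ph_bounds
    have hs := ps_bounds
    have hd : ph - ps ≠ 0 := by
      intro h
      linarith [hb.1, hs.2]
    have hv1 : (![1, 1, 0, 0] : E4) ∈ (LL : Set E4) := ⟨1, 0, 0, 0, by simp⟩
    have hv2 : (![ph, ps, 0, 0] : E4) ∈ (LL : Set E4) := ⟨0, 1, 0, 0, by simp⟩
    have hv3 : (![0, 0, 1, 1] : E4) ∈ (LL : Set E4) := ⟨0, 0, 1, 0, by simp⟩
    have hv4 : (![0, 0, ps, ph] : E4) ∈ (LL : Set E4) := ⟨0, 0, 0, 1, by simp⟩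
    set n0 := (p 0 - p 1) / (ph - ps) with hn0
    set k0 := (p 3 - p 2) / (ph - ps) with hk0
    have e1 : n0 * (ph - ps) = p 0 - p 1 := by
      rw [hn0]
      field_simp
    have e2 : k0 * (ph - ps) = p 3 - p 2 := by
      rw [hk0]
      field_simp
    have hp : p = (p 0 - n0 * ph) • (![1, 1, 0, 0] : E4) + n0 • (![ph, ps, 0, 0] : E4) +
        (p 3 - k0 * ph) • (![0, 0, 1, 1] : E4) + k0 • (![0, 0, ps, ph] : E4) := by
      ext i
      fin_cases i
      · show p 0 = (p 0 - n0 * ph) * 1 + n0 * ph + (p 3 - k0 * ph) * 0 + k0 * 0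
        ring
      · show p 1 = (p 0 - n0 * ph) * 1 + n0 * ps + (p 3 - k0 * ph) * 0 + k0 * 0
        linarith
      · show p 2 = (p 0 - n0 * ph) * 0 + n0 * 0 + (p 3 - k0 * ph) * 1 + k0 * ps
        linarith
      · show p 3 = (p 0 - n0 * ph) * 0 + n0 * 0 + (p 3 - k0 * ph) * 1 + k0 * ph
        ring
    rw [hp]
    refine Submodule.add_mem _ (Submodule.add_mem _ (Submodule.add_mem _ ?_ ?_) ?_) ?_
    · exact Submodule.smul_mem _ _ (Submodule.subset_span hv1)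
    · exact Submodule.smul_mem _ _ (Submodule.subset_span hv2)
    · exact Submodule.smul_mem _ _ (Submodule.subset_span hv3)
    · exact Submodule.smul_mem _ _ (Submodule.subset_span hv4)

end Pool.Agent.MP_6961e8
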