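import Pool.Agent.MP_6961e8.Objects
import Pool.Agent.MP_6961e8.NUM

open Filter Topology

namespace Pool.Agent.MP_6961e8

theorem cat_mk_eq (p q : E4) (h : p - q ∈ LL) : (p : E4 ⧸ LL) = (q : E4 ⧸ LL) := by
  have : (q : E4 ⧸ LL) = (p : E4 ⧸ LL) := by
    rw [QuotientAddGroup.eq]
    rwa [neg_add_eq_sub]
  exact this.symm

theorem cat_map_mk (g : TorusDiffeo LL) (p : E4) :
    g.map (p : E4 ⧸ LL) = ((g.lift p : E4) : E4 ⧸ LL) := rfl

theorem cat_mk_per (h : ℝ × ℝ → E4)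
    (per : ∀ z, ∀ ℓ ∈ LL, ℓ 2 = 0 → ℓ 3 = 0 → h (z.1 + ℓ 0, z.2 + ℓ 1) = h z + ℓ)
    (z : ℝ × ℝ) (ℓ : E4) (hl : ℓ ∈ LL) (h2 : ℓ 2 = 0) (h3 : ℓ 3 = 0) :
    ((h (z.1 + ℓ 0, z.2 + ℓ 1) : E4) : E4 ⧸ LL) = (h z : E4 ⧸ LL) := by
  apply cat_mk_eq
  rw [per z ℓ hl h2 h3]
  simpa using hl

theorem cat_iter (g : TorusDiffeo LL) (h : ℝ × ℝ → E4)
    (conj : ∀ z, g.lift (h z) = h (lam * z.1, z.2 / lam)) (n : ℕ) (z : ℝ × ℝ) :
    g.map^[n] (h z : E4 ⧸ LL) = ((h (lam ^ n * z.1, z.2 / lam ^ n) : E4) : E4 ⧸ LL) := by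
  induction n with
  | zero => simp
  | succ n ih =>
    rw [Function.iterate_succ_apply', ih, cat_map_mk, conj]
    congr 3
    · ring
    · rw [pow_succ]
      field_simp

theorem LM_pow_mem (j : ℕ) (ℓ : E4) (h : ℓ ∈ LL) (h2 : ℓ 2 = 0) (h3 : ℓ 3 = 0) :
    ∃ ℓ' ∈ LL, ℓ' 2 = 0 ∧ ℓ' 3 = 0 ∧ ℓ' 0 = lam ^ j * ℓ 0 ∧ ℓ' 1 = ℓ 1 / lam ^ j := by
  induction j with
  | zero => exact ⟨ℓ, h, h2, h3, by simp, by simp⟩
  | succ n ih =>
    obtain ⟨ℓ', hm, h2', h3', h0', h1'⟩ := ih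
    refine ⟨LM ℓ', LM_mem _ hm, ?_, ?_, ?_, ?_⟩
    · rw [LM_apply, h2', mul_zero]
    · rw [LM_apply, h3', mul_zero]
    · rw [LM_apply, h0', pow_succ]
      simp only [dg, Matrix.cons_val_zero]
      ring
    · have hd : dg 1 = 1 / lam := by simp [dg]
      rw [LM_apply, h1', pow_succ, hd]
      field_simp

set_option linter.unusedSectionVars false

/-- a point on the unstable line of the origin whose forward orbit is dense modulo the lattice -/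
theorem exists_dense_line : ∃ t : ℝ, ∀ (z' : ℝ × ℝ) (ε : ℝ), 0 < ε →
    ∃ n : ℕ, ∃ ℓ ∈ LL, ℓ 2 = 0 ∧ ℓ 3 = 0 ∧ |lam ^ n * t + ℓ 0 - z'.1| < ε ∧
      |0 + ℓ 1 - z'.2| < ε := by
  have hl := lam_bounds.1
  have hlam : (1 : ℝ) < lam := by linarith
  have hpos : (0 : ℝ) < lam := by linarith
  set q : ℕ → ℝ × ℝ := TopologicalSpace.denseSeq (ℝ × ℝ) with hq
  let G : ℕ × ℕ → Set ℝ := fun im => ⋃ n : ℕ, ⋃ ℓ ∈ {ℓ : E4 | ℓ ∈ LL ∧ ℓ 2 = 0 ∧ ℓ 3 = 0 ∧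
    |0 + ℓ 1 - (q im.1).2| < 1 / ((im.2 : ℝ) + 1)}, {t : ℝ |
      |lam ^ n * t + ℓ 0 - (q im.1).1| < 1 / ((im.2 : ℝ) + 1)}
  have hopen : ∀ im, IsOpen (G im) := by
    intro im
    refine isOpen_iUnion fun n => isOpen_iUnion fun ℓ => isOpen_iUnion fun _ => ?_
    exact isOpen_lt (by fun_prop) continuous_const
  have hdense : ∀ im, Dense (G im) := by
    rintro ⟨i, m⟩
    rw [Metric.dense_iff]
    intro t r hr
    have hm : (0 : ℝ) < 1 / ((m : ℝ) + 1) := by positivity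
    obtain ⟨j, hj⟩ := pow_unbounded_of_one_lt (2 / (1 / ((m : ℝ) + 1))) hlam
    obtain ⟨n, hn⟩ := pow_unbounded_of_one_lt (2 * lam ^ j / r) hlam
    have hj' : 2 / lam ^ j < 1 / ((m : ℝ) + 1) := by
      rw [div_lt_comm₀ hm (by positivity)] at hj
      exact hj
    have hn' : 2 * lam ^ j / lam ^ n < r := by
      rw [div_lt_comm₀ hr (by positivity)] at hn
      exact hn
    obtain ⟨ℓ, hl, h2, h3, h0, h1⟩ := LL_cover (((q i).1 - lam ^ n * t) / lam ^ j)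
      (lam ^ j * (q i).2)
    obtain ⟨ℓ', hl', h2', h3', h0', h1'⟩ := LM_pow_mem j ℓ hl h2 h3
    refine ⟨((q i).1 - ℓ' 0) / lam ^ n, ?_, ?_⟩
    · rw [Metric.mem_ball, Real.dist_eq]
      have e : ((q i).1 - ℓ' 0) / lam ^ n - t =
          -((ℓ 0 - ((q i).1 - lam ^ n * t) / lam ^ j) * (lam ^ j / lam ^ n)) := by
        rw [h0']
        field_simp
        ring
      rw [e, abs_neg, abs_mul, abs_of_pos (by positivity : (0 : ℝ) < lam ^ j / lam ^ n)]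
      calc |ℓ 0 - ((q i).1 - lam ^ n * t) / lam ^ j| * (lam ^ j / lam ^ n)
          ≤ 2 * (lam ^ j / lam ^ n) := by gcongr
        _ = 2 * lam ^ j / lam ^ n := by ring
        _ < r := hn'
    · simp only [G, Set.mem_iUnion]
      refine ⟨n, ℓ', ⟨hl', h2', h3', ?_⟩, ?_⟩
      · have e : 0 + ℓ' 1 - (q i).2 = (ℓ 1 - lam ^ j * (q i).2) / lam ^ j := by
          rw [h1']
          field_simp
          ring
        rw [e, abs_div, abs_of_pos (by positivity : (0 : ℝ) < lam ^ j)]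
        refine lt_of_le_of_lt ?_ hj'
        gcongr
      · show |lam ^ n * (((q i).1 - ℓ' 0) / lam ^ n) + ℓ' 0 - (q i).1| < 1 / ((m : ℝ) + 1)
        have e : lam ^ n * (((q i).1 - ℓ' 0) / lam ^ n) + ℓ' 0 - (q i).1 = 0 := by
          field_simp
          ring
        rw [e]
        simpa using hm
  obtain ⟨t, ht⟩ := (dense_iInter_of_isOpen hopen hdense).nonempty
  refine ⟨t, fun z' ε hε => ?_⟩
  obtain ⟨m, hm⟩ := exists_nat_one_div_lt (half_pos hε)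
  have hd := TopologicalSpace.denseRange_denseSeq (ℝ × ℝ)
  obtain ⟨i, hi⟩ := hd.exists_dist_lt z' (half_pos hε)
  have hti := Set.mem_iInter.1 ht (i, m)
  simp only [G, Set.mem_iUnion] at hti
  obtain ⟨n, ℓ, ⟨hl', h2', h3', h1'⟩, h0'⟩ := hti
  rw [Prod.dist_eq, max_lt_iff, Real.dist_eq, Real.dist_eq] at hi
  have h0'' : |lam ^ n * t + ℓ 0 - (q i).1| < 1 / ((m : ℝ) + 1) := h0'
  have h1'' : |0 + ℓ 1 - (q i).2| < 1 / ((m : ℝ) + 1) := h1'
  have hi1 : |z'.1 - (q i).1| < ε / 2 := hi.1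
  have hi2 : |z'.2 - (q i).2| < ε / 2 := hi.2
  refine ⟨n, ℓ, hl', h2', h3', ?_, ?_⟩
  · rw [abs_lt] at *
    constructor <;> linarith [h0''.1, h0''.2, hi1.1, hi1.2]
  · rw [abs_lt] at *
    constructor <;> linarith [h1''.1, h1''.2, hi2.1, hi2.2]

section
variable (F g : TorusDiffeo LL) (hF : IsModel F) (hg : C1Close dl F g)
include hF hg

theorem K_compact (h : ℝ × ℝ → E4) (hh : IsCont g h) : IsCompact (Kset h) := by
  have hc : Continuous fun z : ℝ × ℝ => (h z : E4 ⧸ LL) :=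
    continuous_quotient_mk'.comp hh.cont
  have hK : Kset h = (fun z : ℝ × ℝ => (h z : E4 ⧸ LL)) ''
      (Set.Icc (-2 : ℝ) 2 ×ˢ Set.Icc (-2 : ℝ) 2) := by
    apply Set.Subset.antisymm
    · rintro _ ⟨z, rfl⟩
      obtain ⟨ℓ, hl, h2, h3, h0, h1⟩ := LL_cover z.1 z.2
      refine ⟨(z.1 - ℓ 0, z.2 - ℓ 1), ⟨?_, ?_⟩, ?_⟩
      · rw [abs_le] at h0
        constructor <;> simp only <;> linarith [h0.1, h0.2]
      · rw [abs_le] at h1
        constructor <;> simp only <;> linarith [h1.1, h1.2]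
      · have := cat_mk_per h hh.per (z.1 - ℓ 0, z.2 - ℓ 1) ℓ hl h2 h3
        simp only [sub_add_cancel, Prod.mk.eta] at this
        exact this.symm
    · rintro _ ⟨z, _, rfl⟩
      exact ⟨z, rfl⟩
  rw [hK]
  exact (isCompact_Icc.prod isCompact_Icc).image hc

theorem K_inv (h : ℝ × ℝ → E4) (hh : IsCont g h) : g.map '' (Kset h) = Kset h := by
  have hl := lam_bounds.1
  have hpos : (0 : ℝ) < lam := by linarith
  apply Set.Subset.antisymm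
  · rintro _ ⟨_, ⟨z, rfl⟩, rfl⟩
    refine ⟨(lam * z.1, z.2 / lam), ?_⟩
    simp only
    rw [cat_map_mk, hh.conj]
  · rintro _ ⟨z, rfl⟩
    refine ⟨_, ⟨(z.1 / lam, lam * z.2), rfl⟩, ?_⟩
    simp only
    rw [cat_map_mk, hh.conj]
    congr 3
    · simp only
      field_simp
    · simp only
      field_simp

theorem K_trans (h : ℝ × ℝ → E4) (hh : IsCont g h) : IsTransitiveSet g (Kset h) := by
  obtain ⟨t, ht⟩ := exists_dense_line
  refine ⟨(h (t, 0) : E4 ⧸ LL), ⟨(t, 0), rfl⟩, ?_⟩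
  rintro _ ⟨z', rfl⟩
  have hc : Continuous fun z : ℝ × ℝ => (h z : E4 ⧸ LL) :=
    continuous_quotient_mk'.comp hh.cont
  rw [mem_closure_iff]
  intro O hO hzO
  have hO' : IsOpen ((fun z : ℝ × ℝ => (h z : E4 ⧸ LL)) ⁻¹' O) := hO.preimage hc
  obtain ⟨r, hr, hball⟩ := Metric.isOpen_iff.1 hO' z' hzO
  obtain ⟨n, ℓ, hl, h2, h3, h0, h1⟩ := ht z' r hr
  refine ⟨(h (lam ^ n * t + ℓ 0, 0 + ℓ 1) : E4 ⧸ LL), ?_, n, ?_⟩
  · apply hball
    rw [Metric.mem_ball, Prod.dist_eq, max_lt_iff, Real.dist_eq, Real.dist_eq]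
    exact ⟨h0, h1⟩
  · simp only
    rw [cat_iter g h hh.conj]
    have := cat_mk_per h hh.per (lam ^ n * t, 0) ℓ hl h2 h3
    simp only at this
    rw [this]
    simp

end

end Pool.Agent.MP_6961e8
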