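import Pool.Agent.MP_6961e8.NUM

/-!
Module STEP: one step estimates for perturbations of the model, Banach preimages, orbits in
the charts and orbits of the torus map.
-/

open Filter Topology

namespace Pool.Agent.MP_6961e8

/-! ## Auxiliary facts -/

/-- If `F` agrees with the affine map `c + A` on an open set containing the convex set `S`,
and `g` has derivative close to that of `F`, then `g - A` has small Lipschitz constant on `S`. -/
theorem step_aux (g F : E4 → E4) (hg : ContDiff ℝ 1 g) (hF : ContDiff ℝ 1 F) (A : E4 →L[ℝ] E4)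
    (c x0 : E4) (S : Set E4) (hS : Convex ℝ S) (U : Set E4) (hU : IsOpen U) (hSU : S ⊆ U)
    (hFU : ∀ v ∈ U, F (x0 + v) = c + A v)
    (hd : ∀ p, ‖fderiv ℝ g p - fderiv ℝ F p‖ < dl) :
    (∀ v ∈ S, ‖fderiv ℝ g (x0 + v) - A‖ ≤ dl) ∧
    ∀ v ∈ S, ∀ w ∈ S, ‖g (x0 + v) - g (x0 + w) - A (v - w)‖ ≤ dl * ‖v - w‖ := by
  have hFd : ∀ v ∈ U, fderiv ℝ F (x0 + v) = A := by
    intro v hv
    have h1 : (fun u => F (x0 + u)) =ᶠ[𝓝 v] fun u => c + A u := by
      filter_upwards [hU.mem_nhds hv] with u hu using hFU u hu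
    have h2 : HasFDerivAt (fun u => F (x0 + u)) A v := by
      refine HasFDerivAt.congr_of_eventuallyEq ?_ h1
      exact (A.hasFDerivAt).const_add c
    have h3 : HasFDerivAt (fun u => F (x0 + u)) (fderiv ℝ F (x0 + v)) v := by
      have h4 : HasFDerivAt F (fderiv ℝ F (x0 + v)) (x0 + v) :=
        ((hF.differentiable (by norm_num)) _).hasFDerivAt
      have h5 := h4.comp v ((hasFDerivAt_id v).const_add x0)
      simpa using h5
    exact h3.unique h2
  have h1 : ∀ v ∈ S, ‖fderiv ℝ g (x0 + v) - A‖ ≤ dl := by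
    intro v hv
    rw [← hFd v (hSU hv)]
    exact (hd _).le
  refine ⟨h1, ?_⟩
  intro v hv w hw
  have h2 : ∀ u ∈ S, HasFDerivWithinAt (fun u => g (x0 + u) - A u) (fderiv ℝ g (x0 + u) - A) S u := by
    intro u _
    have h4 : HasFDerivAt g (fderiv ℝ g (x0 + u)) (x0 + u) :=
      ((hg.differentiable (by norm_num)) _).hasFDerivAt
    have h5 := h4.comp u ((hasFDerivAt_id u).const_add x0)
    have h6 := (h5.sub A.hasFDerivAt).hasFDerivWithinAt (s := S)
    simpa using h6
  have h3 := hS.norm_image_sub_le_of_norm_hasFDerivWithin_le h2 h1 hw hv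
  have h4 : g (x0 + v) - g (x0 + w) - A (v - w) = (g (x0 + v) - A v) - (g (x0 + w) - A w) := by
    rw [map_sub]; abel
  rw [h4]
  exact h3

/-- Solving `G p = v` by Banach's theorem. -/
theorem solve_aux (S : Set E4) (hS : IsClosed S) (x0 : E4) (hx0 : x0 ∈ S) (A B : E4 →L[ℝ] E4)
    (G : E4 → E4) (v : E4) (hAB : ∀ w, A (B w) = w) (hB : ∀ w, ‖B w‖ ≤ 18 * ‖w‖)
    (hlip : ∀ p ∈ S, ∀ q ∈ S, ‖G p - G q - A (p - q)‖ ≤ dl * ‖p - q‖)
    (hmap : ∀ p ∈ S, B (v - (G p - A p)) ∈ S) : ∃ p ∈ S, G p = v := by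
  set T : E4 → E4 := fun p => B (v - (G p - A p)) with hT
  have hTS : Set.MapsTo T S S := hmap
  have hc : ContractingWith (1 / 2) (hTS.restrict T S S) := by
    refine ⟨by rw [div_lt_one] <;> norm_num, ?_⟩
    refine LipschitzWith.of_dist_le_mul ?_
    rintro ⟨p, hp⟩ ⟨q, hq⟩
    have h1 : T p - T q = B (-(G p - G q - A (p - q))) := by
      simp only [hT, ← map_sub]
      congr 1
      rw [map_sub]; abel
    have h2 : dist ((hTS.restrict T S S) ⟨p, hp⟩) ((hTS.restrict T S S) ⟨q, hq⟩) = ‖T p - T q‖ := by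
      rw [← dist_eq_norm]; rfl
    rw [h2, h1]
    have h3 := hB (-(G p - G q - A (p - q)))
    rw [norm_neg] at h3
    have h4 := hlip p hp q hq
    have h5 : dist (⟨p, hp⟩ : S) ⟨q, hq⟩ = ‖p - q‖ := by
      rw [← dist_eq_norm]; rfl
    rw [h5]
    have h6 : 18 * (dl * ‖p - q‖) ≤ 1 / 2 * ‖p - q‖ := by
      have : 0 ≤ ‖p - q‖ := norm_nonneg _
      unfold dl
      nlinarith
    have h7 : ((1 / 2 : NNReal) : ℝ) = 1 / 2 := by norm_num
    rw [h7]
    linarith
  obtain ⟨p, hp, hfix, -⟩ := hc.exists_fixedPoint' hS.isComplete hTS hx0 (edist_ne_top _ _)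
  refine ⟨p, hp, ?_⟩
  have h1 : A p = v - (G p - A p) := by
    have h2 : A (T p) = v - (G p - A p) := hAB _
    rwa [hfix] at h2
  have h2 := eq_sub_iff_add_eq.mp h1
  rw [← h2]; abel

theorem mem_norm {w : E4} {r : ℝ} (h : ‖w‖ ≤ r) (i : Fin 4) : |w i| ≤ r :=
  (norm_le_pi_norm w i).trans h

theorem lam_pos : 0 < lam := by have := lam_bounds.1; linarith
theorem Lam_pos : 0 < Lam := by have := Lam_bounds.1; linarith

theorem dg_zero : dg 0 = lam := rfl
theorem dg_one : dg 1 = 1 / lam := rfl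
theorem dg_two : dg 2 = 1 / Lam := rfl
theorem dg_three : dg 3 = Lam := rfl

/-- the inverse of `LM` -/
noncomputable def LMi : E4 →L[ℝ] E4 :=
  ContinuousLinearMap.pi fun i => (dg i)⁻¹ • ContinuousLinearMap.proj i

theorem LMi_apply (v : E4) (i : Fin 4) : LMi v i = (dg i)⁻¹ * v i := by
  simp [LMi]

theorem dg_ne (i : Fin 4) : dg i ≠ 0 := by
  have h1 := lam_pos.ne'
  have h2 := Lam_pos.ne'
  fin_cases i <;> simp [dg] <;> assumption

theorem dg_inv_le (i : Fin 4) : |(dg i)⁻¹| ≤ 18 := by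
  have h1 := lam_bounds
  have h2 := Lam_bounds
  have h3 := lam_pos
  have h4 := Lam_pos
  fin_cases i
  · show |(lam)⁻¹| ≤ 18
    rw [abs_of_pos (by positivity), inv_le_comm₀ h3 (by norm_num)]; linarith
  · show |(1 / lam)⁻¹| ≤ 18
    rw [one_div, inv_inv, abs_of_pos h3]; linarith
  · show |(1 / Lam)⁻¹| ≤ 18
    rw [one_div, inv_inv, abs_of_pos h4]; linarith
  · show |(Lam)⁻¹| ≤ 18
    rw [abs_of_pos (by positivity), inv_le_comm₀ h4 (by norm_num)]; linarith

theorem LM_LMi (w : E4) : LM (LMi w) = w := by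
  ext i
  rw [LM_apply, LMi_apply, mul_inv_cancel_left₀ (dg_ne i)]

theorem LMi_norm (w : E4) : ‖LMi w‖ ≤ 18 * ‖w‖ := by
  rw [pi_norm_le_iff_of_nonneg (by positivity)]
  intro i
  rw [LMi_apply, norm_mul]
  exact mul_le_mul (dg_inv_le i) (norm_le_pi_norm w i) (norm_nonneg _) (by norm_num)

/-- the inverse of `JJ` -/
noncomputable def JJi : E4 →L[ℝ] E4 :=
  ContinuousLinearMap.pi ![ContinuousLinearMap.proj 0, ContinuousLinearMap.proj 3,
    ContinuousLinearMap.proj 2, -ContinuousLinearMap.proj 1]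

theorem JJi_apply (v : E4) : JJi v = ![v 0, v 3, v 2, -v 1] := by
  ext i
  fin_cases i <;> simp [JJi]

theorem JJ_JJi (v : E4) : JJ (JJi v) = v := by
  rw [JJ_apply, JJi_apply]
  ext i
  fin_cases i <;> simp

theorem JJi_norm (v : E4) : ‖JJi v‖ ≤ ‖v‖ := by
  rw [pi_norm_le_iff_of_nonneg (norm_nonneg _), JJi_apply]
  have h := fun i => norm_le_pi_norm v i
  intro i
  fin_cases i
  · exact h 0
  · exact h 3
  · exact h 2
  · show ‖-v 1‖ ≤ ‖v‖
    rw [norm_neg]; exact h 1

theorem dl_pos : 0 < dl := by unfold dl; norm_num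

/-! ## The statements -/

theorem U0_convex : Convex ℝ U0 := by
  intro p hp q hq a b ha hb hab
  refine ⟨?_, ?_⟩
  · show |a * p 2 + b * q 2| ≤ 1 / 8
    calc |a * p 2 + b * q 2| ≤ |a * p 2| + |b * q 2| := abs_add_le _ _
      _ = a * |p 2| + b * |q 2| := by rw [abs_mul, abs_mul, abs_of_nonneg ha, abs_of_nonneg hb]
      _ ≤ a * (1 / 8) + b * (1 / 8) := by
        have := hp.1; have := hq.1; gcongr
      _ = 1 / 8 := by rw [← add_mul, hab, one_mul]
  · show |a * p 3 + b * q 3| ≤ 1 / 8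
    calc |a * p 3 + b * q 3| ≤ |a * p 3| + |b * q 3| := abs_add_le _ _
      _ = a * |p 3| + b * |q 3| := by rw [abs_mul, abs_mul, abs_of_nonneg ha, abs_of_nonneg hb]
      _ ≤ a * (1 / 8) + b * (1 / 8) := by
        have := hp.2; have := hq.2; gcongr
      _ = 1 / 8 := by rw [← add_mul, hab, one_mul]

theorem strip_convex (i : Fin 4) (c : ℝ) (hc : 0 ≤ c) (r : ℝ) :
    Convex ℝ {v : E4 | c * |v i| ≤ r} := by
  intro p hp q hq a b ha hb hab
  show c * |a * p i + b * q i| ≤ r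
  have hp' : c * |p i| ≤ r := hp
  have hq' : c * |q i| ≤ r := hq
  calc c * |a * p i + b * q i| ≤ c * (|a * p i| + |b * q i|) := by
        gcongr; exact abs_add_le _ _
    _ = a * (c * |p i|) + b * (c * |q i|) := by
        rw [abs_mul, abs_mul, abs_of_nonneg ha, abs_of_nonneg hb]; ring
    _ ≤ a * r + b * r := by gcongr
    _ = r := by rw [← add_mul, hab, one_mul]

theorem BP_eq : BP = {v : E4 | 1 * |v 0| ≤ 1 / 20} ∩ {v : E4 | lam ^ 2 * |v 1| ≤ 1 / 20} ∩
    {v : E4 | 1 * |v 2| ≤ 1 / 20} ∩ {v : E4 | 1 * |v 3| ≤ 1 / 20} := by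
  ext v
  simp only [BP, Set.mem_ofPred_eq, Set.mem_inter_iff, one_mul]
  tauto

theorem BP_convex : Convex ℝ BP := by
  rw [BP_eq]
  exact (((strip_convex 0 1 (by norm_num) _).inter (strip_convex 1 _ (by positivity) _)).inter
    (strip_convex 2 1 (by norm_num) _)).inter (strip_convex 3 1 (by norm_num) _)

theorem strip_closed (i : Fin 4) (c : ℝ) (r : ℝ) : IsClosed {v : E4 | c * |v i| ≤ r} := by
  refine isClosed_le ?_ continuous_const
  fun_prop

theorem strip_open (i : Fin 4) (c : ℝ) (r : ℝ) : IsOpen {v : E4 | c * |v i| < r} := by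
  refine isOpen_lt ?_ continuous_const
  fun_prop

theorem BP_closed : IsClosed BP := by
  rw [BP_eq]
  exact (((strip_closed 0 1 _).inter (strip_closed 1 _ _)).inter
    (strip_closed 2 1 _)).inter (strip_closed 3 1 _)

theorem U0_closed : IsClosed U0 := by
  have : U0 = {v : E4 | 1 * |v 2| ≤ 1 / 8} ∩ {v : E4 | 1 * |v 3| ≤ 1 / 8} := by
    ext v
    simp [U0]
  rw [this]
  exact (strip_closed 2 1 _).inter (strip_closed 3 1 _)

section
variable (F g : TorusDiffeo LL) (hF : IsModel F) (hg : C1Close dl F g)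
include hF hg

theorem g_per (p ℓ : E4) (hℓ : ℓ ∈ LL) : g.lift (p + ℓ) = g.lift p + LM ℓ := by
  have h1 : g.lift (p + ℓ) - g.lift p - LM ℓ ∈ LL :=
    LL.sub_mem (g.lift_add p ℓ hℓ) (LM_mem ℓ hℓ)
  by_contra hne
  have h2 : g.lift (p + ℓ) - g.lift p - LM ℓ ≠ 0 := by
    intro h; apply hne
    have := sub_eq_zero.mp h
    rw [← this]; abel
  have h3 := LL_norm _ h1 h2
  have h4 : g.lift (p + ℓ) - g.lift p - LM ℓ =
      (g.lift (p + ℓ) - F.lift (p + ℓ)) - (g.lift p - F.lift p) := by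
    rw [hF.per p ℓ hℓ]; abel
  rw [h4] at h3
  have h5 := (norm_sub_le (g.lift (p + ℓ) - F.lift (p + ℓ)) (g.lift p - F.lift p))
  have h6 := (hg (p + ℓ)).1
  have h7 := (hg p).1
  have h8 : dl = 1 / 100000 := rfl
  linarith

theorem auxU0 : (∀ v ∈ U0, ‖fderiv ℝ g.lift (0 + v) - LM‖ ≤ dl) ∧
    ∀ v ∈ U0, ∀ w ∈ U0, ‖g.lift (0 + v) - g.lift (0 + w) - LM (v - w)‖ ≤ dl * ‖v - w‖ := by
  refine step_aux g.lift F.lift g.contDiff_lift F.contDiff_lift LM 0 0 U0 U0_convex
    ({v : E4 | 1 * |v 2| < 1 / 6} ∩ {v : E4 | 1 * |v 3| < 1 / 6})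
    ((strip_open 2 1 _).inter (strip_open 3 1 _)) ?_ ?_ (fun p => (hg p).2)
  · intro p hp
    have h1 := hp.1
    have h2 := hp.2
    refine ⟨?_, ?_⟩
    · show 1 * |p 2| < 1 / 6
      linarith
    · show 1 * |p 3| < 1 / 6
      linarith
  · rintro v ⟨h1, h2⟩
    have h1' : 1 * |v 2| < 1 / 6 := h1
    have h2' : 1 * |v 3| < 1 / 6 := h2
    rw [zero_add, zero_add]
    exact hF.u0 v (by linarith) (by linarith)

theorem stepU0 (p q : E4) (hp : p ∈ U0) (hq : q ∈ U0) (i : Fin 4) :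
    |g.lift p i - g.lift q i - dg i * (p i - q i)| ≤ dl * ‖p - q‖ := by
  have h1 := (auxU0 F g hF hg).2 p hp q hq
  rw [zero_add, zero_add] at h1
  have h2 := mem_norm h1 i
  rw [Pi.sub_apply, Pi.sub_apply, LM_apply, Pi.sub_apply] at h2
  exact h2

theorem approxU0 (p : E4) (hp : p ∈ U0) (i : Fin 4) :
    |g.lift p i - dg i * p i| ≤ dl := by
  have h1 := (hg p).1.le
  have h3 := hp.1
  have h4 := hp.2
  rw [hF.u0 p (by linarith) (by linarith)] at h1
  have h2 := mem_norm h1 i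
  rw [Pi.sub_apply, LM_apply] at h2
  exact h2

theorem derivU0 (p : E4) (hp : p ∈ U0) (w : E4) (i : Fin 4) :
    |fderiv ℝ g.lift p w i - dg i * w i| ≤ dl * ‖w‖ := by
  have h1 := (auxU0 F g hF hg).1 p hp
  rw [zero_add] at h1
  have h2 := ContinuousLinearMap.le_of_opNorm_le _ h1 w
  have h3 := mem_norm h2 i
  rw [_root_.sub_apply, Pi.sub_apply, LM_apply] at h3
  exact h3

theorem auxP : (∀ v ∈ BP, ‖fderiv ℝ g.lift (PP + v) - (LM.comp JJ)‖ ≤ dl) ∧
    ∀ v ∈ BP, ∀ w ∈ BP, ‖g.lift (PP + v) - g.lift (PP + w) - (LM.comp JJ) (v - w)‖ ≤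
      dl * ‖v - w‖ := by
  refine step_aux g.lift F.lift g.contDiff_lift F.contDiff_lift (LM.comp JJ) (PP + lP) PP BP
    BP_convex
    ({v : E4 | 1 * |v 0| < 1 / 19} ∩ {v : E4 | lam ^ 2 * |v 1| < 1 / 19} ∩
      {v : E4 | 1 * |v 2| < 1 / 19} ∩ {v : E4 | 1 * |v 3| < 1 / 19})
    ((((strip_open 0 1 _).inter (strip_open 1 _ _)).inter (strip_open 2 1 _)).inter
      (strip_open 3 1 _)) ?_ ?_ (fun p => (hg p).2)
  · rintro p ⟨h0, h1, h2, h3⟩
    refine ⟨⟨⟨?_, ?_⟩, ?_⟩, ?_⟩
    · show 1 * |p 0| < 1 / 19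
      linarith
    · show lam ^ 2 * |p 1| < 1 / 19
      linarith
    · show 1 * |p 2| < 1 / 19
      linarith
    · show 1 * |p 3| < 1 / 19
      linarith
  · rintro v ⟨⟨⟨h0, h1⟩, h2⟩, h3⟩
    have h0' : 1 * |v 0| < 1 / 19 := h0
    have h1' : lam ^ 2 * |v 1| < 1 / 19 := h1
    have h2' : 1 * |v 2| < 1 / 19 := h2
    have h3' : 1 * |v 3| < 1 / 19 := h3
    exact hF.nearP v (by linarith) (by linarith) (by linarith) (by linarith)

omit hF hg in
theorem gP_apply (v : E4) : gP g v = g.lift (PP + v) - PP - lP := rfl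

omit hF hg in
theorem gP_symm_apply (v : E4) : (gP g).symm v = g.lift.symm (v + PP + lP) - PP := rfl

theorem stepP (v w : E4) (hv : v ∈ BP) (hw : w ∈ BP) :
    ‖gP g v - gP g w - LM (JJ (v - w))‖ ≤ dl * ‖v - w‖ := by
  have h1 := (auxP F g hF hg).2 v hv w hw
  have h2 : gP g v - gP g w - LM (JJ (v - w)) =
      g.lift (PP + v) - g.lift (PP + w) - (LM.comp JJ) (v - w) := by
    rw [gP_apply, gP_apply, ContinuousLinearMap.comp_apply]; abel
  rw [h2]; exact h1

theorem approxP (v : E4) (hv : v ∈ BP) : ‖gP g v - LM (JJ v)‖ ≤ dl := by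
  have h1 := (hg (PP + v)).1.le
  obtain ⟨h0, h1', h2, h3⟩ := hv
  rw [hF.nearP v (by linarith) (by linarith) (by linarith) (by linarith)] at h1
  have h2 : gP g v - LM (JJ v) = g.lift (PP + v) - (PP + lP + LM (JJ v)) := by
    rw [gP_apply]; abel
  rw [h2]; exact h1

theorem derivP (v : E4) (hv : v ∈ BP) (w : E4) :
    ‖fderiv ℝ g.lift (PP + v) w - LM (JJ w)‖ ≤ dl * ‖w‖ := by
  have h1 := (auxP F g hF hg).1 v hv
  exact ContinuousLinearMap.le_of_opNorm_le _ h1 w

theorem approxQ (v : E4) (hv : ∀ i, |v i| ≤ 1 / 200) :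
    ‖gQ g (kap • e3 + v) - (kap • e2 + LM (TQ v))‖ ≤ dl := by
  have h1 := (hg (PP + kap • e3 + v)).1.le
  rw [hF.nearQ v (fun i => (hv i).trans (by norm_num))] at h1
  have h2 : gQ g (kap • e3 + v) - (kap • e2 + LM (TQ v)) =
      g.lift (PP + kap • e3 + v) - (lQ + kap • e2 + LM (TQ v)) := by
    unfold gQ
    rw [← add_assoc]; abel
  rw [h2]; exact h1

theorem approxR1 (p : E4) (hp : p ∈ U0) :
    ‖gR g p - (kap • e2 + LM (p - kap • e3))‖ ≤ dl := by
  have h1 := (hg p).1.le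
  have h3 := hp.1
  have h4 := hp.2
  rw [hF.u0 p (by linarith) (by linarith)] at h1
  have h2 : gR g p - (kap • e2 + LM (p - kap • e3)) = g.lift p - LM p := by
    unfold gR
    rw [map_sub, LM_R]; abel
  rw [h2]; exact h1

theorem approxR2 (v : E4) (hv : ∀ i, |v i| ≤ 1 / 100) :
    ‖gP g (kap • e2 + v) - ((kap / Lam) • e2 + LM v)‖ ≤ dl := by
  have h1 := (hg (PP + kap • e2 + v)).1.le
  rw [hF.nearR v hv] at h1
  have h2 : gP g (kap • e2 + v) - ((kap / Lam) • e2 + LM v) =
      g.lift (PP + kap • e2 + v) - (PP + lP + (kap / Lam) • e2 + LM v) := by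
    rw [gP_apply, ← add_assoc]; abel
  rw [h2]; exact h1

/-- preimages in the chart at `PP` -/
theorem backP (v : E4) (h0 : |v 0| ≤ 1 / 8) (h1 : lam ^ 2 * |v 1| ≤ 1 / 8) (h3 : |v 3| ≤ 1 / 8)
    (h2 : |v 2| ≤ 27 / 10000) :
    (gP g).symm v ∈ BP ∧ ‖(gP g) ((gP g).symm v) - LM (JJ ((gP g).symm v))‖ ≤ dl := by
  have key : ∃ p ∈ BP, gP g p = v := by
    refine solve_aux BP BP_closed 0 ?_ (LM.comp JJ) (JJi.comp LMi) (gP g) v ?_ ?_ ?_ ?_
    · refine ⟨?_, ?_, ?_, ?_⟩ <;> simp
    · intro w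
      rw [ContinuousLinearMap.comp_apply, ContinuousLinearMap.comp_apply, JJ_JJi, LM_LMi]
    · intro w
      exact (JJi_norm _).trans (LMi_norm w)
    · intro p hp q hq
      exact stepP F g hF hg p q hp hq
    · intro p hp
      have he := approxP F g hF hg p hp
      have he' : ‖gP g p - (LM.comp JJ) p‖ ≤ dl := he
      set e := gP g p - (LM.comp JJ) p with hedef
      have hi := mem_norm he'
      have hv : ∀ i, |(v - e) i| ≤ |v i| + dl := by
        intro i
        rw [Pi.sub_apply]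
        exact (abs_sub _ _).trans (by have := hi i; linarith)
      have hd : dl = 1 / 100000 := rfl
      have hl := lam_bounds
      have hL := Lam_bounds
      have hlp := lam_pos
      have hLp := Lam_pos
      have hB : (JJi.comp LMi) (v - e) = ![lam⁻¹ * (v - e) 0, Lam⁻¹ * (v - e) 3,
          (1 / Lam)⁻¹ * (v - e) 2, -((1 / lam)⁻¹ * (v - e) 1)] := by
        rw [ContinuousLinearMap.comp_apply, JJi_apply, LMi_apply, LMi_apply, LMi_apply, LMi_apply]
        rfl
      rw [hB]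
      refine ⟨?_, ?_, ?_, ?_⟩
      · show |lam⁻¹ * (v - e) 0| ≤ 1 / 20
        rw [abs_mul, abs_of_pos (inv_pos.mpr hlp), inv_mul_le_iff₀ hlp]
        have := hv 0
        linarith
      · show lam ^ 2 * |Lam⁻¹ * (v - e) 3| ≤ 1 / 20
        rw [abs_mul, abs_of_pos (inv_pos.mpr hLp), Lam_eq]
        have h4 : lam ^ 2 * ((lam ^ 3)⁻¹ * |(v - e) 3|) = lam⁻¹ * |(v - e) 3| := by
          field_simp
        rw [h4, inv_mul_le_iff₀ hlp]
        have := hv 3
        linarith
      · show |(1 / Lam)⁻¹ * (v - e) 2| ≤ 1 / 20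
        rw [one_div, inv_inv, abs_mul, abs_of_pos hLp]
        have := hv 2
        have h4 : |(v - e) 2| ≤ 271 / 100000 := by linarith
        calc Lam * |(v - e) 2| ≤ 17.945 * (271 / 100000) := by
              gcongr; exact hL.2.le
          _ ≤ 1 / 20 := by norm_num
      · show |(-((1 / lam)⁻¹ * (v - e) 1))| ≤ 1 / 20
        rw [abs_neg, one_div, inv_inv, abs_mul, abs_of_pos hlp]
        have h5 : lam * (lam * |v 1|) ≤ 1 / 8 := by
          rw [← mul_assoc, ← sq]; exact h1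
        have h6 : lam * |v 1| ≤ 0.04775 := by
          by_contra hcon
          push Not at hcon
          have : 2.618 * 0.04775 < lam * (lam * |v 1|) := by
            apply mul_lt_mul hl.1 hcon.le (by norm_num) hlp.le
          norm_num at this h5
          linarith
        have h7 := hv 1
        have h8 : lam * |(v - e) 1| ≤ lam * (|v 1| + dl) := by gcongr
        have h9 : lam * dl ≤ 2.6181 * (1 / 100000) := by
          rw [hd]; gcongr; exact hl.2.le
        rw [mul_add] at h8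
        have h10 : (0.04775 : ℝ) + 2.6181 * (1 / 100000) ≤ 1 / 20 := by norm_num
        linarith
  obtain ⟨p, hp, hpv⟩ := key
  have h4 : (gP g).symm v = p := by rw [← hpv, Equiv.symm_apply_apply]
  rw [h4]
  exact ⟨hp, approxP F g hF hg p hp⟩

/-- preimages near the invariant torus -/
theorem backU0 (q : E4) (h2 : |q 2| ≤ 68 / 10000) (h3 : |q 3| ≤ 1) :
    g.lift.symm q ∈ U0 := by
  have key : ∃ p ∈ U0, g.lift p = q := by
    refine solve_aux U0 U0_closed 0 ?_ LM LMi g.lift q LM_LMi LMi_norm ?_ ?_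
    · refine ⟨?_, ?_⟩ <;> simp
    · intro p hp r hr
      have h := (auxU0 F g hF hg).2 p hp r hr
      rwa [zero_add, zero_add] at h
    · intro p hp
      set e := g.lift p - LM p with hedef
      have hi : ∀ i, |e i| ≤ dl := by
        intro i
        have := approxU0 F g hF hg p hp i
        rw [hedef, Pi.sub_apply, LM_apply]
        exact this
      have hv : ∀ i, |(q - e) i| ≤ |q i| + dl := by
        intro i
        rw [Pi.sub_apply]
        exact (abs_sub _ _).trans (by have := hi i; linarith)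
      have hd : dl = 1 / 100000 := rfl
      have hL := Lam_bounds
      have hLp := Lam_pos
      refine ⟨?_, ?_⟩
      · rw [LMi_apply, dg_two, one_div, inv_inv, abs_mul, abs_of_pos hLp]
        have := hv 2
        have h4 : |(q - e) 2| ≤ 681 / 100000 := by linarith
        calc Lam * |(q - e) 2| ≤ 17.945 * (681 / 100000) := by
              gcongr; exact hL.2.le
          _ ≤ 1 / 8 := by norm_num
      · rw [LMi_apply, dg_three, abs_mul, abs_of_pos (inv_pos.mpr hLp), inv_mul_le_iff₀ hLp]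
        have := hv 3
        linarith
  obtain ⟨p, hp, hpv⟩ := key
  have h4 : g.lift.symm q = p := by rw [← hpv, Equiv.symm_apply_apply]
  rw [h4]
  exact hp

/-- preimages at the transition `R`, second step -/
theorem backR2 (v : E4) (h0 : |v 0| ≤ 1 / 1000) (h1 : |v 1| ≤ 1 / 1000) (h3 : |v 3| ≤ 1 / 1000)
    (h2 : |v 2 - kap / Lam| ≤ 1 / 2000) :
    ∀ i, |((gP g).symm v - kap • e2) i| ≤ 1 / 100 := by
  set S : Set E4 := {v : E4 | 1 * |v 0| ≤ 1 / 101} ∩ {v : E4 | 1 * |v 1| ≤ 1 / 101} ∩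
    {v : E4 | 1 * |v 2| ≤ 1 / 101} ∩ {v : E4 | 1 * |v 3| ≤ 1 / 101} with hS
  have hSi : ∀ u ∈ S, ∀ i, |u i| ≤ 1 / 101 := by
    rintro u ⟨⟨⟨h0, h1⟩, h2⟩, h3⟩ i
    have h0' : 1 * |u 0| ≤ 1 / 101 := h0
    have h1' : 1 * |u 1| ≤ 1 / 101 := h1
    have h2' : 1 * |u 2| ≤ 1 / 101 := h2
    have h3' : 1 * |u 3| ≤ 1 / 101 := h3
    rw [one_mul] at h0' h1' h2' h3'
    fin_cases i <;> assumption
  have hSc : IsClosed S := (((strip_closed 0 1 _).inter (strip_closed 1 _ _)).inter
    (strip_closed 2 1 _)).inter (strip_closed 3 1 _)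
  have hSconv : Convex ℝ S := (((strip_convex 0 1 (by norm_num) _).inter
    (strip_convex 1 1 (by norm_num) _)).inter (strip_convex 2 1 (by norm_num) _)).inter
    (strip_convex 3 1 (by norm_num) _)
  have haux := step_aux g.lift F.lift g.contDiff_lift F.contDiff_lift LM
    (PP + lP + (kap / Lam) • e2) (PP + kap • e2) S hSconv
    ({v : E4 | 1 * |v 0| < 1 / 100} ∩ {v : E4 | 1 * |v 1| < 1 / 100} ∩
      {v : E4 | 1 * |v 2| < 1 / 100} ∩ {v : E4 | 1 * |v 3| < 1 / 100})
    ((((strip_open 0 1 _).inter (strip_open 1 _ _)).inter (strip_open 2 1 _)).inter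
      (strip_open 3 1 _)) (by
        intro u hu
        have h := hSi u hu
        refine ⟨⟨⟨?_, ?_⟩, ?_⟩, ?_⟩
        · show 1 * |u 0| < 1 / 100
          have := h 0; linarith
        · show 1 * |u 1| < 1 / 100
          have := h 1; linarith
        · show 1 * |u 2| < 1 / 100
          have := h 2; linarith
        · show 1 * |u 3| < 1 / 100
          have := h 3; linarith) (by
        rintro u ⟨⟨⟨h0, h1⟩, h2⟩, h3⟩
        have h0' : 1 * |u 0| < 1 / 100 := h0
        have h1' : 1 * |u 1| < 1 / 100 := h1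
        have h2' : 1 * |u 2| < 1 / 100 := h2
        have h3' : 1 * |u 3| < 1 / 100 := h3
        rw [one_mul] at h0' h1' h2' h3'
        refine hF.nearR u ?_
        intro i
        fin_cases i
        · exact h0'.le
        · exact h1'.le
        · exact h2'.le
        · exact h3'.le) (fun p => (hg p).2)
  have key : ∃ u ∈ S, gP g (kap • e2 + u) - (kap / Lam) • e2 = v - (kap / Lam) • e2 := by
    refine solve_aux S hSc 0 ?_ LM LMi (fun u => gP g (kap • e2 + u) - (kap / Lam) • e2)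
      (v - (kap / Lam) • e2) LM_LMi LMi_norm ?_ ?_
    · refine ⟨⟨⟨?_, ?_⟩, ?_⟩, ?_⟩ <;> simp
    · intro p hp q hq
      have h := haux.2 p hp q hq
      have h4 : (gP g (kap • e2 + p) - (kap / Lam) • e2) - (gP g (kap • e2 + q) -
          (kap / Lam) • e2) - LM (p - q) =
          g.lift (PP + kap • e2 + p) - g.lift (PP + kap • e2 + q) - LM (p - q) := by
        rw [gP_apply, gP_apply, add_assoc, add_assoc]; abel
      rw [h4]; exact h
    · intro p hp
      have he := approxR2 F g hF hg p (fun i => (hSi p hp i).trans (by norm_num))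
      set e := (gP g (kap • e2 + p) - (kap / Lam) • e2) - LM p with hedef
      have he' : ‖e‖ ≤ dl := by
        have h4 : e = gP g (kap • e2 + p) - ((kap / Lam) • e2 + LM p) := by rw [hedef]; abel
        rw [h4]; exact he
      have hi := mem_norm he'
      set w : E4 := v - (kap / Lam) • e2 with hwdef
      have hw0 : |w 0| ≤ 1 / 1000 := by rw [hwdef]; simpa [e2] using h0
      have hw1 : |w 1| ≤ 1 / 1000 := by rw [hwdef]; simpa [e2] using h1
      have hw2 : |w 2| ≤ 1 / 2000 := by rw [hwdef]; simpa [e2] using h2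
      have hw3 : |w 3| ≤ 1 / 1000 := by rw [hwdef]; simpa [e2] using h3
      have hv : ∀ i, |(w - e) i| ≤ |w i| + dl := by
        intro i
        rw [Pi.sub_apply]
        exact (abs_sub _ _).trans (by have := hi i; linarith)
      have hd : dl = 1 / 100000 := rfl
      have hl := lam_bounds
      have hL := Lam_bounds
      have hlp := lam_pos
      have hLp := Lam_pos
      refine ⟨⟨⟨?_, ?_⟩, ?_⟩, ?_⟩
      · show 1 * |LMi (w - e) 0| ≤ 1 / 101
        rw [one_mul, LMi_apply, dg_zero, abs_mul, abs_of_pos (inv_pos.mpr hlp),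
          inv_mul_le_iff₀ hlp]
        have := hv 0
        linarith
      · show 1 * |LMi (w - e) 1| ≤ 1 / 101
        rw [one_mul, LMi_apply, dg_one, one_div, inv_inv, abs_mul, abs_of_pos hlp]
        have := hv 1
        have h4 : |(w - e) 1| ≤ 101 / 100000 := by linarith
        calc lam * |(w - e) 1| ≤ 2.6181 * (101 / 100000) := by
              gcongr; exact hl.2.le
          _ ≤ 1 / 101 := by norm_num
      · show 1 * |LMi (w - e) 2| ≤ 1 / 101
        rw [one_mul, LMi_apply, dg_two, one_div, inv_inv, abs_mul, abs_of_pos hLp]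
        have := hv 2
        have h4 : |(w - e) 2| ≤ 51 / 100000 := by linarith
        calc Lam * |(w - e) 2| ≤ 17.945 * (51 / 100000) := by
              gcongr; exact hL.2.le
          _ ≤ 1 / 101 := by norm_num
      · show 1 * |LMi (w - e) 3| ≤ 1 / 101
        rw [one_mul, LMi_apply, dg_three, abs_mul, abs_of_pos (inv_pos.mpr hLp),
          inv_mul_le_iff₀ hLp]
        have := hv 3
        linarith
  obtain ⟨u, hu, huv⟩ := key
  have h4 : gP g (kap • e2 + u) = v := by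
    have := congrArg (fun x => x + (kap / Lam) • e2) huv
    simpa using this
  have h5 : (gP g).symm v = kap • e2 + u := by rw [← h4, Equiv.symm_apply_apply]
  intro i
  rw [h5, add_sub_cancel_left]
  exact (hSi u hu i).trans (by norm_num)

/-! orbits in the charts are orbits of the torus map -/

omit hF hg in
theorem map_mk (p : E4) : g.map ((p : E4) : E4 ⧸ LL) = ((g.lift p : E4) : E4 ⧸ LL) := rfl

omit hF hg in
theorem map_symm_mk (p : E4) :
    g.map.symm ((p : E4) : E4 ⧸ LL) = ((g.lift.symm p : E4) : E4 ⧸ LL) := rfl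

omit hF hg in
theorem mk_sub_mem (p ℓ : E4) (hℓ : ℓ ∈ LL) : ((p - ℓ : E4) : E4 ⧸ LL) = ((p : E4) : E4 ⧸ LL) := by
  rw [QuotientAddGroup.eq]
  have : -(p - ℓ) + p = ℓ := by abel
  rw [this]; exact hℓ

omit hF hg in
theorem mk_add_mem (p ℓ : E4) (hℓ : ℓ ∈ LL) : ((p + ℓ : E4) : E4 ⧸ LL) = ((p : E4) : E4 ⧸ LL) := by
  have := mk_sub_mem p (-ℓ) (LL.neg_mem hℓ)
  rwa [sub_neg_eq_add] at this

omit hF hg in
theorem mk_gP_one (v : E4) :
    ((PP + gP g v : E4) : E4 ⧸ LL) = g.map ((PP + v : E4) : E4 ⧸ LL) := by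
  rw [map_mk, gP_apply]
  have : PP + (g.lift (PP + v) - PP - lP) = g.lift (PP + v) - lP := by abel
  rw [this, mk_sub_mem _ _ lP_mem]

omit hF hg in
theorem mk_gP_symm_one (v : E4) :
    ((PP + (gP g).symm v : E4) : E4 ⧸ LL) = g.map.symm ((PP + v : E4) : E4 ⧸ LL) := by
  have h1 : ((PP + v : E4) : E4 ⧸ LL) = ((v + PP + lP : E4) : E4 ⧸ LL) := by
    rw [mk_add_mem _ _ lP_mem, add_comm]
  rw [h1, map_symm_mk, gP_symm_apply]
  congr 1
  abel

theorem mk_gP (n : ℕ) (v : E4) :
    ((PP + (gP g)^[n] v : E4) : E4 ⧸ LL) = g.map^[n] ((PP + v : E4) : E4 ⧸ LL) := by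
  induction n with
  | zero => rfl
  | succ n ih => rw [Function.iterate_succ_apply', Function.iterate_succ_apply', mk_gP_one, ih]

theorem mk_gP_symm (n : ℕ) (v : E4) :
    ((PP + (gP g).symm^[n] v : E4) : E4 ⧸ LL) = g.map.symm^[n] ((PP + v : E4) : E4 ⧸ LL) := by
  induction n with
  | zero => rfl
  | succ n ih => rw [Function.iterate_succ_apply', Function.iterate_succ_apply', mk_gP_symm_one, ih]

theorem mk_lift (n : ℕ) (p : E4) :
    ((g.lift^[n] p : E4) : E4 ⧸ LL) = g.map^[n] (p : E4 ⧸ LL) := by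
  induction n with
  | zero => rfl
  | succ n ih => rw [Function.iterate_succ_apply', Function.iterate_succ_apply', ← map_mk, ih]

theorem mk_lift_symm (n : ℕ) (p : E4) :
    ((g.lift.symm^[n] p : E4) : E4 ⧸ LL) = g.map.symm^[n] (p : E4 ⧸ LL) := by
  induction n with
  | zero => rfl
  | succ n ih => rw [Function.iterate_succ_apply', Function.iterate_succ_apply', ← map_symm_mk, ih]

end

end Pool.Agent.MP_6961e8
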