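import Pool.Agent.MP_6961e8.NUM
import Pool.Agent.MP_6961e8.STEP

/-!
Module CONT: the continuation of the invariant torus.  Seat: helper96.
-/

open Filter Topology

namespace Pool.Agent.MP_6961e8

namespace CONT

/-! ### Numbers -/

theorem dg0 : dg 0 = lam := rfl
theorem dg1 : dg 1 = 1 / lam := rfl
theorem dg2 : dg 2 = 1 / Lam := rfl
theorem dg3 : dg 3 = Lam := rfl

theorem lam_gt : (5 / 2 : ℝ) < lam := by have := lam_bounds.1; linarith
theorem lam_pos : (0 : ℝ) < lam := by have := lam_gt; linarith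
theorem Lam_gt : (17 : ℝ) < Lam := by have := Lam_bounds.1; linarith
theorem Lam_pos : (0 : ℝ) < Lam := by have := Lam_gt; linarith
theorem inv_lam_le : 1 / lam ≤ 2 / 5 := by
  rw [div_le_div_iff₀ lam_pos (by norm_num)]
  have := lam_gt
  linarith
theorem inv_Lam_le : 1 / Lam ≤ 2 / 5 := by
  rw [div_le_div_iff₀ Lam_pos (by norm_num)]
  have := Lam_gt
  linarith

theorem div_lam_le {x c : ℝ} (_hc : 0 ≤ c) (h : |x| ≤ c) : |x / lam| ≤ 2 / 5 * c := by
  rw [abs_div, abs_of_pos lam_pos, div_eq_mul_one_div, mul_comm]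
  exact mul_le_mul inv_lam_le h (abs_nonneg _) (by norm_num)

theorem div_Lam_le {x c : ℝ} (_hc : 0 ≤ c) (h : |x| ≤ c) : |x / Lam| ≤ 2 / 5 * c := by
  rw [abs_div, abs_of_pos Lam_pos, div_eq_mul_one_div, mul_comm]
  exact mul_le_mul inv_Lam_le h (abs_nonneg _) (by norm_num)

/-! ### The expansive estimates -/

section
variable (F g : TorusDiffeo LL) (hF : IsModel F) (hg : C1Close dl F g)
include hF hg

/-- one step of the difference of two orbits in `U0` -/
theorem step_cone (p q : E4) (hp : p ∈ U0) (hq : q ∈ U0) :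
    (5 / 2) * max |(p - q) 0| |(p - q) 3| - dl * ‖p - q‖ ≤
      max |(g.lift p - g.lift q) 0| |(g.lift p - g.lift q) 3| ∧
    max |(g.lift p - g.lift q) 1| |(g.lift p - g.lift q) 2| ≤
      (2 / 5) * max |(p - q) 1| |(p - q) 2| + dl * ‖p - q‖ := by
  have s0 := stepU0 F g hF hg p q hp hq 0
  have s1 := stepU0 F g hF hg p q hp hq 1
  have s2 := stepU0 F g hF hg p q hp hq 2
  have s3 := stepU0 F g hF hg p q hp hq 3
  rw [dg0] at s0
  rw [dg1] at s1
  rw [dg2] at s2
  rw [dg3] at s3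
  simp only [Pi.sub_apply]
  have hl := lam_gt
  have hL := Lam_gt
  constructor
  · have a0 : (5 / 2) * |p 0 - q 0| - dl * ‖p - q‖ ≤ |g.lift p 0 - g.lift q 0| := by
      have h1 : |lam * (p 0 - q 0)| ≤ |g.lift p 0 - g.lift q 0| + dl * ‖p - q‖ := by
        have h2 : lam * (p 0 - q 0) = (g.lift p 0 - g.lift q 0) -
          (g.lift p 0 - g.lift q 0 - lam * (p 0 - q 0)) := by ring
        rw [h2]
        exact (abs_sub _ _).trans (add_le_add le_rfl s0)
      rw [abs_mul, abs_of_pos lam_pos] at h1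
      nlinarith [abs_nonneg (p 0 - q 0)]
    have a3 : (5 / 2) * |p 3 - q 3| - dl * ‖p - q‖ ≤ |g.lift p 3 - g.lift q 3| := by
      have h1 : |Lam * (p 3 - q 3)| ≤ |g.lift p 3 - g.lift q 3| + dl * ‖p - q‖ := by
        have h2 : Lam * (p 3 - q 3) = (g.lift p 3 - g.lift q 3) -
          (g.lift p 3 - g.lift q 3 - Lam * (p 3 - q 3)) := by ring
        rw [h2]
        exact (abs_sub _ _).trans (add_le_add le_rfl s3)
      rw [abs_mul, abs_of_pos Lam_pos] at h1
      nlinarith [abs_nonneg (p 3 - q 3)]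
    rcases le_total |p 0 - q 0| |p 3 - q 3| with h | h
    · rw [max_eq_right h]
      exact a3.trans (le_max_right _ _)
    · rw [max_eq_left h]
      exact a0.trans (le_max_left _ _)
  · have hm1 : |p 1 - q 1| ≤ max |p 1 - q 1| |p 2 - q 2| := le_max_left _ _
    have hm2 : |p 2 - q 2| ≤ max |p 1 - q 1| |p 2 - q 2| := le_max_right _ _
    refine max_le ?_ ?_
    · have h2 : g.lift p 1 - g.lift q 1 = (p 1 - q 1) / lam +
          (g.lift p 1 - g.lift q 1 - 1 / lam * (p 1 - q 1)) := by ring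
      rw [h2]
      refine (abs_add_le _ _).trans (add_le_add ?_ s1)
      exact div_lam_le ((abs_nonneg _).trans hm1) hm1
    · have h2 : g.lift p 2 - g.lift q 2 = (p 2 - q 2) / Lam +
          (g.lift p 2 - g.lift q 2 - 1 / Lam * (p 2 - q 2)) := by ring
      rw [h2]
      refine (abs_add_le _ _).trans (add_le_add ?_ s2)
      exact div_Lam_le ((abs_nonneg _).trans hm2) hm2

end

theorem norm_eq (v : E4) : ‖v‖ = max (max |v 0| |v 3|) (max |v 1| |v 2|) := by
  apply le_antisymm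
  · rw [pi_norm_le_iff_of_nonneg (by positivity)]
    intro i
    rw [Real.norm_eq_abs]
    fin_cases i
    · exact (le_max_left _ _).trans (le_max_left _ _)
    · exact (le_max_left _ _).trans (le_max_right _ _)
    · exact (le_max_right _ _).trans (le_max_right _ _)
    · exact (le_max_right _ _).trans (le_max_left _ _)
  · have h : ∀ i, |v i| ≤ ‖v‖ := fun i => by
      rw [← Real.norm_eq_abs]
      exact norm_le_pi_norm v i
    exact max_le (max_le (h 0) (h 3)) (max_le (h 1) (h 2))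

section
variable (F g : TorusDiffeo LL) (hF : IsModel F) (hg : C1Close dl F g)
include hF hg

theorem cone_forward (p q : E4) (hp : p ∈ U0) (hq : q ∈ U0)
    (hc : max |(p - q) 1| |(p - q) 2| ≤ max |(p - q) 0| |(p - q) 3|) :
    max |(g.lift p - g.lift q) 1| |(g.lift p - g.lift q) 2| ≤
      max |(g.lift p - g.lift q) 0| |(g.lift p - g.lift q) 3| ∧
    2 * max |(p - q) 0| |(p - q) 3| ≤ max |(g.lift p - g.lift q) 0| |(g.lift p - g.lift q) 3| := by
  obtain ⟨h1, h2⟩ := step_cone F g hF hg p q hp hq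
  have h3 : ‖p - q‖ = max |(p - q) 0| |(p - q) 3| := by
    rw [norm_eq, max_eq_left hc]
  have h4 : 0 ≤ max |(p - q) 0| |(p - q) 3| := by positivity
  rw [h3] at h1 h2
  unfold dl at h1 h2
  constructor <;> linarith

theorem cone_backward (p q : E4) (hp : p ∈ U0) (hq : q ∈ U0)
    (hc : max |(g.lift p - g.lift q) 0| |(g.lift p - g.lift q) 3| ≤
      max |(g.lift p - g.lift q) 1| |(g.lift p - g.lift q) 2|) :
    max |(p - q) 0| |(p - q) 3| ≤ max |(p - q) 1| |(p - q) 2| ∧
    2 * max |(g.lift p - g.lift q) 1| |(g.lift p - g.lift q) 2| ≤ max |(p - q) 1| |(p - q) 2| := by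
  obtain ⟨h1, h2⟩ := step_cone F g hF hg p q hp hq
  have h4 : 0 ≤ max |(p - q) 0| |(p - q) 3| := by positivity
  have h5 : 0 ≤ max |(p - q) 1| |(p - q) 2| := by positivity
  have key : max |(p - q) 0| |(p - q) 3| ≤ max |(p - q) 1| |(p - q) 2| := by
    by_contra hlt
    rw [not_le] at hlt
    have h3 : ‖p - q‖ = max |(p - q) 0| |(p - q) 3| := by
      rw [norm_eq, max_eq_left hlt.le]
    rw [h3] at h1 h2
    unfold dl at h1 h2
    linarith
  refine ⟨key, ?_⟩
  have h3 : ‖p - q‖ = max |(p - q) 1| |(p - q) 2| := by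
    rw [norm_eq, max_eq_right key]
  rw [h3] at h1 h2
  unfold dl at h1 h2
  linarith

/-- two orbits staying in `U0` with bounded difference are equal -/
theorem expansive (p q : E4) (C : ℝ) (hp : ∀ n : ℕ, g.lift^[n] p ∈ U0)
    (hq : ∀ n : ℕ, g.lift^[n] q ∈ U0) (hp' : ∀ n : ℕ, g.lift.symm^[n] p ∈ U0)
    (hq' : ∀ n : ℕ, g.lift.symm^[n] q ∈ U0) (hC : ∀ n : ℕ, ‖g.lift^[n] p - g.lift^[n] q‖ ≤ C)
    (hC' : ∀ n : ℕ, ‖g.lift.symm^[n] p - g.lift.symm^[n] q‖ ≤ C) : p = q := by
  have hzero : ∀ x : ℝ, 0 ≤ x → (∀ n : ℕ, 2 ^ n * x ≤ C) → x = 0 := by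
    intro x hx h
    by_contra hne
    have hx' : 0 < x := lt_of_le_of_ne hx (Ne.symm hne)
    obtain ⟨n, hn⟩ := pow_unbounded_of_one_lt (C / x) (show (1 : ℝ) < 2 by norm_num)
    rw [div_lt_iff₀ hx'] at hn
    exact absurd (h n) (not_le.mpr hn)
  rcases le_total (max |(p - q) 1| |(p - q) 2|) (max |(p - q) 0| |(p - q) 3|) with h | h
  · have key : ∀ n : ℕ, max |(g.lift^[n] p - g.lift^[n] q) 1| |(g.lift^[n] p - g.lift^[n] q) 2| ≤
        max |(g.lift^[n] p - g.lift^[n] q) 0| |(g.lift^[n] p - g.lift^[n] q) 3| ∧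
        2 ^ n * max |(p - q) 0| |(p - q) 3| ≤
          max |(g.lift^[n] p - g.lift^[n] q) 0| |(g.lift^[n] p - g.lift^[n] q) 3| := by
      intro n
      induction n with
      | zero => exact ⟨h, by simp⟩
      | succ n ih =>
        have h1 := cone_forward F g hF hg _ _ (hp n) (hq n) ih.1
        rw [← Function.iterate_succ_apply' g.lift n p, ← Function.iterate_succ_apply' g.lift n q]
          at h1
        refine ⟨h1.1, ?_⟩
        rw [pow_succ]
        linarith [h1.2, ih.2]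
    have h1 : max |(p - q) 0| |(p - q) 3| = 0 := by
      apply hzero _ (by positivity)
      intro n
      refine (key n).2.trans (le_trans ?_ (hC n))
      rw [norm_eq]
      exact le_max_left _ _
    have h2 : ‖p - q‖ = 0 := by
      rw [norm_eq, max_eq_left h, h1]
    exact sub_eq_zero.mp (norm_eq_zero.mp h2)
  · have key : ∀ n : ℕ, max |(g.lift.symm^[n] p - g.lift.symm^[n] q) 0|
        |(g.lift.symm^[n] p - g.lift.symm^[n] q) 3| ≤
        max |(g.lift.symm^[n] p - g.lift.symm^[n] q) 1|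
          |(g.lift.symm^[n] p - g.lift.symm^[n] q) 2| ∧
        2 ^ n * max |(p - q) 1| |(p - q) 2| ≤
          max |(g.lift.symm^[n] p - g.lift.symm^[n] q) 1|
            |(g.lift.symm^[n] p - g.lift.symm^[n] q) 2| := by
      intro n
      induction n with
      | zero => exact ⟨h, by simp⟩
      | succ n ih =>
        have e : ∀ x : E4, g.lift.symm^[n] x = g.lift (g.lift.symm^[n + 1] x) := by
          intro x
          rw [Function.iterate_succ_apply', Equiv.apply_symm_apply]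
        have ih1 := ih.1
        have ih2 := ih.2
        rw [e p, e q] at ih1 ih2
        have h1 := cone_backward F g hF hg _ _ (hp' (n + 1)) (hq' (n + 1)) ih1
        refine ⟨h1.1, ?_⟩
        rw [pow_succ]
        linarith [h1.2, ih2]
    have h1 : max |(p - q) 1| |(p - q) 2| = 0 := by
      apply hzero _ (by positivity)
      intro n
      refine (key n).2.trans (le_trans ?_ (hC' n))
      rw [norm_eq]
      exact le_max_right _ _
    have h2 : ‖p - q‖ = 0 := by
      rw [norm_eq, max_eq_right h, h1]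
    exact sub_eq_zero.mp (norm_eq_zero.mp h2)

end

/-! ### The fixed point equation -/

/-- truncation to `[-1/8, 1/8]` -/
noncomputable def cl (t : ℝ) : ℝ := max (-(1 / 8)) (min (1 / 8) t)

theorem abs_cl_le (t : ℝ) : |cl t| ≤ 1 / 8 := by
  unfold cl
  rw [abs_le]
  exact ⟨le_max_left _ _, max_le (by norm_num) (min_le_left _ _)⟩

theorem cl_sub_le (s t : ℝ) : |cl s - cl t| ≤ |s - t| := by
  unfold cl
  rw [max_comm, max_comm (-(1 / 8))]
  refine (abs_max_sub_max_le_abs (min (1 / 8) s) (min (1 / 8) t) (-(1 / 8))).trans ?_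
  have h := abs_min_sub_min_le_max (1 / 8) s (1 / 8) t
  rw [sub_self, abs_zero, max_eq_right (abs_nonneg _)] at h
  exact h

theorem cl_eq {t : ℝ} (h : |t| ≤ 1 / 8) : cl t = t := by
  unfold cl
  rw [abs_le] at h
  rw [min_eq_right h.2, max_eq_right h.1]

theorem continuous_cl : Continuous cl := by
  unfold cl
  fun_prop

/-- retraction to `U0` -/
noncomputable def rr (p : E4) : E4 := ![p 0, p 1, cl (p 2), cl (p 3)]

theorem rr_mem (p : E4) : rr p ∈ U0 := ⟨abs_cl_le _, abs_cl_le _⟩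

theorem rr_eq {p : E4} (hp : p ∈ U0) : rr p = p := by
  ext i
  fin_cases i
  · rfl
  · rfl
  · exact cl_eq hp.1
  · exact cl_eq hp.2

theorem rr_sub_le (p q : E4) : ‖rr p - rr q‖ ≤ ‖p - q‖ := by
  rw [pi_norm_le_iff_of_nonneg (norm_nonneg _)]
  intro i
  refine le_trans ?_ (norm_le_pi_norm (p - q) i)
  rw [Real.norm_eq_abs, Real.norm_eq_abs]
  fin_cases i
  · exact le_rfl
  · exact le_rfl
  · exact cl_sub_le _ _
  · exact cl_sub_le _ _

theorem continuous_rr : Continuous rr := by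
  unfold rr
  refine continuous_pi fun i => ?_
  fin_cases i
  · exact continuous_apply 0
  · exact continuous_apply 1
  · exact continuous_cl.comp (continuous_apply 2)
  · exact continuous_cl.comp (continuous_apply 3)

/-- the nonlinear part -/
noncomputable def ff (g : TorusDiffeo LL) (p : E4) (i : Fin 4) : ℝ :=
  g.lift (rr p) i - dg i * rr p i

theorem continuous_ff (g : TorusDiffeo LL) (i : Fin 4) : Continuous fun p => ff g p i := by
  unfold ff
  have h1 : Continuous g.lift := g.contDiff_lift.continuous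
  exact ((continuous_apply i).comp (h1.comp continuous_rr)).sub
    (continuous_const.mul ((continuous_apply i).comp continuous_rr))

noncomputable def AA (z : ℝ × ℝ) : ℝ × ℝ := (lam * z.1, z.2 / lam)
noncomputable def AI (z : ℝ × ℝ) : ℝ × ℝ := (z.1 / lam, lam * z.2)

theorem AI_AA (z : ℝ × ℝ) : AI (AA z) = z := by
  have := lam_pos.ne'
  unfold AI AA
  ext
  · simp only
    field_simp
  · simp only
    field_simp

theorem AA_AI (z : ℝ × ℝ) : AA (AI z) = z := by
  have := lam_pos.ne'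
  unfold AI AA
  ext
  · simp only
    field_simp
  · simp only
    field_simp

theorem continuous_AA : Continuous AA := by
  unfold AA
  fun_prop

theorem continuous_AI : Continuous AI := by
  unfold AI
  fun_prop

theorem continuous_h0 : Continuous h0 := by
  unfold h0
  refine continuous_pi fun i => ?_
  fin_cases i
  · exact continuous_fst
  · exact continuous_snd
  · exact continuous_const
  · exact continuous_const

/-- the operator -/
noncomputable def GG (g : TorusDiffeo LL) (w : ℝ × ℝ → E4) (z : ℝ × ℝ) : E4 :=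
  ![(w (AA z) 0 - ff g (h0 z + w z) 0) / lam,
    w (AI z) 1 / lam + ff g (h0 (AI z) + w (AI z)) 1,
    w (AI z) 2 / Lam + ff g (h0 (AI z) + w (AI z)) 2,
    (w (AA z) 3 - ff g (h0 z + w z) 3) / Lam]

theorem continuous_GG (g : TorusDiffeo LL) (w : ℝ × ℝ → E4) (hw : Continuous w) :
    Continuous (GG g w) := by
  have c1 : ∀ i, Continuous fun z => w (AA z) i := fun i =>
    (continuous_apply i).comp (hw.comp continuous_AA)
  have c2 : ∀ i, Continuous fun z => w (AI z) i := fun i =>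
    (continuous_apply i).comp (hw.comp continuous_AI)
  have c3 : ∀ i, Continuous fun z => ff g (h0 z + w z) i := fun i =>
    (continuous_ff g i).comp (continuous_h0.add hw)
  have c4 : ∀ i, Continuous fun z => ff g (h0 (AI z) + w (AI z)) i := fun i =>
    (c3 i).comp continuous_AI
  unfold GG
  refine continuous_pi fun i => ?_
  fin_cases i
  · exact ((c1 0).sub (c3 0)).div_const _
  · exact ((c2 1).div_const _).add (c4 1)
  · exact ((c2 2).div_const _).add (c4 2)
  · exact ((c1 3).sub (c3 3)).div_const _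

section
variable (F g : TorusDiffeo LL) (hF : IsModel F) (hg : C1Close dl F g)
include hF hg

theorem abs_ff_le (p : E4) (i : Fin 4) : |ff g p i| ≤ dl :=
  approxU0 F g hF hg (rr p) (rr_mem p) i

theorem ff_sub_le (p q : E4) (i : Fin 4) : |ff g p i - ff g q i| ≤ dl * ‖p - q‖ := by
  have h1 := stepU0 F g hF hg (rr p) (rr q) (rr_mem p) (rr_mem q) i
  have h2 : ff g p i - ff g q i =
      g.lift (rr p) i - g.lift (rr q) i - dg i * (rr p i - rr q i) := by
    unfold ff
    ring
  rw [h2]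
  refine h1.trans (mul_le_mul_of_nonneg_left (rr_sub_le p q) ?_)
  unfold dl
  norm_num

theorem norm_GG_le (w : ℝ × ℝ → E4) {C : ℝ} (hC : 0 ≤ C) (hw : ∀ z, ‖w z‖ ≤ C) (z : ℝ × ℝ) :
    ‖GG g w z‖ ≤ 1 / 2 * C + dl := by
  have hd : (0 : ℝ) ≤ dl := by unfold dl; norm_num
  have hwi : ∀ z i, |w z i| ≤ C := fun z i => by
    rw [← Real.norm_eq_abs]
    exact (norm_le_pi_norm (w z) i).trans (hw z)
  have hf := fun p i => abs_ff_le F g hF hg p i
  have e1 : ∀ z z' i, |w z i - ff g z' i| ≤ C + dl := fun z z' i =>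
    (abs_sub _ _).trans (add_le_add (hwi z i) (hf _ _))
  rw [pi_norm_le_iff_of_nonneg (by positivity)]
  intro i
  rw [Real.norm_eq_abs]
  fin_cases i
  · exact (div_lam_le (by positivity) (e1 (AA z) (h0 z + w z) 0)).trans (by linarith)
  · refine (abs_add_le _ _).trans ((add_le_add (div_lam_le hC (hwi _ _)) (hf _ _)).trans ?_)
    linarith
  · refine (abs_add_le _ _).trans ((add_le_add (div_Lam_le hC (hwi _ _)) (hf _ _)).trans ?_)
    linarith
  · exact (div_Lam_le (by positivity) (e1 (AA z) (h0 z + w z) 3)).trans (by linarith)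

theorem norm_GG_sub_le (w w' : ℝ × ℝ → E4) {C : ℝ} (hC : 0 ≤ C) (hw : ∀ z, ‖w z - w' z‖ ≤ C)
    (z : ℝ × ℝ) : ‖GG g w z - GG g w' z‖ ≤ 1 / 2 * C := by
  have hd : (0 : ℝ) ≤ dl := by unfold dl; norm_num
  have hwi : ∀ z i, |w z i - w' z i| ≤ C := fun z i => by
    rw [← Real.norm_eq_abs]
    exact (norm_le_pi_norm (w z - w' z) i).trans (hw z)
  have hf : ∀ z i, |ff g (h0 z + w z) i - ff g (h0 z + w' z) i| ≤ dl * C := fun z i => by
    refine (ff_sub_le F g hF hg _ _ i).trans (mul_le_mul_of_nonneg_left ?_ hd)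
    rw [add_sub_add_left_eq_sub]
    exact hw z
  rw [pi_norm_le_iff_of_nonneg (by positivity)]
  intro i
  rw [Real.norm_eq_abs]
  have hdC : 0 ≤ dl * C := mul_nonneg hd hC
  have hdC' : dl * C ≤ 1 / 100 * C := mul_le_mul_of_nonneg_right (by unfold dl; norm_num) hC
  fin_cases i
  · show |(w (AA z) 0 - ff g (h0 z + w z) 0) / lam - (w' (AA z) 0 - ff g (h0 z + w' z) 0) / lam| ≤ _
    have e : (w (AA z) 0 - ff g (h0 z + w z) 0) / lam - (w' (AA z) 0 - ff g (h0 z + w' z) 0) / lam
        = ((w (AA z) 0 - w' (AA z) 0) - (ff g (h0 z + w z) 0 - ff g (h0 z + w' z) 0)) / lam := by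
      ring
    rw [e]
    refine (div_lam_le (by positivity) ((abs_sub _ _).trans (add_le_add (hwi _ _) (hf _ _)))).trans ?_
    linarith
  · show |w (AI z) 1 / lam + ff g (h0 (AI z) + w (AI z)) 1 -
      (w' (AI z) 1 / lam + ff g (h0 (AI z) + w' (AI z)) 1)| ≤ _
    have e : w (AI z) 1 / lam + ff g (h0 (AI z) + w (AI z)) 1 -
      (w' (AI z) 1 / lam + ff g (h0 (AI z) + w' (AI z)) 1) = (w (AI z) 1 - w' (AI z) 1) / lam +
      (ff g (h0 (AI z) + w (AI z)) 1 - ff g (h0 (AI z) + w' (AI z)) 1) := by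
      ring
    rw [e]
    refine (abs_add_le _ _).trans ((add_le_add (div_lam_le hC (hwi _ _)) (hf _ _)).trans ?_)
    linarith
  · show |w (AI z) 2 / Lam + ff g (h0 (AI z) + w (AI z)) 2 -
      (w' (AI z) 2 / Lam + ff g (h0 (AI z) + w' (AI z)) 2)| ≤ _
    have e : w (AI z) 2 / Lam + ff g (h0 (AI z) + w (AI z)) 2 -
      (w' (AI z) 2 / Lam + ff g (h0 (AI z) + w' (AI z)) 2) = (w (AI z) 2 - w' (AI z) 2) / Lam +
      (ff g (h0 (AI z) + w (AI z)) 2 - ff g (h0 (AI z) + w' (AI z)) 2) := by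
      ring
    rw [e]
    refine (abs_add_le _ _).trans ((add_le_add (div_Lam_le hC (hwi _ _)) (hf _ _)).trans ?_)
    linarith
  · show |(w (AA z) 3 - ff g (h0 z + w z) 3) / Lam - (w' (AA z) 3 - ff g (h0 z + w' z) 3) / Lam| ≤ _
    have e : (w (AA z) 3 - ff g (h0 z + w z) 3) / Lam - (w' (AA z) 3 - ff g (h0 z + w' z) 3) / Lam
        = ((w (AA z) 3 - w' (AA z) 3) - (ff g (h0 z + w z) 3 - ff g (h0 z + w' z) 3)) / Lam := by
      ring
    rw [e]
    refine (div_Lam_le (by positivity) ((abs_sub _ _).trans (add_le_add (hwi _ _) (hf _ _)))).trans ?_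
    linarith

open BoundedContinuousFunction in
/-- existence of the fixed point -/
theorem exists_fixed : ∃ w : ℝ × ℝ → E4, Continuous w ∧ (∀ z, ‖w z‖ ≤ 1 / 1000) ∧
    ∀ z, GG g w z = w z := by
  let Φ : ((ℝ × ℝ) →ᵇ E4) → ((ℝ × ℝ) →ᵇ E4) := fun w =>
    BoundedContinuousFunction.ofNormedAddCommGroup (GG g w) (continuous_GG g w w.continuous)
      (1 / 2 * ‖w‖ + dl) (norm_GG_le F g hF hg w (norm_nonneg _) w.norm_coe_le_norm)
  have hΦ : ContractingWith (1 / 2) Φ := by
    refine ⟨?_, LipschitzWith.of_dist_le_mul fun w w' => ?_⟩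
    · rw [← NNReal.coe_lt_coe]
      norm_num
    · rw [BoundedContinuousFunction.dist_le (by positivity)]
      intro z
      rw [dist_eq_norm]
      have h1 := norm_GG_sub_le F g hF hg w w' (C := dist w w') dist_nonneg
        (fun z => by rw [← dist_eq_norm]; exact BoundedContinuousFunction.dist_coe_le_dist z) z
      refine h1.trans (le_of_eq ?_)
      simp
  set w := hΦ.fixedPoint Φ with hw
  have hfix : Φ w = w := hΦ.fixedPoint_isFixedPt
  have hfix' : ∀ z, GG g w z = w z := fun z => by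
    conv_rhs => rw [← hfix]
    rfl
  refine ⟨w, w.continuous, ?_, hfix'⟩
  have h1 : ‖w‖ ≤ 1 / 2 * ‖w‖ + dl := by
    rw [BoundedContinuousFunction.norm_le (by unfold dl; positivity)]
    intro z
    rw [← hfix' z]
    exact norm_GG_le F g hF hg w (norm_nonneg _) w.norm_coe_le_norm z
  have h2 : ‖w‖ ≤ 1 / 1000 := by
    unfold dl at h1
    linarith
  exact fun z => (w.norm_coe_le_norm z).trans h2

end

/-! ### Weak continuations -/

/-- a continuation, without periodicity -/
structure Weak (g : TorusDiffeo LL) (h : ℝ × ℝ → E4) : Prop where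
  close : ∀ z, ‖h z - h0 z‖ ≤ 1 / 1000
  conj : ∀ z, g.lift (h z) = h (AA z)

theorem IsCont.weak {g : TorusDiffeo LL} {h : ℝ × ℝ → E4} (hh : IsCont g h) : Weak g h :=
  ⟨hh.close, hh.conj⟩

theorem mem_U0_of_close {q : E4} {z : ℝ × ℝ} (h : ‖q - h0 z‖ ≤ 1 / 10) : q ∈ U0 := by
  have h2 := (norm_le_pi_norm (q - h0 z) 2).trans h
  have h3 := (norm_le_pi_norm (q - h0 z) 3).trans h
  rw [Real.norm_eq_abs, Pi.sub_apply] at h2 h3
  have e2 : h0 z 2 = 0 := rfl
  have e3 : h0 z 3 = 0 := rfl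
  rw [e2, sub_zero] at h2
  rw [e3, sub_zero] at h3
  exact ⟨by linarith, by linarith⟩

theorem AA_iter (n : ℕ) (z : ℝ × ℝ) : AA^[n] z = (lam ^ n * z.1, z.2 / lam ^ n) := by
  induction n with
  | zero => simp
  | succ n ih =>
    rw [Function.iterate_succ_apply', ih]
    unfold AA
    have := lam_pos.ne'
    ext
    · simp only
      ring
    · simp only
      field_simp
      ring

theorem AI_iter (n : ℕ) (z : ℝ × ℝ) : AI^[n] z = (z.1 / lam ^ n, lam ^ n * z.2) := by
  induction n with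
  | zero => simp
  | succ n ih =>
    rw [Function.iterate_succ_apply', ih]
    unfold AI
    have := lam_pos.ne'
    ext
    · simp only
      field_simp
      ring
    · simp only
      ring

section
variable {g : TorusDiffeo LL} {h : ℝ × ℝ → E4} (hh : Weak g h)
include hh

theorem iter_h (n : ℕ) (z : ℝ × ℝ) : g.lift^[n] (h z) = h (AA^[n] z) := by
  induction n with
  | zero => rfl
  | succ n ih => rw [Function.iterate_succ_apply', ih, hh.conj, Function.iterate_succ_apply']

theorem symm_h (z : ℝ × ℝ) : g.lift.symm (h z) = h (AI z) := by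
  rw [Equiv.symm_apply_eq, hh.conj, AA_AI]

theorem iter_symm_h (n : ℕ) (z : ℝ × ℝ) : g.lift.symm^[n] (h z) = h (AI^[n] z) := by
  induction n with
  | zero => rfl
  | succ n ih => rw [Function.iterate_succ_apply', ih, symm_h hh, Function.iterate_succ_apply']

end

section
variable (F g : TorusDiffeo LL) (hF : IsModel F) (hg : C1Close dl F g)
include hF hg

theorem shadow_weak (h : ℝ × ℝ → E4) (hh : Weak g h) (z : ℝ × ℝ) (q : E4)
    (hfor : ∀ n : ℕ, ‖g.lift^[n] q - h0 (AA^[n] z)‖ ≤ 1 / 10)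
    (hback : ∀ n : ℕ, ‖g.lift.symm^[n] q - h0 (AI^[n] z)‖ ≤ 1 / 10) : q = h z := by
  have hc : ∀ z, ‖h z - h0 z‖ ≤ 1 / 10 := fun z => (hh.close z).trans (by norm_num)
  have hd : ∀ a b c : E4, ‖a - c‖ ≤ 1 / 10 → ‖b - c‖ ≤ 1 / 10 → ‖a - b‖ ≤ 1 / 5 := by
    intro a b c h1 h2
    have h3 : a - b = (a - c) - (b - c) := by abel
    rw [h3]
    refine (norm_sub_le _ _).trans ?_
    linarith
  refine expansive F g hF hg q (h z) (1 / 5) (fun n => mem_U0_of_close (hfor n)) ?_
    (fun n => mem_U0_of_close (hback n)) ?_ ?_ ?_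
  · intro n
    rw [iter_h hh]
    exact mem_U0_of_close (hc _)
  · intro n
    rw [iter_symm_h hh]
    exact mem_U0_of_close (hc _)
  · intro n
    rw [iter_h hh]
    exact hd _ _ _ (hfor n) (hc _)
  · intro n
    rw [iter_symm_h hh]
    exact hd _ _ _ (hback n) (hc _)

theorem per_forward (h : ℝ × ℝ → E4) (hh : Weak g h) (n : ℕ) : ∀ (z : ℝ × ℝ) (ℓ : E4), ℓ ∈ LL →
    ℓ 2 = 0 → ℓ 3 = 0 →
    ‖g.lift^[n] (h (z.1 + ℓ 0, z.2 + ℓ 1) - ℓ) - h0 (AA^[n] z)‖ ≤ 1 / 10 := by
  induction n with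
  | zero =>
    intro z ℓ _ h2 h3
    simp only [Function.iterate_zero, id]
    have e : h (z.1 + ℓ 0, z.2 + ℓ 1) - ℓ - h0 z =
        h (z.1 + ℓ 0, z.2 + ℓ 1) - h0 (z.1 + ℓ 0, z.2 + ℓ 1) := by
      ext i
      unfold h0
      fin_cases i
      · simp; ring
      · simp; ring
      · simp [h2]
      · simp [h3]
    rw [e]
    exact (hh.close _).trans (by norm_num)
  | succ n ih =>
    intro z ℓ hℓ h2 h3
    rw [Function.iterate_succ_apply, Function.iterate_succ_apply]
    have e1 : g.lift (h (z.1 + ℓ 0, z.2 + ℓ 1) - ℓ) = g.lift (h (z.1 + ℓ 0, z.2 + ℓ 1)) - LM ℓ := by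
      have h4 := g_per F g hF hg (h (z.1 + ℓ 0, z.2 + ℓ 1) - ℓ) ℓ hℓ
      rw [sub_add_cancel] at h4
      rw [h4, add_sub_cancel_right]
    have e2 : AA (z.1 + ℓ 0, z.2 + ℓ 1) = ((AA z).1 + LM ℓ 0, (AA z).2 + LM ℓ 1) := by
      rw [LM_apply, LM_apply, dg0, dg1]
      unfold AA
      ext
      · simp only
        ring
      · simp only
        ring
    rw [e1, hh.conj, e2]
    refine ih (AA z) (LM ℓ) (LM_mem ℓ hℓ) ?_ ?_
    · rw [LM_apply, h2, mul_zero]
    · rw [LM_apply, h3, mul_zero]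

theorem per_backward (h : ℝ × ℝ → E4) (hh : Weak g h) (n : ℕ) : ∀ (z : ℝ × ℝ) (ℓ : E4), ℓ ∈ LL →
    ℓ 2 = 0 → ℓ 3 = 0 →
    ‖g.lift.symm^[n] (h (z.1 + ℓ 0, z.2 + ℓ 1) - ℓ) - h0 (AI^[n] z)‖ ≤ 1 / 10 := by
  induction n with
  | zero =>
    intro z ℓ hℓ h2 h3
    exact per_forward F g hF hg h hh 0 z ℓ hℓ h2 h3
  | succ n ih =>
    intro z ℓ hℓ h2 h3
    rw [Function.iterate_succ_apply, Function.iterate_succ_apply]
    obtain ⟨m, hm, rfl⟩ := LM_mem_inv ℓ hℓ
    rw [LM_apply] at h2 h3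
    rw [dg2] at h2
    rw [dg3] at h3
    have hL := Lam_pos.ne'
    have hl := lam_pos.ne'
    have m2 : m 2 = 0 := by
      rcases mul_eq_zero.mp h2 with h | h
      · exact absurd h (by positivity)
      · exact h
    have m3 : m 3 = 0 := by
      rcases mul_eq_zero.mp h3 with h | h
      · exact absurd h hL
      · exact h
    have e2 : AI (z.1 + LM m 0, z.2 + LM m 1) = ((AI z).1 + m 0, (AI z).2 + m 1) := by
      rw [LM_apply, LM_apply, dg0, dg1]
      unfold AI
      ext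
      · simp only
        field_simp
      · simp only
        field_simp
    have e1 : g.lift.symm (h (z.1 + LM m 0, z.2 + LM m 1) - LM m) =
        h ((AI z).1 + m 0, (AI z).2 + m 1) - m := by
      rw [Equiv.symm_apply_eq]
      have h4 := g_per F g hF hg (h ((AI z).1 + m 0, (AI z).2 + m 1) - m) m hm
      rw [sub_add_cancel] at h4
      rw [← e2, ← symm_h hh, Equiv.apply_symm_apply] at h4
      rw [← e2, ← symm_h hh]
      exact sub_eq_iff_eq_add.mpr h4
    rw [e1]
    exact ih (AI z) m hm m2 m3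

end

end CONT

open CONT

section
variable (F g : TorusDiffeo LL) (hF : IsModel F) (hg : C1Close dl F g)
include hF hg

theorem exists_cont : ∃ h, IsCont g h := by
  obtain ⟨w, hw, hb, hfix⟩ := exists_fixed F g hF hg
  have hU : ∀ z, h0 z + w z ∈ U0 := fun z =>
    mem_U0_of_close (z := z) (by rw [add_sub_cancel_left]; exact (hb z).trans (by norm_num))
  have hff : ∀ z i, ff g (h0 z + w z) i = g.lift (h0 z + w z) i - dg i * (h0 z + w z) i := by
    intro z i
    unfold ff
    rw [rr_eq (hU z)]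
  have hl := lam_pos.ne'
  have hL := Lam_pos.ne'
  have hweak : Weak g (fun z => h0 z + w z) := by
    refine ⟨fun z => ?_, fun z => ?_⟩
    · rw [add_sub_cancel_left]
      exact hb z
    · have f0 : (w (AA z) 0 - ff g (h0 z + w z) 0) / lam = w z 0 := congrFun (hfix z) 0
      have f3 : (w (AA z) 3 - ff g (h0 z + w z) 3) / Lam = w z 3 := congrFun (hfix z) 3
      have f1 : w (AI (AA z)) 1 / lam + ff g (h0 (AI (AA z)) + w (AI (AA z))) 1 = w (AA z) 1 :=
        congrFun (hfix (AA z)) 1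
      have f2 : w (AI (AA z)) 2 / Lam + ff g (h0 (AI (AA z)) + w (AI (AA z))) 2 = w (AA z) 2 :=
        congrFun (hfix (AA z)) 2
      rw [AI_AA] at f1 f2
      rw [hff, dg0, div_eq_iff hl] at f0
      rw [hff, dg3, div_eq_iff hL] at f3
      rw [hff, dg1] at f1
      rw [hff, dg2] at f2
      have a0 : h0 (AA z) 0 = lam * z.1 := rfl
      have a1 : h0 (AA z) 1 = z.2 / lam := rfl
      have a2 : h0 (AA z) 2 = 0 := rfl
      have a3 : h0 (AA z) 3 = 0 := rfl
      have b0 : h0 z 0 = z.1 := rfl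
      have b1 : h0 z 1 = z.2 := rfl
      have b2 : h0 z 2 = 0 := rfl
      have b3 : h0 z 3 = 0 := rfl
      rw [Pi.add_apply, b0] at f0
      rw [Pi.add_apply, b1] at f1
      rw [Pi.add_apply, b2] at f2
      rw [Pi.add_apply, b3] at f3
      ext i
      fin_cases i
      · show g.lift (h0 z + w z) 0 = h0 (AA z) 0 + w (AA z) 0
        rw [a0]
        linarith
      · show g.lift (h0 z + w z) 1 = h0 (AA z) 1 + w (AA z) 1
        rw [a1]
        have : 1 / lam * (z.2 + w z 1) = z.2 / lam + w z 1 / lam := by ring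
        linarith
      · show g.lift (h0 z + w z) 2 = h0 (AA z) 2 + w (AA z) 2
        rw [a2]
        have : 1 / Lam * (0 + w z 2) = w z 2 / Lam := by ring
        linarith
      · show g.lift (h0 z + w z) 3 = h0 (AA z) 3 + w (AA z) 3
        rw [a3]
        linarith
  refine ⟨fun z => h0 z + w z, ⟨continuous_h0.add hw, hweak.close, hweak.conj, ?_⟩⟩
  intro z ℓ hℓ h2 h3
  have h := shadow_weak F g hF hg _ hweak z
    ((fun z => h0 z + w z) (z.1 + ℓ 0, z.2 + ℓ 1) - ℓ)
    (fun n => per_forward F g hF hg _ hweak n z ℓ hℓ h2 h3)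
    (fun n => per_backward F g hF hg _ hweak n z ℓ hℓ h2 h3)
  exact sub_eq_iff_eq_add.mp h

/-- uniqueness of shadowing orbits -/
theorem shadow_unique (h : ℝ × ℝ → E4) (hh : IsCont g h) (z : ℝ × ℝ) (q : E4)
    (hfor : ∀ n : ℕ, ‖g.lift^[n] q - h0 (lam ^ n * z.1, z.2 / lam ^ n)‖ ≤ 1 / 10)
    (hback : ∀ n : ℕ, ‖g.lift.symm^[n] q - h0 (z.1 / lam ^ n, lam ^ n * z.2)‖ ≤ 1 / 10) :
    q = h z :=
  shadow_weak F g hF hg h (IsCont.weak hh) z q (fun n => by rw [AA_iter]; exact hfor n)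
    (fun n => by rw [AI_iter]; exact hback n)

/-- injectivity modulo the lattice -/
theorem cont_inj (h : ℝ × ℝ → E4) (hh : IsCont g h) (z z' : ℝ × ℝ)
    (heq : (h z : E4 ⧸ LL) = (h z' : E4 ⧸ LL)) :
    ∃ ℓ ∈ LL, ℓ 2 = 0 ∧ ℓ 3 = 0 ∧ z = (z'.1 + ℓ 0, z'.2 + ℓ 1) := by
  have hw := IsCont.weak hh
  rw [eq_comm, QuotientAddGroup.eq] at heq
  set ℓ : E4 := -h z' + h z with hℓ
  have hc : ∀ z i, |h z i - h0 z i| ≤ 1 / 1000 := fun z i => by
    rw [← Real.norm_eq_abs, ← Pi.sub_apply]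
    exact (norm_le_pi_norm _ i).trans (hh.close z)
  have c2 : ∀ z, |h z 2| ≤ 1 / 1000 := fun z => by
    have := hc z 2
    rwa [show h0 z 2 = 0 from rfl, sub_zero] at this
  have c3 : ∀ z, |h z 3| ≤ 1 / 1000 := fun z => by
    have := hc z 3
    rwa [show h0 z 3 = 0 from rfl, sub_zero] at this
  have h23 : ℓ 2 = 0 ∧ ℓ 3 = 0 := by
    by_contra hcon
    have h1 := LL_norm_w ℓ heq hcon
    have e2 : |ℓ 2| ≤ 1 / 500 := by
      have : ℓ 2 = h z 2 - h z' 2 := by rw [hℓ]; simp; ring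
      rw [this]
      refine (abs_sub _ _).trans ?_
      linarith [c2 z, c2 z']
    have e3 : |ℓ 3| ≤ 1 / 500 := by
      have : ℓ 3 = h z 3 - h z' 3 := by rw [hℓ]; simp; ring
      rw [this]
      refine (abs_sub _ _).trans ?_
      linarith [c3 z, c3 z']
    have := max_le e2 e3
    linarith
  refine ⟨ℓ, heq, h23.1, h23.2, ?_⟩
  have hz : h (z'.1 + ℓ 0, z'.2 + ℓ 1) = h z := by
    rw [hh.per z' ℓ heq h23.1 h23.2, hℓ]
    abel
  have hdiff : ∀ u v : ℝ × ℝ, h u = h v → ‖h0 u - h0 v‖ ≤ 1 / 500 := by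
    intro u v huv
    have e : h0 u - h0 v = (h v - h0 v) - (h u - h0 u) := by rw [huv]; abel
    rw [e]
    refine (norm_sub_le _ _).trans ?_
    linarith [hh.close u, hh.close v]
  have hzero : ∀ x : ℝ, (∀ n : ℕ, |lam ^ n * x| ≤ 1 / 500) → x = 0 := by
    intro x hx
    by_contra hne
    have hx' : 0 < |x| := abs_pos.mpr hne
    obtain ⟨n, hn⟩ := pow_unbounded_of_one_lt (1 / 500 / |x|)
      (show (1 : ℝ) < lam by have := lam_gt; linarith)
    rw [div_lt_iff₀ hx'] at hn
    have h2 := hx n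
    rw [abs_mul, abs_of_pos (pow_pos lam_pos n)] at h2
    linarith
  set z'' : ℝ × ℝ := (z'.1 + ℓ 0, z'.2 + ℓ 1) with hz''
  have k1 : z.1 - z''.1 = 0 := by
    apply hzero
    intro n
    have h1 : h (AA^[n] z) = h (AA^[n] z'') := by
      rw [← iter_h hw, ← iter_h hw, hz]
    have h2 := (norm_le_pi_norm _ 0).trans (hdiff _ _ h1)
    rw [AA_iter, AA_iter, Real.norm_eq_abs, Pi.sub_apply] at h2
    have e : lam ^ n * (z.1 - z''.1) = h0 (lam ^ n * z.1, z.2 / lam ^ n) 0 -
        h0 (lam ^ n * z''.1, z''.2 / lam ^ n) 0 := by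
      show _ = lam ^ n * z.1 - lam ^ n * z''.1
      ring
    rw [e]
    exact h2
  have k2 : z.2 - z''.2 = 0 := by
    apply hzero
    intro n
    have h1 : h (AI^[n] z) = h (AI^[n] z'') := by
      rw [← iter_symm_h hw, ← iter_symm_h hw, hz]
    have h2 := (norm_le_pi_norm _ 1).trans (hdiff _ _ h1)
    rw [AI_iter, AI_iter, Real.norm_eq_abs, Pi.sub_apply] at h2
    have e : lam ^ n * (z.2 - z''.2) = h0 (z.1 / lam ^ n, lam ^ n * z.2) 1 -
        h0 (z''.1 / lam ^ n, lam ^ n * z''.2) 1 := by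
      show _ = lam ^ n * z.2 - lam ^ n * z''.2
      ring
    rw [e]
    exact h2
  ext
  · exact sub_eq_zero.mp k1
  · exact sub_eq_zero.mp k2

end

end Pool.Agent.MP_6961e8
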