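import Pool.Agent.MP_6961e8.STEP

/-!
Linear algebra along orbits: cones, stable and unstable spaces.
-/

open Filter Topology

namespace Pool.Agent.MP_6961e8

namespace LINaux

/-! ### Abstract cone lemma -/

theorem cone_space {a b : ℕ} (hab : b + a = 4) (P : E4 →L[ℝ] (Fin a → ℝ))
    (R : E4 →L[ℝ] (Fin b → ℝ)) (hC : ∀ w, ‖w‖ ≤ max ‖P w‖ ‖R w‖)
    (M : ℕ → E4 →L[ℝ] E4) (hM0 : ∀ w, M 0 w = w)
    (h1 : ∀ n w, ‖R (M n w)‖ ≤ ‖P (M n w)‖ → ‖R (M (n + 1) w)‖ ≤ ‖P (M (n + 1) w)‖ ∧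
      2 * ‖P (M n w)‖ ≤ ‖P (M (n + 1) w)‖)
    (h2 : ∀ n w, ‖P (M (n + 1) w)‖ ≤ ‖R (M (n + 1) w)‖ → ‖P (M n w)‖ ≤ ‖R (M n w)‖ ∧
      2 * ‖R (M (n + 1) w)‖ ≤ ‖R (M n w)‖)
    (S : Submodule ℝ E4) (hS : ∀ w, w ∈ S ↔ Tendsto (fun n => M n w) atTop (𝓝 0)) :
    Module.finrank ℝ S = b ∧
    (∀ w ∈ S, ∀ n : ℕ, ‖M n w‖ ≤ (1 / 2) ^ n * ‖R w‖) ∧
    (∀ w : E4, w ∈ S ↔ ∀ n : ℕ, ‖P (M n w)‖ ≤ ‖R (M n w)‖) := by
  -- going back in the cone
  have hback : ∀ w (n : ℕ), ‖P (M n w)‖ ≤ ‖R (M n w)‖ → ∀ k ≤ n,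
      ‖P (M k w)‖ ≤ ‖R (M k w)‖ := by
    intro w n
    induction n with
    | zero =>
      intro h k hk
      obtain rfl : k = 0 := by omega
      exact h
    | succ n ih =>
      intro h k hk
      rcases Nat.lt_or_ge k (n + 1) with hlt | hge
      · exact ih (h2 n w h).1 k (by omega)
      · obtain rfl : k = n + 1 := by omega
        exact h
  have hdec : ∀ w, (∀ n : ℕ, ‖P (M n w)‖ ≤ ‖R (M n w)‖) → ∀ n : ℕ,
      ‖R (M n w)‖ ≤ (1 / 2) ^ n * ‖R w‖ := by
    intro w h n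
    induction n with
    | zero => simp [hM0]
    | succ n ih =>
      have := (h2 n w (h (n + 1))).2
      rw [pow_succ]
      linarith
  have hbd : ∀ w, (∀ n : ℕ, ‖P (M n w)‖ ≤ ‖R (M n w)‖) → ∀ n : ℕ,
      ‖M n w‖ ≤ (1 / 2) ^ n * ‖R w‖ := by
    intro w h n
    refine (hC _).trans ?_
    rw [max_eq_right (h n)]
    exact hdec w h n
  have hiff : ∀ w : E4, w ∈ S ↔ ∀ n : ℕ, ‖P (M n w)‖ ≤ ‖R (M n w)‖ := by
    intro w
    constructor
    · intro hw n
      by_contra hlt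
      push Not at hlt
      have hgrow : ∀ j : ℕ, ‖R (M (n + j) w)‖ ≤ ‖P (M (n + j) w)‖ ∧
          ‖P (M n w)‖ ≤ ‖P (M (n + j) w)‖ := by
        intro j
        induction j with
        | zero => exact ⟨hlt.le, le_rfl⟩
        | succ j ih =>
          obtain ⟨h3, h4⟩ := h1 (n + j) w ih.1
          refine ⟨h3, ?_⟩
          have := norm_nonneg (P (M (n + j) w))
          show ‖P (M n w)‖ ≤ ‖P (M (n + j + 1) w)‖
          linarith [ih.2]
      have hpos : 0 < ‖P (M n w)‖ := lt_of_le_of_lt (norm_nonneg _) hlt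
      have ht : Tendsto (fun m => ‖P (M m w)‖) atTop (𝓝 0) := by
        have := ((hS w).1 hw)
        have h5 : Tendsto (fun m => P (M m w)) atTop (𝓝 (P 0)) :=
          (P.continuous.tendsto 0).comp this
        rw [map_zero] at h5
        simpa using h5.norm
      have ht2 := (ht.eventually (gt_mem_nhds hpos)).and (eventually_ge_atTop n)
      obtain ⟨m, hm1, hm2⟩ := ht2.exists
      obtain ⟨j, rfl⟩ := Nat.exists_eq_add_of_le hm2
      exact absurd (hgrow j).2 (not_le.2 hm1)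
    · intro h
      rw [hS]
      apply squeeze_zero_norm (hbd w h)
      have : Tendsto (fun n : ℕ => (1 / 2 : ℝ) ^ n * ‖R w‖) atTop (𝓝 (0 * ‖R w‖)) :=
        (tendsto_pow_atTop_nhds_zero_of_lt_one (by norm_num) (by norm_num)).mul_const _
      simpa using this
  refine ⟨?_, ?_, hiff⟩
  · -- dimension
    have hinj : ∀ n : ℕ, ∀ w, R w = 0 → ‖P (M n w)‖ ≤ ‖R (M n w)‖ → w = 0 := by
      intro n w hR h
      have h0 := hback w n h 0 (Nat.zero_le _)
      rw [hM0, hR, norm_zero] at h0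
      have := hC w
      rw [hR, norm_zero] at this
      have h3 : ‖w‖ ≤ 0 := this.trans (max_le h0 le_rfl)
      exact norm_le_zero_iff.1 h3
    let Rs : S →ₗ[ℝ] (Fin b → ℝ) := (R : E4 →ₗ[ℝ] (Fin b → ℝ)).comp S.subtype
    have hRinj : Function.Injective Rs := by
      rw [injective_iff_map_eq_zero]
      intro w hw
      have : (w : E4) = 0 := hinj 0 w hw ((hiff w).1 w.2 0)
      exact Subtype.ext this
    have hRsur : Function.Surjective Rs := by
      intro v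
      have hex : ∀ n : ℕ, ∃ w : E4, R w = v ∧ P (M n w) = 0 := by
        intro n
        let T : E4 →ₗ[ℝ] (Fin b → ℝ) × (Fin a → ℝ) :=
          (R : E4 →ₗ[ℝ] (Fin b → ℝ)).prod ((P.comp (M n) : E4 →L[ℝ] (Fin a → ℝ)) :
            E4 →ₗ[ℝ] (Fin a → ℝ))
        have hfr : Module.finrank ℝ E4 = Module.finrank ℝ ((Fin b → ℝ) × (Fin a → ℝ)) := by
          simp only [Module.finrank_prod, Module.finrank_fin_fun, hab]
        have hTinj : Function.Injective T := by
          rw [injective_iff_map_eq_zero]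
          intro w hw
          have h3 : R w = 0 := congrArg Prod.fst hw
          have h4 : P (M n w) = 0 := congrArg Prod.snd hw
          refine hinj n w h3 ?_
          rw [h4, norm_zero]
          exact norm_nonneg _
        obtain ⟨w, hw⟩ := (LinearMap.injective_iff_surjective_of_finrank_eq_finrank hfr).1
          hTinj (v, 0)
        exact ⟨w, congrArg Prod.fst hw, congrArg Prod.snd hw⟩
      choose w hw1 hw2 using hex
      have hcone : ∀ n k : ℕ, k ≤ n → ‖P (M k (w n))‖ ≤ ‖R (M k (w n))‖ := by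
        intro n k hk
        refine hback (w n) n ?_ k hk
        rw [hw2 n, norm_zero]
        exact norm_nonneg _
      have hball : ∀ n, w n ∈ Metric.closedBall (0 : E4) ‖v‖ := by
        intro n
        rw [mem_closedBall_zero_iff]
        refine (hC _).trans (max_le ?_ (by rw [hw1 n]))
        have := hcone n 0 (Nat.zero_le _)
        rw [hM0, hw1 n] at this
        exact this
      obtain ⟨w', -, φ, hφ, hlim⟩ :=
        (isCompact_closedBall (0 : E4) ‖v‖).tendsto_subseq hball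
      have hmem : w' ∈ S := by
        rw [hiff]
        intro k
        have hP : Tendsto (fun n => ‖P (M k (w (φ n)))‖) atTop (𝓝 ‖P (M k w')‖) :=
          (((P.continuous.comp (M k).continuous).norm).tendsto w').comp hlim
        have hR : Tendsto (fun n => ‖R (M k (w (φ n)))‖) atTop (𝓝 ‖R (M k w')‖) :=
          (((R.continuous.comp (M k).continuous).norm).tendsto w').comp hlim
        refine le_of_tendsto_of_tendsto hP hR ?_
        filter_upwards [eventually_ge_atTop k] with n hn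
        exact hcone (φ n) k (hn.trans (hφ.id_le n))
      refine ⟨⟨w', hmem⟩, ?_⟩
      have hR : Tendsto (fun n => R (w (φ n))) atTop (𝓝 (R w')) :=
        (R.continuous.tendsto w').comp hlim
      have hR' : Tendsto (fun n => R (w (φ n))) atTop (𝓝 v) := by
        simp only [hw1]
        exact tendsto_const_nhds
      exact tendsto_nhds_unique hR hR'
    have := (LinearEquiv.ofBijective Rs ⟨hRinj, hRsur⟩).finrank_eq
    rw [this, Module.finrank_fin_fun]
  · intro w hw n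
    exact hbd w ((hiff w).1 hw) n

/-! ### One step cone estimates -/

theorem cone_step {a b a' b' μ ν ε : ℝ} (ha : 0 ≤ a) (hb : 0 ≤ b)
    (hν : 0 ≤ ν) (hμ1 : 2 ≤ μ - ε) (hν1 : ν + ε ≤ 1 / 2)
    (h1 : μ * a - ε * max a b ≤ a') (h2 : b' ≤ ν * b + ε * max a b) :
    (b ≤ a → b' ≤ a' ∧ 2 * a ≤ a') ∧ (a' ≤ b' → a ≤ b ∧ 2 * b' ≤ b) := by
  have hA : b ≤ a → b' ≤ a / 2 ∧ 2 * a ≤ a' := by
    intro h
    rw [max_eq_left h] at h1 h2
    constructor
    · nlinarith
    · nlinarith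
  constructor
  · intro h
    obtain ⟨h3, h4⟩ := hA h
    exact ⟨by linarith, h4⟩
  · intro h
    have hab : a ≤ b := by
      by_contra hlt
      push Not at hlt
      obtain ⟨h3, h4⟩ := hA hlt.le
      nlinarith
    refine ⟨hab, ?_⟩
    rw [max_eq_right hab] at h2
    nlinarith

/-! ### The coordinate projections -/

/-- coordinates `x`, `u` -/
noncomputable def pXU : E4 →L[ℝ] (Fin 2 → ℝ) :=
  ContinuousLinearMap.pi ![ContinuousLinearMap.proj 0, ContinuousLinearMap.proj 3]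

/-- coordinates `y`, `s` -/
noncomputable def pYS : E4 →L[ℝ] (Fin 2 → ℝ) :=
  ContinuousLinearMap.pi ![ContinuousLinearMap.proj 1, ContinuousLinearMap.proj 2]

/-- coordinate `s` -/
noncomputable def pS : E4 →L[ℝ] (Fin 1 → ℝ) :=
  ContinuousLinearMap.pi ![ContinuousLinearMap.proj 2]

/-- coordinates `x`, `lam ^ 2 * y`, `u` -/
noncomputable def pE : E4 →L[ℝ] (Fin 3 → ℝ) :=
  ContinuousLinearMap.pi ![ContinuousLinearMap.proj 0, lam ^ 2 • ContinuousLinearMap.proj 1,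
    ContinuousLinearMap.proj 3]

theorem lam_sq_bounds : 6.8 < lam ^ 2 ∧ lam ^ 2 < 6.9 := by
  have h := lam_bounds
  constructor <;> nlinarith [h.1, h.2]

theorem norm_two (x y : ℝ) (v : Fin 2 → ℝ) (h0 : v 0 = x) (h1 : v 1 = y) :
    ‖v‖ = max |x| |y| := by
  apply le_antisymm
  · rw [pi_norm_le_iff_of_nonneg (le_max_of_le_left (abs_nonneg _))]
    intro i
    fin_cases i
    · simp [h0]
    · simp [h1]
  · apply max_le
    · rw [← h0, ← Real.norm_eq_abs]; exact norm_le_pi_norm v 0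
    · rw [← h1, ← Real.norm_eq_abs]; exact norm_le_pi_norm v 1

theorem norm_pXU (w : E4) : ‖pXU w‖ = max |w 0| |w 3| :=
  norm_two _ _ _ (by simp [pXU]) (by simp [pXU])

theorem norm_pYS (w : E4) : ‖pYS w‖ = max |w 1| |w 2| :=
  norm_two _ _ _ (by simp [pYS]) (by simp [pYS])

theorem norm_pS (w : E4) : ‖pS w‖ = |w 2| := by
  apply le_antisymm
  · rw [pi_norm_le_iff_of_nonneg (abs_nonneg _)]
    intro i
    fin_cases i
    simp [pS]
  · have : pS w 0 = w 2 := by simp [pS]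
    rw [← this, ← Real.norm_eq_abs]
    exact norm_le_pi_norm _ 0

theorem norm_pE (w : E4) : ‖pE w‖ = eN w := by
  have e0 : pE w 0 = w 0 := by simp [pE]
  have e1 : pE w 1 = lam ^ 2 * w 1 := by simp [pE]
  have e2 : pE w 2 = w 3 := by simp [pE]
  have hl : (0 : ℝ) ≤ lam ^ 2 := by positivity
  apply le_antisymm
  · unfold eN
    rw [pi_norm_le_iff_of_nonneg (le_max_of_le_left (abs_nonneg _))]
    intro i
    fin_cases i
    · show ‖pE w 0‖ ≤ _
      rw [e0]; exact le_max_left _ _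
    · show ‖pE w 1‖ ≤ _
      rw [e1, Real.norm_eq_abs, abs_mul, abs_of_nonneg hl]
      exact le_max_of_le_right (le_max_left _ _)
    · show ‖pE w 2‖ ≤ _
      rw [e2]
      exact le_max_of_le_right (le_max_right _ _)
  · unfold eN
    refine max_le ?_ (max_le ?_ ?_)
    · rw [← e0, ← Real.norm_eq_abs]; exact norm_le_pi_norm _ 0
    · have := norm_le_pi_norm (pE w) 1
      rwa [e1, Real.norm_eq_abs, abs_mul, abs_of_nonneg hl] at this
    · rw [← e2, ← Real.norm_eq_abs]; exact norm_le_pi_norm _ 2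

theorem norm_le_U (w : E4) : ‖w‖ ≤ max ‖pXU w‖ ‖pYS w‖ := by
  rw [norm_pXU, norm_pYS, pi_norm_le_iff_of_nonneg (le_max_of_le_left
    (le_max_of_le_left (abs_nonneg _)))]
  intro i
  fin_cases i
  · exact le_max_of_le_left (le_max_left _ _)
  · exact le_max_of_le_right (le_max_left _ _)
  · exact le_max_of_le_right (le_max_right _ _)
  · exact le_max_of_le_left (le_max_right _ _)

theorem norm_le_P (w : E4) : ‖w‖ ≤ max ‖pE w‖ ‖pS w‖ := by
  rw [norm_pE, norm_pS, pi_norm_le_iff_of_nonneg (le_max_of_le_right (abs_nonneg _))]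
  have hl := lam_sq_bounds.1
  intro i
  fin_cases i
  · exact le_max_of_le_left (le_max_left _ _)
  · refine le_max_of_le_left (le_max_of_le_right (le_max_of_le_left ?_))
    show |w 1| ≤ lam ^ 2 * |w 1|
    nlinarith [abs_nonneg (w 1)]
  · exact le_max_right _ _
  · exact le_max_of_le_left (le_max_of_le_right (le_max_right _ _))

theorem pXU_le (w : E4) : ‖pXU w‖ ≤ ‖w‖ := by
  rw [norm_pXU]
  exact max_le (norm_le_pi_norm w 0) (norm_le_pi_norm w 3)

theorem pYS_le (w : E4) : ‖pYS w‖ ≤ ‖w‖ := by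
  rw [norm_pYS]
  exact max_le (norm_le_pi_norm w 1) (norm_le_pi_norm w 2)

theorem pS_le (w : E4) : ‖pS w‖ ≤ ‖w‖ := by
  rw [norm_pS]
  exact norm_le_pi_norm w 2

theorem pE_le (w : E4) : ‖pE w‖ ≤ 10 * ‖w‖ := by
  have hl := lam_sq_bounds
  have h0 : |w 0| ≤ ‖w‖ := norm_le_pi_norm w 0
  have h1 : |w 1| ≤ ‖w‖ := norm_le_pi_norm w 1
  have h3 : |w 3| ≤ ‖w‖ := norm_le_pi_norm w 3
  have hw := norm_nonneg w
  rw [norm_pE]
  unfold eN
  refine max_le (by linarith) (max_le ?_ (by linarith))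
  nlinarith [abs_nonneg (w 1)]

/-! ### Cones near the invariant torus and near the fixed point -/

/-- `w ↦ w'` is one step of the derivative near the invariant torus. -/
theorem coneU {w w' : E4} (h : ∀ i, |w' i - dg i * w i| ≤ dl * ‖w‖) :
    (‖pYS w‖ ≤ ‖pXU w‖ → ‖pYS w'‖ ≤ ‖pXU w'‖ ∧ 2 * ‖pXU w‖ ≤ ‖pXU w'‖) ∧
    (‖pXU w'‖ ≤ ‖pYS w'‖ → ‖pXU w‖ ≤ ‖pYS w‖ ∧ 2 * ‖pYS w'‖ ≤ ‖pYS w‖) := by
  have hl := lam_bounds
  have hL := Lam_bounds
  have hinv : 1 / lam ≤ 0.4 := by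
    rw [div_le_iff₀ (by linarith)]; linarith
  have hinv0 : 0 ≤ 1 / lam := by
    have : 0 < lam := by linarith
    positivity
  have hinv2 : 1 / Lam ≤ 1 / lam := by
    apply one_div_le_one_div_of_le <;> linarith
  have hinv3 : 0 ≤ 1 / Lam := by
    have : 0 < Lam := by linarith
    positivity
  have hdl : dl = 1 / 100000 := rfl
  have hw := norm_le_U w
  have hwn := norm_nonneg w
  apply cone_step (μ := lam) (ν := 1 / lam) (ε := dl) (norm_nonneg _) (norm_nonneg _) hinv0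
    (by rw [hdl]; linarith) (by rw [hdl]; linarith)
  · -- expansion
    have h0 := h 0
    have h3 := h 3
    have e0 : dg 0 = lam := rfl
    have e3 : dg 3 = Lam := rfl
    rw [e0] at h0
    rw [e3] at h3
    have h0' : lam * |w 0| - dl * ‖w‖ ≤ |w' 0| := by
      have h5 : |lam * w 0| ≤ |w' 0| + |w' 0 - lam * w 0| := by
        have := abs_sub_abs_le_abs_sub (lam * w 0) (w' 0)
        rw [abs_sub_comm] at this
        linarith
      rw [abs_mul, abs_of_pos (by linarith : 0 < lam)] at h5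
      linarith
    have h3' : lam * |w 3| - dl * ‖w‖ ≤ |w' 3| := by
      have h5 : |Lam * w 3| ≤ |w' 3| + |w' 3 - Lam * w 3| := by
        have := abs_sub_abs_le_abs_sub (Lam * w 3) (w' 3)
        rw [abs_sub_comm] at this
        linarith
      rw [abs_mul, abs_of_pos (by linarith : 0 < Lam)] at h5
      have := abs_nonneg (w 3)
      nlinarith
    have h6 : dl * ‖w‖ ≤ dl * max ‖pXU w‖ ‖pYS w‖ :=
      mul_le_mul_of_nonneg_left hw (by rw [hdl]; norm_num)
    have h7 : lam * ‖pXU w‖ ≤ dl * ‖w‖ + ‖pXU w'‖ := by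
      rw [norm_pXU, norm_pXU, mul_max_of_nonneg _ _ (by linarith : 0 ≤ lam)]
      apply max_le
      · linarith [le_max_left |w' 0| |w' 3|]
      · linarith [le_max_right |w' 0| |w' 3|]
    linarith
  · have h1 := h 1
    have h2 := h 2
    have e1 : dg 1 = 1 / lam := rfl
    have e2 : dg 2 = 1 / Lam := rfl
    rw [e1] at h1
    rw [e2] at h2
    have h1' : |w' 1| ≤ 1 / lam * |w 1| + dl * ‖w‖ := by
      have h5 : |w' 1| ≤ |1 / lam * w 1| + |w' 1 - 1 / lam * w 1| := by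
        have := abs_sub_abs_le_abs_sub (w' 1) (1 / lam * w 1)
        linarith
      rw [abs_mul, abs_of_nonneg hinv0] at h5
      linarith
    have h2' : |w' 2| ≤ 1 / lam * |w 2| + dl * ‖w‖ := by
      have h5 : |w' 2| ≤ |1 / Lam * w 2| + |w' 2 - 1 / Lam * w 2| := by
        have := abs_sub_abs_le_abs_sub (w' 2) (1 / Lam * w 2)
        linarith
      rw [abs_mul, abs_of_nonneg hinv3] at h5
      have := abs_nonneg (w 2)
      nlinarith
    have h6 : dl * ‖w‖ ≤ dl * max ‖pXU w‖ ‖pYS w‖ :=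
      mul_le_mul_of_nonneg_left hw (by rw [hdl]; norm_num)
    have h7 : ‖pYS w'‖ ≤ 1 / lam * ‖pYS w‖ + dl * ‖w‖ := by
      rw [norm_pYS, norm_pYS]
      have h8 := mul_le_mul_of_nonneg_left (le_max_left |w 1| |w 2|) hinv0
      have h9 := mul_le_mul_of_nonneg_left (le_max_right |w 1| |w 2|) hinv0
      apply max_le <;> linarith
    linarith

/-- `w ↦ w'` is one step of the derivative near the fixed point. -/
theorem coneP {w w' : E4} (h : ‖w' - LM (JJ w)‖ ≤ dl * ‖w‖) :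
    (‖pS w‖ ≤ ‖pE w‖ → ‖pS w'‖ ≤ ‖pE w'‖ ∧ 2 * ‖pE w‖ ≤ ‖pE w'‖) ∧
    (‖pE w'‖ ≤ ‖pS w'‖ → ‖pE w‖ ≤ ‖pS w‖ ∧ 2 * ‖pS w'‖ ≤ ‖pS w‖) := by
  have hl := lam_bounds
  have hL := Lam_bounds
  have hl2 := lam_sq_bounds
  have hinv3 : 0 ≤ 1 / Lam := by
    have : 0 < Lam := by linarith
    positivity
  have hinv : 1 / Lam ≤ 0.4 := by
    rw [div_le_iff₀ (by linarith)]; linarith
  have hdl : dl = 1 / 100000 := rfl
  have hw := norm_le_P w
  have hwn := norm_nonneg w
  have hc : ∀ i, |w' i - LM (JJ w) i| ≤ dl * ‖w‖ := fun i =>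
    (norm_le_pi_norm (w' - LM (JJ w)) i).trans h
  have c0 : LM (JJ w) 0 = lam * w 0 := by rw [LM_apply, JJ_apply]; rfl
  have c1 : LM (JJ w) 1 = 1 / lam * (- w 3) := by rw [LM_apply, JJ_apply]; rfl
  have c2 : LM (JJ w) 2 = 1 / Lam * w 2 := by rw [LM_apply, JJ_apply]; rfl
  have c3 : LM (JJ w) 3 = Lam * w 1 := by rw [LM_apply, JJ_apply]; rfl
  apply cone_step (μ := lam) (ν := 1 / Lam) (ε := 7 * dl) (norm_nonneg _) (norm_nonneg _) hinv3
    (by rw [hdl]; linarith) (by rw [hdl]; linarith)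
  · have h0 := hc 0
    have h1 := hc 1
    have h3 := hc 3
    rw [c0] at h0
    rw [c1] at h1
    rw [c3] at h3
    have h0' : lam * |w 0| - dl * ‖w‖ ≤ |w' 0| := by
      have h5 : |lam * w 0| ≤ |w' 0| + |w' 0 - lam * w 0| := by
        have := abs_sub_abs_le_abs_sub (lam * w 0) (w' 0)
        rw [abs_sub_comm] at this
        linarith
      rw [abs_mul, abs_of_pos (by linarith : 0 < lam)] at h5
      linarith
    have h3' : lam * (lam ^ 2 * |w 1|) - dl * ‖w‖ ≤ |w' 3| := by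
      have h5 : |Lam * w 1| ≤ |w' 3| + |w' 3 - Lam * w 1| := by
        have := abs_sub_abs_le_abs_sub (Lam * w 1) (w' 3)
        rw [abs_sub_comm] at this
        linarith
      rw [abs_mul, abs_of_pos (by linarith : 0 < Lam), Lam_eq] at h5
      rw [Lam_eq] at h3
      nlinarith
    have h1' : lam * |w 3| - 7 * dl * ‖w‖ ≤ lam ^ 2 * |w' 1| := by
      have h5 : |1 / lam * (-w 3)| ≤ |w' 1| + |w' 1 - 1 / lam * (-w 3)| := by
        have := abs_sub_abs_le_abs_sub (1 / lam * (-w 3)) (w' 1)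
        rw [abs_sub_comm] at this
        linarith
      have hpos : 0 < lam := by linarith
      rw [abs_mul, abs_neg, abs_of_nonneg (by positivity : 0 ≤ 1 / lam)] at h5
      have h6 : 1 / lam * |w 3| ≤ |w' 1| + dl * ‖w‖ := by linarith
      have h7 := mul_le_mul_of_nonneg_left h6 (by positivity : 0 ≤ lam ^ 2)
      have h8 : lam ^ 2 * (1 / lam * |w 3|) = lam * |w 3| := by
        field_simp
      rw [h8] at h7
      have h9 : lam ^ 2 * (dl * ‖w‖) ≤ 7 * (dl * ‖w‖) :=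
        mul_le_mul_of_nonneg_right (by linarith) (by rw [hdl]; positivity)
      nlinarith
    have h6 : 7 * dl * ‖w‖ ≤ 7 * dl * max ‖pE w‖ ‖pS w‖ :=
      mul_le_mul_of_nonneg_left hw (by rw [hdl]; norm_num)
    have h6' : dl * ‖w‖ ≤ 7 * dl * ‖w‖ := by
      have : 0 ≤ dl * ‖w‖ := by rw [hdl]; positivity
      nlinarith
    have h7 : lam * ‖pE w‖ ≤ 7 * dl * ‖w‖ + ‖pE w'‖ := by
      rw [norm_pE, norm_pE]
      unfold eN
      rw [mul_max_of_nonneg _ _ (by linarith : 0 ≤ lam),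
        mul_max_of_nonneg _ _ (by linarith : 0 ≤ lam)]
      have m0 := le_max_left |w' 0| (max (lam ^ 2 * |w' 1|) |w' 3|)
      have m1 := le_max_right |w' 0| (max (lam ^ 2 * |w' 1|) |w' 3|)
      have m2 := le_max_left (lam ^ 2 * |w' 1|) |w' 3|
      have m3 := le_max_right (lam ^ 2 * |w' 1|) |w' 3|
      refine max_le (by linarith) (max_le (by linarith) (by linarith))
    linarith
  · have h2 := hc 2
    rw [c2] at h2
    have h2' : |w' 2| ≤ 1 / Lam * |w 2| + dl * ‖w‖ := by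
      have h5 : |w' 2| ≤ |1 / Lam * w 2| + |w' 2 - 1 / Lam * w 2| := by
        have := abs_sub_abs_le_abs_sub (w' 2) (1 / Lam * w 2)
        linarith
      rw [abs_mul, abs_of_nonneg hinv3] at h5
      linarith
    have h6 : dl * ‖w‖ ≤ 7 * dl * max ‖pE w‖ ‖pS w‖ := by
      have h7 : dl * ‖w‖ ≤ dl * max ‖pE w‖ ‖pS w‖ :=
        mul_le_mul_of_nonneg_left hw (by rw [hdl]; norm_num)
      have h8 : 0 ≤ dl * max ‖pE w‖ ‖pS w‖ := by
        have : 0 ≤ max ‖pE w‖ ‖pS w‖ := le_max_of_le_left (norm_nonneg _)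
        rw [hdl]; positivity
      linarith
    rw [norm_pS, norm_pS]
    rw [norm_pS] at h6
    linarith

/-! ### The derivative cocycle -/

theorem diff_iter {f : E4 → E4} (hf : Differentiable ℝ f) (n : ℕ) :
    Differentiable ℝ (f^[n]) := by
  induction n with
  | zero => exact differentiable_id
  | succ n ih => rw [Function.iterate_succ']; exact hf.comp ih

theorem fderiv_iter_succ' {f : E4 → E4} (hf : Differentiable ℝ f) (n : ℕ) (q w : E4) :
    fderiv ℝ (f^[n + 1]) q w = fderiv ℝ f (f^[n] q) (fderiv ℝ (f^[n]) q w) := by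
  rw [Function.iterate_succ', fderiv_comp _ (hf _) (diff_iter hf n _)]
  rfl

theorem fderiv_iter_succ {f : E4 → E4} (hf : Differentiable ℝ f) (n : ℕ) (q w : E4) :
    fderiv ℝ (f^[n + 1]) q w = fderiv ℝ (f^[n]) (f q) (fderiv ℝ f q w) := by
  rw [Function.iterate_succ, fderiv_comp _ (diff_iter hf n _) (hf _)]
  rfl

theorem lift_diff (g : TorusDiffeo LL) : Differentiable ℝ g.lift :=
  g.contDiff_lift.differentiable (by norm_num)

theorem symm_diff (g : TorusDiffeo LL) : Differentiable ℝ g.lift.symm :=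
  g.contDiff_symm.differentiable (by norm_num)

/-- the derivative of the inverse is the inverse of the derivative -/
theorem fderiv_lift_symm (g : TorusDiffeo LL) (q w : E4) :
    fderiv ℝ g.lift (g.lift.symm q) (fderiv ℝ g.lift.symm q w) = w := by
  have h : (fun x => g.lift (g.lift.symm x)) = id := by
    ext x
    simp
  have h2 : fderiv ℝ (g.lift ∘ g.lift.symm) q =
      (fderiv ℝ g.lift (g.lift.symm q)).comp (fderiv ℝ g.lift.symm q) :=
    fderiv_comp _ (lift_diff g _) (symm_diff g _)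
  have h3 : (g.lift ∘ g.lift.symm : E4 → E4) = id := h
  rw [h3, fderiv_id] at h2
  have := congrArg (fun A : E4 →L[ℝ] E4 => A w) h2
  exact this.symm

theorem fderiv_symm_lift (g : TorusDiffeo LL) (q w : E4) :
    fderiv ℝ g.lift.symm (g.lift q) (fderiv ℝ g.lift q w) = w := by
  have h : (fun x => g.lift.symm (g.lift x)) = id := by
    ext x
    simp
  have h2 : fderiv ℝ (g.lift.symm ∘ g.lift) q =
      (fderiv ℝ g.lift.symm (g.lift q)).comp (fderiv ℝ g.lift q) :=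
    fderiv_comp _ (symm_diff g _) (lift_diff g _)
  have h3 : (g.lift.symm ∘ g.lift : E4 → E4) = id := h
  rw [h3, fderiv_id] at h2
  have := congrArg (fun A : E4 →L[ℝ] E4 => A w) h2
  exact this.symm

end LINaux

open LINaux

section
variable (F g : TorusDiffeo LL) (hF : IsModel F) (hg : C1Close dl F g)
include hF hg

theorem stable_U0 (q : E4) (hq : ∀ n : ℕ, g.lift^[n] q ∈ U0) :
    Module.finrank ℝ (stableSpace g q) = 2 ∧
    (∀ w ∈ stableSpace g q, ∀ n : ℕ, ‖fderiv ℝ (g.lift^[n]) q w‖ ≤ (1 / 2) ^ n * ‖w‖) ∧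
    (∀ w : E4, w ∈ stableSpace g q ↔ ∀ n : ℕ, max |fderiv ℝ (g.lift^[n]) q w 0|
      |fderiv ℝ (g.lift^[n]) q w 3| ≤ max |fderiv ℝ (g.lift^[n]) q w 1|
      |fderiv ℝ (g.lift^[n]) q w 2|) := by
  have hstep : ∀ n w, ∀ i, |fderiv ℝ (g.lift^[n + 1]) q w i -
      dg i * fderiv ℝ (g.lift^[n]) q w i| ≤ dl * ‖fderiv ℝ (g.lift^[n]) q w‖ := by
    intro n w i
    rw [fderiv_iter_succ' (lift_diff g)]
    exact derivU0 F g hF hg _ (hq n) _ i
  have key := cone_space (a := 2) (b := 2) rfl pXU pYS norm_le_U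
    (fun n => fderiv ℝ (g.lift^[n]) q) (by intro w; simp)
    (fun n w => (coneU (hstep n w)).1) (fun n w => (coneU (hstep n w)).2)
    (stableSpace g q) (fun w => Iff.rfl)
  refine ⟨key.1, ?_, ?_⟩
  · intro w hw n
    refine (key.2.1 w hw n).trans ?_
    exact mul_le_mul_of_nonneg_left (pYS_le w) (by positivity)
  · intro w
    rw [key.2.2 w]
    simp only [norm_pXU, norm_pYS]

theorem unstable_U0 (q : E4) (hq : ∀ n : ℕ, g.lift.symm^[n] q ∈ U0) :
    Module.finrank ℝ (unstableSpace g q) = 2 ∧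
    (∀ w ∈ unstableSpace g q, ∀ n : ℕ, ‖fderiv ℝ (g.lift.symm^[n]) q w‖ ≤ (1 / 2) ^ n * ‖w‖) ∧
    (∀ w : E4, w ∈ unstableSpace g q ↔ ∀ n : ℕ, max |fderiv ℝ (g.lift.symm^[n]) q w 1|
      |fderiv ℝ (g.lift.symm^[n]) q w 2| ≤ max |fderiv ℝ (g.lift.symm^[n]) q w 0|
      |fderiv ℝ (g.lift.symm^[n]) q w 3|) := by
  have hstep : ∀ n w, ∀ i, |fderiv ℝ (g.lift.symm^[n]) q w i -
      dg i * fderiv ℝ (g.lift.symm^[n + 1]) q w i| ≤
      dl * ‖fderiv ℝ (g.lift.symm^[n + 1]) q w‖ := by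
    intro n w i
    have h := derivU0 F g hF hg _ (hq (n + 1)) (fderiv ℝ (g.lift.symm^[n + 1]) q w) i
    have h2 : fderiv ℝ g.lift (g.lift.symm^[n + 1] q) (fderiv ℝ (g.lift.symm^[n + 1]) q w) =
        fderiv ℝ (g.lift.symm^[n]) q w := by
      rw [fderiv_iter_succ' (symm_diff g), Function.iterate_succ_apply']
      exact fderiv_lift_symm g _ _
    rwa [h2] at h
  have key := cone_space (a := 2) (b := 2) rfl pYS pXU
    (fun w => by rw [max_comm]; exact norm_le_U w)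
    (fun n => fderiv ℝ (g.lift.symm^[n]) q) (by intro w; simp)
    (fun n w => (coneU (hstep n w)).2) (fun n w => (coneU (hstep n w)).1)
    (unstableSpace g q) (fun w => Iff.rfl)
  refine ⟨key.1, ?_, ?_⟩
  · intro w hw n
    refine (key.2.1 w hw n).trans ?_
    exact mul_le_mul_of_nonneg_left (pXU_le w) (by positivity)
  · intro w
    rw [key.2.2 w]
    simp only [norm_pXU, norm_pYS]

/-- the derivative is periodic -/
theorem LINaux.fderiv_lift_per (p ℓ : E4) (hℓ : ℓ ∈ LL) :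
    fderiv ℝ g.lift (p + ℓ) = fderiv ℝ g.lift p := by
  rw [← fderiv_comp_add_right]
  have : (fun x => g.lift (x + ℓ)) = fun x => g.lift x + LM ℓ := by
    ext1 x
    exact g_per F g hF hg x ℓ hℓ
  rw [this, fderiv_add_const]

theorem LINaux.symm_per (p ℓ : E4) (hℓ : ℓ ∈ LL) :
    ∃ ℓ' ∈ LL, LM ℓ' = ℓ ∧ g.lift.symm (p + ℓ) = g.lift.symm p + ℓ' := by
  obtain ⟨ℓ', h1, h2⟩ := LM_mem_inv ℓ hℓ
  refine ⟨ℓ', h1, h2, ?_⟩
  rw [Equiv.symm_apply_eq, g_per F g hF hg _ _ h1, Equiv.apply_symm_apply, h2]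

theorem LINaux.LM_injective_aux : Function.Injective LM := by
  have hl := lam_bounds
  have hL := Lam_bounds
  intro v w h
  have h1 : ∀ i, dg i * v i = dg i * w i := by
    intro i
    rw [← LM_apply, ← LM_apply, h]
  have h2 : ∀ i, dg i ≠ 0 := by
    intro i
    have : 0 < lam := by linarith
    have : 0 < Lam := by linarith
    fin_cases i <;> simp [dg] <;> positivity
  ext i
  exact mul_left_cancel₀ (h2 i) (h1 i)

theorem LINaux.iter_per (n : ℕ) (ℓ : E4) (hℓ : ℓ ∈ LL) :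
    ∃ ℓ' ∈ LL, ∀ p, g.lift^[n] (p + ℓ) = g.lift^[n] p + ℓ' := by
  induction n with
  | zero => exact ⟨ℓ, hℓ, fun p => rfl⟩
  | succ n ih =>
    obtain ⟨ℓ', h1, h2⟩ := ih
    refine ⟨LM ℓ', LM_mem _ h1, fun p => ?_⟩
    rw [Function.iterate_succ_apply', Function.iterate_succ_apply', h2,
      g_per F g hF hg _ _ h1]

theorem LINaux.iter_symm_per (n : ℕ) (ℓ : E4) (hℓ : ℓ ∈ LL) :
    ∃ ℓ' ∈ LL, ∀ p, g.lift.symm^[n] (p + ℓ) = g.lift.symm^[n] p + ℓ' := by
  induction n with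
  | zero => exact ⟨ℓ, hℓ, fun p => rfl⟩
  | succ n ih =>
    obtain ⟨ℓ', h1, h2⟩ := ih
    obtain ⟨ℓ'', h3, h4⟩ := LM_mem_inv ℓ' h1
    refine ⟨ℓ'', h3, fun p => ?_⟩
    rw [Function.iterate_succ_apply', Function.iterate_succ_apply', h2]
    obtain ⟨m, hm1, hm2, hm3⟩ := symm_per F g hF hg (g.lift.symm^[n] p) ℓ' h1
    rw [hm3]
    congr 1
    exact LM_injective_aux F g hF hg (hm2.trans h4.symm)

theorem stable_per (q ℓ : E4) (hℓ : ℓ ∈ LL) : stableSpace g (q + ℓ) = stableSpace g q := by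
  have key : ∀ n, fderiv ℝ (g.lift^[n]) (q + ℓ) = fderiv ℝ (g.lift^[n]) q := by
    intro n
    obtain ⟨ℓ', h1, h2⟩ := iter_per F g hF hg n ℓ hℓ
    rw [← fderiv_comp_add_right]
    have : (fun x => g.lift^[n] (x + ℓ)) = fun x => g.lift^[n] x + ℓ' := by
      ext1 x
      exact h2 x
    rw [this, fderiv_add_const]
  ext w
  show Tendsto _ _ _ ↔ Tendsto _ _ _
  simp only [key]

theorem unstable_per (q ℓ : E4) (hℓ : ℓ ∈ LL) :
    unstableSpace g (q + ℓ) = unstableSpace g q := by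
  have key : ∀ n, fderiv ℝ (g.lift.symm^[n]) (q + ℓ) = fderiv ℝ (g.lift.symm^[n]) q := by
    intro n
    obtain ⟨ℓ', h1, h2⟩ := iter_symm_per F g hF hg n ℓ hℓ
    rw [← fderiv_comp_add_right]
    have : (fun x => g.lift.symm^[n] (x + ℓ)) = fun x => g.lift.symm^[n] x + ℓ' := by
      ext1 x
      exact h2 x
    rw [this, fderiv_add_const]
  ext w
  show Tendsto _ _ _ ↔ Tendsto _ _ _
  simp only [key]

/-- invariance of the spaces along orbits -/
theorem stable_iff (q w : E4) :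
    fderiv ℝ g.lift q w ∈ stableSpace g (g.lift q) ↔ w ∈ stableSpace g q := by
  show Tendsto (fun n : ℕ => fderiv ℝ (g.lift^[n]) (g.lift q) (fderiv ℝ g.lift q w)) atTop (𝓝 0)
    ↔ Tendsto (fun n : ℕ => fderiv ℝ (g.lift^[n]) q w) atTop (𝓝 0)
  simp only [← fderiv_iter_succ (lift_diff g)]
  exact tendsto_add_atTop_iff_nat (f := fun n : ℕ => fderiv ℝ (g.lift^[n]) q w) 1

theorem unstable_iff (q w : E4) :
    fderiv ℝ g.lift q w ∈ unstableSpace g (g.lift q) ↔ w ∈ unstableSpace g q := by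
  show Tendsto (fun n : ℕ => fderiv ℝ (g.lift.symm^[n]) (g.lift q) (fderiv ℝ g.lift q w))
    atTop (𝓝 0) ↔ Tendsto (fun n : ℕ => fderiv ℝ (g.lift.symm^[n]) q w) atTop (𝓝 0)
  rw [← tendsto_add_atTop_iff_nat (f := fun n : ℕ =>
    fderiv ℝ (g.lift.symm^[n]) (g.lift q) (fderiv ℝ g.lift q w)) 1]
  simp only [fderiv_iter_succ (symm_diff g), fderiv_symm_lift, Equiv.symm_apply_apply]

/-- orbit of a point in the chart at `PP` -/
theorem LINaux.lift_iter_P (n : ℕ) (v : E4) :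
    ∃ ℓ ∈ LL, g.lift^[n] (PP + v) = PP + (gP g)^[n] v + ℓ := by
  induction n with
  | zero => exact ⟨0, LL.zero_mem, by simp⟩
  | succ n ih =>
    obtain ⟨ℓ, h1, h2⟩ := ih
    refine ⟨lP + LM ℓ, LL.add_mem lP_mem (LM_mem _ h1), ?_⟩
    rw [Function.iterate_succ_apply', Function.iterate_succ_apply', h2,
      g_per F g hF hg _ _ h1]
    have h3 : gP g ((gP g)^[n] v) = g.lift (PP + (gP g)^[n] v) - PP - lP := rfl
    rw [h3]
    abel

theorem LINaux.symm_iter_P (n : ℕ) (v : E4) :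
    ∃ ℓ ∈ LL, g.lift.symm^[n] (PP + v) = PP + (gP g).symm^[n] v + ℓ := by
  induction n with
  | zero => exact ⟨0, LL.zero_mem, by simp⟩
  | succ n ih =>
    obtain ⟨ℓ, h1, h2⟩ := ih
    obtain ⟨m, hm1, -, hm3⟩ := symm_per F g hF hg ((gP g).symm^[n] v + PP + lP) (ℓ - lP)
      (LL.sub_mem h1 lP_mem)
    refine ⟨m, hm1, ?_⟩
    rw [Function.iterate_succ_apply', Function.iterate_succ_apply', h2]
    have h3 : (gP g).symm ((gP g).symm^[n] v) =
      g.lift.symm ((gP g).symm^[n] v + PP + lP) - PP := rfl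
    have h4 : PP + (gP g).symm^[n] v + ℓ = (gP g).symm^[n] v + PP + lP + (ℓ - lP) := by abel
    rw [h3, h4, hm3]
    abel

theorem stable_P (v : E4) (hv : ∀ n : ℕ, (gP g)^[n] v ∈ BP) :
    Module.finrank ℝ (stableSpace g (PP + v)) = 1 ∧
    (∀ w ∈ stableSpace g (PP + v), ∀ n : ℕ,
      ‖fderiv ℝ (g.lift^[n]) (PP + v) w‖ ≤ 10 * (1 / 2) ^ n * ‖w‖) ∧
    (∀ w : E4, w ∈ stableSpace g (PP + v) ↔ ∀ n : ℕ, eN (fderiv ℝ (g.lift^[n]) (PP + v) w) ≤
      |fderiv ℝ (g.lift^[n]) (PP + v) w 2|) := by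
  have hstep : ∀ n w, ‖fderiv ℝ (g.lift^[n + 1]) (PP + v) w -
      LM (JJ (fderiv ℝ (g.lift^[n]) (PP + v) w))‖ ≤
      dl * ‖fderiv ℝ (g.lift^[n]) (PP + v) w‖ := by
    intro n w
    obtain ⟨ℓ, h1, h2⟩ := lift_iter_P F g hF hg n v
    rw [fderiv_iter_succ' (lift_diff g), h2, fderiv_lift_per F g hF hg _ _ h1]
    exact derivP F g hF hg _ (hv n) _
  have key := cone_space (a := 3) (b := 1) rfl pE pS norm_le_P
    (fun n => fderiv ℝ (g.lift^[n]) (PP + v)) (by intro w; simp)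
    (fun n w => (coneP (hstep n w)).1) (fun n w => (coneP (hstep n w)).2)
    (stableSpace g (PP + v)) (fun w => Iff.rfl)
  refine ⟨key.1, ?_, ?_⟩
  · intro w hw n
    refine (key.2.1 w hw n).trans ?_
    have h3 := mul_le_mul_of_nonneg_left (pS_le w) (by positivity : 0 ≤ (1 / 2 : ℝ) ^ n)
    have h4 : 0 ≤ (1 / 2 : ℝ) ^ n * ‖w‖ := by positivity
    linarith
  · intro w
    rw [key.2.2 w]
    simp only [norm_pE, norm_pS]

theorem unstable_P (v : E4) (hv : ∀ n : ℕ, (gP g).symm^[n] v ∈ BP) :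
    Module.finrank ℝ (unstableSpace g (PP + v)) = 3 ∧
    (∀ w ∈ unstableSpace g (PP + v), ∀ n : ℕ,
      ‖fderiv ℝ (g.lift.symm^[n]) (PP + v) w‖ ≤ 10 * (1 / 2) ^ n * ‖w‖) ∧
    (∀ w : E4, w ∈ unstableSpace g (PP + v) ↔ ∀ n : ℕ,
      |fderiv ℝ (g.lift.symm^[n]) (PP + v) w 2| ≤
      eN (fderiv ℝ (g.lift.symm^[n]) (PP + v) w)) := by
  have hstep : ∀ n w, ‖fderiv ℝ (g.lift.symm^[n]) (PP + v) w -
      LM (JJ (fderiv ℝ (g.lift.symm^[n + 1]) (PP + v) w))‖ ≤
      dl * ‖fderiv ℝ (g.lift.symm^[n + 1]) (PP + v) w‖ := by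
    intro n w
    obtain ⟨ℓ, h1, h2⟩ := symm_iter_P F g hF hg (n + 1) v
    have h := derivP F g hF hg _ (hv (n + 1)) (fderiv ℝ (g.lift.symm^[n + 1]) (PP + v) w)
    rw [← fderiv_lift_per F g hF hg _ _ h1, ← h2] at h
    have h2 : fderiv ℝ g.lift (g.lift.symm^[n + 1] (PP + v))
        (fderiv ℝ (g.lift.symm^[n + 1]) (PP + v) w) =
        fderiv ℝ (g.lift.symm^[n]) (PP + v) w := by
      rw [fderiv_iter_succ' (symm_diff g), Function.iterate_succ_apply']
      exact fderiv_lift_symm g _ _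
    rwa [h2] at h
  have key := cone_space (a := 1) (b := 3) rfl pS pE
    (fun w => by rw [max_comm]; exact norm_le_P w)
    (fun n => fderiv ℝ (g.lift.symm^[n]) (PP + v)) (by intro w; simp)
    (fun n w => (coneP (hstep n w)).2) (fun n w => (coneP (hstep n w)).1)
    (unstableSpace g (PP + v)) (fun w => Iff.rfl)
  refine ⟨key.1, ?_, ?_⟩
  · intro w hw n
    refine (key.2.1 w hw n).trans ?_
    have h3 := mul_le_mul_of_nonneg_left (pE_le w) (by positivity : 0 ≤ (1 / 2 : ℝ) ^ n)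
    linarith
  · intro w
    rw [key.2.2 w]
    simp only [norm_pE, norm_pS]

end

end Pool.Agent.MP_6961e8
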