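import Pool.Agent.MP_6961e8.NUM
import Pool.Agent.MP_6961e8.STEP
import Pool.Agent.MP_6961e8.CAT
import Pool.Agent.MP_6961e8.LIN

/-!
Module HYP: the two transitive hyperbolic sets.  Seat: helper61.
-/

open Filter Topology

namespace Pool.Agent.MP_6961e8

namespace HYPaux

/-! ### derivatives of iterates -/

theorem diff_lift {d : ℕ} {𝓛 : AddSubgroup (Fin d → ℝ)} (g : TorusDiffeo 𝓛) :
    Differentiable ℝ g.lift := g.contDiff_lift.differentiable (by norm_num)

theorem diff_symm {d : ℕ} {𝓛 : AddSubgroup (Fin d → ℝ)} (g : TorusDiffeo 𝓛) :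
    Differentiable ℝ g.lift.symm := g.contDiff_symm.differentiable (by norm_num)

theorem symm_lift_fderiv {d : ℕ} {𝓛 : AddSubgroup (Fin d → ℝ)} (g : TorusDiffeo 𝓛)
    (q w : Fin d → ℝ) : fderiv ℝ g.lift.symm (g.lift q) (fderiv ℝ g.lift q w) = w := by
  have h1 : fderiv ℝ (g.lift.symm ∘ g.lift) q = (fderiv ℝ g.lift.symm (g.lift q)).comp
      (fderiv ℝ g.lift q) := fderiv_comp _ (diff_symm g _) (diff_lift g _)
  have h2 : (g.lift.symm ∘ g.lift : (Fin d → ℝ) → (Fin d → ℝ)) = id := by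
    funext x
    simp
  rw [h2, fderiv_id] at h1
  have h3 := congrArg (fun L => L w) h1
  simpa using h3.symm

theorem lift_symm_fderiv {d : ℕ} {𝓛 : AddSubgroup (Fin d → ℝ)} (g : TorusDiffeo 𝓛)
    (q w : Fin d → ℝ) : fderiv ℝ g.lift q (fderiv ℝ g.lift.symm (g.lift q) w) = w := by
  have h1 : fderiv ℝ (g.lift ∘ g.lift.symm) (g.lift q) =
      (fderiv ℝ g.lift (g.lift.symm (g.lift q))).comp (fderiv ℝ g.lift.symm (g.lift q)) :=
    fderiv_comp _ (diff_lift g _) (diff_symm g _)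
  have h2 : (g.lift ∘ g.lift.symm : (Fin d → ℝ) → (Fin d → ℝ)) = id := by
    funext x
    simp
  rw [h2, fderiv_id, Equiv.symm_apply_apply] at h1
  have h3 := congrArg (fun L => L w) h1
  simpa using h3.symm

theorem diff_iter {d : ℕ} {f : (Fin d → ℝ) → (Fin d → ℝ)} (hf : Differentiable ℝ f) (n : ℕ) :
    Differentiable ℝ f^[n] := by
  induction n with
  | zero => exact differentiable_id
  | succ n ih =>
    rw [Function.iterate_succ]
    exact ih.comp hf

theorem fderiv_iter_succ {d : ℕ} {f : (Fin d → ℝ) → (Fin d → ℝ)} (hf : Differentiable ℝ f) (n : ℕ)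
    (q w : Fin d → ℝ) : fderiv ℝ f^[n + 1] q w = fderiv ℝ f (f^[n] q) (fderiv ℝ f^[n] q w) := by
  rw [Function.iterate_succ', fderiv_comp _ (hf _) (diff_iter hf n _)]
  rfl

theorem fderiv_iter_succ' {d : ℕ} {f : (Fin d → ℝ) → (Fin d → ℝ)} (hf : Differentiable ℝ f) (n : ℕ)
    (q w : Fin d → ℝ) : fderiv ℝ f^[n + 1] q w = fderiv ℝ f^[n] (f q) (fderiv ℝ f q w) := by
  rw [Function.iterate_succ, fderiv_comp _ (diff_iter hf n _) (hf _)]
  rfl

/-- going back along the orbit inverts the derivative -/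
theorem back_iter {d : ℕ} {𝓛 : AddSubgroup (Fin d → ℝ)} (g : TorusDiffeo 𝓛) (n : ℕ) :
    ∀ q w : Fin d → ℝ, fderiv ℝ (g.lift.symm^[n]) (g.lift^[n] q) (fderiv ℝ (g.lift^[n]) q w) = w := by
  induction n with
  | zero => intro q w; simp
  | succ n ih =>
    intro q w
    rw [fderiv_iter_succ (diff_lift g), fderiv_iter_succ' (diff_symm g)]
    have e : g.lift^[n + 1] q = g.lift (g.lift^[n] q) := by rw [Function.iterate_succ_apply']
    rw [e, Equiv.symm_apply_apply, symm_lift_fderiv]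
    exact ih q w

section
variable (F g : TorusDiffeo LL) (hF : IsModel F) (hg : C1Close dl F g)
include hF hg

theorem iter_per (n : ℕ) : ∀ ℓ ∈ LL, ∃ m ∈ LL, ∀ p, g.lift^[n] (p + ℓ) = g.lift^[n] p + m := by
  induction n with
  | zero => intro ℓ hℓ; exact ⟨ℓ, hℓ, fun p => rfl⟩
  | succ n ih =>
    intro ℓ hℓ
    obtain ⟨m, hm, h⟩ := ih ℓ hℓ
    refine ⟨LM m, LM_mem m hm, fun p => ?_⟩
    rw [Function.iterate_succ_apply', Function.iterate_succ_apply', h, g_per F g hF hg _ _ hm]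

theorem symm_per (p ℓ : E4) (hℓ : ℓ ∈ LL) : ∃ m ∈ LL, LM m = ℓ ∧
    g.lift.symm (p + ℓ) = g.lift.symm p + m := by
  obtain ⟨m, hm, h⟩ := LM_mem_inv ℓ hℓ
  refine ⟨m, hm, h, ?_⟩
  rw [Equiv.symm_apply_eq, g_per F g hF hg _ _ hm, Equiv.apply_symm_apply, h]

omit hF hg in
theorem LM_inj {a b : E4} (h : LM a = LM b) : a = b := by
  have h1 := lam_bounds
  have h2 := Lam_bounds
  ext i
  have h3 := congrFun h i
  rw [LM_apply, LM_apply] at h3
  have h4 : dg i ≠ 0 := by
    fin_cases i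
    · show lam ≠ 0
      linarith [h1.1]
    · show 1 / lam ≠ 0
      have : 0 < 1 / lam := by
        apply div_pos one_pos
        linarith [h1.1]
      exact this.ne'
    · show 1 / Lam ≠ 0
      have : 0 < 1 / Lam := by
        apply div_pos one_pos
        linarith [h2.1]
      exact this.ne'
    · show Lam ≠ 0
      linarith [h2.1]
  exact mul_left_cancel₀ h4 h3

theorem symm_iter_per (n : ℕ) : ∀ ℓ ∈ LL, ∃ m ∈ LL, ∀ p,
    g.lift.symm^[n] (p + ℓ) = g.lift.symm^[n] p + m := by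
  induction n with
  | zero => intro ℓ hℓ; exact ⟨ℓ, hℓ, fun p => rfl⟩
  | succ n ih =>
    intro ℓ hℓ
    obtain ⟨m, hm, h⟩ := ih ℓ hℓ
    obtain ⟨k, hk, hk'⟩ := LM_mem_inv m hm
    refine ⟨k, hk, fun p => ?_⟩
    rw [Function.iterate_succ_apply', Function.iterate_succ_apply', h]
    obtain ⟨k', hk1, hk2, hk3⟩ := symm_per F g hF hg (g.lift.symm^[n] p) m hm
    rw [hk3]
    congr 1
    apply LM_inj
    rw [hk2, hk']

theorem fderiv_per (n : ℕ) (q ℓ : E4) (hℓ : ℓ ∈ LL) :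
    fderiv ℝ (g.lift^[n]) (q + ℓ) = fderiv ℝ (g.lift^[n]) q := by
  obtain ⟨m, -, h⟩ := iter_per F g hF hg n ℓ hℓ
  rw [← fderiv_comp_add_right]
  have : (fun x => g.lift^[n] (x + ℓ)) = fun x => g.lift^[n] x + m := by
    funext x
    exact h x
  rw [this, fderiv_add_const]

theorem fderiv_symm_per (n : ℕ) (q ℓ : E4) (hℓ : ℓ ∈ LL) :
    fderiv ℝ (g.lift.symm^[n]) (q + ℓ) = fderiv ℝ (g.lift.symm^[n]) q := by
  obtain ⟨m, -, h⟩ := symm_iter_per F g hF hg n ℓ hℓ
  rw [← fderiv_comp_add_right]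
  have : (fun x => g.lift.symm^[n] (x + ℓ)) = fun x => g.lift.symm^[n] x + m := by
    funext x
    exact h x
  rw [this, fderiv_add_const]

theorem map_stable (p : E4) : (stableSpace g p).map (fderiv ℝ g.lift p).toLinearMap =
    stableSpace g (g.lift p) := by
  ext w
  rw [Submodule.mem_map]
  constructor
  · rintro ⟨v, hv, rfl⟩
    exact (stable_iff F g hF hg p v).2 hv
  · intro hw
    refine ⟨fderiv ℝ g.lift.symm (g.lift p) w, ?_, lift_symm_fderiv g p w⟩
    rw [← stable_iff F g hF hg, lift_symm_fderiv]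
    exact hw

theorem map_unstable (p : E4) : (unstableSpace g p).map (fderiv ℝ g.lift p).toLinearMap =
    unstableSpace g (g.lift p) := by
  ext w
  rw [Submodule.mem_map]
  constructor
  · rintro ⟨v, hv, rfl⟩
    exact (unstable_iff F g hF hg p v).2 hv
  · intro hw
    refine ⟨fderiv ℝ g.lift.symm (g.lift p) w, ?_, lift_symm_fderiv g p w⟩
    rw [← unstable_iff F g hF hg, lift_symm_fderiv]
    exact hw

theorem unstable_iter (n : ℕ) (q w : E4) (hw : w ∈ unstableSpace g q) :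
    fderiv ℝ (g.lift^[n]) q w ∈ unstableSpace g (g.lift^[n] q) := by
  induction n with
  | zero => simpa using hw
  | succ n ih =>
    rw [fderiv_iter_succ (diff_lift g), Function.iterate_succ_apply']
    exact (unstable_iff F g hF hg _ _).2 ih

theorem disjoint_of (q : E4) (C : ℝ) (n : ℕ) (hC : C * (1 / 2) ^ n * (C * (1 / 2) ^ n) < 1)
    (hC0 : 0 ≤ C)
    (h1 : ∀ w ∈ stableSpace g q, ‖fderiv ℝ (g.lift^[n]) q w‖ ≤ C * (1 / 2) ^ n * ‖w‖)
    (h2 : ∀ w ∈ unstableSpace g (g.lift^[n] q),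
      ‖fderiv ℝ (g.lift.symm^[n]) (g.lift^[n] q) w‖ ≤ C * (1 / 2) ^ n * ‖w‖) :
    Disjoint (stableSpace g q) (unstableSpace g q) := by
  rw [Submodule.disjoint_def]
  intro w hs hu
  have a1 := h1 w hs
  have a2 := h2 _ (unstable_iter F g hF hg n q w hu)
  rw [back_iter] at a2
  have hc : 0 ≤ C * (1 / 2) ^ n := by positivity
  have a3 : ‖w‖ ≤ C * (1 / 2) ^ n * (C * (1 / 2) ^ n) * ‖w‖ := by
    calc ‖w‖ ≤ C * (1 / 2) ^ n * ‖fderiv ℝ (g.lift^[n]) q w‖ := a2
      _ ≤ C * (1 / 2) ^ n * (C * (1 / 2) ^ n * ‖w‖) := mul_le_mul_of_nonneg_left a1 hc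
      _ = _ := by ring
  by_contra hw
  have hpos : 0 < ‖w‖ := norm_pos_iff.2 hw
  nlinarith

/-! ### the torus -/

omit hF hg in
theorem h_per_orbit (h : ℝ × ℝ → E4) (hh : IsCont g h) (z : ℝ × ℝ) (n : ℕ) :
    ∃ z', g.lift^[n] (h z) = h z' := by
  induction n with
  | zero => exact ⟨z, rfl⟩
  | succ n ih =>
    obtain ⟨z', hz⟩ := ih
    refine ⟨(lam * z'.1, z'.2 / lam), ?_⟩
    rw [Function.iterate_succ_apply', hz, hh.conj]

omit hF hg in
theorem h_back_orbit (h : ℝ × ℝ → E4) (hh : IsCont g h) (z : ℝ × ℝ) (n : ℕ) :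
    ∃ z', g.lift.symm^[n] (h z) = h z' := by
  have hl : lam ≠ 0 := by
    have := lam_bounds
    linarith [this.1]
  induction n with
  | zero => exact ⟨z, rfl⟩
  | succ n ih =>
    obtain ⟨z', hz⟩ := ih
    refine ⟨(z'.1 / lam, lam * z'.2), ?_⟩
    rw [Function.iterate_succ_apply', hz, Equiv.symm_apply_eq, hh.conj]
    congr 1
    ext
    · simp only
      field_simp
    · simp only
      field_simp

omit hF hg in
theorem h_mem_U0 (h : ℝ × ℝ → E4) (hh : IsCont g h) (z : ℝ × ℝ) : h z ∈ U0 := by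
  have h1 := hh.close z
  have h2 := norm_le_pi_norm (h z - h0 z) 2
  have h3 := norm_le_pi_norm (h z - h0 z) 3
  rw [Real.norm_eq_abs, Pi.sub_apply] at h2 h3
  have e2 : h0 z 2 = 0 := rfl
  have e3 : h0 z 3 = 0 := rfl
  rw [e2, sub_zero] at h2
  rw [e3, sub_zero] at h3
  constructor
  · linarith
  · linarith

omit hF hg in
theorem mem_Kset {h : ℝ × ℝ → E4} {p : E4} (hp : (p : E4 ⧸ LL) ∈ Kset h) :
    ∃ z, ∃ ℓ ∈ LL, p = h z + ℓ := by
  obtain ⟨z, hz⟩ := hp
  rw [QuotientAddGroup.eq] at hz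
  exact ⟨z, -h z + p, hz, by abel⟩

end

end HYPaux

section
variable (F g : TorusDiffeo LL) (hF : IsModel F) (hg : C1Close dl F g)
include hF hg

open HYPaux

theorem K_hyp (h : ℝ × ℝ → E4) (hh : IsCont g h) : IsTransHyp g (Kset h) 2 := by
  refine ⟨⟨K_compact F g hF hg h hh, ⟨_, ⟨(0, 0), rfl⟩⟩, K_inv F g hF hg h hh,
    stableSpace g, unstableSpace g, 1, 1 / 2, by norm_num, by norm_num, by norm_num, ?_, ?_⟩,
    K_trans F g hF hg h hh⟩
  · intro p ℓ hℓ
    exact ⟨stable_per F g hF hg p ℓ hℓ, unstable_per F g hF hg p ℓ hℓ⟩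
  · intro p hp
    obtain ⟨z, ℓ, hℓ, rfl⟩ := mem_Kset hp
    have hfor : ∀ n : ℕ, g.lift^[n] (h z) ∈ U0 := by
      intro n
      obtain ⟨z', hz⟩ := h_per_orbit g h hh z n
      rw [hz]
      exact h_mem_U0 g h hh z'
    have hback : ∀ n : ℕ, g.lift.symm^[n] (h z) ∈ U0 := by
      intro n
      obtain ⟨z', hz⟩ := h_back_orbit g h hh z n
      rw [hz]
      exact h_mem_U0 g h hh z'
    obtain ⟨s1, s2, -⟩ := stable_U0 F g hF hg (h z) hfor
    obtain ⟨u1, u2, -⟩ := unstable_U0 F g hF hg (h z) hback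
    rw [stable_per F g hF hg _ _ hℓ, unstable_per F g hF hg _ _ hℓ]
    refine ⟨?_, s1, ?_, ?_, ?_, ?_⟩
    · rw [Submodule.isCompl_iff_disjoint]
      · apply disjoint_of F g hF hg (h z) 1 1 (by norm_num) (by norm_num)
        · intro w hw
          have := s2 w hw 1
          rw [one_mul]
          exact this
        · obtain ⟨z', hz⟩ := h_per_orbit g h hh z 1
          intro w hw
          rw [hz] at hw ⊢
          have hback' : ∀ n : ℕ, g.lift.symm^[n] (h z') ∈ U0 := by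
            intro n
            obtain ⟨z'', hz'⟩ := h_back_orbit g h hh z' n
            rw [hz']
            exact h_mem_U0 g h hh z''
          have := (unstable_U0 F g hF hg (h z') hback').2.1 w hw 1
          rw [one_mul]
          exact this
      · rw [s1, u1]
        simp
    · rw [← stable_per F g hF hg _ _ hℓ, map_stable F g hF hg]
    · rw [← unstable_per F g hF hg _ _ hℓ, map_unstable F g hF hg]
    · intro n v hv
      rw [fderiv_per F g hF hg n _ _ hℓ, one_mul]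
      exact s2 v hv n
    · intro n v hv
      rw [fderiv_symm_per F g hF hg n _ _ hℓ, one_mul]
      exact u2 v hv n

/-! ### the fixed point -/

omit hF hg in
theorem res_apply (v : E4) : v - LM (JJ v) = ![(1 - lam) * v 0, v 1 + v 3 / lam,
    (1 - 1 / Lam) * v 2, v 3 - Lam * v 1] := by
  ext i
  rw [Pi.sub_apply, LM_apply, JJ_apply]
  fin_cases i
  · show v 0 - lam * v 0 = (1 - lam) * v 0
    ring
  · show v 1 - (1 / lam) * (-v 3) = v 1 + v 3 / lam
    ring
  · show v 2 - (1 / Lam) * v 2 = (1 - 1 / Lam) * v 2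
    ring
  · show v 3 - Lam * v 1 = v 3 - Lam * v 1
    rfl

omit hF hg in
theorem norm_le_res (v : E4) : ‖v‖ ≤ 3 * ‖v - LM (JJ v)‖ := by
  have hl := lam_bounds
  have hL := Lam_bounds
  have hli : 1 / lam < 0.382 := by
    rw [div_lt_iff₀ (by linarith [hl.1])]
    linarith [hl.1]
  have hli0 : 0 < 1 / lam := div_pos one_pos (by linarith [hl.1])
  have hLi : 1 / Lam < 0.06 := by
    rw [div_lt_iff₀ (by linarith [hL.1])]
    linarith [hL.1]
  have hLi0 : 0 < 1 / Lam := div_pos one_pos (by linarith [hL.1])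
  rw [res_apply]
  set M := ‖(![(1 - lam) * v 0, v 1 + v 3 / lam, (1 - 1 / Lam) * v 2, v 3 - Lam * v 1] : E4)‖ with hM
  have m0 : |(1 - lam) * v 0| ≤ M := norm_le_pi_norm (![(1 - lam) * v 0, v 1 + v 3 / lam,
    (1 - 1 / Lam) * v 2, v 3 - Lam * v 1] : E4) 0
  have m1 : |v 1 + v 3 / lam| ≤ M := norm_le_pi_norm (![(1 - lam) * v 0, v 1 + v 3 / lam,
    (1 - 1 / Lam) * v 2, v 3 - Lam * v 1] : E4) 1
  have m2 : |(1 - 1 / Lam) * v 2| ≤ M := norm_le_pi_norm (![(1 - lam) * v 0, v 1 + v 3 / lam,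
    (1 - 1 / Lam) * v 2, v 3 - Lam * v 1] : E4) 2
  have m3 : |v 3 - Lam * v 1| ≤ M := norm_le_pi_norm (![(1 - lam) * v 0, v 1 + v 3 / lam,
    (1 - 1 / Lam) * v 2, v 3 - Lam * v 1] : E4) 3
  have hM0 : 0 ≤ M := norm_nonneg _
  clear_value M
  -- coordinates 1 and 3
  have hlam0 : 0 < lam := by linarith [hl.1]
  have q1 : (1 + lam ^ 2) * v 1 = (v 1 + v 3 / lam) - (v 3 - Lam * v 1) / lam := by
    rw [Lam_eq]
    field_simp
    ring
  have q3 : v 3 = (v 3 - Lam * v 1) + Lam * v 1 := by ring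
  have b1 : |v 1| ≤ 0.177 * M := by
    have h1 : |(1 + lam ^ 2) * v 1| ≤ M + M * (1 / lam) := by
      rw [q1]
      refine (abs_sub _ _).trans (add_le_add m1 ?_)
      rw [abs_div, abs_of_pos hlam0, div_eq_mul_one_div]
      exact mul_le_mul_of_nonneg_right m3 hli0.le
    rw [abs_mul, abs_of_pos (by positivity)] at h1
    have h2 : (7.8539 : ℝ) < 1 + lam ^ 2 := by nlinarith [hl.1]
    nlinarith [abs_nonneg (v 1)]
  rw [pi_norm_le_iff_of_nonneg (by positivity)]
  intro i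
  rw [Real.norm_eq_abs]
  fin_cases i
  · show |v 0| ≤ 3 * M
    rw [abs_mul, abs_of_neg (by linarith [hl.1] : 1 - lam < 0)] at m0
    nlinarith [abs_nonneg (v 0), hl.1]
  · show |v 1| ≤ 3 * M
    linarith
  · show |v 2| ≤ 3 * M
    rw [abs_mul, abs_of_pos (by linarith : 0 < 1 - 1 / Lam)] at m2
    nlinarith [abs_nonneg (v 2)]
  · show |v 3| ≤ 3 * M
    -- more precise: v 3 (1 + lam^2) = (v3 - Lam v1) + Lam (v1 + v3/lam)
    have q : (1 + lam ^ 2) * v 3 = (v 3 - Lam * v 1) + Lam * (v 1 + v 3 / lam) := by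
      rw [Lam_eq]
      field_simp
      ring
    have h1 : |(1 + lam ^ 2) * v 3| ≤ M + Lam * M := by
      rw [q]
      refine (abs_add_le _ _).trans (add_le_add m3 ?_)
      rw [abs_mul, abs_of_pos (by linarith [hL.1] : 0 < Lam)]
      exact mul_le_mul_of_nonneg_left m1 (by linarith [hL.1])
    rw [abs_mul, abs_of_pos (by positivity)] at h1
    have h2 : (7.8539 : ℝ) < 1 + lam ^ 2 := by nlinarith [hl.1]
    have h3 : M + Lam * M ≤ 18.945 * M := by nlinarith [hL.2]
    nlinarith [abs_nonneg (v 3)]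

/-- the inverse of `1 - LM JJ` -/
noncomputable def RR (b : E4) : E4 :=
  ![b 0 / (1 - lam), (b 1 - b 3 / lam) / (1 + lam ^ 2), b 2 / (1 - 1 / Lam),
    b 3 + Lam * ((b 1 - b 3 / lam) / (1 + lam ^ 2))]

omit hF hg in
theorem res_RR (b : E4) : RR b - LM (JJ (RR b)) = b := by
  have hl := lam_bounds
  have hL := Lam_bounds
  have hlam0 : lam ≠ 0 := by linarith [hl.1]
  have h1 : 1 - lam ≠ 0 := by linarith [hl.1]
  have h2 : 1 - 1 / Lam ≠ 0 := by
    have : 1 / Lam < 1 := by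
      rw [div_lt_one (by linarith [hL.1])]
      linarith [hL.1]
    linarith
  have h3 : 1 + lam ^ 2 ≠ 0 := by positivity
  rw [res_apply]
  ext i
  fin_cases i
  · show (1 - lam) * (b 0 / (1 - lam)) = b 0
    field_simp
  · show (b 1 - b 3 / lam) / (1 + lam ^ 2) + (b 3 + Lam * ((b 1 - b 3 / lam) / (1 + lam ^ 2))) / lam = b 1
    rw [Lam_eq]
    field_simp
    ring
  · show (1 - 1 / Lam) * (b 2 / (1 - 1 / Lam)) = b 2
    rw [mul_div_cancel₀ _ h2]
  · show (b 3 + Lam * ((b 1 - b 3 / lam) / (1 + lam ^ 2))) - Lam * ((b 1 - b 3 / lam) / (1 + lam ^ 2)) = b 3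
    ring

omit hF hg in
theorem mem_BP_of_norm {v : E4} (hv : ‖v‖ ≤ 1 / 200) : v ∈ BP := by
  have hl := lam_bounds
  have h : ∀ i, |v i| ≤ 1 / 200 := fun i => (norm_le_pi_norm v i).trans hv
  refine ⟨(h 0).trans (by norm_num), ?_, (h 2).trans (by norm_num), (h 3).trans (by norm_num)⟩
  have h1 : lam ^ 2 ≤ 7 := by nlinarith [hl.1, hl.2]
  nlinarith [h 1, abs_nonneg (v 1)]

theorem exists_fix : ∃ v : E4, gP g v = v ∧ ‖v‖ ≤ 1 / 1000 := by
  set T : E4 → E4 := fun v => RR (gP g v - LM (JJ v)) with hT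
  have hTd : ∀ v w : E4, T v - T w - LM (JJ (T v - T w)) =
      (gP g v - LM (JJ v)) - (gP g w - LM (JJ w)) := by
    intro v w
    have e1 := res_RR (gP g v - LM (JJ v))
    have e2 := res_RR (gP g w - LM (JJ w))
    simp only [hT]
    rw [map_sub, map_sub]
    calc RR (gP g v - LM (JJ v)) - RR (gP g w - LM (JJ w)) -
        (LM (JJ (RR (gP g v - LM (JJ v)))) - LM (JJ (RR (gP g w - LM (JJ w))))) =
        (RR (gP g v - LM (JJ v)) - LM (JJ (RR (gP g v - LM (JJ v))))) -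
        (RR (gP g w - LM (JJ w)) - LM (JJ (RR (gP g w - LM (JJ w))))) := by abel
      _ = _ := by rw [e1, e2]
  have hball : ∀ v ∈ Metric.closedBall (0 : E4) (1 / 1000), v ∈ BP := by
    intro v hv
    rw [mem_closedBall_zero_iff] at hv
    exact mem_BP_of_norm (hv.trans (by norm_num))
  have hmaps : Set.MapsTo T (Metric.closedBall (0 : E4) (1 / 1000))
      (Metric.closedBall (0 : E4) (1 / 1000)) := by
    intro v hv
    rw [mem_closedBall_zero_iff]
    have h1 := norm_le_res (T v)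
    have h2 : T v - LM (JJ (T v)) = gP g v - LM (JJ v) := res_RR _
    rw [h2] at h1
    have h3 := approxP F g hF hg v (hball v hv)
    have h4 : dl = 1 / 100000 := rfl
    rw [h4] at h3
    linarith
  have hlip : ∀ v ∈ Metric.closedBall (0 : E4) (1 / 1000), ∀ w ∈ Metric.closedBall (0 : E4) (1 / 1000),
      dist (T v) (T w) ≤ (1 / 2 : ℝ) * dist v w := by
    intro v hv w hw
    rw [dist_eq_norm, dist_eq_norm]
    have h1 := norm_le_res (T v - T w)
    rw [hTd v w] at h1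
    have h3 := stepP F g hF hg v w (hball v hv) (hball w hw)
    have e : gP g v - gP g w - LM (JJ (v - w)) = (gP g v - LM (JJ v)) - (gP g w - LM (JJ w)) := by
      rw [map_sub, map_sub]
      abel
    rw [e] at h3
    have h4 : dl = 1 / 100000 := rfl
    rw [h4] at h3
    nlinarith [norm_nonneg (v - w)]
  have hcontr : ContractingWith (1 / 2 : NNReal) (hmaps.restrict T _ _) := by
    refine ⟨by
      rw [← NNReal.coe_lt_coe]
      norm_num, ?_⟩
    apply LipschitzWith.of_dist_le_mul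
    intro v w
    have h := hlip v v.2 w w.2
    have e : ((1 / 2 : NNReal) : ℝ) = 1 / 2 := by norm_num
    rw [e]
    exact h
  obtain ⟨v, hv, hfix, -⟩ := ContractingWith.exists_fixedPoint' (f := T)
    (Metric.isClosed_closedBall.isComplete) hmaps hcontr
    (x := (0 : E4)) (by simp) (edist_ne_top _ _)
  refine ⟨v, ?_, mem_closedBall_zero_iff.1 hv⟩
  have h1 : T v = v := hfix
  have h2 : T v - LM (JJ (T v)) = gP g v - LM (JJ v) := res_RR _
  rw [h1] at h2
  exact (sub_left_inj.1 h2).symm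

theorem fix_unique (v w : E4) (hv : gP g v = v) (hw : gP g w = w) (hv' : ‖v‖ ≤ 1 / 200)
    (hw' : ‖w‖ ≤ 1 / 200) : v = w := by
  have h3 := stepP F g hF hg v w (mem_BP_of_norm hv') (mem_BP_of_norm hw')
  rw [hv, hw] at h3
  have h1 := norm_le_res (v - w)
  have h4 : dl = 1 / 100000 := rfl
  rw [h4] at h3
  have h5 : ‖v - w‖ ≤ 0 := by nlinarith [norm_nonneg (v - w)]
  have h6 := norm_le_zero_iff.1 h5
  exact sub_eq_zero.1 h6

theorem fix_hyp (v : E4) (hv : gP g v = v) (hv' : ‖v‖ ≤ 1 / 1000) :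
    IsTransHyp g {((PP + v : E4) : E4 ⧸ LL)} 1 := by
  have hBP : v ∈ BP := mem_BP_of_norm (hv'.trans (by norm_num))
  have hfor : ∀ n : ℕ, (gP g)^[n] v = v := fun n => Function.iterate_fixed hv n
  have hv2 : (gP g).symm v = v := by
    rw [Equiv.symm_apply_eq, hv]
  have hback : ∀ n : ℕ, (gP g).symm^[n] v = v := fun n => Function.iterate_fixed hv2 n
  have hmk : g.map ((PP + v : E4) : E4 ⧸ LL) = ((PP + v : E4) : E4 ⧸ LL) := by
    have := mk_gP F g hF hg 1 v
    rw [Function.iterate_one, Function.iterate_one, hv] at this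
    exact this.symm
  obtain ⟨s1, s2, -⟩ := stable_P F g hF hg v (fun n => by rw [hfor n]; exact hBP)
  obtain ⟨u1, u2, -⟩ := unstable_P F g hF hg v (fun n => by rw [hback n]; exact hBP)
  have hlift : g.lift (PP + v) = (PP + v) + lP := by
    have h1 : g.lift (PP + v) - PP - lP = v := hv
    have h2 : g.lift (PP + v) = (g.lift (PP + v) - PP - lP) + lP + PP := by abel
    rw [h1] at h2
    rw [h2]
    abel
  have hiter : ∀ n : ℕ, ∃ ℓ ∈ LL, g.lift^[n] (PP + v) = (PP + v) + ℓ := by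
    intro n
    induction n with
    | zero => exact ⟨0, LL.zero_mem, by simp⟩
    | succ n ih =>
      obtain ⟨ℓ, hℓ, h⟩ := ih
      refine ⟨lP + LM ℓ, LL.add_mem lP_mem (LM_mem ℓ hℓ), ?_⟩
      rw [Function.iterate_succ_apply', h, g_per F g hF hg _ _ hℓ, hlift]
      abel
  refine ⟨⟨isCompact_singleton, Set.singleton_nonempty _, ?_,
    stableSpace g, unstableSpace g, 10, 1 / 2, by norm_num, by norm_num, by norm_num, ?_, ?_⟩,
    ⟨_, rfl, ?_⟩⟩
  · rw [Set.image_singleton, hmk]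
  · intro p ℓ hℓ
    exact ⟨stable_per F g hF hg p ℓ hℓ, unstable_per F g hF hg p ℓ hℓ⟩
  · intro p hp
    rw [Set.mem_singleton_iff] at hp
    have hp' := QuotientAddGroup.eq.1 hp.symm
    obtain ⟨ℓ, hℓ, rfl⟩ : ∃ ℓ ∈ LL, p = (PP + v) + ℓ := ⟨-(PP + v) + p, hp', by abel⟩
    rw [stable_per F g hF hg _ _ hℓ, unstable_per F g hF hg _ _ hℓ]
    refine ⟨?_, s1, ?_, ?_, ?_, ?_⟩
    · rw [Submodule.isCompl_iff_disjoint]
      · apply disjoint_of F g hF hg (PP + v) 10 4 (by norm_num) (by norm_num)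
        · intro w hw
          exact s2 w hw 4
        · obtain ⟨m, hm, h⟩ := hiter 4
          intro w hw
          rw [h] at hw ⊢
          rw [unstable_per F g hF hg _ _ hm] at hw
          rw [fderiv_symm_per F g hF hg 4 _ _ hm]
          exact u2 w hw 4
      · rw [s1, u1]
        simp
    · rw [← stable_per F g hF hg _ _ hℓ, map_stable F g hF hg]
    · rw [← unstable_per F g hF hg _ _ hℓ, map_unstable F g hF hg]
    · intro n w hw
      rw [fderiv_per F g hF hg n _ _ hℓ]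
      exact s2 w hw n
    · intro n w hw
      rw [fderiv_symm_per F g hF hg n _ _ hℓ]
      exact u2 w hw n
  · intro x hx
    rw [Set.mem_singleton_iff] at hx
    rw [hx]
    exact subset_closure ⟨0, rfl⟩

end

end Pool.Agent.MP_6961e8
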