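import Mathlib

/-! One dimensional shooting lemma. -/

open Filter Topology Set

namespace Pool.Agent.MP_6961e8

/-- refine an interval on which a continuous function goes from below `-r` to above `r` to one
on which it stays in `[-r, r]` with the extreme values at the ends -/
theorem refine_interval (σ : ℝ → ℝ) (a b r : ℝ) (hab : a ≤ b) (hr : 0 < r)
    (hc : ContinuousOn σ (Icc a b)) (ha : σ a ≤ -r) (hb : r ≤ σ b) :
    ∃ a' b', a ≤ a' ∧ a' ≤ b' ∧ b' ≤ b ∧ σ a' = -r ∧ σ b' = r ∧ ∀ t ∈ Icc a' b', |σ t| ≤ r := by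
  -- first point where σ ≥ r
  set S : Set ℝ := Icc a b ∩ σ ⁻¹' (Ici r) with hS
  have hSclosed : IsClosed S := hc.preimage_isClosed_of_isClosed isClosed_Icc isClosed_Ici
  have hSne : S.Nonempty := ⟨b, right_mem_Icc.mpr hab, hb⟩
  have hSbdd : BddBelow S := ⟨a, fun x hx => hx.1.1⟩
  set b' := sInf S with hb'
  have hb'S : b' ∈ S := hSclosed.csInf_mem hSne hSbdd
  have hb'ge : r ≤ σ b' := hb'S.2
  have hb'lt : ∀ t ∈ Icc a b, t < b' → σ t < r := by
    intro t ht htb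
    by_contra hcon
    push Not at hcon
    exact absurd (csInf_le hSbdd (⟨ht, hcon⟩ : t ∈ S)) (not_le.mpr htb)
  have hab' : a ≤ b' := hb'S.1.1
  have hane : a < b' := by
    rcases hab'.lt_or_eq with h | h
    · exact h
    · exfalso
      rw [← h] at hb'ge
      linarith
  have hc' : ContinuousOn σ (Icc a b') := hc.mono (Icc_subset_Icc_right hb'S.1.2)
  have hb'eq : σ b' = r := by
    apply le_antisymm _ hb'ge
    -- limit from the left
    have hcw : ContinuousWithinAt σ (Iio b' ∩ Icc a b) b' :=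
      (hc b' hb'S.1).mono inter_subset_right
    have hne : (𝓝[Iio b' ∩ Icc a b] b').NeBot := by
      have : Ioo a b' ⊆ Iio b' ∩ Icc a b := fun x hx =>
        ⟨hx.2, ⟨hx.1.le, hx.2.le.trans hb'S.1.2⟩⟩
      exact (right_nhdsWithin_Ioo_neBot hane).mono (nhdsWithin_mono _ this)
    refine le_of_tendsto hcw ?_
    filter_upwards [self_mem_nhdsWithin] with t ht
    exact (hb'lt t ht.2 ht.1).le
  -- last point before b' where σ ≤ -r
  set S' : Set ℝ := Icc a b' ∩ σ ⁻¹' (Iic (-r)) with hS'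
  have hS'closed : IsClosed S' := hc'.preimage_isClosed_of_isClosed isClosed_Icc isClosed_Iic
  have hS'ne : S'.Nonempty := ⟨a, left_mem_Icc.mpr hab', ha⟩
  have hS'bdd : BddAbove S' := ⟨b', fun x hx => hx.1.2⟩
  set a' := sSup S' with ha'
  have ha'S : a' ∈ S' := hS'closed.csSup_mem hS'ne hS'bdd
  have ha'le : σ a' ≤ -r := ha'S.2
  have ha'gt : ∀ t ∈ Icc a b', a' < t → -r < σ t := by
    intro t ht htb
    by_contra hcon
    push Not at hcon
    exact absurd (le_csSup hS'bdd (⟨ht, hcon⟩ : t ∈ S')) (not_le.mpr htb)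
  have ha'ne : a' < b' := by
    rcases ha'S.1.2.lt_or_eq with h | h
    · exact h
    · exfalso
      rw [h, hb'eq] at ha'le
      linarith
  have ha'eq : σ a' = -r := by
    apply le_antisymm ha'le
    have hcw : ContinuousWithinAt σ (Ioi a' ∩ Icc a b') a' :=
      (hc' a' ha'S.1).mono inter_subset_right
    have hne : (𝓝[Ioi a' ∩ Icc a b'] a').NeBot := by
      have : Ioo a' b' ⊆ Ioi a' ∩ Icc a b' := fun x hx =>
        ⟨hx.1, ⟨ha'S.1.1.trans hx.1.le, hx.2.le⟩⟩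
      exact (left_nhdsWithin_Ioo_neBot ha'ne).mono (nhdsWithin_mono _ this)
    refine ge_of_tendsto hcw ?_
    filter_upwards [self_mem_nhdsWithin] with t ht
    exact (ha'gt t ht.2 ht.1).le
  refine ⟨a', b', ha'S.1.1, ha'ne.le, hb'S.1.2, ha'eq, hb'eq, ?_⟩
  intro t ht
  rw [abs_le]
  constructor
  · rcases ht.1.lt_or_eq with h | h
    · exact (ha'gt t ⟨ha'S.1.1.trans ht.1, ht.2⟩ h).le
    · rw [← h, ha'eq]
  · rcases ht.2.lt_or_eq with h | h
    · exact (hb'lt t ⟨ha'S.1.1.trans ht.1, ht.2.trans hb'S.1.2⟩ h).le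
    · rw [h, hb'eq]

/-- Shooting: `σ k` continuous on `[a, b]`, `σ (k+1)` is `e`-close to `μ σ k` as long as the
previous values are at most `r` in absolute value. -/
theorem shoot_intervals (σ : ℕ → ℝ → ℝ) (a b r μ e : ℝ) (hab : a ≤ b) (hr : 0 < r)
    (hμ : r ≤ μ * r - e)
    (hc : ∀ k, ContinuousOn (σ k) (Icc a b))
    (h0 : ∀ t ∈ Icc a b, |σ 0 t| ≤ r) (h1a : σ 1 a ≤ -r) (h1b : r ≤ σ 1 b)
    (hstep : ∀ k, ∀ t ∈ Icc a b, (∀ j ≤ k, |σ j t| ≤ r) → |σ (k + 1) t - μ * σ k t| ≤ e) :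
    ∃ A B : ℕ → ℝ, A 0 = a ∧ B 0 = b ∧ (∀ n, A n ≤ A (n + 1) ∧ A n ≤ B n ∧ B (n + 1) ≤ B n) ∧
      (∀ n, σ (n + 1) (A n) ≤ -r ∧ r ≤ σ (n + 1) (B n)) ∧
      (∀ n, ∀ t ∈ Icc (A n) (B n), ∀ j ≤ n, |σ j t| ≤ r) := by
  -- state: interval with the properties at level n
  let Good : ℕ → ℝ × ℝ → Prop := fun n p => a ≤ p.1 ∧ p.1 ≤ p.2 ∧ p.2 ≤ b ∧
    σ (n + 1) p.1 ≤ -r ∧ r ≤ σ (n + 1) p.2 ∧ ∀ t ∈ Icc p.1 p.2, ∀ j ≤ n, |σ j t| ≤ r
  have base : Good 0 (a, b) := by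
    refine ⟨le_rfl, hab, le_rfl, h1a, h1b, ?_⟩
    intro t ht j hj
    have : j = 0 := by omega
    subst this
    exact h0 t ht
  have step : ∀ n p, Good n p → ∃ p', Good (n + 1) p' ∧ p.1 ≤ p'.1 ∧ p'.2 ≤ p.2 := by
    intro n p hp
    obtain ⟨hp1, hp2, hp3, hp4, hp5, hp6⟩ := hp
    obtain ⟨a', b', h1, h2, h3, h4, h5, h6⟩ := refine_interval (σ (n + 1)) p.1 p.2 r hp2 hr
      ((hc (n + 1)).mono (Icc_subset_Icc hp1 hp3)) hp4 hp5
    have hall : ∀ t ∈ Icc a' b', ∀ j ≤ n + 1, |σ j t| ≤ r := by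
      intro t ht j hj
      rcases Nat.lt_or_ge j (n + 1) with h | h
      · exact hp6 t ⟨h1.trans ht.1, ht.2.trans h3⟩ j (by omega)
      · have : j = n + 1 := by omega
        rw [this]
        exact h6 t ht
    refine ⟨(a', b'), ⟨hp1.trans h1, h2, h3.trans hp3, ?_, ?_, hall⟩, h1, h3⟩
    · have := hstep (n + 1) a' ⟨hp1.trans h1, (h2.trans h3).trans hp3⟩
        (hall a' (left_mem_Icc.mpr h2))
      rw [h4, abs_le] at this
      simp only
      linarith [this.2]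
    · have := hstep (n + 1) b' ⟨(hp1.trans h1).trans h2, h3.trans hp3⟩
        (hall b' (right_mem_Icc.mpr h2))
      rw [h5, abs_le] at this
      simp only
      linarith [this.1]
  -- build the sequence
  choose! nxt hnxt using step
  let seq : ℕ → ℝ × ℝ := fun n => Nat.rec (a, b) (fun k p => nxt k p) n
  have hseq0 : seq 0 = (a, b) := rfl
  have hseqs : ∀ n, seq (n + 1) = nxt n (seq n) := fun n => rfl
  have hgood : ∀ n, Good n (seq n) := by
    intro n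
    induction n with
    | zero => exact base
    | succ n ih => rw [hseqs]; exact (hnxt n _ ih).1
  refine ⟨fun n => (seq n).1, fun n => (seq n).2, rfl, rfl, ?_, ?_, ?_⟩
  · intro n
    refine ⟨?_, (hgood n).2.1, ?_⟩
    · show (seq n).1 ≤ (seq (n + 1)).1
      rw [hseqs]; exact (hnxt n _ (hgood n)).2.1
    · show (seq (n + 1)).2 ≤ (seq n).2
      rw [hseqs]; exact (hnxt n _ (hgood n)).2.2
  · intro n
    exact ⟨(hgood n).2.2.2.1, (hgood n).2.2.2.2.1⟩
  · intro n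
    exact (hgood n).2.2.2.2.2

/-- finite shooting -/
theorem shoot_finite (σ : ℕ → ℝ → ℝ) (a b r μ e : ℝ) (hab : a ≤ b) (hr : 0 < r)
    (hμ : r ≤ μ * r - e)
    (hc : ∀ k, ContinuousOn (σ k) (Icc a b))
    (h0 : ∀ t ∈ Icc a b, |σ 0 t| ≤ r) (h1a : σ 1 a ≤ -r) (h1b : r ≤ σ 1 b)
    (hstep : ∀ k, ∀ t ∈ Icc a b, (∀ j ≤ k, |σ j t| ≤ r) → |σ (k + 1) t - μ * σ k t| ≤ e)
    (n : ℕ) : ∃ t ∈ Icc a b, (∀ j ≤ n, |σ j t| ≤ r) ∧ σ (n + 1) t = 0 := by
  obtain ⟨A, B, hA0, hB0, hmono, hends, hin⟩ :=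
    shoot_intervals σ a b r μ e hab hr hμ hc h0 h1a h1b hstep
  have hAge : ∀ n, a ≤ A n := by
    intro n
    induction n with
    | zero => exact hA0.ge
    | succ n ih => exact ih.trans (hmono n).1
  have hBle : ∀ n, B n ≤ b := by
    intro n
    induction n with
    | zero => exact hB0.le
    | succ n ih => exact (hmono n).2.2.trans ih
  have hsub : Icc (A n) (B n) ⊆ Icc a b := Icc_subset_Icc (hAge n) (hBle n)
  have hcn : ContinuousOn (σ (n + 1)) (Icc (A n) (B n)) := (hc (n + 1)).mono hsub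
  have hAB := (hmono n).2.1
  have hivt := intermediate_value_Icc hAB hcn
  have h0mem : (0 : ℝ) ∈ Icc (σ (n + 1) (A n)) (σ (n + 1) (B n)) :=
    ⟨(hends n).1.trans (by linarith), le_trans hr.le (hends n).2⟩
  obtain ⟨t, ht, htz⟩ := hivt h0mem
  exact ⟨t, hsub ht, hin n t ht, htz⟩

/-- infinite shooting -/
theorem shoot_infinite (σ : ℕ → ℝ → ℝ) (a b r μ e : ℝ) (hab : a ≤ b) (hr : 0 < r)
    (hμ : r ≤ μ * r - e)
    (hc : ∀ k, ContinuousOn (σ k) (Icc a b))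
    (h0 : ∀ t ∈ Icc a b, |σ 0 t| ≤ r) (h1a : σ 1 a ≤ -r) (h1b : r ≤ σ 1 b)
    (hstep : ∀ k, ∀ t ∈ Icc a b, (∀ j ≤ k, |σ j t| ≤ r) → |σ (k + 1) t - μ * σ k t| ≤ e) :
    ∃ t ∈ Icc a b, ∀ j, |σ j t| ≤ r := by
  obtain ⟨A, B, hA0, hB0, hmono, hends, hin⟩ :=
    shoot_intervals σ a b r μ e hab hr hμ hc h0 h1a h1b hstep
  have hAm : Monotone A := monotone_nat_of_le_succ fun n => (hmono n).1
  have hBa : Antitone B := antitone_nat_of_succ_le fun n => (hmono n).2.2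
  have hne : (⋂ n, Icc (A n) (B n)).Nonempty := by
    apply IsCompact.nonempty_iInter_of_directed_nonempty_isCompact_isClosed
    · apply directed_of_isDirected_le
      intro i j hij
      exact Icc_subset_Icc (hAm hij) (hBa hij)
    · intro n
      exact nonempty_Icc.mpr (hmono n).2.1
    · intro n; exact isCompact_Icc
    · intro n; exact isClosed_Icc
  obtain ⟨t, ht⟩ := hne
  rw [mem_iInter] at ht
  refine ⟨t, ?_, fun j => hin j t (ht j) j le_rfl⟩
  have := ht 0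
  rwa [hA0, hB0] at this

end Pool.Agent.MP_6961e8
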