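import Pool.Agent.MP_6961e8.STEP
import Pool.Agent.MP_6961e8.Shoot

/-!
Module T1: the connection from the torus to the fixed point.
-/

open Filter Topology

namespace Pool.Agent.MP_6961e8

theorem continuous_lift (g : TorusDiffeo LL) : Continuous g.lift := g.contDiff_lift.continuous

theorem continuous_lift_symm (g : TorusDiffeo LL) : Continuous g.lift.symm :=
  g.contDiff_symm.continuous

theorem continuous_gP (g : TorusDiffeo LL) : Continuous (gP g) := by
  show Continuous fun v => g.lift (PP + v) - PP - lP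
  have := continuous_lift g
  fun_prop

theorem continuous_gP_symm (g : TorusDiffeo LL) : Continuous (gP g).symm := by
  show Continuous fun v => g.lift.symm (v + PP + lP) - PP
  have := continuous_lift_symm g
  fun_prop

theorem continuous_gR (g : TorusDiffeo LL) : Continuous (gR g) := by
  show Continuous fun p => g.lift p - PP - lR
  have := continuous_lift g
  fun_prop

theorem e2_val : e2 0 = 0 ∧ e2 1 = 0 ∧ e2 2 = 1 ∧ e2 3 = 0 := ⟨rfl, rfl, rfl, rfl⟩

section
variable (F g : TorusDiffeo LL) (hF : IsModel F) (hg : C1Close dl F g)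
include hF hg

/-- preimages near the invariant torus, larger range of `u` -/
theorem backU0' (q : E4) (h2 : |q 2| ≤ 68 / 10000) (h3 : |q 3| ≤ 22 / 10) :
    g.lift.symm q ∈ U0 := by
  have key : ∃ p ∈ U0, g.lift p = q := by
    refine solve_aux U0 U0_closed 0 ?_ LM LMi g.lift q LM_LMi LMi_norm ?_ ?_
    · refine ⟨?_, ?_⟩ <;> simp
    · intro p hp r hr
      have h := (auxU0 F g hF hg).2 p hp r hr
      rwa [zero_add, zero_add] at h
    · intro p hp
      set e := g.lift p - LM p with hedef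
      have hi : ∀ i, |e i| ≤ dl := by
        intro i
        have := approxU0 F g hF hg p hp i
        rw [hedef, Pi.sub_apply, LM_apply]
        exact this
      have hv : ∀ i, |(q - e) i| ≤ |q i| + dl := by
        intro i
        rw [Pi.sub_apply]
        exact (abs_sub _ _).trans (by have := hi i; linarith)
      have hd : dl = 1 / 100000 := rfl
      have hL := Lam_bounds
      have hLp := Lam_pos
      refine ⟨?_, ?_⟩
      · rw [LMi_apply, dg_two, one_div, inv_inv, abs_mul, abs_of_pos hLp]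
        have := hv 2
        have h4 : |(q - e) 2| ≤ 681 / 100000 := by linarith
        calc Lam * |(q - e) 2| ≤ 17.945 * (681 / 100000) := by
              gcongr; exact hL.2.le
          _ ≤ 1 / 8 := by norm_num
      · rw [LMi_apply, dg_three, abs_mul, abs_of_pos (inv_pos.mpr hLp), inv_mul_le_iff₀ hLp]
        have := hv 3
        linarith
  obtain ⟨p, hp, hpv⟩ := key
  have h4 : g.lift.symm q = p := by rw [← hpv, Equiv.symm_apply_apply]
  rw [h4]
  exact hp

/-- one backward step in `BP` -/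
theorem backP_step (w : E4) (h0 : |w 0| ≤ 5 * dl) (h1 : lam ^ 2 * |w 1| ≤ 5 * dl)
    (h3 : |w 3| ≤ 5 * dl) (h2 : |w 2| ≤ 27 / 10000) :
    (gP g).symm w ∈ BP ∧ |(gP g).symm w 0| ≤ 5 * dl ∧ lam ^ 2 * |(gP g).symm w 1| ≤ 5 * dl ∧
      |(gP g).symm w 3| ≤ 5 * dl ∧ |(gP g).symm w 2 - Lam * w 2| ≤ Lam * dl := by
  have hd : dl = 1 / 100000 := rfl
  have hl := lam_bounds
  have hL := Lam_bounds
  have hlp := lam_pos
  have hLp := Lam_pos
  have hdp := dl_pos
  obtain ⟨hB, hn⟩ := backP F g hF hg w (by rw [hd] at h0; linarith) (by rw [hd] at h1; linarith)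
    (by rw [hd] at h3; linarith) h2
  refine ⟨hB, ?_⟩
  rw [Equiv.apply_symm_apply] at hn
  set v := (gP g).symm w with hv
  have c0 := mem_norm hn 0
  have c1 := mem_norm hn 1
  have c2 := mem_norm hn 2
  have c3 := mem_norm hn 3
  rw [Pi.sub_apply, LM_apply, JJ_apply] at c0 c1 c2 c3
  have c0' : |w 0 - lam * v 0| ≤ dl := c0
  have c1' : |w 1 - 1 / lam * (-v 3)| ≤ dl := c1
  have c2' : |w 2 - 1 / Lam * v 2| ≤ dl := c2
  have c3' : |w 3 - Lam * v 1| ≤ dl := c3
  refine ⟨?_, ?_, ?_, ?_⟩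
  · have a1 : lam * |v 0| ≤ 6 * dl := by
      have : |lam * v 0| ≤ |w 0| + |w 0 - lam * v 0| := by
        have := abs_sub_abs_le_abs_sub (lam * v 0) (w 0)
        rw [abs_sub_comm (w 0)]; linarith
      rw [abs_mul, abs_of_pos hlp] at this
      linarith
    nlinarith [abs_nonneg (v 0)]
  · have a1 : Lam * |v 1| ≤ 6 * dl := by
      have : |Lam * v 1| ≤ |w 3| + |w 3 - Lam * v 1| := by
        have := abs_sub_abs_le_abs_sub (Lam * v 1) (w 3)
        rw [abs_sub_comm (w 3)]; linarith
      rw [abs_mul, abs_of_pos hLp] at this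
      linarith
    rw [Lam_eq] at a1
    have a2 : lam * (lam ^ 2 * |v 1|) ≤ 6 * dl := by
      calc lam * (lam ^ 2 * |v 1|) = lam ^ 3 * |v 1| := by ring
        _ ≤ 6 * dl := a1
    have : 0 ≤ lam ^ 2 * |v 1| := by positivity
    nlinarith
  · have a1 : |v 3| ≤ lam * |w 1| + lam * dl := by
      have h5 : |1 / lam * v 3| ≤ |w 1| + dl := by
        have h6 : 1 / lam * v 3 = (w 1 - 1 / lam * (-v 3)) - w 1 := by ring
        rw [h6]
        have := abs_sub (w 1 - 1 / lam * (-v 3)) (w 1)
        linarith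
      rw [abs_mul, abs_of_pos (by positivity : (0:ℝ) < 1 / lam)] at h5
      have h7 : |v 3| = lam * (1 / lam * |v 3|) := by field_simp
      rw [h7]
      calc lam * (1 / lam * |v 3|) ≤ lam * (|w 1| + dl) := by gcongr
        _ = _ := by ring
    have a2 : lam * (lam * |w 1|) ≤ 5 * dl := by
      calc lam * (lam * |w 1|) = lam ^ 2 * |w 1| := by ring
        _ ≤ 5 * dl := h1
    have a3 : lam * |w 1| ≤ 2 * dl := by
      have : 0 ≤ lam * |w 1| := by positivity
      nlinarith
    nlinarith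
  · have h5 : |Lam * (w 2 - 1 / Lam * v 2)| ≤ Lam * dl := by
      rw [abs_mul, abs_of_pos hLp]; gcongr
    have h6 : Lam * (w 2 - 1 / Lam * v 2) = Lam * w 2 - v 2 := by field_simp
    rw [h6, abs_sub_comm] at h5
    exact h5

/-- the second backward step at the transition `R` -/
theorem backR2_step (w : E4) (h0 : |w 0| ≤ 5 * dl) (h1 : lam ^ 2 * |w 1| ≤ 5 * dl)
    (h3 : |w 3| ≤ 5 * dl) (h2 : |w 2 - kap / Lam| ≤ 1 / 2000) :
    |(gP g).symm w 0| ≤ 5 * dl ∧ |(gP g).symm w 1| ≤ 5 * dl ∧
      |(gP g).symm w 3| ≤ 5 * dl ∧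
      |((gP g).symm w 2 - kap) - Lam * (w 2 - kap / Lam)| ≤ Lam * dl := by
  have hd : dl = 1 / 100000 := rfl
  have hl := lam_bounds
  have hL := Lam_bounds
  have hlp := lam_pos
  have hLp := Lam_pos
  have hdp := dl_pos
  have h1' : |w 1| ≤ 5 * dl := by
    have : 0 ≤ |w 1| := abs_nonneg _
    nlinarith
  have hi := backR2 F g hF hg w (by rw [hd] at h0; linarith) (by rw [hd] at h1'; linarith)
    (by rw [hd] at h3; linarith) h2
  have hn := approxR2 F g hF hg ((gP g).symm w - kap • e2) hi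
  rw [add_sub_cancel, Equiv.apply_symm_apply] at hn
  set v := (gP g).symm w with hv
  have c0 := mem_norm hn 0
  have c1 := mem_norm hn 1
  have c2 := mem_norm hn 2
  have c3 := mem_norm hn 3
  obtain ⟨z0, z1, z2, z3⟩ := e2_val
  simp only [Pi.sub_apply, Pi.add_apply, Pi.smul_apply, smul_eq_mul, LM_apply, z0, z1, z2, z3,
    mul_zero, mul_one, zero_add, sub_zero, dg_zero, dg_one, dg_two, dg_three] at c0 c1 c2 c3
  refine ⟨?_, ?_, ?_, ?_⟩
  · have a1 : lam * |v 0| ≤ 6 * dl := by
      have : |lam * v 0| ≤ |w 0| + |w 0 - lam * v 0| := by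
        have := abs_sub_abs_le_abs_sub (lam * v 0) (w 0)
        rw [abs_sub_comm (w 0)]; linarith
      rw [abs_mul, abs_of_pos hlp] at this
      linarith
    nlinarith [abs_nonneg (v 0)]
  · have a1 : |v 1| ≤ lam * |w 1| + lam * dl := by
      have h5 : |1 / lam * v 1| ≤ |w 1| + dl := by
        have h6 : 1 / lam * v 1 = w 1 - (w 1 - 1 / lam * v 1) := by ring
        rw [h6]
        have := abs_sub (w 1) (w 1 - 1 / lam * v 1)
        linarith
      rw [abs_mul, abs_of_pos (by positivity : (0:ℝ) < 1 / lam)] at h5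
      have h7 : |v 1| = lam * (1 / lam * |v 1|) := by field_simp
      rw [h7]
      calc lam * (1 / lam * |v 1|) ≤ lam * (|w 1| + dl) := by gcongr
        _ = _ := by ring
    have a2 : lam * (lam * |w 1|) ≤ 5 * dl := by
      calc lam * (lam * |w 1|) = lam ^ 2 * |w 1| := by ring
        _ ≤ 5 * dl := h1
    have a3 : lam * |w 1| ≤ 2 * dl := by
      have : 0 ≤ lam * |w 1| := by positivity
      nlinarith
    nlinarith
  · have a1 : Lam * |v 3| ≤ 6 * dl := by
      have : |Lam * v 3| ≤ |w 3| + |w 3 - Lam * v 3| := by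
        have := abs_sub_abs_le_abs_sub (Lam * v 3) (w 3)
        rw [abs_sub_comm (w 3)]; linarith
      rw [abs_mul, abs_of_pos hLp] at this
      linarith
    nlinarith [abs_nonneg (v 3)]
  · have h5 : |Lam * (w 2 - (kap / Lam + 1 / Lam * (v 2 - kap)))| ≤ Lam * dl := by
      rw [abs_mul, abs_of_pos hLp]; gcongr
    have h6 : Lam * (w 2 - (kap / Lam + 1 / Lam * (v 2 - kap))) =
        Lam * (w 2 - kap / Lam) - (v 2 - kap) := by field_simp; ring
    rw [h6, abs_sub_comm] at h5
    exact h5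

/-- one backward step near the torus -/
theorem backU0_step (q : E4) (h2 : |q 2| ≤ 68 / 10000) (h3 : |q 3| ≤ 22 / 10) :
    g.lift.symm q ∈ U0 ∧ |g.lift.symm q 2 - Lam * q 2| ≤ Lam * dl ∧
      |g.lift.symm q 0| ≤ |q 0| + dl ∧ |g.lift.symm q 1| ≤ 3 * (|q 1| + dl) := by
  have hl := lam_bounds
  have hlp := lam_pos
  have hLp := Lam_pos
  have hdp := dl_pos
  have hU := backU0' F g hF hg q h2 h3
  refine ⟨hU, ?_, ?_, ?_⟩
  · have c := approxU0 F g hF hg _ hU 2
    rw [Equiv.apply_symm_apply, dg_two] at c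
    have h5 : |Lam * (q 2 - 1 / Lam * g.lift.symm q 2)| ≤ Lam * dl := by
      rw [abs_mul, abs_of_pos hLp]; gcongr
    have h6 : Lam * (q 2 - 1 / Lam * g.lift.symm q 2) = Lam * q 2 - g.lift.symm q 2 := by
      field_simp
    rw [h6, abs_sub_comm] at h5
    exact h5
  · have c := approxU0 F g hF hg _ hU 0
    rw [Equiv.apply_symm_apply, dg_zero] at c
    have : |lam * g.lift.symm q 0| ≤ |q 0| + dl := by
      have := abs_sub_abs_le_abs_sub (lam * g.lift.symm q 0) (q 0)
      rw [abs_sub_comm (q 0)] at c; linarith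
    rw [abs_mul, abs_of_pos hlp] at this
    nlinarith [abs_nonneg (g.lift.symm q 0)]
  · have c := approxU0 F g hF hg _ hU 1
    rw [Equiv.apply_symm_apply, dg_one] at c
    have h5 : |1 / lam * g.lift.symm q 1| ≤ |q 1| + dl := by
      have := abs_sub_abs_le_abs_sub (1 / lam * g.lift.symm q 1) (q 1)
      rw [abs_sub_comm (q 1)] at c; linarith
    rw [abs_mul, abs_of_pos (by positivity : (0:ℝ) < 1 / lam)] at h5
    have h7 : |g.lift.symm q 1| = lam * (1 / lam * |g.lift.symm q 1|) := by field_simp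
    rw [h7]
    have h8 : 0 ≤ |q 1| + dl := by positivity
    calc lam * (1 / lam * |g.lift.symm q 1|) ≤ lam * (|q 1| + dl) := by gcongr
      _ ≤ 3 * (|q 1| + dl) := by nlinarith

/-- the finite-time statement -/
theorem type_one_finite (n : ℕ) : ∃ p : E4, (∀ i, |p i| ≤ 1) ∧
    (∀ m : ℕ, g.lift.symm^[m] p ∈ U0) ∧ ∀ j ≤ n, (gP g)^[j + 1] (gR g p) ∈ BP := by
  have hd : dl = 1 / 100000 := rfl
  have hl := lam_bounds
  have hL := Lam_bounds
  have hk := kap_bounds
  have hlp := lam_pos
  have hLp := Lam_pos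
  have hdp := dl_pos
  obtain ⟨z0, z1, z2, z3⟩ := e2_val
  -- the backward orbit
  set P : ℕ → ℝ → E4 := fun k t => (gP g).symm^[k] (t • e2) with hP
  set q : ℝ → E4 := fun t => PP + P (n + 1) t + lR with hq
  set σ : ℕ → ℝ → ℝ := fun k t => if k ≤ n + 1 then P k t 2 - kap / Lam ^ (n + 1 - k)
    else (g.lift.symm^[k - (n + 1)] (q t)) 2 with hσ
  have hPs : ∀ k t, P (k + 1) t = (gP g).symm (P k t) := by
    intro k t
    simp only [hP]
    rw [Function.iterate_succ_apply']
  have hPc : ∀ k, Continuous (P k) := by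
    intro k
    exact ((continuous_gP_symm g).iterate k).comp (by fun_prop)
  have hqc : Continuous q := by
    have := hPc (n + 1)
    simp only [hq]
    fun_prop
  have hσc : ∀ k, Continuous (σ k) := by
    intro k
    simp only [hσ]
    split_ifs
    · exact ((continuous_apply 2).comp (hPc k)).sub continuous_const
    · exact (continuous_apply 2).comp (((continuous_lift_symm g).iterate _).comp hqc)
  have hq2 : ∀ t, q t 2 = P (n + 1) t 2 - kap := by
    intro t
    simp only [hq, Pi.add_apply]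
    have e1 : PP 2 = 1 / 2 := rfl
    have e2 : lR 2 = ps := rfl
    rw [e1, e2, kap_eq]; ring
  have hq3 : ∀ t, q t 3 = 1 / 2 + ph + P (n + 1) t 3 := by
    intro t
    simp only [hq, Pi.add_apply]
    have e1 : PP 3 = 1 / 2 := rfl
    have e2 : lR 3 = ph := rfl
    rw [e1, e2]; ring
  have hq0 : ∀ t, q t 0 = P (n + 1) t 0 := by
    intro t
    simp only [hq, Pi.add_apply]
    have e1 : PP 0 = 0 := rfl
    have e2 : lR 0 = 0 := rfl
    rw [e1, e2]; ring
  have hq1 : ∀ t, q t 1 = P (n + 1) t 1 := by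
    intro t
    simp only [hq, Pi.add_apply]
    have e1 : PP 1 = 0 := rfl
    have e2 : lR 1 = 0 := rfl
    rw [e1, e2]; ring
  have hσ1 : ∀ k t, k ≤ n + 1 → σ k t = P k t 2 - kap / Lam ^ (n + 1 - k) := by
    intro k t hk
    simp only [hσ]; rw [if_pos hk]
  have hσ2 : ∀ m t, σ (n + 1 + m) t = (g.lift.symm^[m] (q t)) 2 := by
    intro m t
    rcases m with _ | m
    · rw [Nat.add_zero, hσ1 _ _ le_rfl]
      simp [hq2]
    · simp only [hσ]
      rw [if_neg (by omega), show n + 1 + (m + 1) - (n + 1) = m + 1 by omega]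
  -- bounds on the centres
  have hLam1 : 1 < Lam := by linarith
  have hk0 : 0 < kap := by linarith
  have hcen : ∀ k, k + 1 ≤ n → 0 ≤ kap / Lam ^ (n + 1 - k) ∧ kap / Lam ^ (n + 1 - k) ≤ 1 / 1000 := by
    intro k hk'
    have hpow : Lam ^ 2 ≤ Lam ^ (n + 1 - k) := pow_le_pow_right₀ hLam1.le (by omega)
    have h322 : (322 : ℝ) ≤ Lam ^ 2 - 2 + 2.1 := by nlinarith
    refine ⟨by positivity, ?_⟩
    rw [div_le_iff₀ (by positivity)]
    nlinarith
  -- the bounds along the orbit inside `BP`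
  have inv1 : ∀ t, ∀ k, k ≤ n → (∀ j < k, |σ j t| ≤ 1 / 2000) →
      |P k t 0| ≤ 5 * dl ∧ lam ^ 2 * |P k t 1| ≤ 5 * dl ∧ |P k t 3| ≤ 5 * dl ∧
        (1 ≤ k → P k t ∈ BP) := by
    intro t k
    induction k with
    | zero =>
      intro _ _
      simp only [hP, Function.iterate_zero, id, Pi.smul_apply, smul_eq_mul, z0, z1, z3, mul_zero,
        abs_zero]
      refine ⟨by positivity, by positivity, by positivity, by omega⟩
    | succ k ih =>
      intro hk1 hj
      obtain ⟨i0, i1, i3, -⟩ := ih (by omega) (fun j hj' => hj j (by omega))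
      have hs := hj k (by omega)
      rw [hσ1 k t (by omega)] at hs
      obtain ⟨c1, c2⟩ := hcen k hk1
      have h2 : |P k t 2| ≤ 27 / 10000 := by
        rw [abs_le] at hs ⊢
        constructor <;> linarith [hs.1, hs.2]
      obtain ⟨b0, b1, b2, b3, b4⟩ := backP_step F g hF hg (P k t) i0 i1 i3 h2
      rw [hPs]
      exact ⟨b1, b2, b3, fun _ => b0⟩
  -- the points near the torus
  have inv2 : ∀ t, (∀ j ≤ n, |σ j t| ≤ 1 / 2000) →
      |P (n + 1) t 0| ≤ 5 * dl ∧ |P (n + 1) t 1| ≤ 5 * dl ∧ |P (n + 1) t 3| ≤ 5 * dl ∧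
        |(P (n + 1) t 2 - kap) - Lam * (P n t 2 - kap / Lam)| ≤ Lam * dl := by
    intro t hj
    obtain ⟨i0, i1, i3, -⟩ := inv1 t n le_rfl (fun j hj' => hj j (by omega))
    have hs := hj n le_rfl
    rw [hσ1 n t (by omega), show n + 1 - n = 1 by omega, pow_one] at hs
    have := backR2_step F g hF hg (P n t) i0 i1 i3 hs
    rw [← hPs] at this
    exact this
  have hq3' : ∀ t, |P (n + 1) t 3| ≤ 5 * dl → |q t 3| ≤ 22 / 10 := by
    intro t ht
    have hph := ph_bounds
    rw [hq3, abs_le]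
    rw [abs_le, hd] at ht
    constructor <;> linarith [ht.1, ht.2]
  have inv3 : ∀ t, ∀ m, (∀ j ≤ n + 1 + m, |σ j t| ≤ 1 / 2000) →
      |(g.lift.symm^[m] (q t)) 3| ≤ 22 / 10 ∧ (1 ≤ m → g.lift.symm^[m] (q t) ∈ U0) := by
    intro t m
    induction m with
    | zero =>
      intro hj
      refine ⟨?_, by omega⟩
      exact hq3' t (inv2 t (fun j hj' => hj j (by omega))).2.2.1
    | succ m ih =>
      intro hj
      obtain ⟨h3, -⟩ := ih (fun j hj' => hj j (by omega))
      have hs := hj (n + 1 + m) (by omega)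
      rw [hσ2] at hs
      have hU := (backU0_step F g hF hg _ (hs.trans (by norm_num)) h3).1
      rw [← Function.iterate_succ_apply' g.lift.symm m (q t)] at hU
      refine ⟨?_, fun _ => hU⟩
      have := hU.2
      linarith
  -- the step estimate
  have hstep : ∀ k, ∀ t ∈ Set.Icc (kap / Lam ^ (n + 1) - 1 / 2000) (kap / Lam ^ (n + 1) + 1 / 2000),
      (∀ j ≤ k, |σ j t| ≤ 1 / 2000) → |σ (k + 1) t - Lam * σ k t| ≤ Lam * dl := by
    intro k t _ hj
    rcases Nat.lt_trichotomy k n with hkn | hkn | hkn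
    · -- inside BP
      obtain ⟨i0, i1, i3, -⟩ := inv1 t k (by omega) (fun j hj' => hj j (by omega))
      have hs := hj k le_rfl
      rw [hσ1 k t (by omega)] at hs
      obtain ⟨c1, c2⟩ := hcen k (by omega)
      have h2 : |P k t 2| ≤ 27 / 10000 := by
        rw [abs_le] at hs ⊢
        constructor <;> linarith [hs.1, hs.2]
      obtain ⟨b0, b1, b2, b3, b4⟩ := backP_step F g hF hg (P k t) i0 i1 i3 h2
      rw [hσ1 (k + 1) t (by omega), hσ1 k t (by omega), hPs]
      have hpw : Lam * (kap / Lam ^ (n + 1 - k)) = kap / Lam ^ (n + 1 - (k + 1)) := by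
        rw [show n + 1 - k = (n + 1 - (k + 1)) + 1 by omega, pow_succ]
        field_simp
      rw [mul_sub, hpw]
      have : (gP g).symm (P k t) 2 - kap / Lam ^ (n + 1 - (k + 1)) -
          (Lam * P k t 2 - kap / Lam ^ (n + 1 - (k + 1))) = (gP g).symm (P k t) 2 - Lam * P k t 2 := by
        ring
      rw [this]; exact b4
    · subst hkn
      have h := (inv2 t hj).2.2.2
      rw [hσ1 (k + 1) t (by omega), hσ1 k t (by omega), show k + 1 - (k + 1) = 0 by omega,
        show k + 1 - k = 1 by omega, pow_zero, pow_one, div_one]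
      exact h
    · obtain ⟨m, rfl⟩ : ∃ m, k = n + 1 + m := ⟨k - (n + 1), by omega⟩
      obtain ⟨h3, -⟩ := inv3 t m hj
      have hs := hj (n + 1 + m) le_rfl
      rw [hσ2] at hs
      have hU := (backU0_step F g hF hg _ (hs.trans (by norm_num)) h3).2.1
      rw [show n + 1 + m + 1 = n + 1 + (m + 1) by omega, hσ2, hσ2, Function.iterate_succ_apply']
      exact hU
  have hσ0 : ∀ t, σ 0 t = t - kap / Lam ^ (n + 1) := by
    intro t
    rw [hσ1 0 t (by omega)]
    simp [hP, z2]
  have hr : (1 / 2000 : ℝ) ≤ Lam * (1 / 2000) - Lam * dl := by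
    rw [hd]; nlinarith
  have h0 : ∀ t ∈ Set.Icc (kap / Lam ^ (n + 1) - 1 / 2000) (kap / Lam ^ (n + 1) + 1 / 2000),
      |σ 0 t| ≤ 1 / 2000 := by
    intro t ht
    rw [hσ0, abs_le]
    constructor <;> linarith [ht.1, ht.2]
  obtain ⟨t, ht, hall⟩ := shoot_infinite σ (kap / Lam ^ (n + 1) - 1 / 2000)
    (kap / Lam ^ (n + 1) + 1 / 2000) (1 / 2000) Lam (Lam * dl) (by linarith) (by norm_num) hr
    (fun k => (hσc k).continuousOn) h0
    (by
      have hmem : kap / Lam ^ (n + 1) - 1 / 2000 ∈ Set.Icc (kap / Lam ^ (n + 1) - 1 / 2000)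
        (kap / Lam ^ (n + 1) + 1 / 2000) := ⟨le_rfl, by linarith⟩
      have := hstep 0 _ hmem (fun j hj => by
        rw [Nat.le_zero.1 hj]; exact h0 _ hmem)
      rw [hσ0, abs_le] at this
      linarith [this.2])
    (by
      have hmem : kap / Lam ^ (n + 1) + 1 / 2000 ∈ Set.Icc (kap / Lam ^ (n + 1) - 1 / 2000)
        (kap / Lam ^ (n + 1) + 1 / 2000) := ⟨by linarith, le_rfl⟩
      have := hstep 0 _ hmem (fun j hj => by
        rw [Nat.le_zero.1 hj]; exact h0 _ hmem)
      rw [hσ0, abs_le] at this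
      linarith [this.1])
    hstep
  -- the point
  obtain ⟨i0, i1, i3, -⟩ := inv2 t (fun j _ => hall j)
  have hs1 := hall (n + 1 + 0)
  rw [hσ2, Function.iterate_zero, id] at hs1
  obtain ⟨u1, u2, u3, u4⟩ := backU0_step F g hF hg (q t) (hs1.trans (by norm_num)) (hq3' t i3)
  refine ⟨g.lift.symm (q t), ?_, ?_, ?_⟩
  · intro i
    rw [hq0] at u3
    rw [hq1] at u4
    rw [hd] at u3 u4 i0 i1
    have hU := u1
    fin_cases i
    · show |g.lift.symm (q t) 0| ≤ 1
      linarith
    · show |g.lift.symm (q t) 1| ≤ 1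
      linarith
    · show |g.lift.symm (q t) 2| ≤ 1
      have := hU.1; linarith
    · show |g.lift.symm (q t) 3| ≤ 1
      have := hU.2; linarith
  · intro m
    rw [← Function.iterate_succ_apply]
    exact (inv3 t (m + 1) (fun j _ => hall j)).2 (by omega)
  · intro j hj
    have h1 : gR g (g.lift.symm (q t)) = P (n + 1) t := by
      unfold gR
      rw [Equiv.apply_symm_apply]
      simp only [hq]; abel
    rw [h1]
    have h2 : (gP g)^[j + 1] (P (n + 1) t) = P (n - j) t := by
      have h3 : P (n + 1) t = (gP g).symm^[j + 1] (P (n - j) t) := by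
        simp only [hP]
        rw [← Function.iterate_add_apply, show j + 1 + (n - j) = n + 1 by omega]
      have hinv : Function.LeftInverse (gP g)^[j + 1] (gP g).symm^[j + 1] :=
        Function.LeftInverse.iterate (gP g).apply_symm_apply _
      rw [h3, hinv]
    rw [h2]
    rcases Nat.eq_zero_or_pos (n - j) with h0' | h0'
    · rw [h0']
      have hs0 := hall 0
      rw [hσ0] at hs0
      have hc : 0 ≤ kap / Lam ^ (n + 1) ∧ kap / Lam ^ (n + 1) ≤ 1 / 100 := by
        have hpow : Lam ^ 1 ≤ Lam ^ (n + 1) := pow_le_pow_right₀ hLam1.le (by omega)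
        rw [pow_one] at hpow
        refine ⟨by positivity, ?_⟩
        rw [div_le_iff₀ (by positivity)]
        nlinarith
      have ht2 : |t| ≤ 1 / 20 := by
        rw [abs_le] at hs0 ⊢
        constructor <;> linarith [hs0.1, hs0.2, hc.1, hc.2]
      simp only [hP, Function.iterate_zero, id]
      refine ⟨?_, ?_, ?_, ?_⟩
      · simp [z0]
      · simp [z1]
      · simpa [z2] using ht2
      · simp [z3]
    · exact (inv1 t (n - j) (by omega) (fun j _ => hall j)).2.2.2 h0'

theorem type_one : ∃ p : E4, (∀ n : ℕ, g.lift.symm^[n] p ∈ U0) ∧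
    ∀ n : ℕ, (gP g)^[n + 1] (gR g p) ∈ BP := by
  set C : ℕ → Set E4 := fun n => {p | (∀ i, |p i| ≤ 1) ∧
    (∀ m : ℕ, g.lift.symm^[m] p ∈ U0) ∧ ∀ j ≤ n, (gP g)^[j + 1] (gR g p) ∈ BP} with hC
  have hcl1 : IsClosed {p : E4 | ∀ i, |p i| ≤ 1} := by
    simp only [Set.ofPred_forall]
    exact isClosed_iInter fun i => isClosed_le (by fun_prop) continuous_const
  have hcl2 : IsClosed {p : E4 | ∀ m : ℕ, g.lift.symm^[m] p ∈ U0} := by
    simp only [Set.ofPred_forall]
    exact isClosed_iInter fun m => U0_closed.preimage ((continuous_lift_symm g).iterate m)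
  have hcl3 : ∀ n, IsClosed {p : E4 | ∀ j ≤ n, (gP g)^[j + 1] (gR g p) ∈ BP} := by
    intro n
    simp only [Set.ofPred_forall]
    exact isClosed_iInter fun j => isClosed_iInter fun _ =>
      BP_closed.preimage (((continuous_gP g).iterate (j + 1)).comp (continuous_gR g))
  have hCcl : ∀ n, IsClosed (C n) := fun n => hcl1.inter (hcl2.inter (hcl3 n))
  have hC0 : IsCompact (C 0) := by
    refine IsCompact.of_isClosed_subset (isCompact_closedBall (0 : E4) 1) (hCcl 0) ?_
    intro p hp
    rw [mem_closedBall_zero_iff, pi_norm_le_iff_of_nonneg (by norm_num)]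
    exact hp.1
  obtain ⟨p, hp⟩ := IsCompact.nonempty_iInter_of_sequence_nonempty_isCompact_isClosed C
    (fun n p hp => ⟨hp.1, hp.2.1, fun j hj => hp.2.2 j (by omega)⟩)
    (fun n => type_one_finite F g hF hg n) hC0 hCcl
  rw [Set.mem_iInter] at hp
  exact ⟨p, (hp 0).2.1, fun n => (hp n).2.2 n le_rfl⟩

end

end Pool.Agent.MP_6961e8
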