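import Pool.Agent.MP_6961e8.NUM
import Pool.Agent.MP_6961e8.STEP
import Pool.Agent.MP_6961e8.Shoot

/-! Module T2A: finite time tangencies. -/

open Filter Topology Set

namespace Pool.Agent.MP_6961e8

namespace T2A

theorem dl_val : dl = 1 / 100000 := rfl

/-- `v` lies in the enlarged box of the chart at `PP` in the expanding directions -/
def InE (v : E4) : Prop := |v 0| ≤ 1 / 8 ∧ lam ^ 2 * |v 1| ≤ 1 / 8 ∧ |v 3| ≤ 1 / 8

theorem InE_of_BP {v : E4} (hv : v ∈ BP) : InE v := by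
  obtain ⟨h0, h1, h2, h3⟩ := hv
  exact ⟨by linarith, by linarith, by linarith⟩

theorem LMJJ0 (v : E4) : LM (JJ v) 0 = lam * v 0 := by
  rw [LM_apply, JJ_apply]; simp [dg]
theorem LMJJ1 (v : E4) : LM (JJ v) 1 = -(v 3 / lam) := by
  rw [LM_apply, JJ_apply]; simp [dg]; ring
theorem LMJJ2 (v : E4) : LM (JJ v) 2 = v 2 / Lam := by
  rw [LM_apply, JJ_apply]; simp [dg]; ring
theorem LMJJ3 (v : E4) : LM (JJ v) 3 = Lam * v 1 := by
  rw [LM_apply, JJ_apply]; simp [dg]

theorem comp_le {v w : E4} {c : ℝ} (h : ‖v - w‖ ≤ c) (i : Fin 4) : |v i - w i| ≤ c := by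
  have := (norm_le_pi_norm (v - w) i).trans h
  simpa using this

theorem eN_bounds (d : E4) : |d 0| ≤ eN d ∧ lam ^ 2 * |d 1| ≤ eN d ∧ |d 3| ≤ eN d := by
  unfold eN
  exact ⟨le_max_left _ _, (le_max_left _ _).trans (le_max_right _ _),
    (le_max_right _ _).trans (le_max_right _ _)⟩

theorem eN_le {d : E4} {c : ℝ} (h0 : |d 0| ≤ c) (h1 : lam ^ 2 * |d 1| ≤ c) (h3 : |d 3| ≤ c) :
    eN d ≤ c := by
  unfold eN
  exact max_le h0 (max_le h1 h3)

theorem eN_nonneg (d : E4) : 0 ≤ eN d := (abs_nonneg _).trans (eN_bounds d).1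

theorem eN_cases (d : E4) : eN d = |d 0| ∨ eN d = lam ^ 2 * |d 1| ∨ eN d = |d 3| := by
  unfold eN
  rcases max_choice |d 0| (max (lam ^ 2 * |d 1|) |d 3|) with h | h
  · left; exact h
  · right
    rw [h]
    exact max_choice _ _

theorem norm_le_eN (d : E4) (hd : |d 2| ≤ eN d) : ‖d‖ ≤ eN d := by
  obtain ⟨h0, h1, h3⟩ := eN_bounds d
  have hl := lam_bounds
  have hl2 : 1 ≤ lam ^ 2 := by nlinarith
  have hd1 : |d 1| ≤ eN d := by
    have : 0 ≤ |d 1| := abs_nonneg _
    nlinarith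
  rw [pi_norm_le_iff_of_nonneg (eN_nonneg d)]
  intro i
  fin_cases i
  · exact h0
  · exact hd1
  · exact hd
  · exact h3

theorem eN_step (x d : E4) (h : ‖x - LM (JJ d)‖ ≤ dl * ‖d‖) (hd : |d 2| ≤ eN d) :
    (26 / 10) * eN d ≤ eN x ∧ |x 2| ≤ 1 / 10 * |d 2| + 1 / 100000 * eN d := by
  have hl := lam_bounds
  have hL := Lam_bounds
  have hLl := Lam_eq
  have hl0 : (0 : ℝ) < lam := by linarith
  have hL0 : (0 : ℝ) < Lam := by linarith
  have hl2 : lam ^ 2 ≤ 7 := by nlinarith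
  have hn := norm_le_eN d hd
  have he := eN_nonneg d
  have hb : ‖x - LM (JJ d)‖ ≤ 1 / 100000 * eN d := by
    refine h.trans ?_
    rw [dl_val]; gcongr
  have c0 := (norm_le_pi_norm (x - LM (JJ d)) 0).trans hb
  have c1 := (norm_le_pi_norm (x - LM (JJ d)) 1).trans hb
  have c2 := (norm_le_pi_norm (x - LM (JJ d)) 2).trans hb
  have c3 := (norm_le_pi_norm (x - LM (JJ d)) 3).trans hb
  rw [Pi.sub_apply, LMJJ0, Real.norm_eq_abs] at c0
  rw [Pi.sub_apply, LMJJ1, Real.norm_eq_abs, sub_neg_eq_add] at c1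
  rw [Pi.sub_apply, LMJJ2, Real.norm_eq_abs] at c2
  rw [Pi.sub_apply, LMJJ3, Real.norm_eq_abs] at c3
  obtain ⟨f0, f1, f3⟩ := eN_bounds x
  constructor
  · rcases eN_cases d with hc | hc | hc
    · have : lam * |d 0| ≤ |x 0| + |x 0 - lam * d 0| := by
        have e1 : lam * d 0 = x 0 - (x 0 - lam * d 0) := by ring
        have e2 : lam * |d 0| = |lam * d 0| := by rw [abs_mul, abs_of_pos hl0]
        rw [e2, e1]
        have := abs_sub (x 0) (x 0 - lam * d 0)
        simpa using this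
      rw [← hc] at this
      have h5 : (26181 / 10000 : ℝ) * 0 ≤ 0 := by norm_num
      have h6 : (2618 / 1000) * eN d ≤ lam * eN d := by gcongr; linarith
      linarith
    · have : Lam * |d 1| ≤ |x 3| + |x 3 - Lam * d 1| := by
        have e1 : Lam * d 1 = x 3 - (x 3 - Lam * d 1) := by ring
        have e2 : Lam * |d 1| = |Lam * d 1| := by rw [abs_mul, abs_of_pos hL0]
        rw [e2, e1]
        have := abs_sub (x 3) (x 3 - Lam * d 1)
        simpa using this
      have h7 : Lam * |d 1| = lam * (lam ^ 2 * |d 1|) := by rw [hLl]; ring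
      rw [h7, ← hc] at this
      have h6 : (2618 / 1000) * eN d ≤ lam * eN d := by gcongr; linarith
      linarith
    · have : |d 3| / lam ≤ |x 1| + |x 1 + d 3 / lam| := by
        have e1 : d 3 / lam = (x 1 + d 3 / lam) - x 1 := by ring
        have e2 : |d 3| / lam = |d 3 / lam| := by rw [abs_div, abs_of_pos hl0]
        rw [e2]
        have := abs_sub (x 1 + d 3 / lam) (x 1)
        rw [← e1] at this
        linarith
      have h2 : lam ^ 2 * (|d 3| / lam) ≤ lam ^ 2 * (|x 1| + 1 / 100000 * eN d) := by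
        gcongr
        linarith
      have h3 : lam ^ 2 * (|d 3| / lam) = lam * |d 3| := by field_simp
      rw [h3, ← hc] at h2
      have h4 : lam ^ 2 * (1 / 100000 * eN d) ≤ 7 * (1 / 100000 * eN d) := by
        gcongr
      have h6 : (2618 / 1000) * eN d ≤ lam * eN d := by gcongr; linarith
      rw [mul_add] at h2
      linarith
  · have e1 : x 2 = (x 2 - d 2 / Lam) + d 2 / Lam := by ring
    rw [e1]
    refine (abs_add_le _ _).trans ?_
    rw [abs_div, abs_of_pos hL0]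
    have hup2 : |d 2| / Lam ≤ 1 / 10 * |d 2| := by
      rw [div_le_iff₀ hL0]
      have := abs_nonneg (d 2)
      nlinarith
    linarith

section
variable (F g : TorusDiffeo LL) (hF : IsModel F) (hg : C1Close dl F g)

theorem g_cont (g : TorusDiffeo LL) : Continuous g.lift := g.contDiff_lift.continuous
theorem gs_cont (g : TorusDiffeo LL) : Continuous g.lift.symm := g.contDiff_symm.continuous

theorem gP_contDiff (g : TorusDiffeo LL) : ContDiff ℝ 1 (gP g) := by
  have : ContDiff ℝ 1 (fun v : E4 => g.lift (PP + v) - PP - lP) :=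
    ((g.contDiff_lift.comp (contDiff_const.add contDiff_id)).sub contDiff_const).sub contDiff_const
  exact this

theorem gPs_contDiff (g : TorusDiffeo LL) : ContDiff ℝ 1 (gP g).symm := by
  have : ContDiff ℝ 1 (fun v : E4 => g.lift.symm (v + PP + lP) - PP) :=
    (g.contDiff_symm.comp ((contDiff_id.add contDiff_const).add contDiff_const)).sub contDiff_const
  exact this

theorem gQ_contDiff (g : TorusDiffeo LL) : ContDiff ℝ 1 (gQ g) := by
  have : ContDiff ℝ 1 (fun v : E4 => g.lift (PP + v) - lQ) :=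
    (g.contDiff_lift.comp (contDiff_const.add contDiff_id)).sub contDiff_const
  exact this

theorem iter_contDiff {f : E4 → E4} (hf : ContDiff ℝ 1 f) (n : ℕ) : ContDiff ℝ 1 (f^[n]) := by
  induction n with
  | zero => simpa using contDiff_id
  | succ n ih => rw [Function.iterate_succ]; exact ih.comp hf

include hF hg

/-- components of a backward step in the chart at `PP` -/
theorem back_comp (v : E4) (hE : InE v) (h2 : |v 2| ≤ 27 / 10000) :
    (gP g).symm v ∈ BP ∧ |v 0 - lam * (gP g).symm v 0| ≤ dl ∧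
      |v 1 + (gP g).symm v 3 / lam| ≤ dl ∧ |v 2 - (gP g).symm v 2 / Lam| ≤ dl ∧
      |v 3 - Lam * (gP g).symm v 1| ≤ dl := by
  obtain ⟨hBP, _⟩ := backP F g hF hg v hE.1 hE.2.1 hE.2.2 h2
  have h := approxP F g hF hg _ hBP
  rw [Equiv.apply_symm_apply] at h
  refine ⟨hBP, ?_, ?_, ?_, ?_⟩
  · have := comp_le h 0; rwa [LMJJ0] at this
  · have := comp_le h 1; rwa [LMJJ1, sub_neg_eq_add] at this
  · have := comp_le h 2; rwa [LMJJ2] at this
  · have := comp_le h 3; rwa [LMJJ3] at this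

theorem back_s (v : E4) (hE : InE v) (h2 : |v 2| ≤ 27 / 10000) :
    |(gP g).symm v 2 - Lam * v 2| ≤ Lam * dl := by
  obtain ⟨_, _, _, h, _⟩ := back_comp F g hF hg v hE h2
  have hL := Lam_bounds
  have hL0 : 0 < Lam := by linarith
  have e : (gP g).symm v 2 - Lam * v 2 = -(Lam * (v 2 - (gP g).symm v 2 / Lam)) := by
    field_simp
    ring
  rw [e, abs_neg, abs_mul, abs_of_pos hL0]
  gcongr

theorem chain (v : E4) (hE : InE v) (n : ℕ)
    (hs : ∀ j ≤ n, |((gP g).symm^[j] v) 2| ≤ 27 / 10000) :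
    ∀ k ≤ n, (gP g).symm^[k + 1] v ∈ BP := by
  intro k
  induction k with
  | zero =>
    intro _
    exact (back_comp F g hF hg v hE (hs 0 (by omega))).1
  | succ k ih =>
    intro hk
    have h1 := ih (by omega)
    rw [Function.iterate_succ_apply']
    exact (back_comp F g hF hg _ (InE_of_BP h1) (hs (k + 1) hk)).1

/-- Lipschitz dependence (cone argument) -/
theorem lip_s (n : ℕ) : ∀ v w : E4, (∀ k < n, (gP g).symm^[k + 1] v ∈ BP) →
    (∀ k < n, (gP g).symm^[k + 1] w ∈ BP) → ((gP g).symm^[n] v) 2 = ((gP g).symm^[n] w) 2 →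
    |v 2 - w 2| ≤ 1 / 10000 * eN (v - w) := by
  induction n with
  | zero =>
    intro v w _ _ h
    simp only [Function.iterate_zero, id_eq] at h
    rw [h, sub_self, abs_zero]
    have : 0 ≤ eN (v - w) := eN_nonneg _
    positivity
  | succ n ih =>
    intro v w hv hw h
    have hvB : (gP g).symm v ∈ BP := hv 0 (by omega)
    have hwB : (gP g).symm w ∈ BP := hw 0 (by omega)
    have ih' := ih ((gP g).symm v) ((gP g).symm w) (fun k hk => by
        have := hv (k + 1) (by omega)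
        rwa [Function.iterate_succ_apply] at this)
      (fun k hk => by
        have := hw (k + 1) (by omega)
        rwa [Function.iterate_succ_apply] at this)
      (by rwa [Function.iterate_succ_apply, Function.iterate_succ_apply] at h)
    have hst := stepP F g hF hg _ _ hvB hwB
    rw [Equiv.apply_symm_apply, Equiv.apply_symm_apply] at hst
    rw [show (gP g).symm v 2 - (gP g).symm w 2 = ((gP g).symm v - (gP g).symm w) 2 from rfl] at ih'
    have he := eN_nonneg ((gP g).symm v - (gP g).symm w)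
    obtain ⟨h1, h2⟩ := eN_step (v - w) ((gP g).symm v - (gP g).symm w) hst (by linarith)
    rw [show (v - w) 2 = v 2 - w 2 from rfl] at h2
    linarith

/-- the `s`-coordinate is small along a backward orbit ending on `s = 0` -/
theorem s_small0 (n : ℕ) : ∀ v : E4, (∀ k < n, (gP g).symm^[k + 1] v ∈ BP) →
    ((gP g).symm^[n] v) 2 = 0 → |v 2| ≤ 2 * dl := by
  have hL := Lam_bounds
  have hL0 : (0 : ℝ) < Lam := by linarith
  induction n with
  | zero =>
    intro v _ h
    simp only [Function.iterate_zero, id_eq] at h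
    rw [h, abs_zero, dl_val]; norm_num
  | succ n ih =>
    intro v hv h
    have hvB : (gP g).symm v ∈ BP := hv 0 (by omega)
    have ih' := ih ((gP g).symm v) (fun k hk => by
        have := hv (k + 1) (by omega)
        rwa [Function.iterate_succ_apply] at this)
      (by rwa [Function.iterate_succ_apply] at h)
    have h := comp_le (approxP F g hF hg _ hvB) 2
    rw [Equiv.apply_symm_apply, LMJJ2] at h
    have e1 : v 2 = (v 2 - (gP g).symm v 2 / Lam) + (gP g).symm v 2 / Lam := by ring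
    rw [e1]
    refine (abs_add_le _ _).trans ?_
    rw [abs_div, abs_of_pos hL0]
    have h3 : |(gP g).symm v 2| / Lam ≤ dl := by
      rw [div_le_iff₀ hL0]
      rw [dl_val] at ih' ⊢
      nlinarith
    linarith

theorem s_small (n : ℕ) (v : E4) (hv : ∀ k < n, (gP g).symm^[k + 1] v ∈ BP)
    (h : ((gP g).symm^[n] v) 2 = 0) (k : ℕ) (hk : k ≤ n) :
    |((gP g).symm^[k] v) 2| ≤ 2 * dl := by
  apply s_small0 F g hF hg (n - k)
  · intro j hj
    rw [← Function.iterate_add_apply]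
    have := hv (j + k) (by omega)
    rwa [show j + k + 1 = j + 1 + k by omega] at this
  · rw [← Function.iterate_add_apply, Nat.sub_add_cancel hk]
    exact h

theorem back_strict (v : E4) (hE : InE v) (h2 : |v 2| ≤ 27 / 10000) :
    |(gP g).symm v 0| < 1 / 20 ∧ lam ^ 2 * |(gP g).symm v 1| < 1 / 20 ∧
      |(gP g).symm v 3| < 1 / 20 := by
  obtain ⟨_, h0, h1, _, h3⟩ := back_comp F g hF hg v hE h2
  obtain ⟨E0, E1, E3⟩ := hE
  have hl := lam_bounds
  have hL := Lam_bounds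
  have hLl := Lam_eq
  have hl0 : (0 : ℝ) < lam := by linarith
  have hL0 : (0 : ℝ) < Lam := by linarith
  rw [dl_val] at h0 h1 h3
  refine ⟨?_, ?_, ?_⟩
  · have : lam * |(gP g).symm v 0| ≤ |v 0| + |v 0 - lam * (gP g).symm v 0| := by
      have e1 : lam * (gP g).symm v 0 = v 0 - (v 0 - lam * (gP g).symm v 0) := by ring
      have e2 : lam * |(gP g).symm v 0| = |lam * (gP g).symm v 0| := by
        rw [abs_mul, abs_of_pos hl0]
      rw [e2, e1]
      have := abs_sub (v 0) (v 0 - lam * (gP g).symm v 0)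
      simpa using this
    have h6 : (2618 / 1000) * |(gP g).symm v 0| ≤ lam * |(gP g).symm v 0| := by gcongr; linarith
    linarith
  · have : Lam * |(gP g).symm v 1| ≤ |v 3| + |v 3 - Lam * (gP g).symm v 1| := by
      have e1 : Lam * (gP g).symm v 1 = v 3 - (v 3 - Lam * (gP g).symm v 1) := by ring
      have e2 : Lam * |(gP g).symm v 1| = |Lam * (gP g).symm v 1| := by
        rw [abs_mul, abs_of_pos hL0]
      rw [e2, e1]
      have := abs_sub (v 3) (v 3 - Lam * (gP g).symm v 1)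
      simpa using this
    have h7 : Lam * |(gP g).symm v 1| = lam * (lam ^ 2 * |(gP g).symm v 1|) := by rw [hLl]; ring
    rw [h7] at this
    have h6 : (2618 / 1000) * (lam ^ 2 * |(gP g).symm v 1|) ≤
      lam * (lam ^ 2 * |(gP g).symm v 1|) := by gcongr; linarith
    linarith
  · have : |(gP g).symm v 3| / lam ≤ |v 1| + |v 1 + (gP g).symm v 3 / lam| := by
      have e1 : (gP g).symm v 3 / lam = (v 1 + (gP g).symm v 3 / lam) - v 1 := by ring
      have e2 : |(gP g).symm v 3| / lam = |(gP g).symm v 3 / lam| := by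
        rw [abs_div, abs_of_pos hl0]
      rw [e2]
      have := abs_sub (v 1 + (gP g).symm v 3 / lam) (v 1)
      rw [← e1] at this
      linarith
    have h2 : lam ^ 2 * (|(gP g).symm v 3| / lam) ≤ lam ^ 2 * (|v 1| + 1 / 100000) := by
      gcongr
      linarith
    have h3 : lam ^ 2 * (|(gP g).symm v 3| / lam) = lam * |(gP g).symm v 3| := by field_simp
    rw [h3, mul_add] at h2
    have h4 : lam ^ 2 * (1 / 100000) ≤ 7 * (1 / 100000) := by
      gcongr
      nlinarith
    have h6 : (2618 / 1000) * |(gP g).symm v 3| ≤ lam * |(gP g).symm v 3| := by gcongr; linarith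
    linarith

omit hF hg in
theorem InE_box (w : E4) (h0 : |w 0| ≤ 1 / 200) (h1 : |w 1| ≤ 1 / 200) (h3 : |w 3| ≤ 1 / 200) :
    InE (kap • e3 + w) := by
  have hk := kap_bounds
  have hl := lam_bounds
  refine ⟨?_, ?_, ?_⟩
  · simp [e3]; linarith
  · simp only [e3, Pi.add_apply, Pi.smul_apply, smul_eq_mul]
    simp
    have : lam ^ 2 * |w 1| ≤ 7 * (1 / 200) := by
      gcongr
      nlinarith
    linarith
  · simp only [e3, Pi.add_apply, Pi.smul_apply, smul_eq_mul]
    simp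
    have := abs_add_le kap (w 3)
    rw [abs_of_pos (by linarith : (0 : ℝ) < kap)] at this
    linarith

/-- existence of the height `s` -/
theorem exists_s (n : ℕ) (x y u : ℝ) (hx : |x| ≤ 1 / 200) (hy : |y| ≤ 1 / 200)
    (hu : |u| ≤ 1 / 200) : ∃ s : ℝ, |s| ≤ 1 / 500 ∧
      (∀ k < n, (gP g).symm^[k + 1] (kap • e3 + ![x, y, s, u]) ∈ BP) ∧
      ((gP g).symm^[n] (kap • e3 + ![x, y, s, u])) 2 = 0 := by
  rcases n with _ | n
  · refine ⟨0, by norm_num, fun k hk => absurd hk (by omega), ?_⟩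
    simp [e3]
  have hL := Lam_bounds
  have hL0 : (0 : ℝ) < Lam := by linarith
  have hE : ∀ s : ℝ, InE (kap • e3 + ![x, y, s, u]) := by
    intro s
    exact InE_box _ (by simpa using hx) (by simpa using hy) (by simpa using hu)
  have hv2 : ∀ s : ℝ, (kap • e3 + ![x, y, s, u] : E4) 2 = s := by
    intro s; simp [e3]
  have hchain : ∀ s : ℝ, ∀ k, (∀ j ≤ k, |((gP g).symm^[j] (kap • e3 + ![x, y, s, u])) 2|
      ≤ 27 / 10000) → InE ((gP g).symm^[k] (kap • e3 + ![x, y, s, u])) := by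
    intro s k hj
    rcases k with _ | k
    · exact hE s
    · exact InE_of_BP (chain F g hF hg _ (hE s) k (fun j hjk => hj j (by omega)) k le_rfl)
  have hs1 : ∀ s : ℝ, |s| ≤ 1 / 500 →
      |((gP g).symm^[1] (kap • e3 + ![x, y, s, u])) 2 - Lam * s| ≤ Lam * dl := by
    intro s hs
    have := back_s F g hF hg (kap • e3 + ![x, y, s, u]) (hE s) (by rw [hv2]; linarith)
    rw [hv2] at this
    simpa using this
  obtain ⟨t, ht, h1, h2⟩ := shoot_finite
    (fun k s => ((gP g).symm^[k] (kap • e3 + ![x, y, s, u])) 2) (-(1 / 500)) (1 / 500)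
    (27 / 10000) Lam (Lam * dl) (by norm_num) (by norm_num)
    (by rw [dl_val]; nlinarith)
    (by
      intro k
      apply Continuous.continuousOn
      have hc : Continuous ((gP g).symm^[k]) := (iter_contDiff (gPs_contDiff g) k).continuous
      have hc2 : Continuous fun s : ℝ => (kap • e3 + ![x, y, s, u] : E4) := by fun_prop
      exact (continuous_apply 2).comp (hc.comp hc2))
    (by
      intro t ht
      simp only [Function.iterate_zero, id_eq, hv2]
      rw [abs_le]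
      constructor <;> linarith [ht.1, ht.2])
    (by
      have := hs1 (-(1 / 500)) (by norm_num [abs_of_nonneg])
      rw [abs_le, dl_val] at this
      nlinarith [this.2])
    (by
      have := hs1 (1 / 500) (by norm_num [abs_of_nonneg])
      rw [abs_le, dl_val] at this
      nlinarith [this.1])
    (by
      intro k t ht hj
      rw [Function.iterate_succ_apply']
      exact back_s F g hF hg _ (hchain t k hj) (hj k le_rfl))
    n
  refine ⟨t, abs_le.mpr ht, ?_, h2⟩
  intro k hk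
  exact chain F g hF hg _ (hE t) n h1 k (by omega)

/-! forward orbit -/

theorem fwd_comp (p : E4) (hp : p ∈ U0) : |g.lift p 0 - lam * p 0| ≤ dl ∧
    |g.lift p 2 - p 2 / Lam| ≤ dl ∧ |g.lift p 3 - Lam * p 3| ≤ dl := by
  have h0 := approxU0 F g hF hg p hp 0
  have h2 := approxU0 F g hF hg p hp 2
  have h3 := approxU0 F g hF hg p hp 3
  refine ⟨by simpa [dg] using h0, ?_, by simpa [dg] using h3⟩
  have e : p 2 / Lam = dg 2 * p 2 := by simp [dg]; ring
  rw [e]; exact h2

theorem fwd_s (n : ℕ) (q : E4) (hq : |q 2| ≤ 3 / 25) (hu : ∀ k < n, |(g.lift^[k] q) 3| ≤ 1 / 8) :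
    ∀ k < n, g.lift^[k] q ∈ U0 ∧ |(g.lift^[k] q) 2| ≤ 3 / 25 := by
  intro k
  induction k with
  | zero =>
    intro hk
    have := hu 0 hk
    simp only [Function.iterate_zero, id_eq] at this ⊢
    exact ⟨⟨by linarith, this⟩, hq⟩
  | succ k ih =>
    intro hk
    obtain ⟨h1, h2⟩ := ih (by omega)
    have h3 := hu (k + 1) hk
    obtain ⟨_, h4, _⟩ := fwd_comp F g hF hg _ h1
    rw [Function.iterate_succ_apply'] at h3 ⊢
    have hL := Lam_bounds
    have hL0 : (0 : ℝ) < Lam := by linarith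
    have h5 : |g.lift (g.lift^[k] q) 2| ≤ 3 / 25 := by
      have e1 : g.lift (g.lift^[k] q) 2 = (g.lift (g.lift^[k] q) 2 - (g.lift^[k] q) 2 / Lam) +
        (g.lift^[k] q) 2 / Lam := by ring
      rw [e1]
      refine (abs_add_le _ _).trans ?_
      rw [abs_div, abs_of_pos hL0]
      have h6 : |(g.lift^[k] q) 2| / Lam ≤ 1 / 100 := by
        rw [div_le_iff₀ hL0]
        linarith
      rw [dl_val] at h4
      linarith
    exact ⟨⟨by linarith, h3⟩, h5⟩

theorem u_small0 (n : ℕ) : ∀ q : E4, (∀ k < n, g.lift^[k] q ∈ U0) →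
    (g.lift^[n] q) 3 = 0 → |q 3| ≤ dl := by
  have hL := Lam_bounds
  have hL0 : (0 : ℝ) < Lam := by linarith
  induction n with
  | zero =>
    intro q _ h
    simp only [Function.iterate_zero, id_eq] at h
    rw [h, abs_zero, dl_val]; norm_num
  | succ n ih =>
    intro q hq h
    have ih' := ih (g.lift q) (fun k hk => by
        have := hq (k + 1) (by omega)
        rwa [Function.iterate_succ_apply] at this)
      (by rwa [Function.iterate_succ_apply] at h)
    obtain ⟨_, _, h4⟩ := fwd_comp F g hF hg _ (hq 0 (by omega))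
    simp only [Function.iterate_zero, id_eq] at h4
    have h5 : Lam * |q 3| ≤ |g.lift q 3| + |g.lift q 3 - Lam * q 3| := by
      have e1 : Lam * q 3 = g.lift q 3 - (g.lift q 3 - Lam * q 3) := by ring
      have e2 : Lam * |q 3| = |Lam * q 3| := by rw [abs_mul, abs_of_pos hL0]
      rw [e2, e1]
      have := abs_sub (g.lift q 3) (g.lift q 3 - Lam * q 3)
      simpa using this
    have h6 : 2 * |q 3| ≤ Lam * |q 3| := by gcongr; linarith
    linarith

theorem u_small (n : ℕ) (q : E4) (hq : ∀ k < n, g.lift^[k] q ∈ U0)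
    (h : (g.lift^[n] q) 3 = 0) (k : ℕ) (hk : k ≤ n) : |(g.lift^[k] q) 3| ≤ dl := by
  apply u_small0 F g hF hg (n - k)
  · intro j hj
    rw [← Function.iterate_add_apply]
    exact hq (j + k) (by omega)
  · rw [← Function.iterate_add_apply, Nat.sub_add_cancel hk]
    exact h

theorem J_est (n : ℕ) : ∀ q : E4, (∀ k < n, g.lift^[k] q ∈ U0) →
    |(g.lift^[n] q) 0 - lam ^ n * q 0| ≤ lam ^ n * dl := by
  have hl := lam_bounds
  have hl0 : (0 : ℝ) < lam := by linarith
  induction n with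
  | zero =>
    intro q _
    simp [dl_val]
  | succ n ih =>
    intro q hq
    have ih' := ih (g.lift q) (fun k hk => by
        have := hq (k + 1) (by omega)
        rwa [Function.iterate_succ_apply] at this)
    rw [← Function.iterate_succ_apply] at ih'
    obtain ⟨h4, _, _⟩ := fwd_comp F g hF hg _ (hq 0 (by omega))
    simp only [Function.iterate_zero, id_eq] at h4
    have e1 : (g.lift^[n + 1] q) 0 - lam ^ (n + 1) * q 0 =
      ((g.lift^[n + 1] q) 0 - lam ^ n * g.lift q 0) + lam ^ n * (g.lift q 0 - lam * q 0) := by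
      ring
    rw [e1]
    refine (abs_add_le _ _).trans ?_
    have hp : (0 : ℝ) < lam ^ n := by positivity
    rw [abs_mul, abs_of_pos hp]
    have h5 : lam ^ n * |g.lift q 0 - lam * q 0| ≤ lam ^ n * dl := by gcongr
    have h6 : 2 * (lam ^ n * dl) ≤ lam * (lam ^ n * dl) := by
      have : 0 < lam ^ n * dl := by rw [dl_val]; positivity
      gcongr
      linarith
    have e2 : lam ^ (n + 1) * dl = lam * (lam ^ n * dl) := by ring
    rw [e2]
    linarith

theorem q0_bounds (w : E4) (h0 : |w 0| ≤ 1 / 200) (h1 : |w 1| ≤ 1 / 200) (h2 : |w 2| ≤ 1 / 500)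
    (h3 : |w 3| ≤ 1 / 200) :
    |gQ g (kap • e3 + w) 0 - lam * TQ w 0| ≤ dl ∧ |gQ g (kap • e3 + w) 2| ≤ 3 / 25 ∧
      |gQ g (kap • e3 + w) 3 - Lam * w 3| ≤ dl := by
  have hk := kap_bounds
  have hL := Lam_bounds
  have hL0 : (0 : ℝ) < Lam := by linarith
  have h := approxQ F g hF hg w (by
    intro i
    fin_cases i
    · exact h0
    · exact h1
    · exact h2.trans (by norm_num)
    · exact h3)
  have c0 := comp_le h 0
  have c2 := comp_le h 2
  have c3 := comp_le h 3
  simp only [Pi.add_apply, LM_apply, Pi.smul_apply, smul_eq_mul] at c0 c2 c3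
  refine ⟨?_, ?_, ?_⟩
  · simpa [e2, dg] using c0
  · have hT : |TQ w 2| ≤ 7 / 1000 := by
      have e : TQ w 2 = Real.sin (aQ w) * w 0 + Real.cos (aQ w) * w 2 := by simp [TQ]
      rw [e]
      refine (abs_add_le _ _).trans ?_
      rw [abs_mul, abs_mul]
      have s1 := Real.abs_sin_le_one (aQ w)
      have s2 := Real.abs_cos_le_one (aQ w)
      have t1 : |Real.sin (aQ w)| * |w 0| ≤ 1 * |w 0| := by gcongr
      have t2 : |Real.cos (aQ w)| * |w 2| ≤ 1 * |w 2| := by gcongr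
      linarith
    have e : (kap * e2 2 + dg 2 * TQ w 2 : ℝ) = kap + TQ w 2 / Lam := by
      simp [e2, dg]; ring
    rw [e] at c2
    have e1 : gQ g (kap • e3 + w) 2 = (gQ g (kap • e3 + w) 2 - (kap + TQ w 2 / Lam)) +
      (kap + TQ w 2 / Lam) := by ring
    rw [e1]
    refine (abs_add_le _ _).trans ?_
    have t3 : |kap + TQ w 2 / Lam| ≤ kap + |TQ w 2| / Lam := by
      refine (abs_add_le _ _).trans ?_
      rw [abs_of_pos (by linarith : (0 : ℝ) < kap), abs_div, abs_of_pos hL0]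
    have t4 : |TQ w 2| / Lam ≤ 1 / 1000 := by
      rw [div_le_iff₀ hL0]
      linarith
    rw [dl_val] at c2
    linarith
  · simpa [e2, dg, TQ] using c3

/-- existence of a point of the constraint set on the segment `x = -rho`, `y = 0` -/
theorem exists_su (n : ℕ) (hn : 1 ≤ n) (x y : ℝ) (hx : |x| ≤ 1 / 200) (hy : |y| ≤ 1 / 200) :
    ∃ s u : ℝ, |s| ≤ 1 / 500 ∧ |u| ≤ 1 / 200 ∧
      (∀ k < n, (gP g).symm^[k + 1] (kap • e3 + ![x, y, s, u]) ∈ BP) ∧
      ((gP g).symm^[n] (kap • e3 + ![x, y, s, u])) 2 = 0 ∧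
      (∀ k < n, g.lift^[k] (gQ g (kap • e3 + ![x, y, s, u])) ∈ U0) ∧
      (g.lift^[n - 1] (gQ g (kap • e3 + ![x, y, s, u]))) 3 = 0 := by
  obtain ⟨n, rfl⟩ : ∃ m, n = m + 1 := ⟨n - 1, by omega⟩
  have hL := Lam_bounds
  have hL0 : (0 : ℝ) < Lam := by linarith
  have hex : ∀ u : ℝ, |u| ≤ 1 / 200 → ∃ s : ℝ, |s| ≤ 1 / 500 ∧
      (∀ k < n + 1, (gP g).symm^[k + 1] (kap • e3 + ![x, y, s, u]) ∈ BP) ∧
      ((gP g).symm^[n + 1] (kap • e3 + ![x, y, s, u])) 2 = 0 :=
    fun u hu => exists_s F g hF hg (n + 1) x y u hx hy hu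
  choose! ω hω1 hω2 hω3 using hex
  have hωc : ContinuousOn ω (Icc (-(1 / 200)) (1 / 200)) := by
    have hlip : ∀ u ∈ Icc (-(1 / 200) : ℝ) (1 / 200), ∀ u' ∈ Icc (-(1 / 200) : ℝ) (1 / 200),
        |ω u - ω u'| ≤ |u - u'| := by
      intro u hu u' hu'
      have hu1 := abs_le.mpr hu
      have hu1' := abs_le.mpr hu'
      have := lip_s F g hF hg (n + 1) _ _ (hω2 u hu1) (hω2 u' hu1')
        ((hω3 u hu1).trans (hω3 u' hu1').symm)
      have e1 : (kap • e3 + ![x, y, ω u, u] : E4) 2 - (kap • e3 + ![x, y, ω u', u'] : E4) 2 =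
        ω u - ω u' := by simp
      have e2 : eN ((kap • e3 + ![x, y, ω u, u] : E4) - (kap • e3 + ![x, y, ω u', u'] : E4)) =
        |u - u'| := by
        unfold eN
        simp
      rw [e1, e2] at this
      have := abs_nonneg (u - u')
      linarith
    rw [Metric.continuousOn_iff]
    intro b hb ε hε
    refine ⟨ε, hε, fun a ha hab => ?_⟩
    rw [Real.dist_eq] at hab ⊢
    exact (hlip a ha b hb).trans_lt hab
  have hγc : ContinuousOn (fun u => (kap • e3 + ![x, y, ω u, u] : E4))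
      (Icc (-(1 / 200)) (1 / 200)) := by
    apply ContinuousOn.add continuousOn_const
    rw [continuousOn_pi]
    intro i
    fin_cases i
    · exact continuousOn_const
    · exact continuousOn_const
    · exact hωc
    · exact continuousOn_id
  have hq0 : ∀ u ∈ Icc (-(1 / 200) : ℝ) (1 / 200),
      |gQ g (kap • e3 + ![x, y, ω u, u]) 2| ≤ 3 / 25 ∧
      |gQ g (kap • e3 + ![x, y, ω u, u]) 3 - Lam * u| ≤ dl := by
    intro u hu
    have hu1 := abs_le.mpr hu
    have := q0_bounds F g hF hg ![x, y, ω u, u] (by simpa using hx) (by simpa using hy)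
      (by simpa using hω1 u hu1) (by simpa using hu1)
    refine ⟨this.2.1, ?_⟩
    simpa using this.2.2
  set σ : ℕ → ℝ → ℝ := fun k u => Nat.casesOn k u
    (fun k => (g.lift^[k] (gQ g (kap • e3 + ![x, y, ω u, u]))) 3) with hσ
  have hσ0 : ∀ u, σ 0 u = u := fun u => rfl
  have hσs : ∀ k u, σ (k + 1) u = (g.lift^[k] (gQ g (kap • e3 + ![x, y, ω u, u]))) 3 :=
    fun k u => rfl
  obtain ⟨t, ht, h1, h2⟩ := shoot_finite σ (-(1 / 200)) (1 / 200)
    (2 / 25) Lam dl (by norm_num) (by norm_num)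
    (by rw [dl_val]; nlinarith)
    (by
      intro k
      rcases k with _ | k
      · exact continuousOn_id
      · have hc : Continuous (g.lift^[k]) := (iter_contDiff g.contDiff_lift k).continuous
        have hc3 : Continuous fun v => (g.lift^[k] (gQ g v)) 3 :=
          (continuous_apply 3).comp (hc.comp (gQ_contDiff g).continuous)
        exact hc3.comp_continuousOn hγc)
    (by
      intro t ht
      rw [hσ0, abs_le]
      constructor <;> linarith [ht.1, ht.2])
    (by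
      have := (hq0 (-(1 / 200)) (by constructor <;> norm_num)).2
      rw [abs_le, dl_val] at this
      show (gQ g (kap • e3 + ![x, y, ω (-(1 / 200)), -(1 / 200)])) 3 ≤ -(2 / 25)
      nlinarith [this.2])
    (by
      have := (hq0 (1 / 200) (by constructor <;> norm_num)).2
      rw [abs_le, dl_val] at this
      show 2 / 25 ≤ (gQ g (kap • e3 + ![x, y, ω (1 / 200), 1 / 200])) 3
      nlinarith [this.1])
    (by
      intro k t ht hj
      rcases k with _ | k
      · rw [hσs, hσ0]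
        exact (hq0 t ht).2
      · rw [hσs, hσs, Function.iterate_succ_apply']
        have hU := fwd_s F g hF hg (k + 1) _ (hq0 t ht).1 (fun j hjk => by
          have := hj (j + 1) (by omega)
          rw [hσs] at this
          linarith) k (by omega)
        exact (fwd_comp F g hF hg _ hU.1).2.2)
    n
  have ht1 := abs_le.mpr ht
  rw [hσs] at h2
  refine ⟨ω t, t, hω1 t ht1, ht1, hω2 t ht1, hω3 t ht1, ?_, h2⟩
  intro k hk
  refine (fwd_s F g hF hg (n + 1) _ (hq0 t ht).1 (fun j hjk => ?_) k hk).1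
  rcases Nat.lt_or_ge j n with hjn | hjn
  · have := h1 (j + 1) (by omega)
    rw [hσs] at this
    linarith
  · have : j = n := by omega
    rw [this, h2, abs_zero]
    norm_num

omit hF hg in
theorem TQ_center (w : E4) (h0 : w 0 = -rho) (h1 : w 1 = 0) (h2 : |w 2| ≤ 2 * dl)
    (h3 : |w 3| ≤ 1 / 200) : TQ w 0 = rho := by
  have ha : aQ w = Real.pi := by
    unfold aQ
    rw [Real.smoothTransition.one_of_one_le, Real.smoothTransition.one_of_one_le]
    · ring
    · rw [le_div_iff₀ (by norm_num)]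
      have := abs_le.mp h3
      nlinarith [this.1, this.2]
    · rw [le_div_iff₀ (by unfold rho; norm_num), h0, h1]
      have := abs_le.mp h2
      rw [dl_val] at this
      unfold rho
      nlinarith [this.1, this.2]
  have e : TQ w 0 = Real.cos (aQ w) * w 0 - Real.sin (aQ w) * w 2 := by simp [TQ]
  rw [e, ha, h0]
  simp

omit hF hg in
theorem TQ_line (w : E4) (h0 : w 0 = 0) : TQ w 0 ≤ |w 2| := by
  have e : TQ w 0 = Real.cos (aQ w) * w 0 - Real.sin (aQ w) * w 2 := by simp [TQ]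
  rw [e, h0, mul_zero, zero_sub]
  refine (le_abs_self _).trans ?_
  rw [abs_neg, abs_mul]
  have s1 := Real.abs_sin_le_one (aQ w)
  have t1 : |Real.sin (aQ w)| * |w 2| ≤ 1 * |w 2| := by gcongr
  linarith

omit hF hg in
theorem TQ_arc (w : E4) (h : 3 * rho ^ 2 ≤ w 0 ^ 2 + w 1 ^ 2) : TQ w 0 = w 0 := by
  have ha : aQ w = 0 := by
    unfold aQ
    rw [Real.smoothTransition.zero_of_nonpos]
    · ring
    · apply div_nonpos_of_nonpos_of_nonneg
      · nlinarith [sq_nonneg (w 2)]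
      · positivity
  have e : TQ w 0 = Real.cos (aQ w) * w 0 - Real.sin (aQ w) * w 2 := by simp [TQ]
  rw [e, ha]
  simp

/-- the constraint set -/
def KN (g : TorusDiffeo LL) (n : ℕ) : Set E4 :=
  {v | v 0 ≤ 0 ∧ v 0 ^ 2 + v 1 ^ 2 ≤ 4 * rho ^ 2 ∧ |v 2| ≤ 1 / 500 ∧ |v 3 - kap| ≤ 1 / 200 ∧
    (∀ k < n, (gP g).symm^[k + 1] v ∈ BP) ∧ (∀ k < n, g.lift^[k] (gQ g v) ∈ U0) ∧
    ((gP g).symm^[n] v) 2 = 0 ∧ (g.lift^[n - 1] (gQ g v)) 3 = 0}

omit hF hg in
theorem KN_closed (n : ℕ) : IsClosed (KN g n) := by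
  have hc1 : ∀ k, Continuous ((gP g).symm^[k]) := fun k =>
    (iter_contDiff (gPs_contDiff g) k).continuous
  have hc2 : ∀ k, Continuous fun v => g.lift^[k] (gQ g v) := fun k =>
    (iter_contDiff g.contDiff_lift k).continuous.comp (gQ_contDiff g).continuous
  have : KN g n = {v : E4 | v 0 ≤ 0} ∩ ({v : E4 | v 0 ^ 2 + v 1 ^ 2 ≤ 4 * rho ^ 2} ∩
    ({v : E4 | |v 2| ≤ 1 / 500} ∩ ({v : E4 | |v 3 - kap| ≤ 1 / 200} ∩
    ((⋂ k ∈ Finset.range n, (gP g).symm^[k + 1] ⁻¹' BP) ∩
    ((⋂ k ∈ Finset.range n, (fun v => g.lift^[k] (gQ g v)) ⁻¹' U0) ∩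
    ({v : E4 | ((gP g).symm^[n] v) 2 = 0} ∩ {v : E4 | (g.lift^[n - 1] (gQ g v)) 3 = 0})))))) := by
    ext v; simp [KN]
  rw [this]
  refine IsClosed.inter ?_ (IsClosed.inter ?_ (IsClosed.inter ?_ (IsClosed.inter ?_
    (IsClosed.inter ?_ (IsClosed.inter ?_ (IsClosed.inter ?_ ?_))))))
  · apply isClosed_le <;> fun_prop
  · apply isClosed_le <;> fun_prop
  · apply isClosed_le <;> fun_prop
  · apply isClosed_le <;> fun_prop
  · exact isClosed_biInter fun k _ => BP_closed.preimage (hc1 _)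
  · exact isClosed_biInter fun k _ => U0_closed.preimage (hc2 _)
  · exact isClosed_eq ((continuous_apply 2).comp (hc1 n)) continuous_const
  · exact isClosed_eq ((continuous_apply 3).comp (hc2 (n - 1))) continuous_const

omit hF hg in
theorem KN_coord {n : ℕ} {v : E4} (hv : v ∈ KN g n) :
    |v 0| ≤ 1 / 200 ∧ |v 1| ≤ 1 / 200 := by
  obtain ⟨_, h, _⟩ := hv
  unfold rho at h
  constructor
  · apply abs_le_of_sq_le_sq _ (by norm_num)
    nlinarith [sq_nonneg (v 1)]
  · apply abs_le_of_sq_le_sq _ (by norm_num)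
    nlinarith [sq_nonneg (v 0)]

omit hF hg in
theorem KN_compact (n : ℕ) : IsCompact (KN g n) := by
  apply Metric.isCompact_of_isClosed_isBounded (KN_closed g n)
  apply (Metric.isBounded_closedBall (x := (0 : E4)) (r := 1)).subset
  intro v hv
  have hk := kap_bounds
  obtain ⟨c0, c1⟩ := KN_coord g hv
  obtain ⟨_, _, h2, h3, _⟩ := hv
  rw [mem_closedBall_zero_iff, pi_norm_le_iff_of_nonneg (by norm_num)]
  intro i
  fin_cases i
  · show |v 0| ≤ 1
    linarith
  · show |v 1| ≤ 1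
    linarith
  · show |v 2| ≤ 1
    linarith
  · show |v 3| ≤ 1
    rw [abs_le] at h3 ⊢
    constructor <;> linarith [h3.1, h3.2]

omit hF hg in
theorem sub_ke3 (v : E4) : (v - kap • e3) 0 = v 0 ∧ (v - kap • e3) 1 = v 1 ∧
    (v - kap • e3) 2 = v 2 ∧ (v - kap • e3) 3 = v 3 - kap := by
  simp [e3]

/-- estimates on the constraint set -/
theorem KN_est (n : ℕ) (hn : 1 ≤ n) (v : E4) (hv : v ∈ KN g n) :
    |v 2| ≤ 2 * dl ∧ |v 3 - kap| ≤ 2 * dl ∧ (∀ k < n, |(g.lift^[k] (gQ g v)) 3| ≤ dl) ∧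
    (∀ k < n, |(g.lift^[k] (gQ g v)) 2| ≤ 3 / 25) ∧
    |(g.lift^[n - 1] (gQ g v)) 0 - lam ^ n * TQ (v - kap • e3) 0| ≤ lam ^ n * dl := by
  have hL := Lam_bounds
  have hL0 : (0 : ℝ) < Lam := by linarith
  have hl := lam_bounds
  have hl0 : (0 : ℝ) < lam := by linarith
  obtain ⟨c0, c1⟩ := KN_coord g hv
  obtain ⟨_, _, h2, h3, h4, h5, h6, h7⟩ := hv
  obtain ⟨s0, s1, s2, s3⟩ := sub_ke3 v
  have hq := q0_bounds F g hF hg (v - kap • e3) (by rw [s0]; exact c0) (by rw [s1]; exact c1)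
    (by rw [s2]; exact h2) (by rw [s3]; exact h3)
  rw [show kap • e3 + (v - kap • e3) = v by abel] at hq
  obtain ⟨q1, q2, q3⟩ := hq
  rw [s3] at q3
  have hu := u_small F g hF hg (n - 1) (gQ g v) (fun k hk => h5 k (by omega)) h7
  refine ⟨s_small0 F g hF hg n v h4 h6, ?_, fun k hk => hu k (by omega), ?_, ?_⟩
  · have h8 := hu 0 (by omega)
    simp only [Function.iterate_zero, id_eq] at h8
    have h9 : Lam * |v 3 - kap| ≤ |gQ g v 3| + |gQ g v 3 - Lam * (v 3 - kap)| := by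
      have e1 : Lam * (v 3 - kap) = gQ g v 3 - (gQ g v 3 - Lam * (v 3 - kap)) := by ring
      have e2 : Lam * |v 3 - kap| = |Lam * (v 3 - kap)| := by rw [abs_mul, abs_of_pos hL0]
      rw [e2, e1]
      have := abs_sub (gQ g v 3) (gQ g v 3 - Lam * (v 3 - kap))
      simpa using this
    have h10 : 1 * |v 3 - kap| ≤ Lam * |v 3 - kap| := by gcongr; linarith
    linarith
  · intro k hk
    refine (fwd_s F g hF hg n _ q2 (fun j hj => ?_) k hk).2
    have := hu j (by omega)
    rw [dl_val] at this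
    linarith
  · have hJ := J_est F g hF hg (n - 1) (gQ g v) (fun k hk => h5 k (by omega))
    have hp : (0 : ℝ) < lam ^ (n - 1) := by positivity
    have hpn : lam ^ n = lam ^ (n - 1) * lam := by
      rw [← pow_succ]; congr 1; omega
    have e1 : (g.lift^[n - 1] (gQ g v)) 0 - lam ^ n * TQ (v - kap • e3) 0 =
      ((g.lift^[n - 1] (gQ g v)) 0 - lam ^ (n - 1) * gQ g v 0) +
      lam ^ (n - 1) * (gQ g v 0 - lam * TQ (v - kap • e3) 0) := by
      rw [hpn]; ring
    rw [e1]
    refine (abs_add_le _ _).trans ?_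
    rw [abs_mul, abs_of_pos hp]
    have h5 : lam ^ (n - 1) * |gQ g v 0 - lam * TQ (v - kap • e3) 0| ≤ lam ^ (n - 1) * dl := by
      gcongr
    have h6 : 2 * (lam ^ (n - 1) * dl) ≤ lam * (lam ^ (n - 1) * dl) := by
      have : 0 < lam ^ (n - 1) * dl := by rw [dl_val]; positivity
      gcongr
      linarith
    have e2 : lam ^ n * dl = lam * (lam ^ (n - 1) * dl) := by rw [hpn]; ring
    rw [e2]
    linarith

/-- the maximiser -/
theorem exists_max (n : ℕ) (hn : 1 ≤ n) : ∃ v ∈ KN g n,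
    (∀ v' ∈ KN g n, (g.lift^[n - 1] (gQ g v')) 0 ≤ (g.lift^[n - 1] (gQ g v)) 0) ∧
    rho - 2 * dl ≤ TQ (v - kap • e3) 0 := by
  have hl := lam_bounds
  have hl0 : (0 : ℝ) < lam := by linarith
  -- the centre
  obtain ⟨s, u, hs, hu, h1, h2, h3, h4⟩ := exists_su F g hF hg n hn (-rho) 0
    (by unfold rho; rw [abs_neg, abs_of_pos (by norm_num)]; norm_num) (by norm_num)
  set vc : E4 := kap • e3 + ![-rho, 0, s, u] with hvc
  have v0 : vc 0 = -rho := by simp [hvc, e3]
  have v1 : vc 1 = 0 := by simp [hvc, e3]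
  have v2 : vc 2 = s := by simp [hvc, e3]
  have v3 : vc 3 - kap = u := by simp [hvc, e3]
  have hcK : vc ∈ KN g n := by
    refine ⟨?_, ?_, ?_, ?_, h1, h3, h2, h4⟩
    · rw [v0]; unfold rho; norm_num
    · rw [v0, v1]; unfold rho; norm_num
    · rw [v2]; exact hs
    · rw [v3]; exact hu
  have hcont : ContinuousOn (fun v => (g.lift^[n - 1] (gQ g v)) 0) (KN g n) := by
    apply Continuous.continuousOn
    exact (continuous_apply 0).comp
      ((iter_contDiff g.contDiff_lift (n - 1)).continuous.comp (gQ_contDiff g).continuous)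
  obtain ⟨v, hvK, hmax⟩ := (KN_compact g n).exists_isMaxOn ⟨vc, hcK⟩ hcont
  have hmax' : ∀ v' ∈ KN g n, (g.lift^[n - 1] (gQ g v')) 0 ≤ (g.lift^[n - 1] (gQ g v)) 0 :=
    fun v' hv' => hmax hv'
  refine ⟨v, hvK, hmax', ?_⟩
  obtain ⟨c2, c3, _, _, cJ⟩ := KN_est F g hF hg n hn vc hcK
  obtain ⟨_, _, _, _, vJ⟩ := KN_est F g hF hg n hn v hvK
  obtain ⟨s0, s1, s2, s3⟩ := sub_ke3 vc
  have hTc := TQ_center (vc - kap • e3) (by rw [s0, v0]) (by rw [s1, v1]) (by rw [s2]; exact c2)
    (by rw [s3, v3]; exact hu)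
  rw [hTc] at cJ
  have hle := hmax' vc hcK
  have hp : (0 : ℝ) < lam ^ n := by positivity
  rw [abs_le] at cJ vJ
  have h5 : lam ^ n * (rho - 2 * dl) ≤ lam ^ n * TQ (v - kap • e3) 0 := by
    rw [mul_sub]
    nlinarith [cJ.1, vJ.2]
  exact le_of_mul_le_mul_left h5 hp

/-- the maximiser is a local maximum on the constraint surface -/
theorem local_max (n : ℕ) (hn : 1 ≤ n) (v : E4) (hv : v ∈ KN g n)
    (hmax : ∀ v' ∈ KN g n, (g.lift^[n - 1] (gQ g v')) 0 ≤ (g.lift^[n - 1] (gQ g v)) 0)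
    (hX : rho - 2 * dl ≤ TQ (v - kap • e3) 0) :
    ∀ᶠ v' in 𝓝 v, ((gP g).symm^[n] v') 2 = 0 → (g.lift^[n - 1] (gQ g v')) 3 = 0 →
      (g.lift^[n - 1] (gQ g v')) 0 ≤ (g.lift^[n - 1] (gQ g v)) 0 := by
  obtain ⟨c0, c1⟩ := KN_coord g hv
  obtain ⟨w2, w3, w4, w5, _⟩ := KN_est F g hF hg n hn v hv
  obtain ⟨k0, k1, k2, k3, k4, k5, k6, k7⟩ := hv
  obtain ⟨s0, s1, s2, s3⟩ := sub_ke3 v
  have hk := kap_bounds
  have hrho : rho = 1 / 400 := rfl
  have hc1 : ∀ k, Continuous ((gP g).symm^[k]) := fun k =>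
    (iter_contDiff (gPs_contDiff g) k).continuous
  have hc2 : ∀ k, Continuous fun v => g.lift^[k] (gQ g v) := fun k =>
    (iter_contDiff g.contDiff_lift k).continuous.comp (gQ_contDiff g).continuous
  -- strict inequalities
  have hs0 : v 0 < 0 := by
    rcases k0.lt_or_eq with h | h
    · exact h
    · exfalso
      have := TQ_line (v - kap • e3) (by rw [s0]; exact h)
      rw [s2] at this
      rw [dl_val] at *
      rw [hrho] at hX
      linarith
  have hs1 : v 0 ^ 2 + v 1 ^ 2 < 4 * rho ^ 2 := by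
    rcases k1.lt_or_eq with h | h
    · exact h
    · exfalso
      have := TQ_arc (v - kap • e3) (by
        rw [s0, s1, h]
        nlinarith [sq_nonneg rho])
      rw [this, s0, hrho, dl_val] at hX
      linarith
  have hs2 : |v 2| < 1 / 500 := by rw [dl_val] at w2; linarith
  have hs3 : |v 3 - kap| < 1 / 200 := by rw [dl_val] at w3; linarith
  have hE : InE v := by
    have := InE_box (v - kap • e3) (by rw [s0]; exact c0) (by rw [s1]; exact c1)
      (by rw [s3]; exact k3)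
    rwa [show kap • e3 + (v - kap • e3) = v by abel] at this
  have hs4 : ∀ k < n, (|((gP g).symm^[k + 1] v) 0| < 1 / 20 ∧
      lam ^ 2 * |((gP g).symm^[k + 1] v) 1| < 1 / 20 ∧ |((gP g).symm^[k + 1] v) 3| < 1 / 20) ∧
      |((gP g).symm^[k + 1] v) 2| < 1 / 20 := by
    intro k hk'
    have hsm := s_small F g hF hg n v k4 k6
    constructor
    · rw [Function.iterate_succ_apply']
      apply back_strict F g hF hg
      · rcases k with _ | k
        · exact hE
        · exact InE_of_BP (k4 k (by omega))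
      · have := hsm k (by omega)
        rw [dl_val] at this
        linarith
    · have := hsm (k + 1) (by omega)
      rw [dl_val] at this
      linarith
  have hs5 : ∀ k < n, |(g.lift^[k] (gQ g v)) 2| < 1 / 8 ∧ |(g.lift^[k] (gQ g v)) 3| < 1 / 8 := by
    intro k hk'
    have a1 := w4 k hk'
    have a2 := w5 k hk'
    rw [dl_val] at a1
    constructor <;> linarith
  -- open conditions
  have e0 : ∀ᶠ v' : E4 in 𝓝 v, v' 0 < 0 :=
    (isOpen_lt (by fun_prop) continuous_const).mem_nhds hs0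
  have e1 : ∀ᶠ v' : E4 in 𝓝 v, v' 0 ^ 2 + v' 1 ^ 2 < 4 * rho ^ 2 :=
    (isOpen_lt (by fun_prop) continuous_const).mem_nhds hs1
  have e2 : ∀ᶠ v' : E4 in 𝓝 v, |v' 2| < 1 / 500 :=
    (isOpen_lt (by fun_prop) continuous_const).mem_nhds hs2
  have e3' : ∀ᶠ v' : E4 in 𝓝 v, |v' 3 - kap| < 1 / 200 :=
    (isOpen_lt (by fun_prop) continuous_const).mem_nhds hs3
  have e4 : ∀ᶠ v' : E4 in 𝓝 v, ∀ k ∈ Finset.range n, (|((gP g).symm^[k + 1] v') 0| < 1 / 20 ∧
      lam ^ 2 * |((gP g).symm^[k + 1] v') 1| < 1 / 20 ∧ |((gP g).symm^[k + 1] v') 3| < 1 / 20) ∧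
      |((gP g).symm^[k + 1] v') 2| < 1 / 20 := by
    rw [Filter.eventually_all_finset]
    intro k hk'
    rw [Finset.mem_range] at hk'
    obtain ⟨⟨a0, a1, a3⟩, a2⟩ := hs4 k hk'
    have d0 : Continuous fun v' : E4 => |((gP g).symm^[k + 1] v') 0| :=
      continuous_abs.comp ((continuous_apply 0).comp (hc1 (k + 1)))
    have d1 : Continuous fun v' : E4 => lam ^ 2 * |((gP g).symm^[k + 1] v') 1| :=
      continuous_const.mul (continuous_abs.comp ((continuous_apply 1).comp (hc1 (k + 1))))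
    have d2 : Continuous fun v' : E4 => |((gP g).symm^[k + 1] v') 2| :=
      continuous_abs.comp ((continuous_apply 2).comp (hc1 (k + 1)))
    have d3 : Continuous fun v' : E4 => |((gP g).symm^[k + 1] v') 3| :=
      continuous_abs.comp ((continuous_apply 3).comp (hc1 (k + 1)))
    have f0 : ∀ᶠ v' : E4 in 𝓝 v, |((gP g).symm^[k + 1] v') 0| < 1 / 20 :=
      (isOpen_lt d0 continuous_const).mem_nhds a0
    have f1 : ∀ᶠ v' : E4 in 𝓝 v, lam ^ 2 * |((gP g).symm^[k + 1] v') 1| < 1 / 20 :=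
      (isOpen_lt d1 continuous_const).mem_nhds a1
    have f2 : ∀ᶠ v' : E4 in 𝓝 v, |((gP g).symm^[k + 1] v') 2| < 1 / 20 :=
      (isOpen_lt d2 continuous_const).mem_nhds a2
    have f3 : ∀ᶠ v' : E4 in 𝓝 v, |((gP g).symm^[k + 1] v') 3| < 1 / 20 :=
      (isOpen_lt d3 continuous_const).mem_nhds a3
    filter_upwards [f0, f1, f2, f3] with v' b0 b1 b2 b3
    exact ⟨⟨b0, b1, b3⟩, b2⟩
  have e5 : ∀ᶠ v' : E4 in 𝓝 v, ∀ k ∈ Finset.range n,
      |(g.lift^[k] (gQ g v')) 2| < 1 / 8 ∧ |(g.lift^[k] (gQ g v')) 3| < 1 / 8 := by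
    rw [Filter.eventually_all_finset]
    intro k hk'
    rw [Finset.mem_range] at hk'
    obtain ⟨a2, a3⟩ := hs5 k hk'
    have d2 : Continuous fun v' : E4 => |(g.lift^[k] (gQ g v')) 2| :=
      continuous_abs.comp ((continuous_apply 2).comp (hc2 k))
    have d3 : Continuous fun v' : E4 => |(g.lift^[k] (gQ g v')) 3| :=
      continuous_abs.comp ((continuous_apply 3).comp (hc2 k))
    have f2 : ∀ᶠ v' : E4 in 𝓝 v, |(g.lift^[k] (gQ g v')) 2| < 1 / 8 :=
      (isOpen_lt d2 continuous_const).mem_nhds a2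
    have f3 : ∀ᶠ v' : E4 in 𝓝 v, |(g.lift^[k] (gQ g v')) 3| < 1 / 8 :=
      (isOpen_lt d3 continuous_const).mem_nhds a3
    filter_upwards [f2, f3] with v' b2 b3
    exact ⟨b2, b3⟩
  filter_upwards [e0, e1, e2, e3', e4, e5] with v' b0 b1 b2 b3 b4 b5 hS hU
  apply hmax
  refine ⟨b0.le, b1.le, b2.le, b3.le, ?_, ?_, hS, hU⟩
  · intro k hk'
    obtain ⟨⟨a0, a1, a3⟩, a2⟩ := b4 k (Finset.mem_range.mpr hk')
    exact ⟨a0.le, a1.le, a2.le, a3.le⟩
  · intro k hk'
    obtain ⟨a2, a3⟩ := b5 k (Finset.mem_range.mpr hk')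
    exact ⟨a2.le, a3.le⟩

omit hF hg in
/-- the derivative of `g^(n-1) ∘ gQ` is onto -/
theorem Psi_surj (m : ℕ) (v : E4) :
    Function.Surjective (fderiv ℝ (fun v => g.lift^[m] (gQ g v)) v) := by
  have hc2 : ContDiff ℝ 1 fun v => g.lift^[m] (gQ g v) :=
    (iter_contDiff g.contDiff_lift m).comp (gQ_contDiff g)
  have hc3 : ContDiff ℝ 1 fun q => g.lift.symm (g.lift.symm^[m] q + lQ) - PP :=
    (g.contDiff_symm.comp ((iter_contDiff g.contDiff_symm m).add contDiff_const)).sub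
      contDiff_const
  have hinv1 : ∀ q : E4, g.lift^[m] (g.lift.symm^[m] q) = q := by
    intro q
    have hl : Function.LeftInverse g.lift g.lift.symm := g.lift.right_inv
    exact hl.iterate m q
  have hinv2 : ∀ q : E4, g.lift.symm^[m] (g.lift^[m] q) = q := by
    intro q
    have hl : Function.LeftInverse g.lift.symm g.lift := g.lift.left_inv
    exact hl.iterate m q
  set Φ : E4 → E4 := fun v => g.lift^[m] (gQ g v) with hΦ
  set Θ : E4 → E4 := fun q => g.lift.symm (g.lift.symm^[m] q + lQ) - PP with hΘ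
  have h1 : ∀ q, Φ (Θ q) = q := by
    intro q
    simp only [hΦ, hΘ, gQ]
    rw [show PP + (g.lift.symm (g.lift.symm^[m] q + lQ) - PP) =
      g.lift.symm (g.lift.symm^[m] q + lQ) by abel, Equiv.apply_symm_apply, add_sub_cancel_right,
      hinv1]
  have h2 : ∀ v, Θ (Φ v) = v := by
    intro v
    simp only [hΦ, hΘ, gQ]
    rw [hinv2, sub_add_cancel, Equiv.symm_apply_apply]
    abel
  intro w
  refine ⟨fderiv ℝ Θ (Φ v) w, ?_⟩
  have hd1 : DifferentiableAt ℝ Θ (Φ v) := hc3.differentiable one_ne_zero _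
  have hd2 : DifferentiableAt ℝ Φ (Θ (Φ v)) := hc2.differentiable one_ne_zero _
  have hcomp := fderiv_comp (Φ v) hd2 hd1
  have hid : Φ ∘ Θ = id := funext h1
  rw [hid, fderiv_id, h2] at hcomp
  have := congrArg (fun L : E4 →L[ℝ] E4 => L w) hcomp
  simpa using this.symm

theorem type_two_finite (n : ℕ) (hn : 1 ≤ n) : ∃ v : E4,
    (∀ i, |(v - kap • e3) i| ≤ 1 / 200) ∧
    (∀ k : ℕ, k < n → (gP g).symm^[k + 1] v ∈ BP) ∧
    (∀ k : ℕ, k < n → g.lift^[k] (gQ g v) ∈ U0) ∧
    ∀ w : E4, fderiv ℝ (fun v => g.lift^[n - 1] (gQ g v)) v w 0 = 0 →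
      fderiv ℝ (fun v => g.lift^[n - 1] (gQ g v)) v w 3 = 0 →
      fderiv ℝ ((gP g).symm^[n]) v w 2 = 0 := by
  obtain ⟨v, hvK, hmax, hX⟩ := exists_max F g hF hg n hn
  have hloc := local_max F g hF hg n hn v hvK hmax hX
  obtain ⟨c0, c1⟩ := KN_coord g hvK
  obtain ⟨s0, s1, s2, s3⟩ := sub_ke3 v
  obtain ⟨k0, k1, k2, k3, k4, k5, k6, k7⟩ := hvK
  refine ⟨v, ?_, k4, k5, ?_⟩
  · intro i
    fin_cases i
    · show |(v - kap • e3) 0| ≤ 1 / 200
      rw [s0]; exact c0
    · show |(v - kap • e3) 1| ≤ 1 / 200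
      rw [s1]; exact c1
    · show |(v - kap • e3) 2| ≤ 1 / 200
      rw [s2]; linarith
    · show |(v - kap • e3) 3| ≤ 1 / 200
      rw [s3]; exact k3
  have hcS : ContDiff ℝ 1 ((gP g).symm^[n]) := iter_contDiff (gPs_contDiff g) n
  have hcΦ : ContDiff ℝ 1 fun v => g.lift^[n - 1] (gQ g v) :=
    (iter_contDiff g.contDiff_lift (n - 1)).comp (gQ_contDiff g)
  set Φ : E4 → E4 := fun v => g.lift^[n - 1] (gQ g v) with hΦ
  have hsS : HasStrictFDerivAt ((gP g).symm^[n]) (fderiv ℝ ((gP g).symm^[n]) v) v :=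
    hcS.contDiffAt.hasStrictFDerivAt one_ne_zero
  have hsΦ : HasStrictFDerivAt Φ (fderiv ℝ Φ v) v :=
    hcΦ.contDiffAt.hasStrictFDerivAt one_ne_zero
  have hproj : ∀ (i : Fin 4) (f : E4 → E4) (f' : E4 →L[ℝ] E4), HasStrictFDerivAt f f' v →
      HasStrictFDerivAt (fun x => f x i) ((ContinuousLinearMap.proj i : E4 →L[ℝ] ℝ).comp f') v := by
    intro i f f' hf
    exact (ContinuousLinearMap.proj i : E4 →L[ℝ] ℝ).hasStrictFDerivAt.comp v hf
  have hextr : IsLocalExtrOn (fun x => Φ x 0)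
      {x | ∀ i : Fin 2, (![fun x => ((gP g).symm^[n] x) 2, fun x => Φ x 3] i) x =
        (![fun x => ((gP g).symm^[n] x) 2, fun x => Φ x 3] i) v} v := by
    right
    have : ∀ᶠ v' in 𝓝 v, v' ∈ {x | ∀ i : Fin 2,
        (![fun x => ((gP g).symm^[n] x) 2, fun x => Φ x 3] i) x =
        (![fun x => ((gP g).symm^[n] x) 2, fun x => Φ x 3] i) v} → Φ v' 0 ≤ Φ v 0 := by
      filter_upwards [hloc] with v' h hmem
      have m0 := hmem 0
      have m1 := hmem 1
      simp only [Matrix.cons_val_zero, Matrix.cons_val_one] at m0 m1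
      exact h (m0.trans k6) (m1.trans k7)
    exact (eventually_nhdsWithin_iff.mpr this)
  obtain ⟨Λ, Λ₀, hne, hsum⟩ := hextr.exists_multipliers_of_hasStrictFDerivAt
    (f' := ![(ContinuousLinearMap.proj 2 : E4 →L[ℝ] ℝ).comp (fderiv ℝ ((gP g).symm^[n]) v),
      (ContinuousLinearMap.proj 3 : E4 →L[ℝ] ℝ).comp (fderiv ℝ Φ v)])
    (φ' := (ContinuousLinearMap.proj 0 : E4 →L[ℝ] ℝ).comp (fderiv ℝ Φ v))
    (by
      intro i
      fin_cases i
      · exact hproj 2 _ _ hsS
      · exact hproj 3 _ _ hsΦ)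
    (hproj 0 _ _ hsΦ)
  have hsum' : ∀ w : E4, Λ 0 * fderiv ℝ ((gP g).symm^[n]) v w 2 + Λ 1 * fderiv ℝ Φ v w 3 +
      Λ₀ * fderiv ℝ Φ v w 0 = 0 := by
    intro w
    have := congrArg (fun L : E4 →L[ℝ] ℝ => L w) hsum
    simpa [Fin.sum_univ_two] using this
  have hΛ0 : Λ 0 ≠ 0 := by
    intro h0
    obtain ⟨wa, hwa⟩ := Psi_surj g (n - 1) v (Pi.single 3 1)
    obtain ⟨wb, hwb⟩ := Psi_surj g (n - 1) v (Pi.single 0 1)
    have ha := hsum' wa
    have hb := hsum' wb
    rw [h0, hwa] at ha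
    rw [h0, hwb] at hb
    simp at ha hb
    apply hne
    rw [Prod.mk_eq_zero]
    refine ⟨?_, hb⟩
    ext i
    fin_cases i
    · exact h0
    · exact ha
  intro w h0 h3
  have := hsum' w
  rw [h0, h3, mul_zero, mul_zero, add_zero, add_zero] at this
  exact (mul_eq_zero.mp this).resolve_left hΛ0

end

end T2A

theorem type_two_finite (F g : TorusDiffeo LL) (hF : IsModel F) (hg : C1Close dl F g)
    (n : ℕ) (hn : 1 ≤ n) : ∃ v : E4,
    (∀ i, |(v - kap • e3) i| ≤ 1 / 200) ∧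
    (∀ k : ℕ, k < n → (gP g).symm^[k + 1] v ∈ BP) ∧
    (∀ k : ℕ, k < n → g.lift^[k] (gQ g v) ∈ U0) ∧
    ∀ w : E4, fderiv ℝ (fun v => g.lift^[n - 1] (gQ g v)) v w 0 = 0 →
      fderiv ℝ (fun v => g.lift^[n - 1] (gQ g v)) v w 3 = 0 →
      fderiv ℝ ((gP g).symm^[n]) v w 2 = 0 :=
  T2A.type_two_finite F g hF hg n hn

end Pool.Agent.MP_6961e8
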