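import Pool.Agent.MP_6961e8.STEP
import Pool.Agent.MP_6961e8.LIN
import Pool.Agent.MP_6961e8.T2A

open Filter Topology

namespace Pool.Agent.MP_6961e8



namespace LimT

theorem iter_contDiff {f : E4 → E4} (hf : ContDiff ℝ 1 f) (n : ℕ) : ContDiff ℝ 1 (f^[n]) := by
  induction n with
  | zero => simpa using (contDiff_id : ContDiff ℝ 1 (id : E4 → E4))
  | succ n ih =>
    rw [Function.iterate_succ']
    exact hf.comp ih

theorem iter_diff {f : E4 → E4} (hf : ContDiff ℝ 1 f) (n : ℕ) : Differentiable ℝ (f^[n]) :=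
  (iter_contDiff hf n).differentiable (by norm_num)

theorem fderiv_iter_succ {f : E4 → E4} (hf : ContDiff ℝ 1 f) (n : ℕ) (q w : E4) :
    fderiv ℝ (f^[n + 1]) q w = fderiv ℝ f (f^[n] q) (fderiv ℝ (f^[n]) q w) := by
  rw [Function.iterate_succ']
  rw [fderiv_comp q ((hf.differentiable (by norm_num)) _) ((iter_diff hf n) q)]
  rfl

theorem fderiv_iter_succ' {f : E4 → E4} (hf : ContDiff ℝ 1 f) (n : ℕ) (q w : E4) :
    fderiv ℝ (f^[n + 1]) q w = fderiv ℝ (f^[n]) (f q) (fderiv ℝ f q w) := by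
  rw [Function.iterate_succ]
  rw [fderiv_comp q ((iter_diff hf n) _) ((hf.differentiable (by norm_num)) q)]
  rfl

theorem cont_fderiv_iter {f : E4 → E4} (hf : ContDiff ℝ 1 f) (n : ℕ) :
    Continuous fun p : E4 × E4 => fderiv ℝ (f^[n]) p.1 p.2 :=
  (iter_contDiff hf n).continuous_fderiv_apply (by norm_num)

theorem contDiff_gP (g : TorusDiffeo LL) : ContDiff ℝ 1 (gP g) := by
  show ContDiff ℝ 1 fun v => g.lift (PP + v) - PP - lP
  exact ((g.contDiff_lift.comp (contDiff_const.add contDiff_id)).sub contDiff_const).sub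
    contDiff_const

theorem contDiff_gP_symm (g : TorusDiffeo LL) : ContDiff ℝ 1 (gP g).symm := by
  show ContDiff ℝ 1 fun v => g.lift.symm (v + PP + lP) - PP
  exact (g.contDiff_symm.comp ((contDiff_id.add contDiff_const).add contDiff_const)).sub
    contDiff_const

theorem fderiv_gP (g : TorusDiffeo LL) (v w : E4) :
    fderiv ℝ (gP g) v w = fderiv ℝ g.lift (PP + v) w := by
  have h : HasFDerivAt (fun v => g.lift (PP + v) - PP - lP) (fderiv ℝ g.lift (PP + v)) v := by
    have h1 : HasFDerivAt g.lift (fderiv ℝ g.lift (PP + v)) (PP + v) :=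
      ((g.contDiff_lift.differentiable (by norm_num)) _).hasFDerivAt
    have h2 : HasFDerivAt (fun v : E4 => PP + v) (ContinuousLinearMap.id ℝ E4) v :=
      (hasFDerivAt_id v).const_add PP
    have h3 := h1.comp v h2
    rw [ContinuousLinearMap.comp_id] at h3
    exact (h3.sub_const PP).sub_const lP
  have h' : HasFDerivAt (gP g) (fderiv ℝ g.lift (PP + v)) v := h
  rw [h'.fderiv]

theorem fderiv_gQ (g : TorusDiffeo LL) (v w : E4) :
    fderiv ℝ (gQ g) v w = fderiv ℝ g.lift (PP + v) w := by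
  have h : HasFDerivAt (fun v => g.lift (PP + v) - lQ) (fderiv ℝ g.lift (PP + v)) v := by
    have h1 : HasFDerivAt g.lift (fderiv ℝ g.lift (PP + v)) (PP + v) :=
      ((g.contDiff_lift.differentiable (by norm_num)) _).hasFDerivAt
    have h2 : HasFDerivAt (fun v : E4 => PP + v) (ContinuousLinearMap.id ℝ E4) v :=
      (hasFDerivAt_id v).const_add PP
    have h3 := h1.comp v h2
    rw [ContinuousLinearMap.comp_id] at h3
    exact h3.sub_const lQ
  have h' : HasFDerivAt (gQ g) (fderiv ℝ g.lift (PP + v)) v := h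
  rw [h'.fderiv]

theorem contDiff_gQ (g : TorusDiffeo LL) : ContDiff ℝ 1 (gQ g) := by
  show ContDiff ℝ 1 fun v => g.lift (PP + v) - lQ
  exact (g.contDiff_lift.comp (contDiff_const.add contDiff_id)).sub contDiff_const

theorem isClosed_U0 : IsClosed U0 := by
  have : U0 = {p : E4 | |p 2| ≤ 1 / 8} ∩ {p : E4 | |p 3| ≤ 1 / 8} := rfl
  rw [this]
  exact (isClosed_le (by fun_prop) continuous_const).inter
    (isClosed_le (by fun_prop) continuous_const)

theorem isClosed_BP : IsClosed BP := by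
  have : BP = {v : E4 | |v 0| ≤ 1 / 20} ∩ ({v : E4 | lam ^ 2 * |v 1| ≤ 1 / 20} ∩
    ({v : E4 | |v 2| ≤ 1 / 20} ∩ {v : E4 | |v 3| ≤ 1 / 20})) := rfl
  rw [this]
  exact (isClosed_le (by fun_prop) continuous_const).inter
    ((isClosed_le (by fun_prop) continuous_const).inter
    ((isClosed_le (by fun_prop) continuous_const).inter
    (isClosed_le (by fun_prop) continuous_const)))

/-- the expanding part -/
def aN (w : E4) : ℝ := max |w 0| |w 3|
/-- the contracting part -/
def bN (w : E4) : ℝ := max |w 1| |w 2|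

theorem norm_le_max (w : E4) : ‖w‖ ≤ max (aN w) (bN w) := by
  rw [pi_norm_le_iff_of_nonneg]
  · intro i
    rw [Real.norm_eq_abs]
    fin_cases i
    · exact le_max_of_le_left (le_max_left _ _)
    · exact le_max_of_le_right (le_max_left _ _)
    · exact le_max_of_le_right (le_max_right _ _)
    · exact le_max_of_le_left (le_max_right _ _)
  · exact le_max_of_le_left (le_max_of_le_left (abs_nonneg _))

theorem continuous_aN : Continuous aN := by
  unfold aN; fun_prop

theorem continuous_bN : Continuous bN := by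
  unfold bN; fun_prop

theorem continuous_eN : Continuous eN := by
  unfold eN; fun_prop

end LimT

section
variable (F g : TorusDiffeo LL) (hF : IsModel F) (hg : C1Close dl F g)
include hF hg

/-- cone step in `U0` -/
theorem LimT.cone_U0 (q : E4) (hq : q ∈ U0) (w : E4) (hw : LimT.bN w ≤ LimT.aN w) :
    LimT.bN (fderiv ℝ g.lift q w) ≤ LimT.aN (fderiv ℝ g.lift q w) ∧
      LimT.aN w ≤ LimT.aN (fderiv ℝ g.lift q w) := by
  obtain ⟨hl1, hl2⟩ := lam_bounds
  obtain ⟨hL1, hL2⟩ := Lam_bounds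
  have hn : ‖w‖ ≤ LimT.aN w := (LimT.norm_le_max w).trans (max_le le_rfl hw)
  have hd := derivU0 F g hF hg q hq w
  have h0 := hd 0
  have h1 := hd 1
  have h2 := hd 2
  have h3 := hd 3
  have hdg0 : dg 0 = lam := rfl
  have hdg1 : dg 1 = 1 / lam := rfl
  have hdg2 : dg 2 = 1 / Lam := rfl
  have hdg3 : dg 3 = Lam := rfl
  rw [hdg0] at h0
  rw [hdg1] at h1
  rw [hdg2] at h2
  rw [hdg3] at h3
  set w' := fderiv ℝ g.lift q w with hw'
  have hdl : dl = 1 / 100000 := rfl
  have ha0 : 0 ≤ LimT.aN w := le_max_of_le_left (abs_nonneg _)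
  have hdn : dl * ‖w‖ ≤ LimT.aN w / 100000 := by rw [hdl]; linarith
  have key0 : 2 * |w 0| - LimT.aN w / 100000 ≤ |w' 0| := by
    have : |lam * w 0| ≤ |w' 0| + dl * ‖w‖ := by
      have := abs_sub_abs_le_abs_sub (lam * w 0) (w' 0)
      rw [abs_sub_comm] at this
      linarith
    rw [abs_mul, abs_of_pos (by linarith : (0:ℝ) < lam)] at this
    nlinarith [abs_nonneg (w 0)]
  have key3 : 2 * |w 3| - LimT.aN w / 100000 ≤ |w' 3| := by
    have : |Lam * w 3| ≤ |w' 3| + dl * ‖w‖ := by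
      have := abs_sub_abs_le_abs_sub (Lam * w 3) (w' 3)
      rw [abs_sub_comm] at this
      linarith
    rw [abs_mul, abs_of_pos (by linarith : (0:ℝ) < Lam)] at this
    nlinarith [abs_nonneg (w 3)]
  have key1 : |w' 1| ≤ |w 1| / 2 + LimT.aN w / 100000 := by
    have h : |w' 1| ≤ |1 / lam * w 1| + dl * ‖w‖ := by
      have := abs_sub_abs_le_abs_sub (w' 1) (1 / lam * w 1)
      linarith
    rw [abs_mul, abs_of_pos (by positivity : (0:ℝ) < 1 / lam)] at h
    have h4 : 1 / lam ≤ 1 / 2 := one_div_le_one_div_of_le (by norm_num) (by linarith)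
    nlinarith [abs_nonneg (w 1)]
  have key2 : |w' 2| ≤ |w 2| / 2 + LimT.aN w / 100000 := by
    have h : |w' 2| ≤ |1 / Lam * w 2| + dl * ‖w‖ := by
      have := abs_sub_abs_le_abs_sub (w' 2) (1 / Lam * w 2)
      linarith
    rw [abs_mul, abs_of_pos (by positivity : (0:ℝ) < 1 / Lam)] at h
    have h4 : 1 / Lam ≤ 1 / 2 := one_div_le_one_div_of_le (by norm_num) (by linarith)
    nlinarith [abs_nonneg (w 2)]
  have hb1 : |w 1| ≤ LimT.aN w := (le_max_left _ _).trans hw
  have hb2 : |w 2| ≤ LimT.aN w := (le_max_right _ _).trans hw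
  have hA : LimT.aN w ≤ LimT.aN w' := by
    have h' : LimT.aN w = |w 0| ∨ LimT.aN w = |w 3| := max_choice _ _
    have e0 : |w' 0| ≤ LimT.aN w' := le_max_left _ _
    have e3 : |w' 3| ≤ LimT.aN w' := le_max_right _ _
    rcases h' with h' | h'
    · linarith
    · linarith
  refine ⟨?_, hA⟩
  refine (max_le ?_ ?_).trans hA <;> linarith

/-- iterated cone step in `U0` -/
theorem LimT.cone_U0_iter (q : E4) (m : ℕ) (hq : ∀ k < m, g.lift^[k] q ∈ U0) (w : E4) (j : ℕ)
    (hj : j ≤ m) (hw : LimT.bN (fderiv ℝ (g.lift^[j]) q w) ≤ LimT.aN (fderiv ℝ (g.lift^[j]) q w)) :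
    LimT.bN (fderiv ℝ (g.lift^[m]) q w) ≤ LimT.aN (fderiv ℝ (g.lift^[m]) q w) ∧
      LimT.aN (fderiv ℝ (g.lift^[j]) q w) ≤ LimT.aN (fderiv ℝ (g.lift^[m]) q w) := by
  induction m with
  | zero =>
    obtain rfl : j = 0 := by omega
    exact ⟨hw, le_rfl⟩
  | succ m ih =>
    rcases Nat.lt_or_ge j (m + 1) with h | h
    · obtain ⟨h1, h2⟩ := ih (fun k hk => hq k (by omega)) (by omega)
      rw [LimT.fderiv_iter_succ g.contDiff_lift m q w]
      obtain ⟨h3, h4⟩ := LimT.cone_U0 F g hF hg (g.lift^[m] q) (hq m (by omega)) _ h1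
      exact ⟨h3, h2.trans h4⟩
    · obtain rfl : j = m + 1 := by omega
      exact ⟨hw, le_rfl⟩

/-- the linear boundary value problem along a finite orbit in `U0` -/
theorem LimT.solve_U0 (q : E4) (m : ℕ) (hq : ∀ k < m, g.lift^[k] q ∈ U0) (a1 a2 : ℝ) :
    ∃ w : E4, w 1 = a1 ∧ w 2 = a2 ∧ fderiv ℝ (g.lift^[m]) q w 0 = 0 ∧
      fderiv ℝ (g.lift^[m]) q w 3 = 0 := by
  set T := fderiv ℝ (g.lift^[m]) q with hT
  let ι : (ℝ × ℝ) →ₗ[ℝ] E4 :=
    { toFun := fun z => ![z.1, 0, 0, z.2]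
      map_add' := by
        intro a b
        ext i
        fin_cases i <;> simp
      map_smul' := by
        intro c a
        ext i
        fin_cases i <;> simp }
  let M : (ℝ × ℝ) →ₗ[ℝ] (ℝ × ℝ) :=
    { toFun := fun z => (T (ι z) 0, T (ι z) 3)
      map_add' := by
        intro a b
        simp
      map_smul' := by
        intro c a
        simp }
  have hinj : Function.Injective M := by
    rw [← LinearMap.ker_eq_bot, LinearMap.ker_eq_bot']
    intro z hz
    have h0 : T (ι z) 0 = 0 := congrArg Prod.fst hz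
    have h3 : T (ι z) 3 = 0 := congrArg Prod.snd hz
    have hb : LimT.bN (ι z) = 0 := by simp [LimT.bN, ι]
    have ha : LimT.aN (ι z) = max |z.1| |z.2| := by simp [LimT.aN, ι]
    have hid : fderiv ℝ (g.lift^[0]) q (ι z) = ι z := by
      rw [Function.iterate_zero, fderiv_id]
      rfl
    have := (LimT.cone_U0_iter F g hF hg q m hq (ι z) 0 (by omega)
      (by rw [hid, hb, ha]; exact le_max_of_le_left (abs_nonneg _))).2
    rw [hid, ha] at this
    have h4 : LimT.aN (fderiv ℝ (g.lift^[m]) q (ι z)) = 0 := by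
      show max |T (ι z) 0| |T (ι z) 3| = 0
      rw [h0, h3]
      simp
    rw [h4] at this
    have h5 : |z.1| ≤ 0 := (le_max_left _ _).trans this
    have h6 : |z.2| ≤ 0 := (le_max_right _ _).trans this
    ext
    · simpa using h5
    · simpa using h6
  have hsurj : Function.Surjective M := LinearMap.injective_iff_surjective.mp hinj
  obtain ⟨z, hz⟩ := hsurj (-(T ![0, a1, a2, 0] 0), -(T ![0, a1, a2, 0] 3))
  have h0 : T (ι z) 0 = -(T ![0, a1, a2, 0] 0) := congrArg Prod.fst hz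
  have h3 : T (ι z) 3 = -(T ![0, a1, a2, 0] 3) := congrArg Prod.snd hz
  refine ⟨ι z + ![0, a1, a2, 0], ?_, ?_, ?_, ?_⟩
  · simp [ι]
  · simp [ι]
  · rw [map_add, Pi.add_apply, h0]; ring
  · rw [map_add, Pi.add_apply, h3]; ring

/-- cone step in `BP` -/
theorem LimT.cone_BP (v : E4) (hv : v ∈ BP) (w : E4) (hw : |w 2| ≤ eN w) :
    |fderiv ℝ (gP g) v w 2| ≤ eN (fderiv ℝ (gP g) v w) := by
  obtain ⟨hl1, hl2⟩ := lam_bounds
  obtain ⟨hL1, hL2⟩ := Lam_bounds
  have hLl := Lam_eq
  rw [LimT.fderiv_gP]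
  have hlam2 : 1 ≤ lam ^ 2 := by nlinarith
  have hen : 0 ≤ eN w := le_max_of_le_left (abs_nonneg _)
  have hn : ‖w‖ ≤ eN w := by
    rw [pi_norm_le_iff_of_nonneg hen]
    intro i
    rw [Real.norm_eq_abs]
    fin_cases i
    · exact le_max_left _ _
    · show |w 1| ≤ eN w
      have : lam ^ 2 * |w 1| ≤ eN w := le_max_of_le_right (le_max_left _ _)
      nlinarith [abs_nonneg (w 1)]
    · exact hw
    · exact le_max_of_le_right (le_max_right _ _)
  have hd := derivP F g hF hg v hv w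
  set w' := fderiv ℝ g.lift (PP + v) w with hw'
  have hi : ∀ i, |w' i - LM (JJ w) i| ≤ dl * ‖w‖ := by
    intro i
    have := norm_le_pi_norm (w' - LM (JJ w)) i
    rw [Real.norm_eq_abs] at this
    exact this.trans hd
  have h0 := hi 0
  have h1 := hi 1
  have h2 := hi 2
  have h3 := hi 3
  have hdg0 : dg 0 = lam := rfl
  have hdg1 : dg 1 = 1 / lam := rfl
  have hdg2 : dg 2 = 1 / Lam := rfl
  have hdg3 : dg 3 = Lam := rfl
  rw [LM_apply, JJ_apply, hdg0] at h0
  rw [LM_apply, JJ_apply, hdg1] at h1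
  rw [LM_apply, JJ_apply, hdg2] at h2
  rw [LM_apply, JJ_apply, hdg3] at h3
  simp only [Matrix.cons_val_zero, Matrix.cons_val_one, Matrix.cons_val] at h0 h1 h2 h3
  have hdl : dl = 1 / 100000 := rfl
  have he0 : 0 ≤ eN w := le_max_of_le_left (abs_nonneg _)
  have hdn : dl * ‖w‖ ≤ eN w / 100000 := by rw [hdl]; linarith
  have key0 : 2 * |w 0| - eN w / 100000 ≤ |w' 0| := by
    have : |lam * w 0| ≤ |w' 0| + dl * ‖w‖ := by
      have := abs_sub_abs_le_abs_sub (lam * w 0) (w' 0)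
      rw [abs_sub_comm] at this
      linarith
    rw [abs_mul, abs_of_pos (by linarith : (0:ℝ) < lam)] at this
    nlinarith [abs_nonneg (w 0)]
  have key1 : 2 * |w 3| - eN w / 10000 ≤ lam ^ 2 * |w' 1| := by
    have h : |1 / lam * -w 3| ≤ |w' 1| + dl * ‖w‖ := by
      have := abs_sub_abs_le_abs_sub (1 / lam * -w 3) (w' 1)
      rw [abs_sub_comm] at this
      linarith
    rw [abs_mul, abs_of_pos (by positivity : (0:ℝ) < 1 / lam), abs_neg] at h
    have h5 : lam ^ 2 * (1 / lam * |w 3|) = lam * |w 3| := by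
      have : lam ≠ 0 := by linarith
      field_simp
    have h6 : lam ^ 2 * (1 / lam * |w 3|) ≤ lam ^ 2 * (|w' 1| + dl * ‖w‖) :=
      mul_le_mul_of_nonneg_left h (by positivity)
    rw [h5] at h6
    have h7 : lam ^ 2 * (dl * ‖w‖) ≤ 10 * (eN w / 100000) := by
      have : lam ^ 2 ≤ 10 := by nlinarith
      have h8 : 0 ≤ dl * ‖w‖ := by rw [hdl]; positivity
      calc lam ^ 2 * (dl * ‖w‖) ≤ 10 * (dl * ‖w‖) := mul_le_mul_of_nonneg_right this h8
        _ ≤ _ := by linarith
    nlinarith [abs_nonneg (w 3)]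
  have key3 : 2 * (lam ^ 2 * |w 1|) - eN w / 100000 ≤ |w' 3| := by
    have : |Lam * w 1| ≤ |w' 3| + dl * ‖w‖ := by
      have := abs_sub_abs_le_abs_sub (Lam * w 1) (w' 3)
      rw [abs_sub_comm] at this
      linarith
    rw [abs_mul, abs_of_pos (by linarith : (0:ℝ) < Lam), hLl] at this
    have h9 : 0 ≤ lam ^ 2 * |w 1| := by positivity
    have h10 : lam ^ 3 * |w 1| = lam * (lam ^ 2 * |w 1|) := by ring
    nlinarith
  have key2 : |w' 2| ≤ |w 2| / 2 + eN w / 100000 := by
    have h : |w' 2| ≤ |1 / Lam * w 2| + dl * ‖w‖ := by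
      have := abs_sub_abs_le_abs_sub (w' 2) (1 / Lam * w 2)
      linarith
    rw [abs_mul, abs_of_pos (by positivity : (0:ℝ) < 1 / Lam)] at h
    have h4 : 1 / Lam ≤ 1 / 2 := one_div_le_one_div_of_le (by norm_num) (by linarith)
    nlinarith [abs_nonneg (w 2)]
  have hA : eN w ≤ eN w' := by
    have e0 : |w' 0| ≤ eN w' := le_max_left _ _
    have e1 : lam ^ 2 * |w' 1| ≤ eN w' := le_max_of_le_right (le_max_left _ _)
    have e3 : |w' 3| ≤ eN w' := le_max_of_le_right (le_max_right _ _)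
    have h' : eN w = |w 0| ∨ eN w = lam ^ 2 * |w 1| ∨ eN w = |w 3| := by
      rcases max_choice |w 0| (max (lam ^ 2 * |w 1|) |w 3|) with h | h
      · exact Or.inl h
      · rcases max_choice (lam ^ 2 * |w 1|) |w 3| with h' | h'
        · exact Or.inr (Or.inl (h.trans h'))
        · exact Or.inr (Or.inr (h.trans h'))
    rcases h' with h' | h' | h' <;> linarith
  linarith

omit hF hg in
/-- relation between consecutive backward derivatives in the chart at `PP` -/
theorem LimT.back_rel (v w : E4) (k : ℕ) :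
    fderiv ℝ (gP g) ((gP g).symm^[k + 1] v) (fderiv ℝ ((gP g).symm^[k + 1]) v w) =
      fderiv ℝ ((gP g).symm^[k]) v w := by
  have h1 : (gP g) ∘ ((gP g).symm^[k + 1]) = (gP g).symm^[k] := by
    funext z
    rw [Function.iterate_succ']
    simp
  have h2 : fderiv ℝ ((gP g) ∘ ((gP g).symm^[k + 1])) v w =
      fderiv ℝ (gP g) ((gP g).symm^[k + 1] v) (fderiv ℝ ((gP g).symm^[k + 1]) v w) := by
    rw [fderiv_comp v (((LimT.contDiff_gP g).differentiable (by norm_num)) _)
      ((LimT.iter_diff (LimT.contDiff_gP_symm g) (k + 1)) v)]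
    rfl
  rw [← h2, h1]

/-- backward cone field in the chart at `PP` -/
theorem LimT.back_cone (v w : E4) (n : ℕ) (hv : ∀ k < n, (gP g).symm^[k + 1] v ∈ BP)
    (hw : fderiv ℝ ((gP g).symm^[n]) v w 2 = 0) (k : ℕ) (hk : k ≤ n) :
    |fderiv ℝ ((gP g).symm^[k]) v w 2| ≤ eN (fderiv ℝ ((gP g).symm^[k]) v w) := by
  obtain ⟨j, rfl⟩ : ∃ j, n = k + j := ⟨n - k, by omega⟩
  clear hk
  induction j generalizing k with
  | zero =>
    rw [Nat.add_zero] at hw
    rw [hw, abs_zero]
    exact le_max_of_le_left (abs_nonneg _)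
  | succ j ih =>
    have h1 := ih (k + 1) (fun i hi => hv i (by omega)) (by
      have : k + 1 + j = k + (j + 1) := by ring
      rw [this]; exact hw)
    rw [← LimT.back_rel g v w k]
    exact LimT.cone_BP F g hF hg _ (hv k (by omega)) _ h1

theorem LimT.symm_per (ℓ : E4) (hℓ : ℓ ∈ LL) : ∃ ℓ' ∈ LL,
    LM ℓ' = ℓ ∧ ∀ p, g.lift.symm (p + ℓ) = g.lift.symm p + ℓ' := by
  obtain ⟨ℓ', h1, h2⟩ := LM_mem_inv ℓ hℓ
  refine ⟨ℓ', h1, h2, fun p => ?_⟩
  rw [Equiv.symm_apply_eq, g_per F g hF hg _ _ h1, Equiv.apply_symm_apply, h2]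

/-- backward orbits in the chart at `PP` -/
theorem LimT.chart_iter (n : ℕ) : ∃ ℓ ∈ LL, ∀ z : E4,
    g.lift.symm^[n] (PP + z) = PP + (gP g).symm^[n] z + ℓ := by
  induction n with
  | zero => exact ⟨0, LL.zero_mem, fun z => by simp⟩
  | succ n ih =>
    obtain ⟨ℓ, h1, h2⟩ := ih
    obtain ⟨ℓ', h3, -, h4⟩ := LimT.symm_per F g hF hg (ℓ - lP) (LL.sub_mem h1 lP_mem)
    refine ⟨ℓ', h3, fun z => ?_⟩
    rw [Function.iterate_succ', Function.iterate_succ']
    simp only [Function.comp]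
    rw [h2 z]
    have h5 : PP + (gP g).symm^[n] z + ℓ = ((gP g).symm^[n] z + PP + lP) + (ℓ - lP) := by abel
    rw [h5, h4]
    have h6 : (gP g).symm ((gP g).symm^[n] z) =
      g.lift.symm ((gP g).symm^[n] z + PP + lP) - PP := rfl
    rw [h6]
    abel

theorem LimT.fderiv_chart (n : ℕ) (z w : E4) :
    fderiv ℝ (g.lift.symm^[n]) (PP + z) w = fderiv ℝ ((gP g).symm^[n]) z w := by
  obtain ⟨ℓ, -, h⟩ := LimT.chart_iter F g hF hg n
  have h1 : HasFDerivAt (fun z : E4 => g.lift.symm^[n] (PP + z))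
      (fderiv ℝ (g.lift.symm^[n]) (PP + z)) z := by
    have h2 : HasFDerivAt (g.lift.symm^[n]) (fderiv ℝ (g.lift.symm^[n]) (PP + z)) (PP + z) :=
      ((LimT.iter_diff g.contDiff_symm n) _).hasFDerivAt
    have h3 : HasFDerivAt (fun z : E4 => PP + z) (ContinuousLinearMap.id ℝ E4) z :=
      (hasFDerivAt_id z).const_add PP
    have h4 := h2.comp z h3
    rw [ContinuousLinearMap.comp_id] at h4
    exact h4
  have h5 : HasFDerivAt (fun z : E4 => PP + (gP g).symm^[n] z + ℓ)
      (fderiv ℝ ((gP g).symm^[n]) z) z :=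
    ((((LimT.iter_diff (LimT.contDiff_gP_symm g) n) z).hasFDerivAt).const_add PP).add_const ℓ
  have h6 : (fun z : E4 => g.lift.symm^[n] (PP + z)) =
      fun z : E4 => PP + (gP g).symm^[n] z + ℓ := funext h
  rw [h6] at h1
  rw [h1.unique h5]

/-- a limit of backward cones is in the unstable space -/
theorem LimT.mem_unstable (v e : E4) (hv : ∀ n : ℕ, (gP g).symm^[n + 1] v ∈ BP)
    (he : ∀ k : ℕ, |fderiv ℝ ((gP g).symm^[k]) v e 2| ≤ eN (fderiv ℝ ((gP g).symm^[k]) v e)) :
    e ∈ unstableSpace g (PP + v) := by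
  have h1 : (gP g) ((gP g).symm v) = v := Equiv.apply_symm_apply _ _
  have h2 : g.lift (PP + (gP g).symm v) = PP + v + lP := by
    have h : g.lift (PP + (gP g).symm v) - PP - lP = v := h1
    calc g.lift (PP + (gP g).symm v)
        = PP + (g.lift (PP + (gP g).symm v) - PP - lP) + lP := by abel
      _ = PP + v + lP := by rw [h]
  have h3 : fderiv ℝ g.lift (PP + (gP g).symm v) (fderiv ℝ ((gP g).symm^[1]) v e) = e := by
    have := LimT.back_rel g v e 0
    rw [Function.iterate_zero, fderiv_id] at this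
    rw [LimT.fderiv_gP] at this
    simpa using this
  have h4 := (unstable_iff F g hF hg (PP + (gP g).symm v)
    (fderiv ℝ ((gP g).symm^[1]) v e))
  rw [h3, h2, unstable_per F g hF hg _ _ lP_mem] at h4
  rw [h4]
  have h5 := (unstable_P F g hF hg ((gP g).symm v) (fun n => by
    have := hv n
    rw [Function.iterate_succ] at this
    exact this)).2.2
  rw [h5]
  intro n
  rw [LimT.fderiv_chart F g hF hg n]
  have h6 := he (n + 1)
  rw [LimT.fderiv_iter_succ' (LimT.contDiff_gP_symm g) n v e] at h6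
  rw [Function.iterate_one]
  exact h6

omit hF hg in
theorem LimT.fderiv_symm_lift (p w : E4) :
    fderiv ℝ g.lift.symm (g.lift p) (fderiv ℝ g.lift p w) = w := by
  have h1 : g.lift.symm ∘ g.lift = id := by funext z; simp
  have h2 : fderiv ℝ (g.lift.symm ∘ g.lift) p w =
      fderiv ℝ g.lift.symm (g.lift p) (fderiv ℝ g.lift p w) := by
    rw [fderiv_comp p ((g.contDiff_symm.differentiable (by norm_num)) _)
      ((g.contDiff_lift.differentiable (by norm_num)) _)]
    rfl
  rw [← h2, h1, fderiv_id]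
  rfl

omit hF hg in
theorem LimT.fderiv_lift_symm (p w : E4) :
    fderiv ℝ g.lift p (fderiv ℝ g.lift.symm (g.lift p) w) = w := by
  have h1 : g.lift ∘ g.lift.symm = id := by funext z; simp
  have h2 : fderiv ℝ (g.lift ∘ g.lift.symm) (g.lift p) w =
      fderiv ℝ g.lift (g.lift.symm (g.lift p)) (fderiv ℝ g.lift.symm (g.lift p) w) := by
    rw [fderiv_comp (g.lift p) ((g.contDiff_lift.differentiable (by norm_num)) _)
      ((g.contDiff_symm.differentiable (by norm_num)) _)]
    rfl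
  rw [Equiv.symm_apply_apply] at h2
  rw [← h2, h1, fderiv_id]
  rfl

theorem type_two : ∃ v : E4, (∀ n : ℕ, (gP g).symm^[n + 1] v ∈ BP) ∧
    (∀ n : ℕ, g.lift^[n] (gQ g v) ∈ U0) ∧
    stableSpace g (PP + v) ≤ unstableSpace g (PP + v) := by
  choose! V hV1 hV2 hV3 hV4 using type_two_finite F g hF hg
  set x : ℕ → E4 := fun n => V (n + 1) with hx
  have hbox : ∀ n, x n ∈ Metric.closedBall (kap • e3 : E4) (1 / 200) := by
    intro n
    rw [mem_closedBall_iff_norm, pi_norm_le_iff_of_nonneg (by norm_num)]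
    intro i
    exact hV1 (n + 1) (by omega) i
  obtain ⟨v, -, φ, hφ, hlim⟩ :=
    (isCompact_closedBall (kap • e3 : E4) (1 / 200)).tendsto_subseq hbox
  have hφn : ∀ m, m ≤ φ m := fun m => hφ.le_apply
  have hlim' : Tendsto (fun m => x (φ m)) atTop (𝓝 v) := hlim
  have hB : ∀ n : ℕ, (gP g).symm^[n + 1] v ∈ BP := by
    intro n
    have hc : Tendsto (fun m => (gP g).symm^[n + 1] (x (φ m))) atTop
        (𝓝 ((gP g).symm^[n + 1] v)) :=
      ((LimT.iter_contDiff (LimT.contDiff_gP_symm g) (n + 1)).continuous.tendsto v).comp hlim'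
    refine LimT.isClosed_BP.mem_of_tendsto hc ?_
    filter_upwards [eventually_ge_atTop n] with m hm
    have := hφn m
    exact hV2 (φ m + 1) (by omega) n (by omega)
  have hQc : Tendsto (fun m => gQ g (x (φ m))) atTop (𝓝 (gQ g v)) :=
    ((LimT.contDiff_gQ g).continuous.tendsto v).comp hlim'
  have hU : ∀ n : ℕ, g.lift^[n] (gQ g v) ∈ U0 := by
    intro n
    have hc : Tendsto (fun m => g.lift^[n] (gQ g (x (φ m)))) atTop
        (𝓝 (g.lift^[n] (gQ g v))) :=
      ((LimT.iter_contDiff g.contDiff_lift n).continuous.tendsto _).comp hQc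
    refine LimT.isClosed_U0.mem_of_tendsto hc ?_
    filter_upwards [eventually_ge_atTop n] with m hm
    have := hφn m
    exact hV3 (φ m + 1) (by omega) n (by omega)
  refine ⟨v, hB, hU, ?_⟩
  intro e he
  apply LimT.mem_unstable F g hF hg v e hB
  set e1 := fderiv ℝ g.lift (PP + v) e with he1
  have hlift : g.lift (PP + v) = gQ g v + lQ := by
    unfold gQ
    abel
  have hs1 : e1 ∈ stableSpace g (gQ g v) := by
    have := (stable_iff F g hF hg (PP + v) e).mpr he
    rwa [hlift, stable_per F g hF hg _ _ lQ_mem] at this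
  have hsol : ∀ m, ∃ w : E4, w 1 = e1 1 ∧ w 2 = e1 2 ∧
      fderiv ℝ (g.lift^[φ m]) (gQ g (x (φ m))) w 0 = 0 ∧
      fderiv ℝ (g.lift^[φ m]) (gQ g (x (φ m))) w 3 = 0 := fun m =>
    LimT.solve_U0 F g hF hg _ (φ m)
      (fun k hk => hV3 (φ m + 1) (by omega) k (by omega)) _ _
  choose W hW1 hW2 hW0 hW3 using hsol
  have hcone : ∀ m k, k ≤ φ m →
      LimT.aN (fderiv ℝ (g.lift^[k]) (gQ g (x (φ m))) (W m)) ≤
      LimT.bN (fderiv ℝ (g.lift^[k]) (gQ g (x (φ m))) (W m)) := by
    intro m k hk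
    by_contra hcon
    push Not at hcon
    have h1 := (LimT.cone_U0_iter F g hF hg (gQ g (x (φ m))) (φ m)
      (fun k hk => hV3 (φ m + 1) (by omega) k (by omega)) (W m) k hk hcon.le).2
    have h2 : LimT.aN (fderiv ℝ (g.lift^[φ m]) (gQ g (x (φ m))) (W m)) = 0 := by
      unfold LimT.aN
      rw [hW0, hW3]
      simp
    have h3 : 0 ≤ LimT.bN (fderiv ℝ (g.lift^[k]) (gQ g (x (φ m))) (W m)) :=
      le_max_of_le_left (abs_nonneg _)
    linarith
  have hid : ∀ q w : E4, fderiv ℝ (g.lift^[0]) q w = w := by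
    intro q w
    rw [Function.iterate_zero, fderiv_id]
    rfl
  have hWb : ∀ m, W m ∈ Metric.closedBall (0 : E4) (LimT.bN e1) := by
    intro m
    rw [mem_closedBall_zero_iff]
    have h1 := hcone m 0 (by omega)
    rw [hid] at h1
    have h2 : LimT.bN (W m) = LimT.bN e1 := by
      unfold LimT.bN
      rw [hW1, hW2]
    refine (LimT.norm_le_max (W m)).trans (max_le ?_ h2.le)
    exact h1.trans h2.le
  obtain ⟨w1, -, ψ, hψ, hWlim⟩ :=
    (isCompact_closedBall (0 : E4) (LimT.bN e1)).tendsto_subseq hWb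
  have hψn : ∀ m, m ≤ ψ m := fun m => hψ.le_apply
  have hWlim' : Tendsto (fun m => W (ψ m)) atTop (𝓝 w1) := hWlim
  have hxlim : Tendsto (fun m => x (φ (ψ m))) atTop (𝓝 v) := hlim'.comp hψ.tendsto_atTop
  have hQlim : Tendsto (fun m => gQ g (x (φ (ψ m)))) atTop (𝓝 (gQ g v)) :=
    hQc.comp hψ.tendsto_atTop
  -- the limit vector is in the stable space
  have hw1s : w1 ∈ stableSpace g (gQ g v) := by
    rw [(stable_U0 F g hF hg (gQ g v) hU).2.2 w1]
    intro k
    have hc : Tendsto (fun m => fderiv ℝ (g.lift^[k]) (gQ g (x (φ (ψ m)))) (W (ψ m))) atTop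
        (𝓝 (fderiv ℝ (g.lift^[k]) (gQ g v) w1)) :=
      ((LimT.cont_fderiv_iter g.contDiff_lift k).tendsto (gQ g v, w1)).comp
        (hQlim.prodMk_nhds hWlim')
    have h1 := (LimT.continuous_aN.tendsto _).comp hc
    have h2 := (LimT.continuous_bN.tendsto _).comp hc
    refine le_of_tendsto_of_tendsto h1 h2 ?_
    filter_upwards [eventually_ge_atTop k] with m hm
    have h3 := hφn (ψ m)
    have h4 := hψn m
    exact hcone (ψ m) k (by omega)
  have hw1e : w1 = e1 := by
    have h1 : w1 - e1 ∈ stableSpace g (gQ g v) := (stableSpace g (gQ g v)).sub_mem hw1s hs1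
    have h2 := ((stable_U0 F g hF hg (gQ g v) hU).2.2 (w1 - e1)).mp h1 0
    rw [hid] at h2
    have h3 : w1 1 = e1 1 := by
      have h4 : Tendsto (fun m => W (ψ m) 1) atTop (𝓝 (w1 1)) :=
        ((continuous_apply (1 : Fin 4)).tendsto w1).comp hWlim'
      have h5 : (fun m => W (ψ m) 1) = fun _ => e1 1 := funext fun m => hW1 _
      rw [h5] at h4
      exact tendsto_nhds_unique h4 tendsto_const_nhds
    have h3' : w1 2 = e1 2 := by
      have h4 : Tendsto (fun m => W (ψ m) 2) atTop (𝓝 (w1 2)) :=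
        ((continuous_apply (2 : Fin 4)).tendsto w1).comp hWlim'
      have h5 : (fun m => W (ψ m) 2) = fun _ => e1 2 := funext fun m => hW2 _
      rw [h5] at h4
      exact tendsto_nhds_unique h4 tendsto_const_nhds
    rw [Pi.sub_apply, Pi.sub_apply, Pi.sub_apply, Pi.sub_apply, h3, h3'] at h2
    rw [sub_self, sub_self, abs_zero, max_self] at h2
    have h6 : |w1 0 - e1 0| ≤ 0 := (le_max_left _ _).trans h2
    have h7 : |w1 3 - e1 3| ≤ 0 := (le_max_right _ _).trans h2
    rw [abs_nonpos_iff, sub_eq_zero] at h6 h7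
    ext i
    fin_cases i
    · exact h6
    · exact h3
    · exact h3'
    · exact h7
  -- pull back to `v`
  set Z : ℕ → E4 := fun m =>
    fderiv ℝ g.lift.symm (g.lift (PP + x (φ (ψ m)))) (W (ψ m)) with hZ
  have hZlim : Tendsto Z atTop (𝓝 e) := by
    have h1 : Tendsto (fun m => g.lift (PP + x (φ (ψ m)))) atTop (𝓝 (g.lift (PP + v))) :=
      ((g.contDiff_lift.continuous.comp (continuous_const.add continuous_id)).tendsto v).comp
        hxlim
    have h2 : Tendsto Z atTop (𝓝 (fderiv ℝ g.lift.symm (g.lift (PP + v)) w1)) :=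
      ((g.contDiff_symm.continuous_fderiv_apply (by norm_num)).tendsto
        (g.lift (PP + v), w1)).comp (h1.prodMk_nhds hWlim')
    rw [hw1e, he1, LimT.fderiv_symm_lift] at h2
    exact h2
  have hZker : ∀ m, fderiv ℝ ((gP g).symm^[φ (ψ m) + 1]) (x (φ (ψ m))) (Z m) 2 = 0 := by
    intro m
    have h1 : fderiv ℝ (fun v => g.lift^[φ (ψ m) + 1 - 1] (gQ g v)) (x (φ (ψ m))) (Z m) =
        fderiv ℝ (g.lift^[φ (ψ m)]) (gQ g (x (φ (ψ m)))) (W (ψ m)) := by
      rw [Nat.add_sub_cancel]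
      have h2 : (fun v => g.lift^[φ (ψ m)] (gQ g v)) = (g.lift^[φ (ψ m)]) ∘ gQ g := rfl
      rw [h2, fderiv_comp _ ((LimT.iter_diff g.contDiff_lift _) _)
        (((LimT.contDiff_gQ g).differentiable (by norm_num)) _)]
      show fderiv ℝ (g.lift^[φ (ψ m)]) (gQ g (x (φ (ψ m))))
        (fderiv ℝ (gQ g) (x (φ (ψ m))) (Z m)) = _
      rw [LimT.fderiv_gQ, hZ, LimT.fderiv_lift_symm]
    refine hV4 (φ (ψ m) + 1) (by omega) (Z m) ?_ ?_
    · show fderiv ℝ (fun v => g.lift^[φ (ψ m) + 1 - 1] (gQ g v)) (x (φ (ψ m))) (Z m) 0 = 0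
      rw [h1]
      exact hW0 _
    · show fderiv ℝ (fun v => g.lift^[φ (ψ m) + 1 - 1] (gQ g v)) (x (φ (ψ m))) (Z m) 3 = 0
      rw [h1]
      exact hW3 _
  intro k
  have hc : Tendsto (fun m => fderiv ℝ ((gP g).symm^[k]) (x (φ (ψ m))) (Z m)) atTop
      (𝓝 (fderiv ℝ ((gP g).symm^[k]) v e)) :=
    ((LimT.cont_fderiv_iter (LimT.contDiff_gP_symm g) k).tendsto (v, e)).comp
      (hxlim.prodMk_nhds hZlim)
  have h1 := ((continuous_abs.comp (continuous_apply (2 : Fin 4))).tendsto _).comp hc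
  have h2 := (LimT.continuous_eN.tendsto _).comp hc
  refine le_of_tendsto_of_tendsto h1 h2 ?_
  filter_upwards [eventually_ge_atTop k] with m hm
  have h3 := hφn (ψ m)
  have h4 := hψn m
  exact LimT.back_cone F g hF hg (x (φ (ψ m))) (Z m) (φ (ψ m) + 1)
    (fun i hi => hV2 (φ (ψ m) + 1) (by omega) i hi) (hZker m) k (by omega)

end

end Pool.Agent.MP_6961e8
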