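import Pool.Agent.MP_6961e8.STEP

open Filter Topology

namespace Pool.Agent.MP_6961e8

namespace Trap

/-! ### two scalar cone lemmas -/

theorem no_growth {a B : ℝ} (ha : 0 < a) (h : ∀ k : ℕ, 2 ^ k * a ≤ B) : False := by
  obtain ⟨k, hk⟩ := pow_unbounded_of_one_lt (B / a) (one_lt_two : (1 : ℝ) < 2)
  have h1 := h k
  rw [div_lt_iff₀ ha] at hk
  linarith

theorem cone_forward (a b : ℕ → ℝ) (c1 c2 e B : ℝ) (hb : ∀ n, 0 ≤ b n)
    (hc1 : 2 + e ≤ c1) (hc2 : c2 + e ≤ 1 / 2) (hc20 : 0 ≤ c2)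
    (h1 : ∀ n, c1 * a n - e * max (a n) (b n) ≤ a (n + 1))
    (h2 : ∀ n, b (n + 1) ≤ c2 * b n + e * max (a n) (b n))
    (hB : ∀ n, a n ≤ B) (n : ℕ) : a n ≤ b n ∧ b (n + 1) ≤ b n / 2 := by
  have key : a n ≤ b n := by
    by_contra hcon
    push Not at hcon
    have hk : ∀ k, b (n + k) < a (n + k) ∧ 2 ^ k * a n ≤ a (n + k) := by
      intro k
      induction k with
      | zero => simpa using hcon
      | succ k ih =>
        obtain ⟨i1, i2⟩ := ih
        have hmax : max (a (n + k)) (b (n + k)) = a (n + k) := max_eq_left i1.le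
        have f1 := h1 (n + k)
        have f2 := h2 (n + k)
        rw [hmax] at f1 f2
        have pos : 0 < a (n + k) := lt_of_le_of_lt (hb _) i1
        have g1 : 2 * a (n + k) ≤ a (n + k + 1) := by nlinarith
        have g2 : b (n + k + 1) < a (n + k + 1) := by
          have : c2 * b (n + k) ≤ c2 * a (n + k) := mul_le_mul_of_nonneg_left i1.le hc20
          nlinarith
        refine ⟨g2, ?_⟩
        rw [pow_succ]
        show 2 ^ k * 2 * a n ≤ a (n + k + 1)
        linarith
    have pos : 0 < a n := lt_of_le_of_lt (hb n) hcon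
    exact no_growth pos (fun k => (hk k).2.trans (hB _))
  refine ⟨key, ?_⟩
  have f2 := h2 n
  rw [max_eq_right key] at f2
  nlinarith [hb n]

theorem cone_backward (a b : ℕ → ℝ) (c1 c2 e B : ℝ) (ha : ∀ n, 0 ≤ a n) (hb : ∀ n, 0 ≤ b n)
    (hc1 : 2 + e ≤ c1) (hc2 : c2 + e ≤ 1 / 2) (hc20 : 0 ≤ c2)
    (h1 : ∀ n, c1 * a (n + 1) - e * max (a (n + 1)) (b (n + 1)) ≤ a n)
    (h2 : ∀ n, b n ≤ c2 * b (n + 1) + e * max (a (n + 1)) (b (n + 1)))
    (hB : ∀ n, b n ≤ B) (n : ℕ) : b n ≤ a n ∧ a (n + 1) ≤ a n / 2 := by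
  have key : ∀ n, b n ≤ a n := by
    intro n
    by_contra hcon
    push Not at hcon
    have hk : ∀ k, a (n + k) < b (n + k) ∧ 2 ^ k * b n ≤ b (n + k) := by
      intro k
      induction k with
      | zero => simpa using hcon
      | succ k ih =>
        obtain ⟨i1, i2⟩ := ih
        have f1 := h1 (n + k)
        have f2 := h2 (n + k)
        have pos : 0 < b (n + k) := lt_of_le_of_lt (ha _) i1
        have g0 : a (n + k + 1) < b (n + k + 1) := by
          by_contra hc
          push Not at hc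
          rw [max_eq_left hc] at f1 f2
          have : c2 * b (n + k + 1) ≤ c2 * a (n + k + 1) := mul_le_mul_of_nonneg_left hc hc20
          have ha' := ha (n + k + 1)
          nlinarith
        rw [max_eq_right g0.le] at f2
        have g1 : 2 * b (n + k) ≤ b (n + k + 1) := by
          have := hb (n + k + 1)
          nlinarith
        refine ⟨g0, ?_⟩
        rw [pow_succ]
        show 2 ^ k * 2 * b n ≤ b (n + k + 1)
        linarith
    have pos : 0 < b n := lt_of_le_of_lt (ha n) hcon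
    exact no_growth pos (fun k => (hk k).2.trans (hB _))
  refine ⟨key n, ?_⟩
  have f1 := h1 n
  rw [max_eq_left (key (n + 1))] at f1
  nlinarith [ha (n + 1)]

theorem halving_tendsto (b : ℕ → ℝ) (hb : ∀ n, 0 ≤ b n) (h : ∀ n, b (n + 1) ≤ b n / 2) :
    Tendsto b atTop (𝓝 0) := by
  have h1 : ∀ n, b n ≤ (1 / 2 : ℝ) ^ n * b 0 := by
    intro n
    induction n with
    | zero => simp
    | succ n ih =>
      have := h n
      rw [pow_succ]
      linarith
  refine squeeze_zero hb h1 ?_
  have : Tendsto (fun n : ℕ => (1 / 2 : ℝ) ^ n) atTop (𝓝 0) :=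
    tendsto_pow_atTop_nhds_zero_of_lt_one (by norm_num) (by norm_num)
  simpa using this.mul_const (b 0)

/-- A sequence with `|t (n+1) - c t n| ≤ e` shadows `c ^ n X`. -/
theorem leaf (t : ℕ → ℝ) (c e : ℝ) (hc : 2 ≤ c) (he : 0 ≤ e)
    (h : ∀ n, |t (n + 1) - c * t n| ≤ e) : ∃ X : ℝ, ∀ n, |t n - c ^ n * X| ≤ e := by
  have hc0 : 0 < c := by linarith
  let a : ℕ → ℝ := fun n => t n / c ^ n
  have hstep : ∀ n, |a (n + 1) - a n| ≤ e / c ^ (n + 1) := by
    intro n
    have : a (n + 1) - a n = (t (n + 1) - c * t n) / c ^ (n + 1) := by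
      simp only [a]
      field_simp
      ring
    rw [this, abs_div, abs_of_pos (pow_pos hc0 (n + 1))]
    exact div_le_div_of_nonneg_right (h n) (pow_pos hc0 _).le
  have hcmp : ∀ n m, |a (n + m) - a n| ≤ e / c ^ n * (1 - 1 / 2 ^ m) := by
    intro n m
    induction m with
    | zero => simp
    | succ m ih =>
      have h1 := hstep (n + m)
      have h2 : e / c ^ (n + m + 1) ≤ e / c ^ n * (1 / 2 ^ (m + 1)) := by
        rw [show n + m + 1 = n + (m + 1) by ring, pow_add, div_mul_div_comm, mul_one]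
        apply div_le_div_of_nonneg_left he (by positivity)
        apply mul_le_mul_of_nonneg_left _ (by positivity)
        exact pow_le_pow_left₀ (by norm_num) hc _
      have h3 : |a (n + (m + 1)) - a n| ≤ |a (n + m + 1) - a (n + m)| + |a (n + m) - a n| := by
        have := abs_sub_le (a (n + m + 1)) (a (n + m)) (a n)
        simpa [add_assoc] using this
      have h4 : e / c ^ n * (1 - 1 / 2 ^ (m + 1)) = e / c ^ n * (1 - 1 / 2 ^ m) + e / c ^ n * (1 / 2 ^ (m + 1)) := by
        rw [pow_succ]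
        field_simp
        ring
      rw [h4]
      linarith
  have hcau : CauchySeq a := by
    apply cauchySeq_of_le_geometric (1 / 2) e (by norm_num)
    intro n
    rw [dist_comm, Real.dist_eq]
    refine (hstep n).trans ?_
    rw [div_eq_mul_inv, one_div, inv_pow]
    apply mul_le_mul_of_nonneg_left _ he
    apply inv_anti₀ (by positivity)
    calc (2 : ℝ) ^ n ≤ c ^ n := pow_le_pow_left₀ (by norm_num) hc _
      _ ≤ c ^ (n + 1) := pow_le_pow_right₀ (by linarith) (by omega)
  obtain ⟨X, hX⟩ := cauchySeq_tendsto_of_complete hcau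
  refine ⟨X, fun n => ?_⟩
  have hlim : Tendsto (fun m => |a (n + m) - a n|) atTop (𝓝 |X - a n|) := by
    have h1 : Tendsto (fun m => a (n + m)) atTop (𝓝 X) := by
      have := (tendsto_add_atTop_iff_nat (f := a) n).2 hX
      simpa [add_comm] using this
    exact (h1.sub_const _).abs
  have hle : |X - a n| ≤ e / c ^ n := by
    refine le_of_tendsto hlim (Eventually.of_forall fun m => (hcmp n m).trans ?_)
    have h0 : 0 ≤ e / c ^ n := by positivity
    have h1 : (0 : ℝ) ≤ 1 / 2 ^ m := by positivity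
    nlinarith
  have heq : t n - c ^ n * X = - (c ^ n * (X - a n)) := by
    simp only [a]
    field_simp
    ring
  rw [heq, abs_neg, abs_mul, abs_of_pos (pow_pos hc0 n)]
  calc c ^ n * |X - a n| ≤ c ^ n * (e / c ^ n) := by gcongr
    _ = e := by field_simp


/-! ### the norm of a vector of `E4` -/

theorem norm_four (d : E4) : ‖d‖ = max (max |d 0| |d 3|) (max |d 1| |d 2|) := by
  apply le_antisymm
  · rw [pi_norm_le_iff_of_nonneg (by positivity)]
    intro i
    fin_cases i <;> simp [Real.norm_eq_abs]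
  · have h := fun i => norm_le_pi_norm d i
    simp only [Real.norm_eq_abs] at h
    simp [h]

theorem coord_le (d : E4) (i : Fin 4) : |d i| ≤ ‖d‖ := by
  simpa [Real.norm_eq_abs] using norm_le_pi_norm d i

theorem one_le_lam2 : 1 ≤ lam ^ 2 := by
  have := lam_bounds
  nlinarith

theorem lam2_le : lam ^ 2 ≤ 7 := by
  have := lam_bounds
  nlinarith

theorem norm_eN (d : E4) : ‖d‖ ≤ max (eN d) |d 2| := by
  rw [pi_norm_le_iff_of_nonneg (le_max_of_le_right (abs_nonneg _))]
  intro i
  rw [Real.norm_eq_abs]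
  fin_cases i
  · exact le_max_of_le_left (le_max_left _ _)
  · refine le_max_of_le_left (le_max_of_le_right (le_max_of_le_left ?_))
    have := one_le_lam2
    have h := abs_nonneg (d 1)
    show |d 1| ≤ lam ^ 2 * |d 1|
    nlinarith
  · exact le_max_right _ _
  · exact le_max_of_le_left (le_max_of_le_right (le_max_right _ _))

theorem eN_nonneg (d : E4) : 0 ≤ eN d := le_max_of_le_left (abs_nonneg _)

theorem eN_le (d : E4) : eN d ≤ 7 * ‖d‖ := by
  have h0 := norm_nonneg d
  have h1 := lam2_le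
  refine max_le ((coord_le d 0).trans (by linarith)) (max_le ?_ ((coord_le d 3).trans (by linarith)))
  have h2 := coord_le d 1
  have h3 := abs_nonneg (d 1)
  calc lam ^ 2 * |d 1| ≤ 7 * |d 1| := by nlinarith
    _ ≤ 7 * ‖d‖ := by linarith

theorem eN_add (d e : E4) : eN (d + e) ≤ eN d + eN e := by
  refine max_le ?_ (max_le ?_ ?_)
  · exact (abs_add_le _ _).trans (add_le_add (le_max_left _ _) (le_max_left _ _))
  · have h1 : lam ^ 2 * |(d + e) 1| ≤ lam ^ 2 * |d 1| + lam ^ 2 * |e 1| := by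
      rw [← mul_add]
      exact mul_le_mul_of_nonneg_left (abs_add_le _ _) (by linarith [one_le_lam2])
    exact h1.trans (add_le_add (le_max_of_le_right (le_max_left _ _))
      (le_max_of_le_right (le_max_left _ _)))
  · exact (abs_add_le _ _).trans (add_le_add (le_max_of_le_right (le_max_right _ _))
      (le_max_of_le_right (le_max_right _ _)))

theorem LMJJ_apply (d : E4) : LM (JJ d) = ![lam * d 0, -(1 / lam) * d 3, 1 / Lam * d 2, Lam * d 1] := by
  ext i
  rw [LM_apply, JJ_apply]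
  fin_cases i <;> simp [dg]

theorem eN_LMJJ (d : E4) : eN (LM (JJ d)) = lam * eN d := by
  have hl : 0 < lam := by have := lam_bounds; linarith
  rw [LMJJ_apply]
  unfold eN
  simp only [Matrix.cons_val_zero, Matrix.cons_val_one, Matrix.cons_val]
  rw [mul_max_of_nonneg _ _ hl.le, mul_max_of_nonneg _ _ hl.le, Lam_eq, abs_mul, abs_mul, abs_mul,
    abs_neg, abs_of_pos hl, abs_of_pos (pow_pos hl 3), abs_of_pos (by positivity : 0 < 1 / lam)]
  have h1 : lam ^ 2 * (1 / lam * |d 3|) = lam * |d 3| := by field_simp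
  have h2 : lam ^ 3 * |d 1| = lam * (lam ^ 2 * |d 1|) := by ring
  rw [h1, h2, max_comm (lam * |d 3|)]

/-- the basic cone step in the chart at `PP` -/
theorem stepP' {d d' : E4} (h : ‖d' - LM (JJ d)‖ ≤ dl * ‖d‖) :
    lam * eN d - 7 * dl * max (eN d) |d 2| ≤ eN d' ∧
    |d' 2| ≤ 1 / Lam * |d 2| + 7 * dl * max (eN d) |d 2| := by
  have hdl : 0 < dl := by unfold dl; norm_num
  have hn := norm_eN d
  have hm : dl * ‖d‖ ≤ dl * max (eN d) |d 2| := mul_le_mul_of_nonneg_left hn hdl.le
  have hm0 : 0 ≤ max (eN d) |d 2| := le_max_of_le_right (abs_nonneg _)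
  constructor
  · have h1 : eN (LM (JJ d)) ≤ eN d' + eN (LM (JJ d) - d') := by
      have := eN_add d' (LM (JJ d) - d')
      simpa using this
    have h2 := eN_le (LM (JJ d) - d')
    rw [norm_sub_rev] at h2
    rw [eN_LMJJ] at h1
    linarith
  · have h1 := (coord_le (d' - LM (JJ d)) 2).trans h
    have h2 : LM (JJ d) 2 = 1 / Lam * d 2 := by rw [LMJJ_apply]; rfl
    rw [Pi.sub_apply, h2] at h1
    have hL : 0 < 1 / Lam := by have := Lam_bounds; exact one_div_pos.2 (by linarith)
    have h3 : |d' 2| ≤ |d' 2 - 1 / Lam * d 2| + |1 / Lam * d 2| := by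
      have := abs_add_le (d' 2 - 1 / Lam * d 2) (1 / Lam * d 2)
      simpa using this
    rw [abs_mul, abs_of_pos hL] at h3
    nlinarith

/-- the basic cone step near the invariant torus -/
theorem stepU' {d d' : E4} (h : ∀ i, |d' i - dg i * d i| ≤ dl * ‖d‖) :
    lam * max |d 0| |d 3| - dl * max (max |d 0| |d 3|) (max |d 1| |d 2|) ≤ max |d' 0| |d' 3| ∧
    max |d' 1| |d' 2| ≤ 1 / lam * max |d 1| |d 2| +
      dl * max (max |d 0| |d 3|) (max |d 1| |d 2|) := by
  have hl := lam_bounds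
  have hL := Lam_bounds
  have hl0 : 0 < lam := by linarith
  have hL0 : 0 < Lam := by linarith
  rw [norm_four] at h
  set M := max (max |d 0| |d 3|) (max |d 1| |d 2|)
  have h0 := h 0
  have h1 := h 1
  have h2 := h 2
  have h3 := h 3
  have e0 : dg 0 = lam := rfl
  have e1 : dg 1 = 1 / lam := rfl
  have e2 : dg 2 = 1 / Lam := rfl
  have e3 : dg 3 = Lam := rfl
  rw [e0] at h0
  rw [e1] at h1
  rw [e2] at h2
  rw [e3] at h3
  have a0 : lam * |d 0| ≤ |d' 0| + dl * M := by
    have : |lam * d 0| ≤ |d' 0| + |d' 0 - lam * d 0| := by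
      have := abs_sub (d' 0) (d' 0 - lam * d 0)
      simpa using this
    rw [abs_mul, abs_of_pos hl0] at this
    linarith
  have a3 : Lam * |d 3| ≤ |d' 3| + dl * M := by
    have : |Lam * d 3| ≤ |d' 3| + |d' 3 - Lam * d 3| := by
      have := abs_sub (d' 3) (d' 3 - Lam * d 3)
      simpa using this
    rw [abs_mul, abs_of_pos hL0] at this
    linarith
  have a1 : |d' 1| ≤ 1 / lam * |d 1| + dl * M := by
    have : |d' 1| ≤ |d' 1 - 1 / lam * d 1| + |1 / lam * d 1| := by
      have := abs_add_le (d' 1 - 1 / lam * d 1) (1 / lam * d 1)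
      simpa using this
    rw [abs_mul, abs_of_pos (one_div_pos.2 hl0)] at this
    linarith
  have a2 : |d' 2| ≤ 1 / Lam * |d 2| + dl * M := by
    have : |d' 2| ≤ |d' 2 - 1 / Lam * d 2| + |1 / Lam * d 2| := by
      have := abs_add_le (d' 2 - 1 / Lam * d 2) (1 / Lam * d 2)
      simpa using this
    rw [abs_mul, abs_of_pos (one_div_pos.2 hL0)] at this
    linarith
  constructor
  · rw [mul_max_of_nonneg _ _ hl0.le, sub_le_iff_le_add]
    refine max_le ?_ ?_
    · have := le_max_left |d' 0| |d' 3|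
      linarith
    · have := le_max_right |d' 0| |d' 3|
      have h5 : lam * |d 3| ≤ Lam * |d 3| := mul_le_mul_of_nonneg_right (by linarith) (abs_nonneg _)
      linarith
  · refine max_le ?_ ?_
    · have : 1 / lam * |d 1| ≤ 1 / lam * max |d 1| |d 2| :=
        mul_le_mul_of_nonneg_left (le_max_left _ _) (by positivity)
      linarith
    · have h5 : 1 / Lam ≤ 1 / lam := one_div_le_one_div_of_le hl0 (by linarith)
      have h6 : 1 / Lam * |d 2| ≤ 1 / lam * |d 2| := mul_le_mul_of_nonneg_right h5 (abs_nonneg _)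
      have : 1 / lam * |d 2| ≤ 1 / lam * max |d 1| |d 2| :=
        mul_le_mul_of_nonneg_left (le_max_right _ _) (by positivity)
      linarith

theorem dl_num : 2 + 7 * dl ≤ lam ∧ 1 / lam + 7 * dl ≤ 1 / 2 ∧ 1 / Lam + 7 * dl ≤ 1 / 2 ∧
    2 + dl ≤ lam ∧ 1 / lam + dl ≤ 1 / 2 := by
  have hl := lam_bounds
  have hL := Lam_bounds
  have h1 : 1 / lam ≤ 1 / 2.618 := one_div_le_one_div_of_le (by norm_num) hl.1.le
  have h2 : 1 / Lam ≤ 1 / 17.944 := one_div_le_one_div_of_le (by norm_num) hL.1.le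
  unfold dl
  refine ⟨by linarith, ?_, ?_, by linarith, ?_⟩
  · refine (add_le_add_left h1 _).trans (by norm_num)
  · refine (add_le_add_left h2 _).trans (by norm_num)
  · refine (add_le_add_left h1 _).trans (by norm_num)


theorem dist_mk_le (a b : E4) : dist (a : E4 ⧸ LL) (b : E4 ⧸ LL) ≤ ‖a - b‖ := by
  rw [dist_eq_norm, ← QuotientAddGroup.mk_sub]
  exact QuotientAddGroup.norm_mk_le_norm

theorem map_mk (g : TorusDiffeo LL) (p : E4) : g.map (p : E4 ⧸ LL) = ((g.lift p : E4) : E4 ⧸ LL) := rfl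

theorem map_symm_mk (g : TorusDiffeo LL) (p : E4) :
    g.map.symm (p : E4 ⧸ LL) = ((g.lift.symm p : E4) : E4 ⧸ LL) := rfl

theorem mk_lift' (g : TorusDiffeo LL) (n : ℕ) (p : E4) :
    g.map^[n] (p : E4 ⧸ LL) = ((g.lift^[n] p : E4) : E4 ⧸ LL) := by
  induction n with
  | zero => rfl
  | succ n ih => rw [Function.iterate_succ_apply', Function.iterate_succ_apply', ih, map_mk]

theorem mk_lift_symm' (g : TorusDiffeo LL) (n : ℕ) (p : E4) :
    g.map.symm^[n] (p : E4 ⧸ LL) = ((g.lift.symm^[n] p : E4) : E4 ⧸ LL) := by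
  induction n with
  | zero => rfl
  | succ n ih => rw [Function.iterate_succ_apply', Function.iterate_succ_apply', ih, map_symm_mk]

theorem mk_add_lP (p : E4) : ((p + lP : E4) : E4 ⧸ LL) = (p : E4 ⧸ LL) := by
  rw [QuotientAddGroup.mk_add, (QuotientAddGroup.eq_zero_iff lP).2 lP_mem, add_zero]

theorem mk_gP' (g : TorusDiffeo LL) (n : ℕ) (v : E4) :
    g.map^[n] ((PP + v : E4) : E4 ⧸ LL) = ((PP + (gP g)^[n] v : E4) : E4 ⧸ LL) := by
  induction n with
  | zero => rfl
  | succ n ih =>
    rw [Function.iterate_succ_apply', Function.iterate_succ_apply', ih, map_mk,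
      ← mk_add_lP (PP + gP g ((gP g)^[n] v))]
    congr 1
    show g.lift (PP + (gP g)^[n] v) = PP + (g.lift (PP + (gP g)^[n] v) - PP - lP) + lP
    abel

theorem mk_gP_symm' (g : TorusDiffeo LL) (n : ℕ) (v : E4) :
    g.map.symm^[n] ((PP + v : E4) : E4 ⧸ LL) = ((PP + (gP g).symm^[n] v : E4) : E4 ⧸ LL) := by
  induction n with
  | zero => rfl
  | succ n ih =>
    rw [Function.iterate_succ_apply', Function.iterate_succ_apply', ih,
      ← mk_add_lP (PP + (gP g).symm^[n] v), map_symm_mk]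
    congr 1
    show g.lift.symm (PP + (gP g).symm^[n] v + lP) =
      PP + (g.lift.symm ((gP g).symm^[n] v + PP + lP) - PP)
    rw [add_comm PP ((gP g).symm^[n] v)]
    abel

theorem norm_BP {v : E4} (hv : v ∈ BP) : ‖v‖ ≤ 1 / 20 := by
  obtain ⟨h0, h1, h2, h3⟩ := hv
  rw [norm_four]
  have := one_le_lam2
  have h4 := abs_nonneg (v 1)
  refine max_le (max_le h0 h3) (max_le ?_ h2)
  nlinarith

theorem mem_BP {w : E4} (hw : ‖w‖ ≤ 1 / 1000) : w ∈ BP := by
  have h := fun i => (coord_le w i).trans hw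
  have h0 := h 0
  have h1 := h 1
  have h2 := h 2
  have h3 := h 3
  have := lam2_le
  have h4 := abs_nonneg (w 1)
  refine ⟨by linarith, ?_, by linarith, by linarith⟩
  nlinarith

end Trap

section
variable (F g : TorusDiffeo LL) (hF : IsModel F) (hg : C1Close dl F g)
include hF hg

open Trap

theorem trap_U0_forward (h : ℝ × ℝ → E4) (hh : IsCont g h) (q : E4)
    (hq : ∀ n : ℕ, g.lift^[n] q ∈ U0) : (q : E4 ⧸ LL) ∈ stableSet g (Kset h) := by
  have hdl : 0 < dl := by unfold dl; norm_num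
  have hl := lam_bounds
  have hl0 : 0 < lam := by linarith
  obtain ⟨n1, n2, n3, n4, n5⟩ := dl_num
  obtain ⟨X, hX⟩ := leaf (fun n => (g.lift^[n] q) 0) lam dl (by linarith) hdl.le (fun n => by
      have := approxU0 F g hF hg (g.lift^[n] q) (hq n) 0
      rw [← Function.iterate_succ_apply' g.lift n q] at this
      exact this)
  have hp : ∀ n, g.lift^[n] (h (X, 0)) = h (lam ^ n * X, 0) := by
    intro n
    induction n with
    | zero => simp
    | succ n ih =>
      rw [Function.iterate_succ_apply', ih, hh.conj]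
      congr 1
      ext
      · show lam * (lam ^ n * X) = lam ^ (n + 1) * X
        ring
      · simp
  have hcl : ∀ n i, |g.lift^[n] (h (X, 0)) i - h0 (lam ^ n * X, 0) i| ≤ 1 / 1000 := by
    intro n i
    rw [hp]
    have := coord_le (h (lam ^ n * X, 0) - h0 (lam ^ n * X, 0)) i
    exact this.trans (hh.close _)
  have hpU : ∀ n, g.lift^[n] (h (X, 0)) ∈ U0 := by
    intro n
    have h2 := hcl n 2
    have h3 := hcl n 3
    simp only [h0, Matrix.cons_val, sub_zero] at h2 h3
    exact ⟨by linarith, by linarith⟩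
  set d : ℕ → E4 := fun n => g.lift^[n] q - g.lift^[n] (h (X, 0)) with hd_def
  have hd : ∀ n i, |d (n + 1) i - dg i * d n i| ≤ dl * ‖d n‖ := by
    intro n i
    have := stepU0 F g hF hg _ _ (hq n) (hpU n) i
    simp only [hd_def, Function.iterate_succ_apply', Pi.sub_apply]
    exact this
  have hc := cone_forward (fun n => max |d n 0| |d n 3|) (fun n => max |d n 1| |d n 2|)
    lam (1 / lam) dl 1 (fun n => le_max_of_le_left (abs_nonneg _)) n4 n5 (by positivity)
    (fun n => (stepU' (hd n)).1) (fun n => (stepU' (hd n)).2) (by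
      intro n
      have h0' := hcl n 0
      have h3 := hcl n 3
      have hXn := hX n
      have hq3 := (hq n).2
      simp only [h0, Matrix.cons_val, Matrix.cons_val_zero, sub_zero] at h0' h3
      refine max_le ?_ ?_
      · have : |d n 0| ≤ |g.lift^[n] q 0 - lam ^ n * X| + |g.lift^[n] (h (X, 0)) 0 - lam ^ n * X| := by
          have := abs_sub (g.lift^[n] q 0 - lam ^ n * X) (g.lift^[n] (h (X, 0)) 0 - lam ^ n * X)
          simpa [hd_def] using this
        unfold dl at hXn
        linarith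
      · have : |d n 3| ≤ |g.lift^[n] q 3| + |g.lift^[n] (h (X, 0)) 3| := abs_sub _ _
        linarith)
  have hb : Tendsto (fun n => max |d n 1| |d n 2|) atTop (𝓝 0) :=
    halving_tendsto _ (fun n => le_max_of_le_left (abs_nonneg _)) (fun n => (hc n).2)
  refine ⟨(h (X, 0) : E4 ⧸ LL), ⟨_, rfl⟩, ?_⟩
  refine squeeze_zero (fun n => dist_nonneg) (fun n => ?_) hb
  rw [mk_lift', mk_lift']
  refine (dist_mk_le _ _).trans ?_
  have : ‖d n‖ = max (max |d n 0| |d n 3|) (max |d n 1| |d n 2|) := norm_four _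
  rw [show g.lift^[n] q - g.lift^[n] (h (X, 0)) = d n from rfl, this]
  exact max_le (hc n).1 le_rfl


theorem trap_U0_backward (h : ℝ × ℝ → E4) (hh : IsCont g h) (q : E4)
    (hq : ∀ n : ℕ, g.lift.symm^[n] q ∈ U0) : (q : E4 ⧸ LL) ∈ unstableSet g (Kset h) := by
  have hdl : 0 < dl := by unfold dl; norm_num
  have hl := lam_bounds
  have hl0 : 0 < lam := by linarith
  obtain ⟨n1, n2, n3, n4, n5⟩ := dl_num
  have hstep : ∀ n, g.lift (g.lift.symm^[n + 1] q) = g.lift.symm^[n] q := by
    intro n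
    rw [Function.iterate_succ_apply', Equiv.apply_symm_apply]
  obtain ⟨Y, hY⟩ := leaf (fun n => (g.lift.symm^[n] q) 1) lam (3 * dl) (by linarith) (by linarith)
    (fun n => by
      have := approxU0 F g hF hg (g.lift.symm^[n + 1] q) (hq (n + 1)) 1
      rw [hstep] at this
      have e1 : dg 1 = 1 / lam := rfl
      rw [e1] at this
      have h2 : (g.lift.symm^[n + 1] q) 1 - lam * (g.lift.symm^[n] q) 1 =
        -(lam * ((g.lift.symm^[n] q) 1 - 1 / lam * (g.lift.symm^[n + 1] q) 1)) := by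
        field_simp
        ring
      show |(g.lift.symm^[n + 1] q) 1 - lam * (g.lift.symm^[n] q) 1| ≤ 3 * dl
      rw [h2, abs_neg, abs_mul, abs_of_pos hl0]
      nlinarith)
  have hp : ∀ n, g.lift.symm^[n] (h (0, Y)) = h (0, lam ^ n * Y) := by
    intro n
    induction n with
    | zero => simp
    | succ n ih =>
      rw [Function.iterate_succ_apply', ih, Equiv.symm_apply_eq, hh.conj]
      congr 1
      ext
      · simp
      · show lam ^ n * Y = lam ^ (n + 1) * Y / lam
        field_simp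
        ring
  have hcl : ∀ n i, |g.lift.symm^[n] (h (0, Y)) i - h0 (0, lam ^ n * Y) i| ≤ 1 / 1000 := by
    intro n i
    rw [hp]
    have := coord_le (h (0, lam ^ n * Y) - h0 (0, lam ^ n * Y)) i
    exact this.trans (hh.close _)
  have hpU : ∀ n, g.lift.symm^[n] (h (0, Y)) ∈ U0 := by
    intro n
    have h2 := hcl n 2
    have h3 := hcl n 3
    simp only [h0, Matrix.cons_val, sub_zero] at h2 h3
    exact ⟨by linarith, by linarith⟩
  have hstep' : ∀ n, g.lift (g.lift.symm^[n + 1] (h (0, Y))) = g.lift.symm^[n] (h (0, Y)) := by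
    intro n
    rw [Function.iterate_succ_apply', Equiv.apply_symm_apply]
  set d : ℕ → E4 := fun n => g.lift.symm^[n] q - g.lift.symm^[n] (h (0, Y)) with hd_def
  have hd : ∀ n i, |d n i - dg i * d (n + 1) i| ≤ dl * ‖d (n + 1)‖ := by
    intro n i
    have := stepU0 F g hF hg _ _ (hq (n + 1)) (hpU (n + 1)) i
    rw [hstep, hstep'] at this
    exact this
  have hc := cone_backward (fun n => max |d n 0| |d n 3|) (fun n => max |d n 1| |d n 2|)
    lam (1 / lam) dl 1 (fun n => le_max_of_le_left (abs_nonneg _))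
    (fun n => le_max_of_le_left (abs_nonneg _)) n4 n5 (by positivity)
    (fun n => (stepU' (hd n)).1) (fun n => (stepU' (hd n)).2) (by
      intro n
      have h1' := hcl n 1
      have h2 := hcl n 2
      have hYn := hY n
      have hq2 := (hq n).1
      simp only [h0, Matrix.cons_val, Matrix.cons_val_one, sub_zero] at h1' h2
      refine max_le ?_ ?_
      · have : |d n 1| ≤ |g.lift.symm^[n] q 1 - lam ^ n * Y| +
            |g.lift.symm^[n] (h (0, Y)) 1 - lam ^ n * Y| := by
          have := abs_sub (g.lift.symm^[n] q 1 - lam ^ n * Y)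
            (g.lift.symm^[n] (h (0, Y)) 1 - lam ^ n * Y)
          simpa [hd_def] using this
        unfold dl at hYn
        linarith
      · have : |d n 2| ≤ |g.lift.symm^[n] q 2| + |g.lift.symm^[n] (h (0, Y)) 2| := abs_sub _ _
        linarith)
  have hb : Tendsto (fun n => max |d n 0| |d n 3|) atTop (𝓝 0) :=
    halving_tendsto _ (fun n => le_max_of_le_left (abs_nonneg _)) (fun n => (hc n).2)
  refine ⟨(h (0, Y) : E4 ⧸ LL), ⟨_, rfl⟩, ?_⟩
  refine squeeze_zero (fun n => dist_nonneg) (fun n => ?_) hb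
  rw [mk_lift_symm', mk_lift_symm']
  refine (dist_mk_le _ _).trans ?_
  have : ‖d n‖ = max (max |d n 0| |d n 3|) (max |d n 1| |d n 2|) := norm_four _
  rw [show g.lift.symm^[n] q - g.lift.symm^[n] (h (0, Y)) = d n from rfl, this]
  exact max_le le_rfl (hc n).1

theorem trap_P_forward (w : E4) (hw : gP g w = w) (hw' : ‖w‖ ≤ 1 / 1000) (v : E4)
    (hv : ∀ n : ℕ, (gP g)^[n] v ∈ BP) :
    ((PP + v : E4) : E4 ⧸ LL) ∈ stableSet g {((PP + w : E4) : E4 ⧸ LL)} := by
  obtain ⟨n1, n2, n3, n4, n5⟩ := dl_num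
  have hL := Lam_bounds
  have hL0 : 0 < 1 / Lam := one_div_pos.2 (by linarith)
  have hwB := mem_BP hw'
  set d : ℕ → E4 := fun n => (gP g)^[n] v - w with hd_def
  have hd : ∀ n, ‖d (n + 1) - LM (JJ (d n))‖ ≤ dl * ‖d n‖ := by
    intro n
    have := stepP F g hF hg _ _ (hv n) hwB
    rw [hw] at this
    simp only [hd_def, Function.iterate_succ_apply']
    exact this
  have hc := cone_forward (fun n => eN (d n)) (fun n => |d n 2|)
    lam (1 / Lam) (7 * dl) 7 (fun n => abs_nonneg _) n1 n3 hL0.le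
    (fun n => (stepP' (hd n)).1) (fun n => (stepP' (hd n)).2) (by
      intro n
      have h1 := eN_le (d n)
      have h2 : ‖d n‖ ≤ ‖(gP g)^[n] v‖ + ‖w‖ := norm_sub_le _ _
      have h3 := norm_BP (hv n)
      linarith)
  have hb : Tendsto (fun n => |d n 2|) atTop (𝓝 0) :=
    halving_tendsto _ (fun n => abs_nonneg _) (fun n => (hc n).2)
  refine ⟨((PP + w : E4) : E4 ⧸ LL), rfl, ?_⟩
  refine squeeze_zero (fun n => dist_nonneg) (fun n => ?_) hb
  rw [mk_gP', mk_gP', Function.iterate_fixed hw n]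
  refine (dist_mk_le _ _).trans ?_
  rw [show PP + (gP g)^[n] v - (PP + w) = d n by simp [hd_def]]
  exact (norm_eN _).trans (max_le (hc n).1 le_rfl)

theorem trap_P_backward (w : E4) (hw : gP g w = w) (hw' : ‖w‖ ≤ 1 / 1000) (v : E4)
    (hv : ∀ n : ℕ, (gP g).symm^[n] v ∈ BP) :
    ((PP + v : E4) : E4 ⧸ LL) ∈ unstableSet g {((PP + w : E4) : E4 ⧸ LL)} := by
  obtain ⟨n1, n2, n3, n4, n5⟩ := dl_num
  have hL := Lam_bounds
  have hL0 : 0 < 1 / Lam := one_div_pos.2 (by linarith)
  have hwB := mem_BP hw'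
  have hws : (gP g).symm w = w := by rw [Equiv.symm_apply_eq, hw]
  have hstep : ∀ n, gP g ((gP g).symm^[n + 1] v) = (gP g).symm^[n] v := by
    intro n
    rw [Function.iterate_succ_apply', Equiv.apply_symm_apply]
  set d : ℕ → E4 := fun n => (gP g).symm^[n] v - w with hd_def
  have hd : ∀ n, ‖d n - LM (JJ (d (n + 1)))‖ ≤ dl * ‖d (n + 1)‖ := by
    intro n
    have := stepP F g hF hg _ _ (hv (n + 1)) hwB
    rw [hw, hstep] at this
    exact this
  have hc := cone_backward (fun n => eN (d n)) (fun n => |d n 2|)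
    lam (1 / Lam) (7 * dl) 7 (fun n => eN_nonneg _) (fun n => abs_nonneg _) n1 n3 hL0.le
    (fun n => (stepP' (hd n)).1) (fun n => (stepP' (hd n)).2) (by
      intro n
      have h1 := coord_le (d n) 2
      have h2 : ‖d n‖ ≤ ‖(gP g).symm^[n] v‖ + ‖w‖ := norm_sub_le _ _
      have h3 := norm_BP (hv n)
      linarith)
  have hb : Tendsto (fun n => eN (d n)) atTop (𝓝 0) :=
    halving_tendsto _ (fun n => eN_nonneg _) (fun n => (hc n).2)
  refine ⟨((PP + w : E4) : E4 ⧸ LL), rfl, ?_⟩
  refine squeeze_zero (fun n => dist_nonneg) (fun n => ?_) hb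
  rw [mk_gP_symm', mk_gP_symm', Function.iterate_fixed hws n]
  refine (dist_mk_le _ _).trans ?_
  rw [show PP + (gP g).symm^[n] v - (PP + w) = d n by simp [hd_def]]
  exact (norm_eN _).trans (max_le le_rfl (hc n).1)

omit hF hg in
theorem stableSet_map_iff_aux (K : Set (E4 ⧸ LL)) (a : E4 ⧸ LL) (hK : g.map '' K = K) :
    g.map a ∈ stableSet g K ↔ a ∈ stableSet g K := by
  constructor
  · rintro ⟨z, hz, hlim⟩
    rw [← hK] at hz
    obtain ⟨z', hz', rfl⟩ := hz
    refine ⟨z', hz', ?_⟩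
    rw [← tendsto_add_atTop_iff_nat 1]
    exact hlim
  · rintro ⟨z, hz, hlim⟩
    refine ⟨g.map z, hK ▸ ⟨z, hz, rfl⟩, ?_⟩
    rw [← tendsto_add_atTop_iff_nat 1] at hlim
    exact hlim

/-- the stable and unstable sets are invariant -/
theorem stableSet_map_iff (K : Set (E4 ⧸ LL)) (a : E4 ⧸ LL) (hK : g.map '' K = K) :
    g.map a ∈ stableSet g K ↔ a ∈ stableSet g K := stableSet_map_iff_aux g K a hK

omit hF hg in
theorem unstableSet_map_iff_aux (K : Set (E4 ⧸ LL)) (a : E4 ⧸ LL) (hK : g.map '' K = K) :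
    g.map a ∈ unstableSet g K ↔ a ∈ unstableSet g K := by
  have hs : ∀ (n : ℕ) (x : E4 ⧸ LL), g.map.symm^[n + 1] (g.map x) = g.map.symm^[n] x := by
    intro n x
    rw [Function.iterate_succ_apply, Equiv.symm_apply_apply]
  constructor
  · rintro ⟨z, hz, hlim⟩
    have hz' := hz
    rw [← hK] at hz'
    obtain ⟨z', hz', rfl⟩ := hz'
    refine ⟨z', hz', ?_⟩
    rw [← tendsto_add_atTop_iff_nat 1] at hlim
    simpa only [hs] using hlim
  · rintro ⟨z, hz, hlim⟩
    refine ⟨g.map z, hK ▸ ⟨z, hz, rfl⟩, ?_⟩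
    rw [← tendsto_add_atTop_iff_nat 1]
    simpa only [hs] using hlim

theorem unstableSet_map_iff (K : Set (E4 ⧸ LL)) (a : E4 ⧸ LL) (hK : g.map '' K = K) :
    g.map a ∈ unstableSet g K ↔ a ∈ unstableSet g K := unstableSet_map_iff_aux g K a hK

end

end Pool.Agent.MP_6961e8
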