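import Pool.Agent.MP_6961e8.NUM

open Filter Topology

namespace Pool.Agent.MP_6961e8

theorem aP_contDiff : ContDiff ℝ 1 aP := by
  unfold aP
  refine contDiff_const.mul (Real.smoothTransition.contDiff.comp ?_)
  fun_prop

theorem aQ_contDiff : ContDiff ℝ 1 aQ := by
  unfold aQ
  refine (contDiff_const.mul (Real.smoothTransition.contDiff.comp ?_)).mul
    (Real.smoothTransition.contDiff.comp ?_)
  · fun_prop
  · fun_prop

/-- inverse of the twist `TP` -/
noncomputable def TPi (v : E4) : E4 :=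
  ![v 0, Real.cos (aP v) * v 1 + Real.sin (aP v) * v 3, v 2,
    -Real.sin (aP v) * v 1 + Real.cos (aP v) * v 3]

/-- inverse of the twist `TQ` -/
noncomputable def TQi (v : E4) : E4 :=
  ![Real.cos (aQ v) * v 0 + Real.sin (aQ v) * v 2, v 1,
    -Real.sin (aQ v) * v 0 + Real.cos (aQ v) * v 2, v 3]

theorem TP_contDiff : ContDiff ℝ 1 TP := by
  have h := aP_contDiff
  rw [contDiff_pi]
  intro i
  fin_cases i <;> simp [TP] <;> fun_prop

theorem TPi_contDiff : ContDiff ℝ 1 TPi := by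
  have h := aP_contDiff
  rw [contDiff_pi]
  intro i
  fin_cases i <;> simp [TPi] <;> fun_prop

theorem TQ_contDiff : ContDiff ℝ 1 TQ := by
  have h := aQ_contDiff
  rw [contDiff_pi]
  intro i
  fin_cases i <;> simp [TQ] <;> fun_prop

theorem TQi_contDiff : ContDiff ℝ 1 TQi := by
  have h := aQ_contDiff
  rw [contDiff_pi]
  intro i
  fin_cases i <;> simp [TQi] <;> fun_prop

theorem aP_TP (v : E4) : aP (TP v) = aP v := by
  have h := Real.sin_sq_add_cos_sq (aP v)
  have e : (TP v) 0 ^ 2 + (TP v) 1 ^ 2 + (TP v) 2 ^ 2 + (TP v) 3 ^ 2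
      = v 0 ^ 2 + v 1 ^ 2 + v 2 ^ 2 + v 3 ^ 2 := by
    simp [TP]
    linear_combination (v 1 ^ 2 + v 3 ^ 2) * h
  show Real.pi / 2 * Real.smoothTransition
    ((23 / 2000 - ((TP v) 0 ^ 2 + (TP v) 1 ^ 2 + (TP v) 2 ^ 2 + (TP v) 3 ^ 2)) / (3 / 1000)) = _
  rw [e]
  rfl

theorem aP_TPi (v : E4) : aP (TPi v) = aP v := by
  have h := Real.sin_sq_add_cos_sq (aP v)
  have e : (TPi v) 0 ^ 2 + (TPi v) 1 ^ 2 + (TPi v) 2 ^ 2 + (TPi v) 3 ^ 2
      = v 0 ^ 2 + v 1 ^ 2 + v 2 ^ 2 + v 3 ^ 2 := by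
    simp [TPi]
    linear_combination (v 1 ^ 2 + v 3 ^ 2) * h
  show Real.pi / 2 * Real.smoothTransition
    ((23 / 2000 - ((TPi v) 0 ^ 2 + (TPi v) 1 ^ 2 + (TPi v) 2 ^ 2 + (TPi v) 3 ^ 2)) / (3 / 1000)) = _
  rw [e]
  rfl

theorem aQ_TQ (v : E4) : aQ (TQ v) = aQ v := by
  have h := Real.sin_sq_add_cos_sq (aQ v)
  have e : (TQ v) 0 ^ 2 + (TQ v) 1 ^ 2 + (TQ v) 2 ^ 2 = v 0 ^ 2 + v 1 ^ 2 + v 2 ^ 2 := by
    simp [TQ]
    linear_combination (v 0 ^ 2 + v 2 ^ 2) * h
  have e3 : (TQ v) 3 = v 3 := by simp [TQ]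
  show Real.pi * Real.smoothTransition
      ((3 * rho ^ 2 - ((TQ v) 0 ^ 2 + (TQ v) 1 ^ 2 + (TQ v) 2 ^ 2)) / rho ^ 2) *
    Real.smoothTransition ((1 / 10000 - (TQ v) 3 ^ 2) / (3 / 40000)) = _
  rw [e, e3]
  rfl

theorem aQ_TQi (v : E4) : aQ (TQi v) = aQ v := by
  have h := Real.sin_sq_add_cos_sq (aQ v)
  have e : (TQi v) 0 ^ 2 + (TQi v) 1 ^ 2 + (TQi v) 2 ^ 2 = v 0 ^ 2 + v 1 ^ 2 + v 2 ^ 2 := by
    simp [TQi]
    linear_combination (v 0 ^ 2 + v 2 ^ 2) * h
  have e3 : (TQi v) 3 = v 3 := by simp [TQi]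
  show Real.pi * Real.smoothTransition
      ((3 * rho ^ 2 - ((TQi v) 0 ^ 2 + (TQi v) 1 ^ 2 + (TQi v) 2 ^ 2)) / rho ^ 2) *
    Real.smoothTransition ((1 / 10000 - (TQi v) 3 ^ 2) / (3 / 40000)) = _
  rw [e, e3]
  rfl

theorem TPi_TP (v : E4) : TPi (TP v) = v := by
  have h := Real.sin_sq_add_cos_sq (aP v)
  have ha := aP_TP v
  unfold TPi
  rw [ha]
  ext i
  fin_cases i
  · simp [TP]
  · simp [TP]
    linear_combination (v 1) * h
  · simp [TP]
  · simp [TP]
    linear_combination (v 3) * h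

theorem TP_TPi (v : E4) : TP (TPi v) = v := by
  have h := Real.sin_sq_add_cos_sq (aP v)
  have ha := aP_TPi v
  unfold TP
  rw [ha]
  ext i
  fin_cases i
  · simp [TPi]
  · simp [TPi]
    linear_combination (v 1) * h
  · simp [TPi]
  · simp [TPi]
    linear_combination (v 3) * h

theorem TQi_TQ (v : E4) : TQi (TQ v) = v := by
  have h := Real.sin_sq_add_cos_sq (aQ v)
  have ha := aQ_TQ v
  unfold TQi
  rw [ha]
  ext i
  fin_cases i
  · simp [TQ]
    linear_combination (v 0) * h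
  · simp [TQ]
  · simp [TQ]
    linear_combination (v 2) * h
  · simp [TQ]

theorem TQ_TQi (v : E4) : TQ (TQi v) = v := by
  have h := Real.sin_sq_add_cos_sq (aQ v)
  have ha := aQ_TQi v
  unfold TQ
  rw [ha]
  ext i
  fin_cases i
  · simp [TQi]
    linear_combination (v 0) * h
  · simp [TQi]
  · simp [TQi]
    linear_combination (v 2) * h
  · simp [TQi]

/-- where the twist `TP` is the identity -/
theorem TP_far (v : E4) (h : 23 / 2000 ≤ v 0 ^ 2 + v 1 ^ 2 + v 2 ^ 2 + v 3 ^ 2) : TP v = v := by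
  have ha : aP v = 0 := by
    unfold aP
    rw [Real.smoothTransition.zero_of_nonpos, mul_zero]
    apply div_nonpos_of_nonpos_of_nonneg <;> linarith
  unfold TP
  rw [ha]
  ext i
  fin_cases i <;> simp

/-- where the twist `TP` is a rotation -/
theorem TP_near (v : E4) (h : v 0 ^ 2 + v 1 ^ 2 + v 2 ^ 2 + v 3 ^ 2 ≤ 17 / 2000) :
    TP v = JJ v := by
  have ha : aP v = Real.pi / 2 := by
    unfold aP
    rw [Real.smoothTransition.one_of_one_le, mul_one]
    rw [le_div_iff₀ (by norm_num)]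
    linarith
  rw [JJ_apply]
  unfold TP
  rw [ha]
  ext i
  fin_cases i <;> simp

theorem rho_pos : 0 < rho := by unfold rho; norm_num

theorem TQ_of_aQ (v : E4) (h : aQ v = 0) : TQ v = v := by
  unfold TQ
  rw [h]
  ext i
  fin_cases i <;> simp

theorem TQ_far1 (v : E4) (h : 3 * rho ^ 2 ≤ v 0 ^ 2 + v 1 ^ 2 + v 2 ^ 2) : TQ v = v := by
  apply TQ_of_aQ
  unfold aQ
  rw [Real.smoothTransition.zero_of_nonpos, mul_zero, zero_mul]
  apply div_nonpos_of_nonpos_of_nonneg
  · linarith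
  · positivity

theorem TQ_far2 (v : E4) (h : 1 / 10000 ≤ v 3 ^ 2) : TQ v = v := by
  apply TQ_of_aQ
  unfold aQ
  have : Real.smoothTransition ((1 / 10000 - v 3 ^ 2) / (3 / 40000)) = 0 := by
    apply Real.smoothTransition.zero_of_nonpos
    apply div_nonpos_of_nonpos_of_nonneg <;> linarith
  rw [this, mul_zero]



/-! Periodisation of a diffeomorphism supported in a small ball. -/

section Periodise

variable {E : Type*} [NormedAddCommGroup E]

open Classical in
/-- periodisation of a map around the translates of `c` -/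
noncomputable def perMap (L : AddSubgroup E) (c : E) (T : E → E) (p : E) : E :=
  if h : ∃ l ∈ L, ‖p - c - l‖ < 1 / 2 then c + h.choose + T (p - c - h.choose) else p

variable {L : AddSubgroup E} (hL : ∀ l ∈ L, l ≠ 0 → 1 ≤ ‖l‖) {c : E} {T : E → E}

include hL

theorem perMap_unique {p l l' : E} (hl : l ∈ L) (hl' : l' ∈ L) (h : ‖p - c - l‖ < 1 / 2)
    (h' : ‖p - c - l'‖ < 1 / 2) : l = l' := by
  by_contra hne
  have h1 := hL (l - l') (L.sub_mem hl hl') (sub_ne_zero.2 hne)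
  have h2 : ‖l - l'‖ < 1 := by
    have e : l - l' = (p - c - l') - (p - c - l) := by abel
    rw [e]
    calc ‖(p - c - l') - (p - c - l)‖ ≤ ‖p - c - l'‖ + ‖p - c - l‖ := norm_sub_le _ _
      _ < 1 := by linarith
  linarith

theorem perMap_near {p l : E} (hl : l ∈ L) (h : ‖p - c - l‖ < 1 / 2) :
    perMap L c T p = c + l + T (p - c - l) := by
  have hex : ∃ l ∈ L, ‖p - c - l‖ < 1 / 2 := ⟨l, hl, h⟩
  have heq : hex.choose = l := perMap_unique hL hex.choose_spec.1 hl hex.choose_spec.2 h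
  unfold perMap
  rw [dif_pos hex, heq]

theorem perMap_far (hT : ∀ v, 1 / 4 ≤ ‖v‖ → T v = v) {p : E}
    (h : ∀ l ∈ L, 1 / 4 ≤ ‖p - c - l‖) : perMap L c T p = p := by
  by_cases hex : ∃ l ∈ L, ‖p - c - l‖ < 1 / 2
  · obtain ⟨l, hl, hlt⟩ := hex
    rw [perMap_near hL hl hlt, hT _ (h l hl)]
    abel
  · unfold perMap
    rw [dif_neg hex]

theorem perMap_add (p l : E) (hl : l ∈ L) : perMap L c T (p + l) = perMap L c T p + l := by
  by_cases hex : ∃ m ∈ L, ‖p - c - m‖ < 1 / 2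
  · obtain ⟨m, hm, hlt⟩ := hex
    rw [perMap_near hL hm hlt]
    have h1 : p + l - c - (m + l) = p - c - m := by abel
    rw [perMap_near hL (L.add_mem hm hl) (by rw [h1]; exact hlt), h1]
    abel
  · have hex' : ¬ ∃ m ∈ L, ‖p + l - c - m‖ < 1 / 2 := by
      rintro ⟨m, hm, hlt⟩
      exact hex ⟨m - l, L.sub_mem hm hl, by
        have h1 : p - c - (m - l) = p + l - c - m := by abel
        rw [h1]; exact hlt⟩
    unfold perMap
    rw [dif_neg hex, dif_neg hex']

theorem perMap_contDiff [NormedSpace ℝ E] (hT : ∀ v, 1 / 4 ≤ ‖v‖ → T v = v) (hTc : ContDiff ℝ 1 T) :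
    ContDiff ℝ 1 (perMap L c T) := by
  rw [contDiff_iff_contDiffAt]
  intro p
  by_cases hex : ∃ l ∈ L, ‖p - c - l‖ < 1 / 2
  · obtain ⟨l, hl, hlt⟩ := hex
    have hev : perMap L c T =ᶠ[𝓝 p] fun q => c + l + T (q - c - l) := by
      have hopen : IsOpen {q : E | ‖q - c - l‖ < 1 / 2} :=
        isOpen_lt (by fun_prop) continuous_const
      filter_upwards [hopen.mem_nhds hlt] with q hq
      exact perMap_near hL hl hq
    refine ContDiffAt.congr_of_eventuallyEq ?_ hev
    have : ContDiff ℝ 1 fun q : E => c + l + T (q - c - l) := by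
      refine contDiff_const.add (hTc.comp ?_)
      exact (contDiff_id.sub contDiff_const).sub contDiff_const
    exact this.contDiffAt
  · push Not at hex
    have hev : perMap L c T =ᶠ[𝓝 p] fun q => q := by
      filter_upwards [Metric.ball_mem_nhds p (show (0 : ℝ) < 1 / 4 by norm_num)] with q hq
      refine perMap_far hL hT fun l hl => ?_
      have h1 := hex l hl
      have h2 : ‖p - c - l‖ ≤ ‖q - c - l‖ + ‖p - q‖ := by
        have e : p - c - l = (q - c - l) + (p - q) := by abel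
        rw [e]; exact norm_add_le _ _
      rw [Metric.mem_ball, dist_eq_norm, norm_sub_rev] at hq
      linarith
    exact ContDiffAt.congr_of_eventuallyEq contDiffAt_id hev

theorem perMap_perMap {S : E → E} (hT : ∀ v, 1 / 4 ≤ ‖v‖ → T v = v)
    (hS : ∀ v, 1 / 4 ≤ ‖v‖ → S v = v) (hST : ∀ v, S (T v) = v)
    (p : E) : perMap L c S (perMap L c T p) = p := by
  by_cases hex : ∃ l ∈ L, ‖p - c - l‖ < 1 / 4
  · obtain ⟨l, hl, hlt⟩ := hex
    rw [perMap_near (T := T) hL hl (show ‖p - c - l‖ < 1 / 2 by linarith)]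
    have h1 : ‖T (p - c - l)‖ < 1 / 4 := by
      by_contra hge
      push Not at hge
      have h2 := hST (p - c - l)
      rw [hS _ hge] at h2
      rw [h2] at hge
      linarith
    have h2 : c + l + T (p - c - l) - c - l = T (p - c - l) := by abel
    have h3 : ‖c + l + T (p - c - l) - c - l‖ < 1 / 2 := by rw [h2]; linarith
    rw [perMap_near (T := S) hL hl h3, h2, hST]
    abel
  · push Not at hex
    rw [perMap_far hL hT hex, perMap_far hL hS hex]

/-- The periodised diffeomorphism. -/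
theorem exists_periodised [NormedSpace ℝ E] {T : E ≃ E} (hT : ∀ v, 1 / 4 ≤ ‖v‖ → T v = v)
    (hTc : ContDiff ℝ 1 T) (hTs : ContDiff ℝ 1 T.symm) (c : E) :
    ∃ Ψ : E ≃ E, ContDiff ℝ 1 Ψ ∧ ContDiff ℝ 1 Ψ.symm ∧
      (∀ p, ∀ l ∈ L, Ψ (p + l) = Ψ p + l) ∧ (∀ p, ∀ l ∈ L, Ψ.symm (p + l) = Ψ.symm p + l) ∧
      (∀ v, ‖v‖ < 1 / 2 → Ψ (c + v) = c + T v) ∧
      (∀ p, (∀ l ∈ L, 1 / 4 ≤ ‖p - c - l‖) → Ψ p = p) := by
  have hS : ∀ v, 1 / 4 ≤ ‖v‖ → T.symm v = v := by
    intro v hv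
    rw [Equiv.symm_apply_eq, hT v hv]
  refine ⟨⟨perMap L c T, perMap L c T.symm,
    perMap_perMap hL hT hS (fun v => T.symm_apply_apply v),
    perMap_perMap hL hS hT (fun v => T.apply_symm_apply v)⟩,
    perMap_contDiff hL hT hTc, perMap_contDiff hL hS hTs, fun p l hl => perMap_add hL p l hl,
    fun p l hl => perMap_add hL p l hl, fun v hv => ?_, fun p hp => perMap_far hL hT hp⟩
  have h1 : c + v - c - 0 = v := by abel
  show perMap L c T (c + v) = c + T v
  rw [perMap_near hL L.zero_mem (by rw [h1]; exact hv), h1]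
  abel

end Periodise


theorem ph_ps_ne : ph ≠ ps := by
  have h1 := ph_bounds
  have h2 := ps_bounds
  intro h
  rw [h] at h1
  linarith [h1.1, h2.2]

theorem dg_ne (i : Fin 4) : dg i ≠ 0 := by
  have h1 := lam_bounds
  have h2 := Lam_bounds
  have hl : lam ≠ 0 := by intro h; rw [h] at h1; norm_num at h1
  have hL : Lam ≠ 0 := by intro h; rw [h] at h2; norm_num at h2
  fin_cases i <;> simp [dg, hl, hL]

/-- the supported twist, centred at `0`, as a bijection -/
noncomputable def T0 : E4 ≃ E4 where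
  toFun v := TP (kap • e3 + TQ (v - kap • e3))
  invFun v := kap • e3 + TQi (TPi v - kap • e3)
  left_inv v := by
    show kap • e3 + TQi (TPi (TP (kap • e3 + TQ (v - kap • e3))) - kap • e3) = v
    rw [TPi_TP, add_sub_cancel_left, TQi_TQ]
    abel
  right_inv v := by
    show TP (kap • e3 + TQ (kap • e3 + TQi (TPi v - kap • e3) - kap • e3)) = v
    rw [add_sub_cancel_left, TQ_TQi, add_sub_cancel, TP_TPi]

theorem T0_apply (v : E4) : T0 v = TP (kap • e3 + TQ (v - kap • e3)) := rfl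

theorem T0_contDiff : ContDiff ℝ 1 T0 :=
  TP_contDiff.comp (contDiff_const.add (TQ_contDiff.comp (contDiff_id.sub contDiff_const)))

theorem T0_symm_contDiff : ContDiff ℝ 1 T0.symm :=
  contDiff_const.add (TQi_contDiff.comp (TPi_contDiff.sub contDiff_const))

theorem T0_far (v : E4) (hv : 1 / 4 ≤ ‖v‖) : T0 v = v := by
  have hk := kap_bounds
  have h1 : TQ (v - kap • e3) = v - kap • e3 := by
    by_cases h : 1 / 10000 ≤ (v - kap • e3) 3 ^ 2
    · exact TQ_far2 _ h
    · push Not at h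
      apply TQ_far1
      simp [e3] at h ⊢
      by_contra hc
      push Not at hc
      have hu : |v 3 - kap| < 1 / 100 := by
        apply abs_lt_of_sq_lt_sq _ (by norm_num)
        nlinarith
      rw [abs_lt] at hu
      have hr : rho = 1 / 400 := rfl
      rw [hr] at hc
      have hlt : ‖v‖ < 1 / 4 := by
        rw [pi_norm_lt_iff (by norm_num)]
        intro i
        rw [Real.norm_eq_abs]
        apply abs_lt_of_sq_lt_sq _ (by norm_num)
        fin_cases i
        · show v 0 ^ 2 < _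
          nlinarith [sq_nonneg (v 1), sq_nonneg (v 2)]
        · show v 1 ^ 2 < _
          nlinarith [sq_nonneg (v 0), sq_nonneg (v 2)]
        · show v 2 ^ 2 < _
          nlinarith [sq_nonneg (v 0), sq_nonneg (v 1)]
        · show v 3 ^ 2 < _
          nlinarith [sq_nonneg (v 1), sq_nonneg (v 2)]
      linarith
  rw [T0_apply, h1, add_sub_cancel]
  apply TP_far
  by_contra hc
  push Not at hc
  have hlt : ‖v‖ < 1 / 4 := by
    rw [pi_norm_lt_iff (by norm_num)]
    intro i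
    rw [Real.norm_eq_abs]
    apply abs_lt_of_sq_lt_sq _ (by norm_num)
    fin_cases i
    · show v 0 ^ 2 < _
      nlinarith [sq_nonneg (v 1), sq_nonneg (v 2), sq_nonneg (v 3)]
    · show v 1 ^ 2 < _
      nlinarith [sq_nonneg (v 0), sq_nonneg (v 2), sq_nonneg (v 3)]
    · show v 2 ^ 2 < _
      nlinarith [sq_nonneg (v 0), sq_nonneg (v 1), sq_nonneg (v 3)]
    · show v 3 ^ 2 < _
      nlinarith [sq_nonneg (v 1), sq_nonneg (v 2), sq_nonneg (v 0)]
  linarith

theorem T0_nearP (v : E4) (h0 : |v 0| ≤ 1 / 19) (h1 : lam ^ 2 * |v 1| ≤ 1 / 19)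
    (h2 : |v 2| ≤ 1 / 19) (h3 : |v 3| ≤ 1 / 19) : T0 v = JJ v := by
  have hk := kap_bounds
  have hl := lam_bounds
  have h1' : |v 1| ≤ 1 / 19 / (2.618 ^ 2) := by
    rw [le_div_iff₀ (by norm_num)]
    have : (2.618 : ℝ) ^ 2 ≤ lam ^ 2 := by
      apply pow_le_pow_left₀ (by norm_num) hl.1.le
    nlinarith [abs_nonneg (v 1)]
  have hQ : TQ (v - kap • e3) = v - kap • e3 := by
    apply TQ_far2
    simp [e3]
    rw [abs_le] at h3
    nlinarith
  rw [T0_apply, hQ, add_sub_cancel]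
  apply TP_near
  have a0 : v 0 ^ 2 ≤ (1 / 19) ^ 2 := sq_le_sq' (by linarith [abs_le.1 h0]) (abs_le.1 h0).2
  have a2 : v 2 ^ 2 ≤ (1 / 19) ^ 2 := sq_le_sq' (by linarith [abs_le.1 h2]) (abs_le.1 h2).2
  have a3 : v 3 ^ 2 ≤ (1 / 19) ^ 2 := sq_le_sq' (by linarith [abs_le.1 h3]) (abs_le.1 h3).2
  have a1 : v 1 ^ 2 ≤ (1 / 19 / (2.618 ^ 2)) ^ 2 :=
    sq_le_sq' (by linarith [abs_le.1 h1']) (abs_le.1 h1').2
  norm_num at *
  linarith

theorem T0_nearQ (v : E4) (h : ∀ i, |v i| ≤ 3 / 400) :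
    T0 (kap • e3 + v) = kap • e3 + TQ v := by
  have hk := kap_bounds
  rw [T0_apply, add_sub_cancel_left]
  apply TP_far
  have h3 : (kap • e3 + TQ v) 3 = kap + v 3 := by simp [e3, TQ]
  rw [h3]
  have := abs_le.1 (h 3)
  nlinarith [sq_nonneg ((kap • e3 + TQ v) 0), sq_nonneg ((kap • e3 + TQ v) 1),
    sq_nonneg ((kap • e3 + TQ v) 2)]

theorem T0_nearR (v : E4) (h : ∀ i, |v i| ≤ 1 / 100) :
    T0 (kap • e2 + v) = kap • e2 + v := by
  have hk := kap_bounds
  have hQ : TQ (kap • e2 + v - kap • e3) = kap • e2 + v - kap • e3 := by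
    apply TQ_far2
    have e : (kap • e2 + v - kap • e3) 3 = v 3 - kap := by
      show kap * e2 3 + v 3 - kap * e3 3 = v 3 - kap
      simp [e2, e3]
    rw [e]
    have := abs_le.1 (h 3)
    nlinarith
  rw [T0_apply, hQ, add_sub_cancel]
  apply TP_far
  have h2 : (kap • e2 + v) 2 = kap + v 2 := by simp [e2]
  rw [h2]
  have := abs_le.1 (h 2)
  nlinarith [sq_nonneg ((kap • e2 + v) 0), sq_nonneg ((kap • e2 + v) 1),
    sq_nonneg ((kap • e2 + v) 3)]

/-- the linear map as a bijection -/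
noncomputable def LMe : E4 ≃ E4 where
  toFun v := LM v
  invFun v := fun i => (dg i)⁻¹ * v i
  left_inv v := by
    ext i
    have := dg_ne i
    simp [LM_apply, this]
  right_inv v := by
    ext i
    have := dg_ne i
    simp [LM_apply, this]

theorem LMe_apply (v : E4) : LMe v = LM v := rfl

theorem LMe_symm_add (v w : E4) : LMe.symm (v + w) = LMe.symm v + LMe.symm w := by
  rw [Equiv.symm_apply_eq, LMe_apply, map_add, ← LMe_apply, ← LMe_apply]
  simp

theorem LMe_contDiff : ContDiff ℝ 1 LMe := LM.contDiff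

theorem LMe_symm_contDiff : ContDiff ℝ 1 LMe.symm := by
  show ContDiff ℝ 1 fun v : E4 => (fun i => (dg i)⁻¹ * v i)
  fun_prop

theorem far_of_U (p : E4) (h2 : |p 2| ≤ 1 / 6) (h3 : |p 3| ≤ 1 / 6) (l : E4) (hl : l ∈ LL) :
    1 / 4 ≤ ‖p - PP - l‖ := by
  have hPP : PP + PP ∈ LL := ⟨0, 0, 1, 0, by ext i; fin_cases i <;> simp [PP] <;> norm_num⟩
  have hm : (PP + PP) + (l + l) ∈ LL := LL.add_mem hPP (LL.add_mem hl hl)
  have hne : ¬ (((PP + PP) + (l + l)) 2 = 0 ∧ ((PP + PP) + (l + l)) 3 = 0) := by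
    obtain ⟨m, n, k, j, rfl⟩ := hl
    rintro ⟨e1, e2⟩
    simp [PP] at e1 e2
    have hd := ph_ps_ne
    have hj : (j : ℝ) * (ph - ps) = 0 := by linarith
    have hj0 : (j : ℝ) = 0 := by
      rcases mul_eq_zero.1 hj with h | h
      · exact h
      · exact absurd (sub_eq_zero.1 h) hd
    rw [hj0] at e1
    have hk : (1 : ℝ) + 2 * k = 0 := by linarith
    have hk' : (1 : ℤ) + 2 * k = 0 := by exact_mod_cast hk
    omega
  have h1 := LL_norm_w _ hm hne
  have n2 := norm_le_pi_norm (p - PP - l) 2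
  have n3 := norm_le_pi_norm (p - PP - l) 3
  rw [Real.norm_eq_abs] at n2 n3
  rcases le_max_iff.1 h1 with h | h
  · have e : ((PP + PP) + (l + l)) 2 = 2 * p 2 - 2 * (p - PP - l) 2 := by
      simp; ring
    rw [e] at h
    have : |2 * p 2 - 2 * (p - PP - l) 2| ≤ |2 * p 2| + |2 * (p - PP - l) 2| := abs_sub _ _
    rw [abs_mul, abs_mul, abs_two] at this
    linarith
  · have e : ((PP + PP) + (l + l)) 3 = 2 * p 3 - 2 * (p - PP - l) 3 := by
      simp; ring
    rw [e] at h
    have : |2 * p 3 - 2 * (p - PP - l) 3| ≤ |2 * p 3| + |2 * (p - PP - l) 3| := abs_sub _ _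
    rw [abs_mul, abs_mul, abs_two] at this
    linarith

theorem exists_model : ∃ F : TorusDiffeo LL, IsModel F := by
  obtain ⟨Ψ, hc, hcs, ha, has, hnear, hfar⟩ :=
    exists_periodised (fun l hl hne => LL_norm l hl hne) T0_far T0_contDiff T0_symm_contDiff PP
  have hk := kap_bounds
  have hlift : ∀ p, (Ψ.trans LMe) p = LM (Ψ p) := fun p => rfl
  have hsymm : ∀ p, (Ψ.trans LMe).symm p = Ψ.symm (LMe.symm p) := fun p => rfl
  have hinv : ∀ l ∈ LL, LMe.symm l ∈ LL := by
    intro l hl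
    obtain ⟨l', hl', e⟩ := LM_mem_inv l hl
    have : LMe.symm l = l' := by rw [Equiv.symm_apply_eq, LMe_apply, e]
    rw [this]; exact hl'
  refine ⟨⟨Ψ.trans LMe, LMe_contDiff.comp hc, hcs.comp LMe_symm_contDiff, ?_, ?_⟩, ?_⟩
  · intro p l hl
    rw [hlift, hlift, ha p l hl, map_add, add_sub_cancel_left]
    exact LM_mem l hl
  · intro p l hl
    rw [hsymm, hsymm, LMe_symm_add, has _ _ (hinv l hl), add_sub_cancel_left]
    exact hinv l hl
  · constructor
    · intro p l hl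
      show LM (Ψ (p + l)) = LM (Ψ p) + LM l
      rw [ha p l hl, map_add]
    · intro p h2 h3
      show LM (Ψ p) = LM p
      rw [hfar p (fun l hl => far_of_U p h2 h3 l hl)]
    · intro v h0 h1 h2 h3
      show LM (Ψ (PP + v)) = PP + lP + LM (JJ v)
      have hn : ‖v‖ < 1 / 2 := by
        rw [pi_norm_lt_iff (by norm_num)]
        intro i
        rw [Real.norm_eq_abs]
        have hl := lam_bounds
        have h1' : |v 1| ≤ 1 / 19 := by
          have : (1 : ℝ) ≤ lam ^ 2 := by nlinarith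
          nlinarith [abs_nonneg (v 1)]
        fin_cases i
        · show |v 0| < 1 / 2
          linarith
        · show |v 1| < 1 / 2
          linarith
        · show |v 2| < 1 / 2
          linarith
        · show |v 3| < 1 / 2
          linarith
      rw [hnear v hn, T0_nearP v h0 h1 h2 h3, map_add, LM_PP]
    · intro v hv
      show LM (Ψ (PP + kap • e3 + v)) = lQ + kap • e2 + LM (TQ v)
      have hn : ‖kap • e3 + v‖ < 1 / 2 := by
        rw [pi_norm_lt_iff (by norm_num)]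
        intro i
        rw [Real.norm_eq_abs, abs_lt]
        have := abs_le.1 (hv i)
        fin_cases i <;> simp [e3] at this ⊢ <;> constructor <;> linarith
      rw [add_assoc, hnear _ hn, T0_nearQ v hv, ← add_assoc, map_add, LM_Q]
    · intro v hv
      show LM (Ψ (PP + kap • e2 + v)) = PP + lP + (kap / Lam) • e2 + LM v
      have hn : ‖kap • e2 + v‖ < 1 / 2 := by
        rw [pi_norm_lt_iff (by norm_num)]
        intro i
        rw [Real.norm_eq_abs, abs_lt]
        have := abs_le.1 (hv i)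
        fin_cases i <;> simp [e2] at this ⊢ <;> constructor <;> linarith
      rw [add_assoc, hnear _ hn, T0_nearR v hv, ← add_assoc, map_add, map_add, LM_PP]
      have : LM (kap • e2) = (kap / Lam) • e2 := by
        ext i
        rw [LM_apply]
        fin_cases i <;> simp [e2, dg]
        ring
      rw [this]

end Pool.Agent.MP_6961e8
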