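import Pool.Agent.MP_6961e8.STEP
import Pool.Agent.MP_6961e8.CONT

/-!
Module UNIQ: existence and uniqueness of continuations (helper40), with `η = 1 / 200`.
-/

open Filter Topology

namespace Pool.Agent.MP_6961e8

namespace UQ

theorem mkq_eq_iff {a b : E4} : (a : E4 ⧸ LL) = (b : E4 ⧸ LL) ↔ b - a ∈ LL := by
  rw [QuotientAddGroup.eq, neg_add_eq_sub]

theorem mkq_add_mem {a ℓ : E4} (hℓ : ℓ ∈ LL) : ((a + ℓ : E4) : E4 ⧸ LL) = (a : E4 ⧸ LL) := by
  rw [mkq_eq_iff]
  have : a - (a + ℓ) = -ℓ := by abel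
  rw [this]
  exact LL.neg_mem hℓ

theorem dist_le (a b : E4) : dist (a : E4 ⧸ LL) (b : E4 ⧸ LL) ≤ ‖a - b‖ := by
  rw [dist_eq_norm, ← QuotientAddGroup.mk_sub]
  exact QuotientAddGroup.norm_mk_le_norm

theorem exists_of_dist {a b : E4} {r : ℝ} (h : dist (a : E4 ⧸ LL) (b : E4 ⧸ LL) < r) :
    ∃ ℓ ∈ LL, ‖a - b - ℓ‖ < r := by
  rw [dist_eq_norm, ← QuotientAddGroup.mk_sub, QuotientAddGroup.norm_lt_iff] at h
  obtain ⟨m, hm, hmr⟩ := h
  refine ⟨a - b - m, ?_, ?_⟩
  · exact mkq_eq_iff.mp hm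
  · have : a - b - (a - b - m) = m := by abel
    rw [this]
    exact hmr

theorem coord_le (v : E4) (i : Fin 4) : |v i| ≤ ‖v‖ := by
  have := norm_le_pi_norm v i
  rwa [Real.norm_eq_abs] at this

theorem norm_le_of {v : E4} {r : ℝ} (hr : 0 ≤ r) (h : ∀ i, |v i| ≤ r) : ‖v‖ ≤ r := by
  rw [pi_norm_le_iff_of_nonneg hr]
  intro i
  rw [Real.norm_eq_abs]
  exact h i

theorem dg_abs_le (i : Fin 4) : |dg i| ≤ 17.945 := by
  have h1 := lam_bounds
  have h2 := Lam_bounds
  have hl : 1 / lam ≤ 1 := by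
    rw [div_le_one lam_pos]
    linarith
  have hL : 1 / Lam ≤ 1 := by
    rw [div_le_one Lam_pos]
    linarith
  have hl0 : 0 < 1 / lam := by have := lam_pos; positivity
  have hL0 : 0 < 1 / Lam := by have := Lam_pos; positivity
  fin_cases i
  · show |lam| ≤ 17.945
    rw [abs_of_pos lam_pos]
    linarith
  · show |1 / lam| ≤ 17.945
    rw [abs_of_pos hl0]
    linarith
  · show |1 / Lam| ≤ 17.945
    rw [abs_of_pos hL0]
    linarith
  · show |Lam| ≤ 17.945
    rw [abs_of_pos Lam_pos]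
    linarith

theorem LM_norm_le (v : E4) : ‖LM v‖ ≤ 17.945 * ‖v‖ := by
  apply norm_le_of (by positivity)
  intro i
  rw [LM_apply, abs_mul]
  exact mul_le_mul (dg_abs_le i) (coord_le v i) (abs_nonneg _) (by norm_num)

theorem LM_h0 (z : ℝ × ℝ) : LM (h0 z) = h0 (lam * z.1, z.2 / lam) := by
  ext i
  rw [LM_apply]
  fin_cases i
  · show lam * z.1 = lam * z.1
    rfl
  · show 1 / lam * z.2 = z.2 / lam
    ring
  · show 1 / Lam * 0 = 0
    ring
  · show Lam * 0 = 0
    ring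

theorem h0_inj {z z' : ℝ × ℝ} {ℓ : E4} (hℓ : h0 z' - h0 z = ℓ) :
    ℓ 2 = 0 ∧ ℓ 3 = 0 ∧ z' = (z.1 + ℓ 0, z.2 + ℓ 1) := by
  subst hℓ
  refine ⟨by simp [h0], by simp [h0], ?_⟩
  ext <;> simp [h0]

theorem h0_sub (z z' : ℝ × ℝ) : ‖h0 z - h0 z'‖ = ‖z - z'‖ := by
  apply le_antisymm
  · apply norm_le_of (norm_nonneg _)
    intro i
    fin_cases i
    · show |z.1 - z'.1| ≤ _
      have := norm_fst_le (z - z')
      simpa using this
    · show |z.2 - z'.2| ≤ _
      have := norm_snd_le (z - z')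
      simpa using this
    · show |(0 : ℝ) - 0| ≤ _
      simp
    · show |(0 : ℝ) - 0| ≤ _
      simp
  · rw [Prod.norm_def]
    apply max_le
    · have := coord_le (h0 z - h0 z') 0
      simpa [h0] using this
    · have := coord_le (h0 z - h0 z') 1
      simpa [h0] using this

/-- nearby points of the torus have nearby parameters -/
theorem exists_near {z z' : ℝ × ℝ} {r : ℝ} (hr : r ≤ 1)
    (h : dist (h0 z' : E4 ⧸ LL) (h0 z : E4 ⧸ LL) < r) :
    ∃ ℓ ∈ LL, ℓ 2 = 0 ∧ ℓ 3 = 0 ∧ ‖((z'.1 + ℓ 0, z'.2 + ℓ 1) : ℝ × ℝ) - z‖ < r := by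
  obtain ⟨ℓ, hℓ, hlt⟩ := exists_of_dist h
  have h2 : |ℓ 2| < r := by
    have := (coord_le (h0 z' - h0 z - ℓ) 2).trans_lt hlt
    simpa [h0] using this
  have h3 : |ℓ 3| < r := by
    have := (coord_le (h0 z' - h0 z - ℓ) 3).trans_lt hlt
    simpa [h0] using this
  have h0' : ℓ 2 = 0 ∧ ℓ 3 = 0 := by
    by_contra hc
    have h1 := LL_norm_w ℓ hℓ hc
    have h4 : max |ℓ 2| |ℓ 3| < r := max_lt h2 h3
    linarith
  refine ⟨-ℓ, LL.neg_mem hℓ, by simp [h0'.1], by simp [h0'.2], ?_⟩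
  rw [Prod.norm_def]
  apply max_lt
  · have := (coord_le (h0 z' - h0 z - ℓ) 0).trans_lt hlt
    have e : (h0 z' - h0 z - ℓ) 0 = z'.1 + (-ℓ) 0 - z.1 := by
      simp [h0]
      ring
    rw [e] at this
    simpa using this
  · have := (coord_le (h0 z' - h0 z - ℓ) 1).trans_lt hlt
    have e : (h0 z' - h0 z - ℓ) 1 = z'.2 + (-ℓ) 1 - z.2 := by
      simp [h0]
      ring
    rw [e] at this
    simpa using this

theorem h_eq_of_h0_eq {g : TorusDiffeo LL} {h : ℝ × ℝ → E4} (hh : IsCont g h) {z z' : ℝ × ℝ}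
    (e : (h0 z : E4 ⧸ LL) = (h0 z' : E4 ⧸ LL)) : (h z : E4 ⧸ LL) = (h z' : E4 ⧸ LL) := by
  have hmem := mkq_eq_iff.mp e
  obtain ⟨h2, h3, hz⟩ := h0_inj (z := z) (z' := z') rfl
  rw [hz, hh.per z _ hmem h2 h3, mkq_add_mem hmem]

open Classical in
/-- the map of the torus induced by `h` -/
noncomputable def HH (h : ℝ × ℝ → E4) (x : E4 ⧸ LL) : E4 ⧸ LL :=
  if hx : ∃ z, (h0 z : E4 ⧸ LL) = x then (h hx.choose : E4 ⧸ LL) else x

theorem HH_apply {g : TorusDiffeo LL} {h : ℝ × ℝ → E4} (hh : IsCont g h) (z : ℝ × ℝ) :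
    HH h (h0 z : E4 ⧸ LL) = (h z : E4 ⧸ LL) := by
  have hx : ∃ z', (h0 z' : E4 ⧸ LL) = (h0 z : E4 ⧸ LL) := ⟨z, rfl⟩
  unfold HH
  rw [dif_pos hx]
  exact h_eq_of_h0_eq hh hx.choose_spec

theorem mapq_mk (g : TorusDiffeo LL) (p : E4) : g.map (p : E4 ⧸ LL) = (g.lift p : E4 ⧸ LL) := rfl

theorem mapq_symm_mk (g : TorusDiffeo LL) (p : E4) :
    g.map.symm (p : E4 ⧸ LL) = (g.lift.symm p : E4 ⧸ LL) := rfl

theorem F_h0 {F : TorusDiffeo LL} (hF : IsModel F) (z : ℝ × ℝ) :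
    F.lift (h0 z) = h0 (lam * z.1, z.2 / lam) := by
  rw [hF.u0 (h0 z) (by simp [h0]) (by simp [h0]), LM_h0]

theorem U0_of_near {z : ℝ × ℝ} {p : E4} (hp : ‖p - h0 z‖ ≤ 1 / 8) : p ∈ U0 := by
  constructor
  · have := (coord_le (p - h0 z) 2).trans hp
    simpa [h0] using this
  · have := (coord_le (p - h0 z) 3).trans hp
    simpa [h0] using this

/-- `1 - LM ∘ JJ` expands by at least `1 / 5` -/
theorem fix_aux (d : E4) (h : ‖d - LM (JJ d)‖ ≤ dl * ‖d‖) : d = 0 := by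
  have hl := lam_bounds
  have hL := Lam_bounds
  have hlp := lam_pos
  have hLp := Lam_pos
  set ε : ℝ := dl * ‖d‖ with hε
  have hε0 : 0 ≤ ε := (norm_nonneg _).trans h
  have c0 := (coord_le (d - LM (JJ d)) 0).trans h
  have c1 := (coord_le (d - LM (JJ d)) 1).trans h
  have c2 := (coord_le (d - LM (JJ d)) 2).trans h
  have c3 := (coord_le (d - LM (JJ d)) 3).trans h
  rw [Pi.sub_apply, LM_apply, JJ_apply] at c0 c1 c2 c3
  have c0' : |d 0 - lam * d 0| ≤ ε := c0
  have c1' : |d 1 - 1 / lam * (-d 3)| ≤ ε := c1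
  have c2' : |d 2 - 1 / Lam * d 2| ≤ ε := c2
  have c3' : |d 3 - Lam * d 1| ≤ ε := c3
  have b0 : |d 0| ≤ 5 * ε := by
    have e : d 0 - lam * d 0 = -((lam - 1) * d 0) := by ring
    rw [e, abs_neg, abs_mul, abs_of_pos (by linarith : (0 : ℝ) < lam - 1)] at c0'
    nlinarith [abs_nonneg (d 0)]
  have b2 : |d 2| ≤ 5 * ε := by
    have e : d 2 - 1 / Lam * d 2 = (1 - 1 / Lam) * d 2 := by ring
    have h1 : 1 / Lam ≤ 1 / 2 := by
      apply one_div_le_one_div_of_le (by norm_num)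
      linarith
    rw [e, abs_mul, abs_of_pos (by linarith : (0 : ℝ) < 1 - 1 / Lam)] at c2'
    nlinarith [abs_nonneg (d 2)]
  have b1 : |d 1| ≤ 18 / 100 * ε := by
    have e : (lam + Lam) * d 1 = lam * (d 1 - 1 / lam * (-d 3)) - (d 3 - Lam * d 1) := by
      field_simp
      ring
    have h1 : |(lam + Lam) * d 1| ≤ lam * ε + ε := by
      rw [e]
      refine (abs_sub _ _).trans ?_
      rw [abs_mul, abs_of_pos hlp]
      have := mul_le_mul_of_nonneg_left c1' hlp.le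
      linarith
    rw [abs_mul, abs_of_pos (by linarith : (0 : ℝ) < lam + Lam)] at h1
    nlinarith [abs_nonneg (d 1), mul_nonneg hε0 (by linarith : (0 : ℝ) ≤ 2.6181 - lam),
      mul_nonneg (abs_nonneg (d 1)) (by linarith : (0 : ℝ) ≤ lam + Lam - 20.5)]
  have b3 : |d 3| ≤ 5 * ε := by
    have e : d 3 = (d 3 - Lam * d 1) + Lam * d 1 := by ring
    have h1 : |d 3| ≤ |d 3 - Lam * d 1| + |Lam * d 1| := by
      conv_lhs => rw [e]
      exact abs_add_le _ _
    rw [abs_mul, abs_of_pos hLp] at h1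
    have h2 : Lam * |d 1| ≤ 17.945 * (18 / 100 * ε) := by
      apply mul_le_mul hL.2.le b1 (abs_nonneg _) (by norm_num)
    linarith
  have hd : ‖d‖ ≤ 5 * ε := by
    apply norm_le_of (by positivity)
    intro i
    fin_cases i
    · exact b0
    · exact b1.trans (by linarith)
    · exact b2
    · exact b3
  have hdl : dl = 1 / 100000 := rfl
  have : ‖d‖ ≤ 0 := by
    rw [hε, hdl] at hd
    linarith [norm_nonneg d]
  exact norm_le_zero_iff.mp this

theorem mem_BP_of {v : E4} (hv : ‖v‖ ≤ 1 / 150) : v ∈ BP := by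
  have hl := lam_bounds
  have h0 := (coord_le v 0).trans hv
  have h1 := (coord_le v 1).trans hv
  have h2 := (coord_le v 2).trans hv
  have h3 := (coord_le v 3).trans hv
  refine ⟨by linarith, ?_, by linarith, by linarith⟩
  have h4 : lam ^ 2 ≤ 7 := by nlinarith
  have h5 : lam ^ 2 * |v 1| ≤ 7 * (1 / 150) :=
    mul_le_mul h4 h1 (abs_nonneg _) (by norm_num)
  linarith

theorem JJ_norm_le (v : E4) : ‖JJ v‖ ≤ ‖v‖ := by
  apply norm_le_of (norm_nonneg _)
  intro i
  rw [JJ_apply]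
  fin_cases i
  · exact coord_le v 0
  · show |-v 3| ≤ _
    rw [abs_neg]
    exact coord_le v 3
  · exact coord_le v 2
  · exact coord_le v 1

end UQ

open UQ

section
variable (F g : TorusDiffeo LL) (hF : IsModel F) (hg : C1Close dl F g)
include hF hg

theorem cont_set_exists (h : ℝ × ℝ → E4) (hh : IsCont g h) :
    IsContinuation (1 / 200) F g (Kset h0) (Kset h) := by
  refine ⟨HH h, ?_, ?_, ?_, ?_⟩
  · -- continuity
    rintro _ ⟨z, rfl⟩
    rw [Metric.continuousWithinAt_iff]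
    intro ε hε
    have hc := hh.cont.continuousAt (x := z)
    rw [Metric.continuousAt_iff] at hc
    obtain ⟨δ, hδ, hδε⟩ := hc ε hε
    refine ⟨min δ 1, lt_min hδ one_pos, ?_⟩
    rintro _ ⟨z', rfl⟩ hd
    obtain ⟨ℓ, hℓ, h2, h3, hlt⟩ := exists_near (min_le_right _ _) hd
    show dist (HH h (h0 z' : E4 ⧸ LL)) (HH h (h0 z : E4 ⧸ LL)) < ε
    rw [HH_apply hh, HH_apply hh]
    have e1 : (h z' : E4 ⧸ LL) = (h (z'.1 + ℓ 0, z'.2 + ℓ 1) : E4 ⧸ LL) := by
      rw [hh.per z' ℓ hℓ h2 h3, mkq_add_mem hℓ]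
    rw [e1]
    refine (dist_le _ _).trans_lt ?_
    rw [← dist_eq_norm]
    apply hδε
    rw [dist_eq_norm]
    exact hlt.trans_le (min_le_left _ _)
  · -- injectivity
    rintro _ ⟨z, rfl⟩ _ ⟨z', rfl⟩ he
    have he' : (h z : E4 ⧸ LL) = (h z' : E4 ⧸ LL) := by
      rw [← HH_apply hh, ← HH_apply hh]
      exact he
    obtain ⟨ℓ, hℓ, h2, h3, hz⟩ := cont_inj F g hF hg h hh z z' he'
    show (h0 z : E4 ⧸ LL) = (h0 z' : E4 ⧸ LL)
    have : h0 z = h0 z' + ℓ := by
      rw [hz]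
      ext i
      fin_cases i
      · simp [h0]
      · simp [h0]
      · show (0 : ℝ) = 0 + ℓ 2
        rw [h2, add_zero]
      · show (0 : ℝ) = 0 + ℓ 3
        rw [h3, add_zero]
    rw [this, mkq_add_mem hℓ]
  · -- image
    ext x
    constructor
    · rintro ⟨_, ⟨z, rfl⟩, rfl⟩
      exact ⟨z, (HH_apply hh z).symm⟩
    · rintro ⟨z, rfl⟩
      exact ⟨_, ⟨z, rfl⟩, HH_apply hh z⟩
  · rintro _ ⟨z, rfl⟩
    constructor
    · show g.map (HH h (h0 z : E4 ⧸ LL)) = HH h (F.map (h0 z : E4 ⧸ LL))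
      rw [HH_apply hh, mapq_mk, mapq_mk, F_h0 hF, HH_apply hh, hh.conj]
    · show dist (HH h (h0 z : E4 ⧸ LL)) (h0 z : E4 ⧸ LL) ≤ 1 / 200
      rw [HH_apply hh]
      refine (dist_le _ _).trans ((hh.close z).trans (by norm_num))

theorem cont_set_unique (h : ℝ × ℝ → E4) (hh : IsCont g h) (L : Set (E4 ⧸ LL))
    (hL : IsContinuation (1 / 200) F g (Kset h0) L) : L = Kset h := by
  obtain ⟨H, -, -, himg, hconj⟩ := hL
  have hl0 := lam_pos
  have hdl : dl = 1 / 100000 := rfl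
  have hconj' : ∀ z : ℝ × ℝ, g.map (H (h0 z : E4 ⧸ LL)) =
      H (h0 (lam * z.1, z.2 / lam) : E4 ⧸ LL) ∧
      dist (H (h0 z : E4 ⧸ LL)) (h0 z : E4 ⧸ LL) ≤ 1 / 200 := by
    intro z
    have h1 := hconj (h0 z : E4 ⧸ LL) ⟨z, rfl⟩
    rw [mapq_mk, F_h0 hF] at h1
    exact h1
  -- one step forward
  have hstep : ∀ (z : ℝ × ℝ) (q : E4), (q : E4 ⧸ LL) = H (h0 z : E4 ⧸ LL) →
      ‖q - h0 z‖ ≤ 1 / 100 →
      (g.lift q : E4 ⧸ LL) = H (h0 (lam * z.1, z.2 / lam) : E4 ⧸ LL) ∧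
      ‖g.lift q - h0 (lam * z.1, z.2 / lam)‖ ≤ 1 / 100 := by
    intro z q hq hqz
    have h1 : (g.lift q : E4 ⧸ LL) = H (h0 (lam * z.1, z.2 / lam) : E4 ⧸ LL) := by
      rw [← (hconj' z).1, ← hq, mapq_mk]
    refine ⟨h1, ?_⟩
    have h2 := (hconj' (lam * z.1, z.2 / lam)).2
    rw [← h1] at h2
    obtain ⟨ℓ, hℓ, hlt⟩ := exists_of_dist (lt_of_le_of_lt h2 (show (1 : ℝ) / 200 < 1 / 100 by norm_num))
    have hqU : q ∈ U0 := U0_of_near (hqz.trans (by norm_num))
    have h3 : ‖g.lift q - LM q‖ ≤ dl := by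
      apply norm_le_of (by rw [hdl]; norm_num)
      intro i
      have := approxU0 F g hF hg q hqU i
      rw [Pi.sub_apply, LM_apply]
      exact this
    have h4 : ‖LM q - h0 (lam * z.1, z.2 / lam)‖ ≤ 17.945 * (1 / 100) := by
      rw [← LM_h0, ← map_sub]
      exact (LM_norm_le _).trans (mul_le_mul_of_nonneg_left hqz (by norm_num))
    have h5 : ℓ = 0 := by
      by_contra hne
      have h6 := LL_norm ℓ hℓ hne
      have h7 : ‖ℓ‖ ≤ ‖g.lift q - LM q‖ + ‖LM q - h0 (lam * z.1, z.2 / lam)‖ +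
          ‖g.lift q - h0 (lam * z.1, z.2 / lam) - ℓ‖ := by
        have e : ℓ = (g.lift q - LM q) + (LM q - h0 (lam * z.1, z.2 / lam)) -
          (g.lift q - h0 (lam * z.1, z.2 / lam) - ℓ) := by abel
        calc ‖ℓ‖ = ‖(g.lift q - LM q) + (LM q - h0 (lam * z.1, z.2 / lam)) -
          (g.lift q - h0 (lam * z.1, z.2 / lam) - ℓ)‖ := by rw [← e]
          _ ≤ ‖(g.lift q - LM q) + (LM q - h0 (lam * z.1, z.2 / lam))‖ +
            ‖g.lift q - h0 (lam * z.1, z.2 / lam) - ℓ‖ := norm_sub_le _ _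
          _ ≤ _ := by gcongr; exact norm_add_le _ _
      have h8 : (1 : ℝ) ≤ 1 / 100000 + 17.945 * (1 / 100) + 1 / 100 := by
        rw [hdl] at h3
        linarith
      norm_num at h8
    rw [h5, sub_zero] at hlt
    exact hlt.le
  -- one step backward
  have hback : ∀ (z : ℝ × ℝ) (q : E4), (q : E4 ⧸ LL) = H (h0 z : E4 ⧸ LL) →
      ‖q - h0 z‖ ≤ 1 / 100 →
      (g.lift.symm q : E4 ⧸ LL) = H (h0 (z.1 / lam, lam * z.2) : E4 ⧸ LL) ∧
      ‖g.lift.symm q - h0 (z.1 / lam, lam * z.2)‖ ≤ 1 / 100 := by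
    intro z q hq hqz
    set z' : ℝ × ℝ := (z.1 / lam, lam * z.2) with hz'
    have hzz : (lam * z'.1, z'.2 / lam) = z := by
      rw [hz']
      ext
      · show lam * (z.1 / lam) = z.1
        field_simp
      · show lam * z.2 / lam = z.2
        field_simp
    have h1 : (g.lift.symm q : E4 ⧸ LL) = H (h0 z' : E4 ⧸ LL) := by
      have h2 := (hconj' z').1
      rw [hzz, ← hq] at h2
      rw [← mapq_symm_mk, ← h2, Equiv.symm_apply_apply]
    refine ⟨h1, ?_⟩
    have h2 := (hconj' z').2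
    rw [← h1] at h2
    obtain ⟨ℓ, hℓ, hlt⟩ := exists_of_dist (lt_of_le_of_lt h2 (show (1 : ℝ) / 200 < 1 / 100 by norm_num))
    set r := g.lift.symm q with hr
    set p : E4 := r - ℓ with hp
    have hpz : ‖p - h0 z'‖ < 1 / 100 := by
      have : p - h0 z' = r - h0 z' - ℓ := by rw [hp]; abel
      rw [this]
      exact hlt
    have hpU : p ∈ U0 := U0_of_near (hpz.le.trans (by norm_num))
    have h3 : ‖g.lift p - LM p‖ ≤ dl := by
      apply norm_le_of (by rw [hdl]; norm_num)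
      intro i
      have := approxU0 F g hF hg p hpU i
      rw [Pi.sub_apply, LM_apply]
      exact this
    have h4 : ‖LM p - h0 z‖ ≤ 17.945 * (1 / 100) := by
      have : h0 z = LM (h0 z') := by rw [LM_h0, hzz]
      rw [this, ← map_sub]
      exact (LM_norm_le _).trans (mul_le_mul_of_nonneg_left hpz.le (by norm_num))
    have h5 : g.lift r = g.lift p + LM ℓ := by
      rw [← g_per F g hF hg p ℓ hℓ]
      congr 1
      rw [hp]
      abel
    have h6 : g.lift r = q := by rw [hr, Equiv.apply_symm_apply]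
    have h7 : LM ℓ = 0 := by
      by_contra hne
      have h8 := LL_norm (LM ℓ) (LM_mem ℓ hℓ) hne
      have h9 : ‖LM ℓ‖ ≤ ‖q - h0 z‖ + ‖g.lift p - LM p‖ + ‖LM p - h0 z‖ := by
        have e : LM ℓ = (q - h0 z) - (g.lift p - LM p) - (LM p - h0 z) := by
          have : q = g.lift p + LM ℓ := by rw [← h6, h5]
          rw [this]
          abel
        calc ‖LM ℓ‖ = ‖(q - h0 z) - (g.lift p - LM p) - (LM p - h0 z)‖ := by rw [← e]
          _ ≤ ‖(q - h0 z) - (g.lift p - LM p)‖ + ‖LM p - h0 z‖ := norm_sub_le _ _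
          _ ≤ _ := by gcongr; exact norm_sub_le _ _
      have h10 : (1 : ℝ) ≤ 1 / 100 + 1 / 100000 + 17.945 * (1 / 100) := by
        rw [hdl] at h3
        linarith
      norm_num at h10
    have h8 : ℓ = 0 := by
      ext i
      have h9 := congrFun h7 i
      rw [LM_apply] at h9
      have hdg : dg i ≠ 0 := by
        have := lam_pos
        have := Lam_pos
        fin_cases i
        · show lam ≠ 0; positivity
        · show 1 / lam ≠ 0; positivity
        · show 1 / Lam ≠ 0; positivity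
        · show Lam ≠ 0; positivity
      rcases mul_eq_zero.mp h9 with h10 | h10
      · exact absurd h10 hdg
      · exact h10
    rw [h8, sub_zero] at hlt
    exact hlt.le
  -- the point over `h0 z`
  have key : ∀ z : ℝ × ℝ, H (h0 z : E4 ⧸ LL) = (h z : E4 ⧸ LL) := by
    intro z
    obtain ⟨q, hq, hqz⟩ : ∃ q : E4, (q : E4 ⧸ LL) = H (h0 z : E4 ⧸ LL) ∧ ‖q - h0 z‖ ≤ 1 / 100 := by
      obtain ⟨q', hq'⟩ := QuotientAddGroup.mk_surjective (H (h0 z : E4 ⧸ LL))
      have h2 := (hconj' z).2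
      rw [← hq'] at h2
      obtain ⟨ℓ, hℓ, hlt⟩ := exists_of_dist
        (lt_of_le_of_lt h2 (show (1 : ℝ) / 200 < 1 / 100 by norm_num))
      refine ⟨q' - ℓ, ?_, ?_⟩
      · rw [← hq', sub_eq_add_neg]
        exact mkq_add_mem (LL.neg_mem hℓ)
      · have : q' - ℓ - h0 z = q' - h0 z - ℓ := by abel
        rw [this]
        exact hlt.le
    have hfor : ∀ n : ℕ, (g.lift^[n] q : E4 ⧸ LL) = H (h0 (lam ^ n * z.1, z.2 / lam ^ n) : E4 ⧸ LL) ∧
        ‖g.lift^[n] q - h0 (lam ^ n * z.1, z.2 / lam ^ n)‖ ≤ 1 / 100 := by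
      intro n
      induction n with
      | zero =>
        rw [pow_zero, one_mul, div_one]
        exact ⟨hq, hqz⟩
      | succ n ih =>
        have := hstep _ _ ih.1 ih.2
        rw [Function.iterate_succ_apply']
        have e : ((lam ^ (n + 1) * z.1, z.2 / lam ^ (n + 1)) : ℝ × ℝ) =
            (lam * (lam ^ n * z.1), z.2 / lam ^ n / lam) := by
          ext
          · show lam ^ (n + 1) * z.1 = lam * (lam ^ n * z.1)
            ring
          · show z.2 / lam ^ (n + 1) = z.2 / lam ^ n / lam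
            rw [pow_succ]
            field_simp
        rw [e]
        exact this
    have hbk : ∀ n : ℕ, (g.lift.symm^[n] q : E4 ⧸ LL) =
        H (h0 (z.1 / lam ^ n, lam ^ n * z.2) : E4 ⧸ LL) ∧
        ‖g.lift.symm^[n] q - h0 (z.1 / lam ^ n, lam ^ n * z.2)‖ ≤ 1 / 100 := by
      intro n
      induction n with
      | zero =>
        rw [pow_zero, one_mul, div_one]
        exact ⟨hq, hqz⟩
      | succ n ih =>
        have := hback _ _ ih.1 ih.2
        rw [Function.iterate_succ_apply']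
        have e : ((z.1 / lam ^ (n + 1), lam ^ (n + 1) * z.2) : ℝ × ℝ) =
            (z.1 / lam ^ n / lam, lam * (lam ^ n * z.2)) := by
          ext
          · show z.1 / lam ^ (n + 1) = z.1 / lam ^ n / lam
            rw [pow_succ]
            field_simp
          · show lam ^ (n + 1) * z.2 = lam * (lam ^ n * z.2)
            ring
        rw [e]
        exact this
    have := shadow_unique F g hF hg h hh z q (fun n => (hfor n).2.trans (by norm_num))
      (fun n => (hbk n).2.trans (by norm_num))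
    rw [← hq, this]
  rw [← himg]
  ext x
  constructor
  · rintro ⟨_, ⟨z, rfl⟩, rfl⟩
    exact ⟨z, (key z).symm⟩
  · rintro ⟨z, rfl⟩
    exact ⟨_, ⟨z, rfl⟩, key z⟩

theorem fix_set_exists (w : E4) (hw : gP g w = w) (hw' : ‖w‖ ≤ 1 / 1000) :
    IsContinuation (1 / 200) F g {((PP : E4) : E4 ⧸ LL)} {((PP + w : E4) : E4 ⧸ LL)} := by
  refine ⟨fun _ => ((PP + w : E4) : E4 ⧸ LL), continuousOn_const, ?_, ?_, ?_⟩
  · intro a ha b hb _
    rw [Set.mem_singleton_iff] at ha hb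
    rw [ha, hb]
  · simp
  · intro x hx
    rw [Set.mem_singleton_iff] at hx
    subst hx
    constructor
    · have h1 : g.lift (PP + w) = (PP + w) + lP := by
        have : g.lift (PP + w) - PP - lP = w := hw
        have h2 : g.lift (PP + w) = w + lP + PP := by
          have h3 : g.lift (PP + w) = (g.lift (PP + w) - PP - lP) + lP + PP := by abel
          rw [this] at h3
          exact h3
        rw [h2]
        abel
      rw [mapq_mk, h1, mkq_add_mem lP_mem]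
    · refine (dist_le _ _).trans ?_
      have : PP + w - PP = w := by abel
      rw [this]
      exact hw'.trans (by norm_num)

theorem fix_set_unique (w : E4) (hw : gP g w = w) (hw' : ‖w‖ ≤ 1 / 1000) (L : Set (E4 ⧸ LL))
    (hL : IsContinuation (1 / 200) F g {((PP : E4) : E4 ⧸ LL)} L) :
    L = {((PP + w : E4) : E4 ⧸ LL)} := by
  obtain ⟨H, -, -, himg, hconj⟩ := hL
  have hdl : dl = 1 / 100000 := rfl
  obtain ⟨h1, h2⟩ := hconj _ (Set.mem_singleton _)
  have hFP : F.lift PP = PP + lP := by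
    have := hF.nearP 0 (by simp) (by simp) (by simp) (by simp)
    simpa using this
  rw [mapq_mk, hFP, mkq_add_mem lP_mem] at h1
  have key : H ((PP : E4) : E4 ⧸ LL) = ((PP + w : E4) : E4 ⧸ LL) := by
    obtain ⟨q', hq'⟩ := QuotientAddGroup.mk_surjective (H ((PP : E4) : E4 ⧸ LL))
    rw [← hq'] at h1 h2 ⊢
    obtain ⟨ℓ, hℓ, hlt⟩ := exists_of_dist
      (lt_of_le_of_lt h2 (show (1 : ℝ) / 200 < 1 / 150 by norm_num))
    set v : E4 := q' - PP - ℓ with hv
    have hq : (q' : E4 ⧸ LL) = ((PP + v : E4) : E4 ⧸ LL) := by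
      have e : q' = PP + v + ℓ := by rw [hv]; abel
      conv_lhs => rw [e]
      exact mkq_add_mem hℓ
    rw [hq, mapq_mk] at h1
    rw [hq]
    have hvB : v ∈ BP := mem_BP_of hlt.le
    have hwB : w ∈ BP := mem_BP_of (hw'.trans (by norm_num))
    have hmem := mkq_eq_iff.mp h1.symm
    set m : E4 := g.lift (PP + v) - (PP + v) with hm
    have hgv : gP g v = v + (m - lP) := by
      rw [gP_apply, hm]
      abel
    have h3 := approxP F g hF hg v hvB
    have h4 : ‖LM (JJ v)‖ ≤ 17.945 * (1 / 150) :=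
      (LM_norm_le _).trans (mul_le_mul_of_nonneg_left ((JJ_norm_le v).trans hlt.le) (by norm_num))
    have h5 : m - lP = 0 := by
      by_contra hne
      have h6 := LL_norm _ (LL.sub_mem hmem lP_mem) hne
      have e : m - lP = (gP g v - LM (JJ v)) + LM (JJ v) - v := by
        rw [hgv]
        abel
      have h7 : ‖m - lP‖ ≤ ‖gP g v - LM (JJ v)‖ + ‖LM (JJ v)‖ + ‖v‖ := by
        rw [e]
        refine (norm_sub_le _ _).trans ?_
        gcongr
        exact norm_add_le _ _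
      have h8 : (1 : ℝ) ≤ 1 / 100000 + 17.945 * (1 / 150) + 1 / 150 := by
        rw [hdl] at h3
        linarith
      norm_num at h8
    have hgv' : gP g v = v := by rw [hgv, h5, add_zero]
    have h6 := stepP F g hF hg v w hvB hwB
    rw [hgv', hw] at h6
    have h7 := fix_aux _ h6
    have : v = w := sub_eq_zero.mp h7
    rw [this]
  rw [← himg, Set.image_singleton, key]

end

end Pool.Agent.MP_6961e8
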