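import Pool.Agent.MP_6961e8.NUM
import Pool.Agent.MP_6961e8.TW
import Pool.Agent.MP_6961e8.STEP
import Pool.Agent.MP_6961e8.LIN
import Pool.Agent.MP_6961e8.CONT
import Pool.Agent.MP_6961e8.CAT
import Pool.Agent.MP_6961e8.HYP
import Pool.Agent.MP_6961e8.TRAP
import Pool.Agent.MP_6961e8.T1
import Pool.Agent.MP_6961e8.T2B
import Pool.Agent.MP_6961e8.UNIQ

/-! Final assembly. -/

open Filter Topology Set

namespace Pool.Agent.MP_6961e8
namespace ASM

theorem map_mk (g : TorusDiffeo LL) (p : E4) :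
    g.map (p : E4 ⧸ LL) = (g.lift p : E4 ⧸ LL) := rfl

theorem mk_eq {a b : E4} (h : b - a ∈ LL) : (a : E4 ⧸ LL) = (b : E4 ⧸ LL) := by
  rw [QuotientAddGroup.eq, neg_add_eq_sub]
  exact h

theorem map_P (g : TorusDiffeo LL) (v : E4) :
    g.map ((PP + v : E4) : E4 ⧸ LL) = ((PP + gP g v : E4) : E4 ⧸ LL) := by
  rw [map_mk]
  apply mk_eq
  have : PP + gP g v - g.lift (PP + v) = -lP := by
    show PP + (g.lift (PP + v) - PP - lP) - g.lift (PP + v) = -lP
    abel
  rw [this]
  exact LL.neg_mem lP_mem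

theorem map_Q (g : TorusDiffeo LL) (v : E4) :
    g.map ((PP + v : E4) : E4 ⧸ LL) = ((gQ g v : E4) : E4 ⧸ LL) := by
  rw [map_mk]
  apply mk_eq
  have : gQ g v - g.lift (PP + v) = -lQ := by
    show (g.lift (PP + v) - lQ) - g.lift (PP + v) = -lQ
    abel
  rw [this]
  exact LL.neg_mem lQ_mem

theorem map_R (g : TorusDiffeo LL) (p : E4) :
    g.map (p : E4 ⧸ LL) = ((PP + gR g p : E4) : E4 ⧸ LL) := by
  rw [map_mk]
  apply mk_eq
  have : PP + gR g p - g.lift p = -lR := by
    show PP + (g.lift p - PP - lR) - g.lift p = -lR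
    abel
  rw [this]
  exact LL.neg_mem lR_mem

end ASM

section
variable (F g : TorusDiffeo LL) (hF : IsModel F) (hg : C1Close dl F g)
include hF hg

theorem ASM.finrank_stable (p : E4) :
    Module.finrank ℝ (stableSpace g (g.lift p)) = Module.finrank ℝ (stableSpace g p) := by
  have hd := LINaux.lift_diff g
  have hds := LINaux.symm_diff g
  let e : E4 ≃ₗ[ℝ] E4 :=
    { toFun := fun w => fderiv ℝ g.lift p w
      invFun := fun w => fderiv ℝ g.lift.symm (g.lift p) w
      map_add' := by intro a b; simp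
      map_smul' := by intro c a; simp
      left_inv := by
        intro w
        have h := fderiv_comp p (hds (g.lift p)) (hd p)
        have hid : g.lift.symm ∘ g.lift = id := by ext x; simp
        rw [hid, fderiv_id] at h
        have := congrArg (fun L : E4 →L[ℝ] E4 => L w) h
        simpa using this.symm
      right_inv := by
        intro w
        have h := fderiv_comp (g.lift p) (hd (g.lift.symm (g.lift p))) (hds (g.lift p))
        have hid : g.lift ∘ g.lift.symm = id := by ext x; simp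
        rw [hid, fderiv_id, Equiv.symm_apply_apply] at h
        have := congrArg (fun L : E4 →L[ℝ] E4 => L w) h
        simpa using this.symm }
  have hmap : stableSpace g (g.lift p) = (stableSpace g p).map (e : E4 →ₗ[ℝ] E4) := by
    ext w
    rw [Submodule.mem_map]
    constructor
    · intro hw
      refine ⟨e.symm w, ?_, by simp⟩
      rw [← stable_iff F g hF hg p]
      have : fderiv ℝ g.lift p (e.symm w) = w := e.apply_symm_apply w
      rw [this]
      exact hw
    · rintro ⟨w', hw', rfl⟩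
      exact (stable_iff F g hF hg p w').mpr hw'
  rw [hmap]
  exact LinearEquiv.finrank_map_eq e _

theorem cycle (h : ℝ × ℝ → E4) (hh : IsCont g h) (w : E4) (hw : gP g w = w)
    (hw' : ‖w‖ ≤ 1 / 1000) :
    HasNonTransverseCycle g (Kset h) {((PP + w : E4) : E4 ⧸ LL)} 2 1 := by
  have hKinv := K_inv F g hF hg h hh
  have hPinv : g.map '' {((PP + w : E4) : E4 ⧸ LL)} = {((PP + w : E4) : E4 ⧸ LL)} := by
    rw [image_singleton, ASM.map_P, hw]
  -- type one
  obtain ⟨p, hp1, hp2⟩ := type_one F g hF hg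
  have h1 : (unstableSet g (Kset h) ∩ stableSet g {((PP + w : E4) : E4 ⧸ LL)}).Nonempty := by
    refine ⟨(p : E4 ⧸ LL), trap_U0_backward F g hF hg h hh p hp1, ?_⟩
    rw [← stableSet_map_iff F g hF hg _ _ hPinv, ← stableSet_map_iff F g hF hg _ _ hPinv,
      ASM.map_R, ASM.map_P]
    apply trap_P_forward F g hF hg w hw hw'
    intro n
    rw [← Function.iterate_succ_apply]
    exact hp2 n
  -- type two
  obtain ⟨v, hv1, hv2, hv3⟩ := type_two F g hF hg
  have hvu : ((PP + v : E4) : E4 ⧸ LL) ∈ unstableSet g {((PP + w : E4) : E4 ⧸ LL)} := by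
    have : ((PP + v : E4) : E4 ⧸ LL) = g.map ((PP + (gP g).symm v : E4) : E4 ⧸ LL) := by
      rw [ASM.map_P, Equiv.apply_symm_apply]
    rw [this, unstableSet_map_iff F g hF hg _ _ hPinv]
    apply trap_P_backward F g hF hg w hw hw'
    intro n
    rw [← Function.iterate_succ_apply]
    exact hv1 n
  have hvs : ((PP + v : E4) : E4 ⧸ LL) ∈ stableSet g (Kset h) := by
    rw [← stableSet_map_iff F g hF hg _ _ hKinv, ASM.map_Q]
    exact trap_U0_forward F g hF hg h hh _ hv2
  refine ⟨by norm_num, K_hyp F g hF hg h hh, fix_hyp F g hF hg w hw hw', h1,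
    ⟨_, hvu, hvs⟩, Or.inr ⟨PP + v, ⟨hvu, hvs⟩, ?_⟩⟩
  rw [inf_eq_right.mpr hv3]
  have hfin := (stable_U0 F g hF hg (gQ g v) hv2).1
  have hq : gQ g v + lQ = g.lift (PP + v) := by
    show g.lift (PP + v) - lQ + lQ = _
    abel
  rw [← stable_per F g hF hg (gQ g v) lQ lQ_mem, hq, ASM.finrank_stable F g hF hg] at hfin
  rw [hfin]
  norm_num

end

theorem ASM.cont_h0 {F : TorusDiffeo LL} (hF : IsModel F) : IsCont F h0 where
  cont := by
    unfold h0
    fun_prop
  close := by
    intro z
    rw [sub_self, norm_zero]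
    norm_num
  conj := by
    intro z
    rw [hF.u0 (h0 z) (by simp [h0]) (by simp [h0])]
    ext i
    rw [LM_apply]
    fin_cases i <;> simp [h0, dg]
    ring
  per := by
    intro z ℓ _ h2 h3
    ext i
    fin_cases i <;> simp [h0, h2, h3]

theorem ASM.fix_zero {F : TorusDiffeo LL} (hF : IsModel F) : gP F 0 = 0 := by
  show F.lift (PP + 0) - PP - lP = 0
  rw [hF.nearP 0 (by simp) (by simp) (by simp) (by simp)]
  simp

theorem main : ∃ F : TorusDiffeo LL, HasRobustNonTransverseCycle F := by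
  obtain ⟨F, hF⟩ := exists_model
  refine ⟨F, Kset h0, {((PP : E4) : E4 ⧸ LL)}, 2, 1, 1 / 200, by norm_num, dl,
    by unfold dl; norm_num, ?_, ?_⟩
  · have hFF : C1Close dl F F := by
      intro p
      rw [sub_self, sub_self, norm_zero, norm_zero]
      have : 0 < dl := by unfold dl; norm_num
      exact ⟨this, this⟩
    have := cycle F F hF hFF h0 (ASM.cont_h0 hF) 0 (ASM.fix_zero hF) (by simp)
    rwa [add_zero] at this
  · intro g hg
    obtain ⟨h, hh⟩ := exists_cont F g hF hg
    obtain ⟨w, hw, hw'⟩ := exists_fix F g hF hg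
    refine ⟨⟨_, cont_set_exists F g hF hg h hh⟩, ⟨_, fix_set_exists F g hF hg w hw hw'⟩, ?_⟩
    intro L L' hL hL'
    rw [cont_set_unique F g hF hg h hh L hL, fix_set_unique F g hF hg w hw hw' L' hL']
    exact cycle F g hF hg h hh w hw hw'

end Pool.Agent.MP_6961e8
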