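import Mathlib

/-!
Definitions for the problem on `C^1`-robust non-transverse heterodimensional cycles.

The closed manifolds used are flat tori `ℝ^d ⧸ 𝓛`, with `𝓛` a lattice.  A `C^1` diffeomorphism
of such a torus is given through a lift to `ℝ^d`; the tangent bundle is trivial, so tangent
vectors are vectors of `ℝ^d` and the derivative at the class of `p` is the derivative of the
lift at `p`.
-/

open Filter Topology

namespace Pool.Agent.MP_6961e8

/-- `𝓛` is a lattice in `ℝ^d` (discrete and spanning): then `ℝ^d ⧸ 𝓛` is a closed manifold. -/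
def IsLattice {d : ℕ} (𝓛 : AddSubgroup (Fin d → ℝ)) : Prop :=
  DiscreteTopology 𝓛 ∧ Submodule.span ℝ (𝓛 : Set (Fin d → ℝ)) = ⊤

/-- A `C^1` diffeomorphism of the torus `ℝ^d ⧸ 𝓛`, given by a lift to `ℝ^d`. -/
structure TorusDiffeo {d : ℕ} (𝓛 : AddSubgroup (Fin d → ℝ)) where
  /-- the lift -/
  lift : (Fin d → ℝ) ≃ (Fin d → ℝ)
  contDiff_lift : ContDiff ℝ 1 lift
  contDiff_symm : ContDiff ℝ 1 lift.symm
  lift_add : ∀ p, ∀ ℓ ∈ 𝓛, lift (p + ℓ) - lift p ∈ 𝓛
  symm_add : ∀ p, ∀ ℓ ∈ 𝓛, lift.symm (p + ℓ) - lift.symm p ∈ 𝓛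

variable {d : ℕ} {𝓛 : AddSubgroup (Fin d → ℝ)}

theorem quot_rel_of {F : (Fin d → ℝ) → (Fin d → ℝ)}
    (h : ∀ p, ∀ ℓ ∈ 𝓛, F (p + ℓ) - F p ∈ 𝓛) :
    ∀ a b : Fin d → ℝ, (QuotientAddGroup.leftRel 𝓛) a b → (QuotientAddGroup.leftRel 𝓛) (F a) (F b) := by
  intro a b hab
  rw [QuotientAddGroup.leftRel_apply] at hab ⊢
  have := h a _ hab
  rw [add_neg_cancel_left] at this
  rwa [neg_add_eq_sub]

/-- The induced bijection of the torus. -/
def TorusDiffeo.map (g : TorusDiffeo 𝓛) : ((Fin d → ℝ) ⧸ 𝓛) ≃ ((Fin d → ℝ) ⧸ 𝓛) where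
  toFun := Quotient.map' g.lift (quot_rel_of g.lift_add)
  invFun := Quotient.map' g.lift.symm (quot_rel_of g.symm_add)
  left_inv := by
    intro a
    induction a using Quotient.inductionOn'
    simp
  right_inv := by
    intro a
    induction a using Quotient.inductionOn'
    simp

/-- Vectors contracted to `0` by the forward derivative cocycle at `p`.  At a point of the stable
manifold of a hyperbolic set this is the tangent space of the stable manifold. -/
noncomputable def stableSpace (g : TorusDiffeo 𝓛) (p : Fin d → ℝ) : Submodule ℝ (Fin d → ℝ) where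
  carrier := {v | Tendsto (fun n : ℕ => fderiv ℝ (g.lift^[n]) p v) atTop (𝓝 0)}
  add_mem' := by
    intro a b ha hb
    have := Tendsto.add ha hb
    simpa using this
  zero_mem' := by simp
  smul_mem' := by
    intro c a ha
    have := Tendsto.const_smul ha c
    simpa using this

/-- Vectors contracted to `0` by the backward derivative cocycle at `p`.  At a point of the
unstable manifold of a hyperbolic set this is the tangent space of the unstable manifold. -/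
noncomputable def unstableSpace (g : TorusDiffeo 𝓛) (p : Fin d → ℝ) : Submodule ℝ (Fin d → ℝ) where
  carrier := {v | Tendsto (fun n : ℕ => fderiv ℝ (g.lift.symm^[n]) p v) atTop (𝓝 0)}
  add_mem' := by
    intro a b ha hb
    have := Tendsto.add ha hb
    simpa using this
  zero_mem' := by simp
  smul_mem' := by
    intro c a ha
    have := Tendsto.const_smul ha c
    simpa using this

/-- `K` is a (nonempty, compact, invariant) hyperbolic set of `g` with stable bundle of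
dimension `i` (index `i`). -/
def IsHyperbolicSet (g : TorusDiffeo 𝓛) (K : Set ((Fin d → ℝ) ⧸ 𝓛)) (i : ℕ) : Prop :=
  IsCompact K ∧ K.Nonempty ∧ g.map '' K = K ∧
  ∃ (Es Eu : (Fin d → ℝ) → Submodule ℝ (Fin d → ℝ)) (C σ : ℝ), 0 < C ∧ 0 < σ ∧ σ < 1 ∧
    (∀ p, ∀ ℓ ∈ 𝓛, Es (p + ℓ) = Es p ∧ Eu (p + ℓ) = Eu p) ∧
    ∀ p : Fin d → ℝ, (p : (Fin d → ℝ) ⧸ 𝓛) ∈ K →
      IsCompl (Es p) (Eu p) ∧ Module.finrank ℝ (Es p) = i ∧
      (Es p).map (fderiv ℝ g.lift p).toLinearMap = Es (g.lift p) ∧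
      (Eu p).map (fderiv ℝ g.lift p).toLinearMap = Eu (g.lift p) ∧
      (∀ n : ℕ, ∀ v ∈ Es p, ‖fderiv ℝ (g.lift^[n]) p v‖ ≤ C * σ ^ n * ‖v‖) ∧
      (∀ n : ℕ, ∀ v ∈ Eu p, ‖fderiv ℝ (g.lift.symm^[n]) p v‖ ≤ C * σ ^ n * ‖v‖)

/-- `K` contains a dense (forward) orbit. -/
def IsTransitiveSet (g : TorusDiffeo 𝓛) (K : Set ((Fin d → ℝ) ⧸ 𝓛)) : Prop :=
  ∃ x ∈ K, K ⊆ closure (Set.range fun n : ℕ => g.map^[n] x)

/-- Transitive hyperbolic set of index `i`. -/
def IsTransHyp (g : TorusDiffeo 𝓛) (K : Set ((Fin d → ℝ) ⧸ 𝓛)) (i : ℕ) : Prop :=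
  IsHyperbolicSet g K i ∧ IsTransitiveSet g K

/-- The stable set `W^s(K)`. -/
def stableSet (g : TorusDiffeo 𝓛) (K : Set ((Fin d → ℝ) ⧸ 𝓛)) : Set ((Fin d → ℝ) ⧸ 𝓛) :=
  {a | ∃ z ∈ K, Tendsto (fun n : ℕ => dist (g.map^[n] a) (g.map^[n] z)) atTop (𝓝 0)}

/-- The unstable set `W^u(K)`. -/
def unstableSet (g : TorusDiffeo 𝓛) (K : Set ((Fin d → ℝ) ⧸ 𝓛)) : Set ((Fin d → ℝ) ⧸ 𝓛) :=
  {a | ∃ z ∈ K, Tendsto (fun n : ℕ => dist (g.map.symm^[n] a) (g.map.symm^[n] z)) atTop (𝓝 0)}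

/-- There is a tangency between `W^u(K)`, of dimension `d - i`, and `W^s(K')`, of dimension `j`:
at some common point the two tangent spaces meet in dimension greater than
`max 0 ((d - i) + j - d)` (the subtraction of natural numbers is truncated at `0`). -/
def HasTangency (g : TorusDiffeo 𝓛) (K K' : Set ((Fin d → ℝ) ⧸ 𝓛)) (i j : ℕ) : Prop :=
  ∃ p : Fin d → ℝ, (p : (Fin d → ℝ) ⧸ 𝓛) ∈ unstableSet g K ∩ stableSet g K' ∧
    (d - i) + j - d < Module.finrank ℝ ↥(unstableSpace g p ⊓ stableSpace g p)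

/-- Non-transverse heterodimensional cycle associated with `K`, `K'` of indices `i ≠ j`. -/
def HasNonTransverseCycle (g : TorusDiffeo 𝓛) (K K' : Set ((Fin d → ℝ) ⧸ 𝓛)) (i j : ℕ) : Prop :=
  i ≠ j ∧ IsTransHyp g K i ∧ IsTransHyp g K' j ∧
    (unstableSet g K ∩ stableSet g K').Nonempty ∧ (unstableSet g K' ∩ stableSet g K).Nonempty ∧
    (HasTangency g K K' i j ∨ HasTangency g K' K j i)

/-- `g` is `ε`-close to `f` in the `C^1` topology. -/
def C1Close (ε : ℝ) (f g : TorusDiffeo 𝓛) : Prop :=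
  ∀ p, ‖g.lift p - f.lift p‖ < ε ∧ ‖fderiv ℝ g.lift p - fderiv ℝ f.lift p‖ < ε

/-- `K'` is the continuation of `K`: the image of `K` under a continuous injective map
`η`-close to the inclusion and conjugating `f` to `g`. -/
def IsContinuation (η : ℝ) (f g : TorusDiffeo 𝓛) (K K' : Set ((Fin d → ℝ) ⧸ 𝓛)) : Prop :=
  ∃ h : ((Fin d → ℝ) ⧸ 𝓛) → ((Fin d → ℝ) ⧸ 𝓛), ContinuousOn h K ∧ Set.InjOn h K ∧ h '' K = K' ∧
    ∀ x ∈ K, g.map (h x) = h (f.map x) ∧ dist (h x) x ≤ η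

/-- `f` has a `C^1`-robust non-transverse heterodimensional cycle: there are hyperbolic sets
`K`, `K'` of `f` such that for every `g` in a `C^1`-neighbourhood of `f` the continuations of
`K` and `K'` exist and have a non-transverse heterodimensional cycle (in particular `f` itself
has one, associated with `K` and `K'`). -/
def HasRobustNonTransverseCycle (f : TorusDiffeo 𝓛) : Prop :=
  ∃ (K K' : Set ((Fin d → ℝ) ⧸ 𝓛)) (i j : ℕ), ∃ η > 0, ∃ ε > 0, HasNonTransverseCycle f K K' i j ∧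
    ∀ g : TorusDiffeo 𝓛, C1Close ε f g →
      (∃ L, IsContinuation η f g K L) ∧ (∃ L', IsContinuation η f g K' L') ∧
      ∀ L L', IsContinuation η f g K L → IsContinuation η f g K' L' →
        HasNonTransverseCycle g L L' i j

end Pool.Agent.MP_6961e8
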