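import Pool.Agent.MP_6961e8.Defs

/-!
Concrete objects.  Coordinates of `E4 = Fin 4 → ℝ`: `0 = x`, `1 = y`, `2 = s`, `3 = u`.
-/

open Filter Topology

namespace Pool.Agent.MP_6961e8

abbrev E4 := Fin 4 → ℝ

/-- golden ratio and its conjugate -/
noncomputable def ph : ℝ := Real.goldenRatio
noncomputable def ps : ℝ := Real.goldenConj
noncomputable def lam : ℝ := ph ^ 2
noncomputable def Lam : ℝ := ph ^ 6
noncomputable def kap : ℝ := 1 / 2 - ps ^ 2
/-- the size of the perturbations -/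
noncomputable def dl : ℝ := 1 / 100000

noncomputable def dg : Fin 4 → ℝ := ![lam, 1 / lam, 1 / Lam, Lam]

/-- The linear map `diag(lam, 1/lam, 1/Lam, Lam)`. -/
noncomputable def LM : E4 →L[ℝ] E4 :=
  ContinuousLinearMap.pi fun i => dg i • ContinuousLinearMap.proj i

/-- The rotation `(x, y, s, u) ↦ (x, -u, s, y)`. -/
noncomputable def JJ : E4 →L[ℝ] E4 :=
  ContinuousLinearMap.pi ![ContinuousLinearMap.proj 0, -ContinuousLinearMap.proj 3,
    ContinuousLinearMap.proj 2, ContinuousLinearMap.proj 1]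

theorem LM_apply (v : E4) (i : Fin 4) : LM v i = dg i * v i := by
  simp [LM]

theorem JJ_apply (v : E4) : JJ v = ![v 0, -v 3, v 2, v 1] := by
  ext i
  fin_cases i <;> simp [JJ]

/-- The lattice `{(a, a', b', b) : a, b ∈ ℤ[φ]}`. -/
def LL : AddSubgroup E4 where
  carrier := {p | ∃ m n k l : ℤ, p = ![m + n * ph, m + n * ps, k + l * ps, k + l * ph]}
  add_mem' := by
    rintro _ _ ⟨m, n, k, l, rfl⟩ ⟨m', n', k', l', rfl⟩
    refine ⟨m + m', n + n', k + k', l + l', ?_⟩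
    ext i
    fin_cases i <;> simp <;> ring
  zero_mem' := ⟨0, 0, 0, 0, by ext i; fin_cases i <;> simp⟩
  neg_mem' := by
    rintro _ ⟨m, n, k, l, rfl⟩
    refine ⟨-m, -n, -k, -l, ?_⟩
    ext i
    fin_cases i <;> simp <;> ring

noncomputable def e2 : E4 := ![0, 0, 1, 0]
noncomputable def e3 : E4 := ![0, 0, 0, 1]
noncomputable def PP : E4 := ![0, 0, 1 / 2, 1 / 2]
noncomputable def lP : E4 := ![0, 0, 2 + 4 * ps, 2 + 4 * ph]
noncomputable def lQ : E4 := ![0, 0, 3 + 5 * ps, 3 + 5 * ph]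
noncomputable def lR : E4 := ![0, 0, ps, ph]

/-- the half-size of the twist region -/
noncomputable def rho : ℝ := 1 / 400

/-- angle of the twist around the point `Q` -/
noncomputable def aQ (v : E4) : ℝ :=
  Real.pi * Real.smoothTransition ((3 * rho ^ 2 - (v 0 ^ 2 + v 1 ^ 2 + v 2 ^ 2)) / rho ^ 2) *
    Real.smoothTransition ((1 / 10000 - v 3 ^ 2) / (3 / 40000))

/-- the twist in the `(x, s)`-plane -/
noncomputable def TQ (v : E4) : E4 :=
  ![Real.cos (aQ v) * v 0 - Real.sin (aQ v) * v 2, v 1,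
    Real.sin (aQ v) * v 0 + Real.cos (aQ v) * v 2, v 3]

/-- angle of the twist around the point `P` -/
noncomputable def aP (v : E4) : ℝ :=
  Real.pi / 2 * Real.smoothTransition
    ((23 / 2000 - (v 0 ^ 2 + v 1 ^ 2 + v 2 ^ 2 + v 3 ^ 2)) / (3 / 1000))

/-- the twist in the `(y, u)`-plane -/
noncomputable def TP (v : E4) : E4 :=
  ![v 0, Real.cos (aP v) * v 1 - Real.sin (aP v) * v 3, v 2,
    Real.sin (aP v) * v 1 + Real.cos (aP v) * v 3]

/-- Properties of the diffeomorphism. -/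
structure IsModel (F : TorusDiffeo LL) : Prop where
  per : ∀ p, ∀ ℓ ∈ LL, F.lift (p + ℓ) = F.lift p + LM ℓ
  u0 : ∀ p : E4, |p 2| ≤ 1 / 6 → |p 3| ≤ 1 / 6 → F.lift p = LM p
  nearP : ∀ v : E4, |v 0| ≤ 1 / 19 → lam ^ 2 * |v 1| ≤ 1 / 19 → |v 2| ≤ 1 / 19 →
    |v 3| ≤ 1 / 19 → F.lift (PP + v) = PP + lP + LM (JJ v)
  nearQ : ∀ v : E4, (∀ i, |v i| ≤ 3 / 400) →
    F.lift (PP + kap • e3 + v) = lQ + kap • e2 + LM (TQ v)
  nearR : ∀ v : E4, (∀ i, |v i| ≤ 1 / 100) →
    F.lift (PP + kap • e2 + v) = PP + lP + (kap / Lam) • e2 + LM v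

/-- The neighbourhood of the invariant torus. -/
def U0 : Set E4 := {p | |p 2| ≤ 1 / 8 ∧ |p 3| ≤ 1 / 8}

/-- The neighbourhood of the fixed point, in the chart centred at `PP`. -/
def BP : Set E4 := {v | |v 0| ≤ 1 / 20 ∧ lam ^ 2 * |v 1| ≤ 1 / 20 ∧ |v 2| ≤ 1 / 20 ∧ |v 3| ≤ 1 / 20}

/-- expanding norm in the chart at `PP` -/
noncomputable def eN (w : E4) : ℝ := max |w 0| (max (lam ^ 2 * |w 1|) |w 3|)

variable (g : TorusDiffeo LL)

/-- `g` in the chart centred at `PP`. -/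
noncomputable def gP : E4 ≃ E4 where
  toFun v := g.lift (PP + v) - PP - lP
  invFun v := g.lift.symm (v + PP + lP) - PP
  left_inv v := by
    have h : g.lift (PP + v) - PP - lP + PP + lP = g.lift (PP + v) := by abel
    show g.lift.symm (g.lift (PP + v) - PP - lP + PP + lP) - PP = v
    rw [h]
    simp
  right_inv v := by
    have h : PP + (g.lift.symm (v + PP + lP) - PP) = g.lift.symm (v + PP + lP) := by abel
    show g.lift (PP + (g.lift.symm (v + PP + lP) - PP)) - PP - lP = v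
    rw [h, Equiv.apply_symm_apply]
    abel

/-- transition from the chart at `PP` to the chart at `0` -/
noncomputable def gQ (v : E4) : E4 := g.lift (PP + v) - lQ

/-- transition from the chart at `0` to the chart at `PP` -/
noncomputable def gR (p : E4) : E4 := g.lift p - PP - lR

/-- The subset of the torus parametrised by `h : ℝ² → E4`. -/
def Kset (h : ℝ × ℝ → E4) : Set (E4 ⧸ LL) := Set.range fun z => (h z : E4 ⧸ LL)

/-- standard embedding of the plane -/
noncomputable def h0 (z : ℝ × ℝ) : E4 := ![z.1, z.2, 0, 0]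

/-- `h` parametrises the continuation of the invariant torus. -/
structure IsCont (h : ℝ × ℝ → E4) : Prop where
  cont : Continuous h
  close : ∀ z, ‖h z - h0 z‖ ≤ 1 / 1000
  conj : ∀ z, g.lift (h z) = h (lam * z.1, z.2 / lam)
  per : ∀ z, ∀ ℓ ∈ LL, ℓ 2 = 0 → ℓ 3 = 0 → h (z.1 + ℓ 0, z.2 + ℓ 1) = h z + ℓ

end Pool.Agent.MP_6961e8
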